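import Mathlib

/-!
# The reduced group `C^*`-algebra and amenability
-/

namespace Pool.Agent.H496R3.ZS

open scoped Pointwise symmDiff

/-- The Hilbert space `ℓ²(G)`. -/
def L2 (G : Type) : Type := lp (fun _ : G => ℂ) 2

noncomputable instance L2.normed (G : Type) : NormedAddCommGroup (L2 G) :=
  lp.normedAddCommGroup (E := fun _ : G => ℂ) (p := 2)

noncomputable instance L2.inner (G : Type) : InnerProductSpace ℂ (L2 G) :=
  lp.instInnerProductSpace (𝕜 := ℂ) (G := fun _ : G => ℂ)

/-- Left translation `f ↦ (h ↦ f (g⁻¹ h))`, an isometry of `ℓ²(G)`. -/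
noncomputable def leftTrans {G : Type} [Group G] (g : G) : L2 G →ₗᵢ[ℂ] L2 G where
  toFun := fun f => ⟨fun h => f.1 (g⁻¹ * h), by
    have h1 := (lp.memℓp f).summable (by norm_num)
    refine memℓp_gen ?_
    exact ((Equiv.mulLeft g⁻¹).summable_iff (f := fun h => ‖f.1 h‖ ^ (2 : ENNReal).toReal)).2 h1⟩
  map_add' := fun _ _ => rfl
  map_smul' := fun _ _ => rfl
  norm_map' := fun f => by
    have h1 : (0 : ℝ) < (2 : ENNReal).toReal := by norm_num
    refine (lp.norm_eq_tsum_rpow h1 _).trans (Eq.trans ?_ (lp.norm_eq_tsum_rpow h1 _).symm)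
    congr 1
    exact (Equiv.mulLeft g⁻¹).tsum_eq (fun h => ‖f.1 h‖ ^ (2 : ENNReal).toReal)

/-- The bounded operators on `ℓ²(G)`. -/
def Bdd (G : Type) : Type := L2 G →L[ℂ] L2 G

noncomputable instance Bdd.ring (G : Type) : Ring (Bdd G) :=
  ContinuousLinearMap.ring (R := ℂ) (M := L2 G)

noncomputable instance Bdd.algebra (G : Type) : Algebra ℂ (Bdd G) :=
  ContinuousLinearMap.algebra (R := ℂ) (M := L2 G)

/-- The operator norm topology. -/
noncomputable instance Bdd.topology (G : Type) : TopologicalSpace (Bdd G) :=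
  ContinuousLinearMap.topologicalSpace (𝕜₁ := ℂ) (𝕜₂ := ℂ) (σ := RingHom.id ℂ) (E := L2 G)
    (F := L2 G)

instance Bdd.isSemitop (G : Type) : IsSemitopologicalSemiring (Bdd G) :=
  (inferInstance : IsSemitopologicalSemiring (L2 G →L[ℂ] L2 G))

/-- The left regular representation `λ` of `G` on `ℓ²(G)`. -/
noncomputable def regRep (G : Type) [Group G] : G →* Bdd G where
  toFun g := (leftTrans g).toContinuousLinearMap
  map_one' := by
    refine ContinuousLinearMap.ext fun f => ?_
    refine Subtype.ext (funext fun h => ?_)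
    change f.1 ((1 : G)⁻¹ * h) = f.1 h
    rw [inv_one, one_mul]
  map_mul' g h := by
    refine ContinuousLinearMap.ext fun f => ?_
    refine Subtype.ext (funext fun k => ?_)
    change f.1 ((g * h)⁻¹ * k) = f.1 (h⁻¹ * (g⁻¹ * k))
    rw [mul_inv_rev, mul_assoc]

set_option backward.isDefEq.respectTransparency false in
/-- The reduced group `C^*`-algebra `C_r^*(G)` as a subalgebra of the bounded operators on
`ℓ²(G)`: the operator norm closure of the image of the complex group ring `ℂ[G]` under the left
regular representation. -/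
noncomputable def redAlg (G : Type) [Group G] : Subalgebra ℂ (Bdd G) :=
  (MonoidAlgebra.lift ℂ _ G (regRep G)).range.topologicalClosure

/-- The reduced group `C^*`-algebra `C_r^*(G)`. -/
def RedCStar (G : Type) [Group G] : Type := redAlg G

noncomputable instance RedCStar.ring (G : Type) [Group G] : Ring (RedCStar G) :=
  (redAlg G).toRing

set_option backward.isDefEq.respectTransparency false in
/-- The canonical homomorphism from `G` to `C_r^*(G)`, `g ↦ λ_g`. -/
noncomputable def regHom (G : Type) [Group G] : G →* RedCStar G where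
  toFun g := ⟨regRep G g, Subalgebra.le_topologicalClosure _
    ⟨MonoidAlgebra.single g 1, by simp⟩⟩
  map_one' := Subtype.ext (map_one (regRep G))
  map_mul' g h := Subtype.ext (map_mul (regRep G) g h)

/-- Amenability of a (discrete) group, as the Følner condition: for every finite `S ⊆ H` and
`ε > 0` there is a nonempty finite `F ⊆ H` with `|s F △ F| ≤ ε |F|` for all `s ∈ S`. -/
def IsAmenable (H : Type) [Group H] : Prop :=
  ∀ (S : Finset H) (ε : ℝ), 0 < ε → ∃ F : Finset H, F.Nonempty ∧
    ∀ s ∈ S, (((s • (F : Set H)) ∆ (F : Set H)).ncard : ℝ) ≤ ε * F.card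

end Pool.Agent.H496R3.ZS
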