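import Pool.Agent.H79.LZ.H919R4_AS_Deriv

set_option autoImplicit false
set_option linter.unusedSectionVars false

open scoped Matrix ENNReal
open Filter Topology

namespace Pool.Agent.H919R4.AS

open Pool.Agent.H496R3.ZS (Ell IsAmenable)
open Pool.Agent.H919R4.ZS (FinRes eps eps_add eps_neg eps_sub eps_smul eps_zsmul eps_single eps_d
  exists_lift augm augm_single d_mul_d ee norm_ee ee_add ee_sub_one ee_int ee_eq_one exists_log
  toRed)

noncomputable section

variable {G : Type} [Group G] {Z : Type} [MulAction G Z]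

lemma pV_hat {n : ℕ} (x : Fin n → MonoidAlgebra ℤ G) (z : Fin n → (Z →₀ ℤ)) :
    pV (triv G Z) x (fun j => hat (z j)) = hat (∑ j, ringZ G Z (x j) (z j)) := by
  simp only [pV, LL_hat, hat_sum]

lemma tendsto_cofinite (v : Ell Z) : Filter.Tendsto (fun h => v h) Filter.cofinite (nhds 0) := by
  have h2 : 0 < (2 : ℝ≥0∞).toReal := by norm_num
  have ht := ((lp.memℓp v).summable h2).tendsto_cofinite_zero
  have ht2 : Filter.Tendsto (fun h => ‖v h‖) Filter.cofinite (nhds 0) := by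
    have h3 : (2 : ℝ≥0∞).toReal = ((2 : ℕ) : ℝ) := by norm_num
    simp only [h3, Real.rpow_natCast] at ht
    have h4 := ht.sqrt
    simpa [Real.sqrt_sq] using h4
  exact tendsto_zero_iff_norm_tendsto_zero.2 ht2

variable {C : Subgroup G}

/-- the base coset -/
def z0 (C : Subgroup G) : G ⧸ C := QuotientGroup.mk 1

lemma smul_z0 (h : G) : h • z0 C = QuotientGroup.mk h := by
  change (QuotientGroup.mk (h * 1) : G ⧸ C) = _
  rw [mul_one]

lemma exists_smul_z0 (z : G ⧸ C) : ∃ h : G, z = h • z0 C := by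
  obtain ⟨h, rfl⟩ := QuotientGroup.mk_surjective z
  exact ⟨h, (smul_z0 h).symm⟩

lemma pV_apply {n : ℕ} (x : Fin n → MonoidAlgebra ℤ G) (v : Fin n → Ell (G ⧸ C)) (h : G) :
    pV (triv G (G ⧸ C)) x v (h • z0 C) =
      pV (triv G (G ⧸ C)) ((MonoidAlgebra.single h⁻¹ 1 : MonoidAlgebra ℤ G) • x) v (z0 C) := by
  rw [pV_smul, LL_single_one, inv_inv]

/-- `H²(G; ℤ[G/C]) = 0` for an amenable subgroup `C` of infinite index -/
theorem H2 (X : FinRes G) (hV : ∀ m : Mult G (G ⧸ C), Van X m) (hG : Infinite (G ⧸ C))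
    (z : Fin (X.n 2) → (G ⧸ C →₀ ℤ)) (hz : cobdZ X (G ⧸ C) 2 z = 0) :
    ∃ y, cobdZ X (G ⧸ C) 1 y = z := by
  have hcob : ∀ (i : ℕ) (y : Fin (X.n i) → (G ⧸ C →₀ ℤ)),
      act ((X.d i).map (LL (triv G (G ⧸ C)))) (fun j => hat (y j)) =
        fun k => hat (cobdZ X (G ⧸ C) i y k) := fun i y => act_hat (X.d i) y
  -- the real `ℓ²` cochain `b` with coboundary `z`
  obtain ⟨b, hbr, hb⟩ : ∃ b : Fin (X.n 1) → Ell (G ⧸ C),
      (∀ i h, b i h = (((b i h).re : ℝ) : ℂ)) ∧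
      act ((X.d 1).map (LL (triv G (G ⧸ C)))) b = fun j => hat (z j) := by
    obtain ⟨b0, hb0⟩ := (hV (triv G (G ⧸ C))).h2 (fun j => hat (z j)) (by
      rw [hcob, hz]
      funext i
      exact hat_zero)
    refine ⟨fun i => reV (b0 i), ?_, ?_⟩
    · intro i h; simp [reV_apply]
    · rw [act_reV, hb0]
      funext j
      ext h
      rw [reV_apply, hat_apply]
      simp
  obtain ⟨x0, hx0⟩ := X.surj
  change eps X x0 = 1 at hx0
  set Φ : (Fin (X.n 1) → MonoidAlgebra ℤ G) → ℝ :=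
    fun x => (pV (triv G (G ⧸ C)) x b (z0 C)).re with hΦ
  have Φadd : ∀ x y, Φ (x + y) = Φ x + Φ y := by
    intro x y; simp only [hΦ, pV_add, lp.coeFn_add, Pi.add_apply, Complex.add_re]
  have Φneg : ∀ x, Φ (-x) = - Φ x := by
    intro x; simp only [hΦ, pV_neg, lp.coeFn_neg, Pi.neg_apply, Complex.neg_re]
  have Φsub : ∀ x y, Φ (x - y) = Φ x - Φ y := by
    intro x y; rw [sub_eq_add_neg, Φadd, Φneg, sub_eq_add_neg]
  have Φz : ∀ (m : ℤ) x, Φ (m • x) = m * Φ x := by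
    intro m x
    have := map_zsmul (⟨⟨Φ, by simpa using Φsub 0 0⟩, Φadd⟩ :
      (Fin (X.n 1) → MonoidAlgebra ℤ G) →+ ℝ) m x
    simpa using this
  have Φcong : ∀ x x', x ᵥ* X.d 0 = x' ᵥ* X.d 0 → ∃ n : ℤ, Φ x - Φ x' = n := by
    intro x x' h
    obtain ⟨y, hy⟩ : ∃ y : Fin (X.n 2) → MonoidAlgebra ℤ G, y ᵥ* X.d 1 = x - x' :=
      (X.exact_succ 0 (x - x')).1 (by rw [Matrix.sub_vecMul, h, sub_self])
    refine ⟨(∑ j, ringZ G (G ⧸ C) (y j) (z j)) (z0 C), ?_⟩
    have e3 : pV (triv G (G ⧸ C)) (x - x') b = hat (∑ j, ringZ G (G ⧸ C) (y j) (z j)) := by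
      rw [← hy, pV_vecMul, hb, pV_hat]
    rw [← Φsub]
    simp only [hΦ]
    rw [e3, hat_apply]
    simp
  -- paths from the base vertex
  have hγ : ∀ h : G, ∃ y, y ᵥ* X.d 0 = (MonoidAlgebra.single h⁻¹ 1 : MonoidAlgebra ℤ G) • x0 - x0 := by
    intro h
    apply exists_lift
    rw [eps_sub, eps_smul, augm_single, hx0]; norm_num
  choose γ hγ using hγ
  set F : G → ℝ := fun h => Φ (γ h) with hF
  have Fdiff : ∀ k h : G, ∃ n : ℤ,
      F (k⁻¹ * h) - F h = (pV (triv G (G ⧸ C)) (γ k⁻¹) b (h • z0 C)).re + n := by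
    intro k h
    obtain ⟨n, hn⟩ := Φcong (γ (k⁻¹ * h) - γ h)
      ((MonoidAlgebra.single h⁻¹ 1 : MonoidAlgebra ℤ G) • γ k⁻¹) (by
        rw [Matrix.sub_vecMul, hγ, hγ, Matrix.smul_vecMul, hγ, smul_sub, smul_smul,
          MonoidAlgebra.single_mul_single, mul_inv_rev, mul_one]
        abel)
    refine ⟨n, ?_⟩
    rw [pV_apply]
    rw [Φsub] at hn
    simp only [hΦ, hF] at hn ⊢
    linarith
  -- the multiplier
  have heeq : ∀ k h : G, ee (pV (triv G (G ⧸ C)) (γ k⁻¹) b (h • z0 C)).re =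
      ee (F (k⁻¹ * h) - F h) := by
    intro k h
    obtain ⟨n, hn⟩ := Fdiff k h
    rw [hn, ee_add, ee_int, mul_one]
  let m : Mult G (G ⧸ C) :=
    { φ := fun k z => ee (pV (triv G (G ⧸ C)) (γ k⁻¹) b z).re
      norm_one := fun k z => norm_ee _
      mul := by
        intro g k z
        obtain ⟨h, rfl⟩ := exists_smul_z0 z
        have e1 : g⁻¹ • h • z0 C = (g⁻¹ * h) • z0 C := (mul_smul _ _ _).symm
        rw [e1, heeq, heeq, heeq, ← ee_add]
        congr 1
        rw [mul_inv_rev, mul_assoc]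
        ring }
  have hmφ : ∀ k z, m.φ k z = ee (pV (triv G (G ⧸ C)) (γ k⁻¹) b z).re := fun _ _ => rfl
  let w : G → Ell (G ⧸ C) := fun k => ⟨fun z => m.φ k z - 1, by
    refine Memℓp.mono' (g := fun z => ((2 * Real.pi : ℝ) : ℂ) * pV (triv G (G ⧸ C)) (γ k⁻¹) b z)
      ((lp.memℓp (pV (triv G (G ⧸ C)) (γ k⁻¹) b)).const_mul _) ?_
    intro z
    rw [norm_mul]
    refine (ee_sub_one _).trans ?_
    rw [Complex.norm_real, Real.norm_eq_abs, abs_of_pos Real.two_pi_pos]
    exact mul_le_mul_of_nonneg_left (Complex.abs_re_le_norm _) Real.two_pi_pos.le⟩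
  have hw : ∀ k z, w k z = m.φ k z - 1 := fun _ _ => rfl
  have hLm : ∀ (g : G) (f : Ell (G ⧸ C)) (z : G ⧸ C),
      LL m (MonoidAlgebra.single g 1) f z = m.φ g z * f (g⁻¹ • z) := by
    intro g f z
    rw [LL_single, one_smul, Mult.rep_apply]
  obtain ⟨v, hv⟩ := deriv_inner X m (hV m) w (by
    intro g k
    ext z
    rw [lp.coeFn_add, Pi.add_apply, hLm, hw, hw, hw, m.mul]
    ring)
  have hq : ∀ k z, m.φ k z * (1 - v (k⁻¹ • z)) = 1 - v z := by
    intro k z
    have h1 := congrArg (fun f : Ell (G ⧸ C) => f z) (hv k)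
    simp only at h1
    rw [lp.coeFn_sub, Pi.sub_apply, hLm, hw] at h1
    linear_combination h1
  have hqn : ∀ z, ‖1 - v z‖ = ‖1 - v (z0 C)‖ := by
    intro z
    obtain ⟨h, rfl⟩ := exists_smul_z0 z
    rw [← hq h (h • z0 C), norm_mul, m.norm_one, one_mul, inv_smul_smul]
  have hq1 : ∀ z, ‖1 - v z‖ = 1 := by
    have ht3 : Filter.Tendsto (fun z => 1 - v z) Filter.cofinite (nhds (1 - 0)) :=
      tendsto_const_nhds.sub (tendsto_cofinite v)
    have ht4 := ht3.norm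
    have ht5 : (fun z => ‖1 - v z‖) = fun _ => ‖1 - v (z0 C)‖ := funext hqn
    rw [ht5, sub_zero, norm_one] at ht4
    have := tendsto_nhds_unique tendsto_const_nhds ht4
    intro z
    rw [hqn, this]
  have hr : ∀ z, ∃ t : ℝ, ee t = 1 - v z ∧ |t| ≤ ‖v z‖ := by
    intro z
    obtain ⟨t, ht1, ht2⟩ := exists_log (1 - v z) (hq1 z)
    refine ⟨t, ht1, ht2.trans_eq ?_⟩
    rw [sub_sub_cancel_left, norm_neg]
  choose s hs1 hs2 using hr
  obtain ⟨θ, hθ⟩ : ∃ θ : ℝ, θ = F 1 + s (z0 C) := ⟨_, rfl⟩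
  set r : G ⧸ C → ℝ := fun z => - s z with hrdef
  have hrF : ∀ h, ∃ n : ℤ, F h - θ - r (h • z0 C) = n := by
    intro h
    have h1 := hq h (h • z0 C)
    rw [hmφ, heeq, inv_smul_smul, ← hs1, ← hs1, inv_mul_cancel, ← ee_add] at h1
    have h2 : ee (F 1 - F h + s (z0 C) - s (h • z0 C)) = 1 := by
      have h3 : ee (F 1 - F h + s (z0 C) - s (h • z0 C)) * ee (s (h • z0 C)) =
          ee (s (h • z0 C)) := by
        rw [← ee_add, ← h1]
        congr 1
        ring
      have h0 : ee (s (h • z0 C)) ≠ 0 := by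
        intro h0
        have := norm_ee (s (h • z0 C))
        rw [h0] at this; simp at this
      exact mul_right_cancel₀ h0 (by rw [h3, one_mul])
    obtain ⟨n, hn⟩ := ee_eq_one _ h2
    refine ⟨-n, ?_⟩
    rw [hθ, hrdef]
    push_cast
    rw [← hn]
    ring
  let rV : Ell (G ⧸ C) := ⟨fun h => ((r h : ℝ) : ℂ), Memℓp.mono' (lp.memℓp v) (fun h => by
    rw [Complex.norm_real, Real.norm_eq_abs, hrdef, abs_neg]; exact hs2 h)⟩
  have hrV : ∀ h, rV h = ((r h : ℝ) : ℂ) := fun h => rfl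
  -- the correcting `0`-cochain
  have hζ : ∀ j : Fin (X.n 0), ∃ y, y ᵥ* X.d 0 = Pi.single j 1 - X.aug j • x0 := by
    intro j
    apply exists_lift
    rw [eps_sub, eps_single, eps_zsmul, hx0]; ring
  choose ζ hζ using hζ
  set ρ : Fin (X.n 0) → Ell (G ⧸ C) :=
    fun j => ((X.aug j : ℤ) : ℂ) • rV + reV (pV (triv G (G ⧸ C)) (ζ j) b) with hρ
  have hρ1 : ∀ j h, ρ j h =
      (((X.aug j : ℝ) * r h + (pV (triv G (G ⧸ C)) (ζ j) b h).re : ℝ) : ℂ) := by
    intro j h
    simp only [hρ]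
    rw [lp.coeFn_add, Pi.add_apply, lp.coeFn_smul, Pi.smul_apply, hrV, reV_apply, smul_eq_mul]
    push_cast
    ring
  let K : AddSubgroup (Fin (X.n 0) → MonoidAlgebra ℤ G) :=
    { carrier := {y | ∃ x, x ᵥ* X.d 0 = y - eps X y • x0 ∧
        ∃ n : ℤ, pV (triv G (G ⧸ C)) y ρ (z0 C) = ((Φ x - eps X y * θ + n : ℝ) : ℂ)}
      zero_mem' := by
        refine ⟨0, ?_, 0, ?_⟩
        · have : eps X 0 = 0 := by simp [eps]
          rw [this]; simp
        · have : eps X 0 = 0 := by simp [eps]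
          rw [this]
          have e : Φ 0 = 0 := by simpa using Φsub 0 0
          rw [e]
          simp [pV]
      add_mem' := by
        rintro y y' ⟨x, hx, n, hn⟩ ⟨x', hx', n', hn'⟩
        refine ⟨x + x', ?_, n + n', ?_⟩
        · rw [Matrix.add_vecMul, hx, hx', eps_add, add_smul]; abel
        · rw [pV_add, lp.coeFn_add, Pi.add_apply, hn, hn', eps_add, Φadd]
          push_cast
          ring
      neg_mem' := by
        rintro y ⟨x, hx, n, hn⟩
        refine ⟨-x, ?_, -n, ?_⟩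
        · rw [Matrix.neg_vecMul, hx, eps_neg, neg_smul]; abel
        · rw [pV_neg, lp.coeFn_neg, Pi.neg_apply, hn, eps_neg, Φneg]
          push_cast
          ring }
  have hK0 : ∀ (j : Fin (X.n 0)) (g : G),
      (MonoidAlgebra.single g 1 : MonoidAlgebra ℤ G) •
        (Pi.single j 1 : Fin (X.n 0) → MonoidAlgebra ℤ G) ∈ K := by
    intro j g
    have e1 : eps X ((MonoidAlgebra.single g 1 : MonoidAlgebra ℤ G) •
        (Pi.single j 1 : Fin (X.n 0) → MonoidAlgebra ℤ G)) = X.aug j := by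
      rw [eps_smul, augm_single, eps_single, one_mul]
    obtain ⟨n, hn⟩ := hrF g⁻¹
    refine ⟨X.aug j • γ g⁻¹ + (MonoidAlgebra.single g 1 : MonoidAlgebra ℤ G) • ζ j, ?_,
      - X.aug j * n, ?_⟩
    · rw [e1, Matrix.add_vecMul, Matrix.smul_vecMul, Matrix.smul_vecMul, hγ, hζ, inv_inv, smul_sub,
        smul_sub]
      have e2 : (MonoidAlgebra.single g 1 : MonoidAlgebra ℤ G) • X.aug j • x0 =
        X.aug j • (MonoidAlgebra.single g 1 : MonoidAlgebra ℤ G) • x0 := smul_comm _ _ _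
      rw [e2]
      abel
    · have e3 : pV (triv G (G ⧸ C)) ((MonoidAlgebra.single g 1 : MonoidAlgebra ℤ G) •
          (Pi.single j 1 : Fin (X.n 0) → MonoidAlgebra ℤ G)) ρ (z0 C) = ρ j (g⁻¹ • z0 C) := by
        rw [pV_smul, LL_single_one, pV_single]
      have e4 : Φ ((MonoidAlgebra.single g 1 : MonoidAlgebra ℤ G) • ζ j) =
          (pV (triv G (G ⧸ C)) (ζ j) b (g⁻¹ • z0 C)).re := by
        rw [pV_apply, inv_inv]
      rw [e3, e1, hρ1, Φadd, Φz, e4]
      have e5 : r (g⁻¹ • z0 C) = Φ (γ g⁻¹) - θ - n := by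
        have := hn
        simp only [hF] at this
        linarith
      rw [e5]
      push_cast
      ring
  have hK : ∀ y, y ∈ K := by
    have h1 : ∀ (j : Fin (X.n 0)) (a : MonoidAlgebra ℤ G),
        a • (Pi.single j 1 : Fin (X.n 0) → MonoidAlgebra ℤ G) ∈ K := by
      intro j a
      refine MonoidAlgebra.induction_linear a ?_ ?_ ?_
      · rw [zero_smul]; exact K.zero_mem
      · intro x y hx hy
        rw [add_smul]; exact K.add_mem hx hy
      · intro g s
        have e1 : (MonoidAlgebra.single g s : MonoidAlgebra ℤ G) = s • MonoidAlgebra.single g 1 := by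
          rw [MonoidAlgebra.smul_single, smul_eq_mul, mul_one]
        rw [e1, smul_assoc]
        exact K.zsmul_mem (hK0 j g) s
    intro y
    have : y = ∑ j, y j • (Pi.single j 1 : Fin (X.n 0) → MonoidAlgebra ℤ G) := by
      funext i
      rw [Finset.sum_apply, Finset.sum_eq_single i]
      · simp
      · intro j _ hj; simp [Pi.single_eq_of_ne hj.symm]
      · simp
    rw [this]
    exact K.sum_mem fun j _ => h1 j (y j)
  -- the integral cochain
  have hint : ∀ (i : Fin (X.n 1)) (z : G ⧸ C), ∃ n : ℤ,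
      (b i - act ((X.d 0).map (LL (triv G (G ⧸ C)))) ρ i) z = n := by
    intro i z
    obtain ⟨h, rfl⟩ := exists_smul_z0 z
    have e1 : act ((X.d 0).map (LL (triv G (G ⧸ C)))) ρ i = pV (triv G (G ⧸ C)) (X.d 0 i) ρ := rfl
    have e0 : (Pi.single i 1 : Fin (X.n 1) → MonoidAlgebra ℤ G) ᵥ* X.d 0 = X.d 0 i := by
      funext j; simp [Matrix.vecMul, dotProduct, Pi.single_apply]
    set xi : Fin (X.n 1) → MonoidAlgebra ℤ G :=
      (MonoidAlgebra.single h⁻¹ 1 : MonoidAlgebra ℤ G) • Pi.single i 1 with hxi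
    have e2 : (MonoidAlgebra.single h⁻¹ 1 : MonoidAlgebra ℤ G) • X.d 0 i = xi ᵥ* X.d 0 := by
      rw [hxi, Matrix.smul_vecMul, e0]
    obtain ⟨x, hx, n, hn⟩ := hK (xi ᵥ* X.d 0)
    rw [eps_d] at hx hn
    rw [zero_smul, sub_zero] at hx
    obtain ⟨p, hp⟩ := Φcong xi x hx.symm
    refine ⟨p - n, ?_⟩
    have e3 : b i (h • z0 C) = ((Φ xi : ℝ) : ℂ) := by
      rw [hbr i (h • z0 C)]
      congr 1
      simp only [hΦ]
      rw [hxi, ← pV_apply, pV_single]
    rw [lp.coeFn_sub, Pi.sub_apply, e1, pV_apply, e2, hn, e3]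
    have e4 : Φ xi = Φ x + p := by linarith
    rw [e4]
    push_cast
    ring
  have hα : ∀ i, ∃ a, hat a = b i - act ((X.d 0).map (LL (triv G (G ⧸ C)))) ρ i :=
    fun i => exists_hat _ (hint i)
  choose α hα using hα
  refine ⟨α, ?_⟩
  have e1 := hcob 1 α
  have e2 : (fun j => hat (α j)) = fun j => b j - act ((X.d 0).map (LL (triv G (G ⧸ C)))) ρ j :=
    funext hα
  have e3 : act ((X.d 1).map (LL (triv G (G ⧸ C))))
      (fun j => b j - act ((X.d 0).map (LL (triv G (G ⧸ C)))) ρ j) =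
      fun i => act ((X.d 1).map (LL (triv G (G ⧸ C)))) b i -
        act ((X.d 1).map (LL (triv G (G ⧸ C)))) (act ((X.d 0).map (LL (triv G (G ⧸ C)))) ρ) i := by
    funext i
    simp only [act, map_sub, Finset.sum_sub_distrib]
  have e4 : act ((X.d 1).map (LL (triv G (G ⧸ C))))
      (act ((X.d 0).map (LL (triv G (G ⧸ C)))) ρ) = 0 := by
    rw [← act_mul, ← Matrix.map_mul, d_mul_d]
    funext i
    simp [act]
  rw [e2, e3, e4, hb] at e1
  funext i
  apply hat_injective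
  have := congrFun e1 i
  simpa using this.symm

end

end Pool.Agent.H919R4.AS
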