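import Pool.Agent.H79.LZ.H919R4_ZS_Defs
import Pool.Agent.H79.LZ.H496R3_ZS_Stmt

/-!
Cohomology of a group with coefficients in a permutation module `ℤ[Z]`.
-/

set_option autoImplicit false

namespace Pool.Agent.H919R4.AS

open Pool.Agent.H919R4.ZS (FinRes)

/-- The permutation module `ℤ[Z]` of a `G`-set `Z`: `g` maps `∑ a_z z` to `∑ a_z gz`. -/
noncomputable def permZ (G Z : Type) [Group G] [MulAction G Z] : G →* AddMonoid.End (Z →₀ ℤ) where
  toFun g := Finsupp.mapDomain.addMonoidHom (fun z : Z => g • z)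
  map_one' := by
    refine AddMonoidHom.ext fun f => ?_
    change Finsupp.mapDomain (fun z : Z => (1 : G) • z) f = f
    simp only [one_smul]
    exact Finsupp.mapDomain_id
  map_mul' g h := by
    refine AddMonoidHom.ext fun f => ?_
    change Finsupp.mapDomain (fun z : Z => (g * h) • z) f =
      Finsupp.mapDomain (fun z : Z => g • z) (Finsupp.mapDomain (fun z : Z => h • z) f)
    rw [← Finsupp.mapDomain_comp]
    congr 1
    funext z
    exact mul_smul g h z

/-- The action of `ℤ[G]` on the permutation module `ℤ[Z]`. -/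
noncomputable def ringZ (G Z : Type) [Group G] [MulAction G Z] :
    MonoidAlgebra ℤ G →+* AddMonoid.End (Z →₀ ℤ) :=
  MonoidAlgebra.liftNCRingHom (Int.castRingHom _) (permZ G Z)
    (fun x y => Int.cast_commute x (permZ G Z y))

variable {G : Type} [Group G] (X : FinRes G) (Z : Type) [MulAction G Z]

/-- The coboundary `ℤ[Z]^(n i) → ℤ[Z]^(n (i+1))`, `(y_j) ↦ (∑_j d_kj · y_j)_k`, of the cochain
complex `Hom_{ℤ[G]}(C_*, ℤ[Z])`. -/
noncomputable def cobdZ (i : ℕ) : (Fin (X.n i) → (Z →₀ ℤ)) →+ (Fin (X.n (i + 1)) → (Z →₀ ℤ)) where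
  toFun y := fun k => ∑ j, ringZ G Z (X.d i k j) (y j)
  map_zero' := by funext k; simp
  map_add' x y := by funext k; simp [Finset.sum_add_distrib]

/-- The coboundaries of `Hom_{ℤ[G]}(C_*, ℤ[Z])`. -/
noncomputable def coboundariesZ : ∀ i : ℕ, AddSubgroup (Fin (X.n i) → (Z →₀ ℤ))
  | 0 => ⊥
  | i + 1 => (cobdZ X Z i).range

/-- The cohomology `H^i(G; ℤ[Z])`, computed from the resolution. -/
noncomputable abbrev cohomologyZ (i : ℕ) : Type :=
  (cobdZ X Z i).ker ⧸ (coboundariesZ X Z i).addSubgroupOf (cobdZ X Z i).ker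

end Pool.Agent.H919R4.AS
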