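import Pool.Agent.H79.LZ.H919R4_AS_Hat

set_option autoImplicit false
set_option linter.unusedSectionVars false

open scoped Matrix ENNReal
open Filter Topology

namespace Pool.Agent.H919R4.AS

open Pool.Agent.H496R3.ZS (Ell)
open Pool.Agent.H919R4.ZS (FinRes eps eps_add eps_neg eps_sub eps_smul eps_zsmul eps_single eps_d
  exists_lift Th Th_apply Th_smul augm_Th augm augm_single d_mul_d)

noncomputable section

variable {G : Type} [Group G] {Z : Type} [MulAction G Z]

/-- the additive extension of `w : G → ℓ²` to the group ring -/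
def mm (w : G → Ell Z) : MonoidAlgebra ℤ G →+ Ell Z where
  toFun a := a.coeff.sum fun k c => c • w k
  map_zero' := by simp
  map_add' x y := by
    rw [MonoidAlgebra.coeff_add]
    exact Finsupp.sum_add_index' (by simp) (by intro a b c; rw [add_smul])

lemma mm_single (w : G → Ell Z) (k : G) (r : ℤ) : mm w (MonoidAlgebra.single k r) = r • w k := by
  change (MonoidAlgebra.single k r).coeff.sum (fun k c => c • w k) = _
  rw [MonoidAlgebra.coeff_single, Finsupp.sum_single_index (by simp)]

lemma mm_mul (m : Mult G Z) (w : G → Ell Z)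
    (hw : ∀ g k, w (g * k) = LL m (MonoidAlgebra.single g 1) (w k) + w g)
    (c a : MonoidAlgebra ℤ G) : mm w (c * a) = LL m c (mm w a) + augm G a • mm w c := by
  refine MonoidAlgebra.induction_linear c ?_ ?_ ?_
  · simp
  · intro x y hx hy
    rw [add_mul, map_add, hx, hy, map_add, map_add, add_apply, smul_add]
    abel
  · intro g r
    refine MonoidAlgebra.induction_linear a ?_ ?_ ?_
    · simp
    · intro x y hx hy
      rw [mul_add, map_add, hx, hy, map_add, map_add, map_add, add_smul]
      abel
    · intro k s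
      rw [MonoidAlgebra.single_mul_single, mm_single, mm_single, mm_single, augm_single, hw]
      have e1 : (MonoidAlgebra.single g r : MonoidAlgebra ℤ G) = r • MonoidAlgebra.single g 1 := by
        rw [MonoidAlgebra.smul_single, smul_eq_mul, mul_one]
      have e3 : LL m (r • (MonoidAlgebra.single g 1 : MonoidAlgebra ℤ G)) =
        r • LL m (MonoidAlgebra.single g 1) := map_zsmul (LL m) r _
      have e2 : ∀ (T : Ell Z →L[ℂ] Ell Z) (v : Ell Z), (r • T) v = r • T v := by
        intro T v; simp
      rw [e1, e3, e2, map_zsmul, smul_add, mul_smul, mul_smul, smul_comm r s (w g)]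

/-- every derivation is inner -/
theorem deriv_inner (X : FinRes G) (m : Mult G Z) (hV : Van X m) (w : G → Ell Z)
    (hw : ∀ g k, w (g * k) = LL m (MonoidAlgebra.single g 1) (w k) + w g) :
    ∃ v, ∀ k, w k = LL m (MonoidAlgebra.single k 1) v - v := by
  obtain ⟨x0, hx0⟩ := X.surj
  change eps X x0 = 1 at hx0
  set b : Fin (X.n 1) → Ell Z := fun i => mm w (Th X (X.d 0 i)) with hb
  have hrow : ∀ i, eps X (X.d 0 i) = 0 := by
    intro i
    have : (Pi.single i 1 : Fin (X.n 1) → MonoidAlgebra ℤ G) ᵥ* X.d 0 = X.d 0 i := by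
      funext j; simp [Matrix.vecMul, dotProduct, Pi.single_apply]
    rw [← this, eps_d]
  have hp : ∀ x : Fin (X.n 1) → MonoidAlgebra ℤ G, pV m x b = mm w (Th X (x ᵥ* X.d 0)) := by
    intro x
    have e1 : ∀ i, LL m (x i) (b i) = mm w (Th X (x i • X.d 0 i)) := by
      intro i
      rw [Th_smul, mm_mul m w hw, augm_Th, hrow, zero_smul, add_zero]
    rw [pV, Finset.sum_congr rfl (fun i _ => e1 i), ← map_sum, ← map_sum, Matrix.vecMul_eq_sum]
  have hc : act ((X.d 1).map (LL m)) b = 0 := by
    funext l
    have : act ((X.d 1).map (LL m)) b l = pV m (X.d 1 l) b := rfl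
    rw [this, hp, ← Matrix.mul_apply_eq_vecMul, d_mul_d]
    change mm w (Th X 0) = 0
    simp
  obtain ⟨v', hv'⟩ := hV.h1 b hc
  have hy : ∀ y, eps X y = 0 → pV m y v' = mm w (Th X y) := by
    intro y hy
    obtain ⟨x, rfl⟩ := exists_lift X y hy
    rw [pV_vecMul, hv', hp]
  have hw1 : w 1 = 0 := by
    have := hw 1 1
    have e : LL m (MonoidAlgebra.single (1 : G) 1) (w 1) = w 1 := by
      rw [← MonoidAlgebra.one_def, map_one]; rfl
    rw [mul_one, e] at this
    exact left_eq_add.1 this
  refine ⟨pV m x0 v' - mm w (Th X x0), ?_⟩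
  intro k
  have e0 : eps X ((MonoidAlgebra.single k 1 - 1 : MonoidAlgebra ℤ G) • x0) = 0 := by
    rw [eps_smul, map_sub, augm_single, map_one, sub_self, zero_mul]
  have e1 := hy _ e0
  rw [pV_smul, Th_smul, mm_mul m w hw, augm_Th, hx0, one_smul, map_sub (mm w),
    MonoidAlgebra.one_def, mm_single, mm_single, hw1, smul_zero, sub_zero, one_smul] at e1
  have e2 : ∀ v : Ell Z, LL m (MonoidAlgebra.single k 1 - MonoidAlgebra.single 1 1) v =
      LL m (MonoidAlgebra.single k 1) v - v := by
    intro v
    rw [map_sub, ← MonoidAlgebra.one_def, map_one]; rfl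
  rw [e2, e2] at e1
  rw [map_sub]
  rw [← sub_eq_iff_eq_add'] at e1
  rw [← e1]
  abel

end

end Pool.Agent.H919R4.AS
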