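import Pool.Agent.H79.LZ.H919R4_AS_Circle

set_option autoImplicit false
set_option linter.unusedSectionVars false

open scoped Matrix ENNReal
open Filter Topology

namespace Pool.Agent.H919R4.AS

open Pool.Agent.H496R3.ZS (Ell IsAmenable)
open Pool.Agent.H919R4.ZS (FinRes eps eps_add eps_neg eps_sub eps_smul eps_zsmul eps_single eps_d
  exists_lift augm augm_single d_mul_d toRed)

noncomputable section

variable {G : Type} [Group G] {C : Subgroup G}

theorem H0 (X : FinRes G) (hV : ∀ m : Mult G (G ⧸ C), Van X m)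
    (y : Fin (X.n 0) → (G ⧸ C →₀ ℤ)) (hy : cobdZ X (G ⧸ C) 0 y = 0) : y = 0 := by
  have h1 := (hV (triv G (G ⧸ C))).h0 (fun j => hat (y j)) (by
    rw [act_hat]
    change (fun k => hat (cobdZ X (G ⧸ C) 0 y k)) = 0
    rw [hy]
    funext i
    exact hat_zero)
  funext j
  apply hat_injective
  rw [congrFun h1 j]
  exact hat_zero.symm

theorem H1 (X : FinRes G) (hV : ∀ m : Mult G (G ⧸ C), Van X m) (hG : Infinite (G ⧸ C))
    (z : Fin (X.n 1) → (G ⧸ C →₀ ℤ)) (hz : cobdZ X (G ⧸ C) 1 z = 0) :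
    ∃ y, cobdZ X (G ⧸ C) 0 y = z := by
  obtain ⟨v, hv⟩ := (hV (triv G (G ⧸ C))).h1 (fun j => hat (z j)) (by
    rw [act_hat]
    change (fun k => hat (cobdZ X (G ⧸ C) 1 z k)) = 0
    rw [hz]
    funext i
    exact hat_zero)
  obtain ⟨x0, hx0⟩ := X.surj
  change eps X x0 = 1 at hx0
  have hI : ∀ y, eps X y = 0 → ∃ n : ℤ, pV (triv G (G ⧸ C)) y v (z0 C) = n := by
    intro y hy
    obtain ⟨x, rfl⟩ := exists_lift X y hy
    refine ⟨(∑ j, ringZ G (G ⧸ C) (x j) (z j)) (z0 C), ?_⟩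
    rw [pV_vecMul, hv, pV_hat, hat_apply]
  have hbase : ∃ n : ℤ, pV (triv G (G ⧸ C)) x0 v (z0 C) = n := by
    have hn : ∀ z : G ⧸ C, ∃ n : ℤ,
        pV (triv G (G ⧸ C)) x0 v (z0 C) - pV (triv G (G ⧸ C)) x0 v z = n := by
      intro z
      obtain ⟨h, rfl⟩ := exists_smul_z0 z
      obtain ⟨n, hn⟩ := hI (x0 - (MonoidAlgebra.single h⁻¹ 1 : MonoidAlgebra ℤ G) • x0) (by
        rw [eps_sub, eps_smul, augm_single, hx0]; norm_num)
      refine ⟨n, ?_⟩
      rw [pV_apply x0 v h, ← hn, pV_sub, lp.coeFn_sub, Pi.sub_apply]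
    have ht : Filter.Tendsto (fun z => pV (triv G (G ⧸ C)) x0 v (z0 C) -
        pV (triv G (G ⧸ C)) x0 v z) Filter.cofinite
        (nhds (pV (triv G (G ⧸ C)) x0 v (z0 C) - 0)) :=
      tendsto_const_nhds.sub (tendsto_cofinite _)
    have hcl : IsClosed (Set.range (fun n : ℤ => (n : ℂ))) := by
      have h5 := (Complex.isometry_ofReal.isClosedEmbedding.comp
        Int.isClosedEmbedding_coe_real).isClosed_range
      have h6 : Set.range (fun n : ℤ => (n : ℂ)) =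
          Set.range ((fun x : ℝ => (x : ℂ)) ∘ (fun n : ℤ => (n : ℝ))) := by
        congr 1
      rw [h6]
      exact h5
    have hm := hcl.mem_of_tendsto ht (Filter.Eventually.of_forall (fun z => by
      obtain ⟨n, hn⟩ := hn z
      exact ⟨n, hn.symm⟩))
    rw [sub_zero] at hm
    obtain ⟨n, hn⟩ := hm
    exact ⟨n, hn.symm⟩
  obtain ⟨n0, hn0⟩ := hbase
  have hall : ∀ y, ∃ n : ℤ, pV (triv G (G ⧸ C)) y v (z0 C) = n := by
    intro y
    have e0 : pV (triv G (G ⧸ C)) (eps X y • x0) v (z0 C) = (eps X y * n0 : ℤ) := by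
      have e1 := map_zsmul (⟨⟨fun y => pV (triv G (G ⧸ C)) y v (z0 C), by
          have := pV_sub (triv G (G ⧸ C)) 0 0 v
          rw [sub_self] at this
          rw [this]; simp⟩, fun a b => by
          change pV (triv G (G ⧸ C)) (a + b) v (z0 C) = _
          rw [pV_add]; rfl⟩ : (Fin (X.n 0) → MonoidAlgebra ℤ G) →+ ℂ) (eps X y) x0
      change pV (triv G (G ⧸ C)) (eps X y • x0) v (z0 C) =
        eps X y • pV (triv G (G ⧸ C)) x0 v (z0 C) at e1
      rw [e1, hn0]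
      simp
    obtain ⟨n, hn⟩ := hI (y - eps X y • x0) (by
      rw [eps_sub, eps_zsmul, hx0]; ring)
    rw [pV_sub, lp.coeFn_sub, Pi.sub_apply, e0] at hn
    exact ⟨n + eps X y * n0, by push_cast; push_cast at hn; rw [← hn]; ring⟩
  have hint : ∀ j z, ∃ n : ℤ, v j z = n := by
    intro j z
    obtain ⟨h, rfl⟩ := exists_smul_z0 z
    obtain ⟨n, hn⟩ := hall ((MonoidAlgebra.single h⁻¹ 1 : MonoidAlgebra ℤ G) • Pi.single j 1)
    refine ⟨n, ?_⟩
    rw [← hn, ← pV_apply, pV_single]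
  choose y hy using fun j => exists_hat (v j) (hint j)
  refine ⟨y, ?_⟩
  have e1 : act ((X.d 0).map (LL (triv G (G ⧸ C)))) (fun j => hat (y j)) =
        fun k => hat (cobdZ X (G ⧸ C) 0 y k) := act_hat (X.d 0) y
  rw [funext hy, hv] at e1
  funext i
  exact hat_injective (congrFun e1 i).symm

lemma subsingleton_cohomology (X : FinRes G) (k : ℕ)
    (h : ∀ z, cobdZ X (G ⧸ C) k z = 0 → z ∈ coboundariesZ X (G ⧸ C) k) :
    Subsingleton (cohomologyZ X (G ⧸ C) k) := by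
  rw [QuotientAddGroup.subsingleton_iff, AddSubgroup.addSubgroupOf_eq_top]
  intro z hz
  exact h z hz

/-- `H^k(G; ℤ[G/C]) = 0` for `k ≤ 2`, if `H_i(G; C*_r(G)) = 0` for `i ≤ 2` -/
theorem coset (X : FinRes G) (hC : IsAmenable C) (hG : Infinite (G ⧸ C))
    (hs : ∀ i ≤ 2, Subsingleton (X.homology (toRed G) i)) :
    ∀ k ≤ 2, Subsingleton (cohomologyZ X (G ⧸ C) k) := by
  have hV : ∀ m : Mult G (G ⧸ C), Van X m := fun m =>
    van_of_homology X hC m (hs 0 (by norm_num)) (hs 1 (by norm_num)) (hs 2 le_rfl)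
  intro k hk
  apply subsingleton_cohomology
  intro z hz
  interval_cases k
  · rw [H0 X hV z hz]; exact AddSubgroup.zero_mem _
  · obtain ⟨y, hy⟩ := H1 X hV hG z hz
    exact ⟨y, hy⟩
  · obtain ⟨y, hy⟩ := H2 X hV hG z hz
    exact ⟨y, hy⟩

theorem main (X : FinRes G) (hC : IsAmenable C) (hG : Infinite (G ⧸ C))
    (h : ∃ k ≤ 2, Nontrivial (cohomologyZ X (G ⧸ C) k)) :
    ∃ i ≤ 2, Nontrivial (X.homology (toRed G) i) := by
  by_contra hcon
  push Not at hcon
  obtain ⟨k, hk, hnt⟩ := h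
  exact not_nontrivial_iff_subsingleton.2 (coset X hC hG (fun i hi => hcon i hi) k hk) hnt

end

end Pool.Agent.H919R4.AS
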