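import Pool.Agent.H79.LZ.H919R4_ZS_Act

set_option autoImplicit false
set_option linter.unusedSectionVars false

open scoped Matrix ENNReal

namespace Pool.Agent.H919R4.ZS

universe u

variable {G : Type u} [Group G]

/-- pairing of a chain with a cochain -/
noncomputable def pV {n : ℕ} (x : Fin n → MonoidAlgebra ℤ G) (v : Fin n → L2 G) : L2 G :=
  ∑ j, L (x j) (v j)

lemma pV_add {n : ℕ} (x y : Fin n → MonoidAlgebra ℤ G) (v : Fin n → L2 G) :
    pV (x + y) v = pV x v + pV y v := by
  simp [pV, Finset.sum_add_distrib]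

lemma pV_neg {n : ℕ} (x : Fin n → MonoidAlgebra ℤ G) (v : Fin n → L2 G) :
    pV (-x) v = - pV x v := by
  simp [pV, Finset.sum_neg_distrib]

lemma pV_sub {n : ℕ} (x y : Fin n → MonoidAlgebra ℤ G) (v : Fin n → L2 G) :
    pV (x - y) v = pV x v - pV y v := by
  rw [sub_eq_add_neg, pV_add, pV_neg, sub_eq_add_neg]

lemma pV_smul {n : ℕ} (a : MonoidAlgebra ℤ G) (x : Fin n → MonoidAlgebra ℤ G) (v : Fin n → L2 G) :
    pV (a • x) v = L a (pV x v) := by
  simp [pV, map_sum]

lemma pV_vecMul {m n : ℕ} (x : Fin m → MonoidAlgebra ℤ G)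
    (D : Matrix (Fin m) (Fin n) (MonoidAlgebra ℤ G)) (v : Fin n → L2 G) :
    pV (x ᵥ* D) v = pV x (act (D.map L) v) := by
  simp only [pV, act, Matrix.vecMul, dotProduct, map_sum, Matrix.map_apply, map_mul, sum_apply,
    mul_apply_eq_comp]
  rw [Finset.sum_comm]

lemma pV_single {n : ℕ} (j : Fin n) (v : Fin n → L2 G) :
    pV (Pi.single j 1) v = v j := by
  rw [pV, Finset.sum_eq_single j]
  · simp
  · intro i _ hi; simp [Pi.single_eq_of_ne hi]
  · simp

lemma L_single_one (g : G) (v : L2 G) (h : G) :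
    L (MonoidAlgebra.single g 1) v h = v (g⁻¹ * h) := by
  rw [L_single, one_smul, lregL_apply]

/-! ### finitely supported integer functions -/

open Classical in
noncomputable def hat (a : MonoidAlgebra ℤ G) : L2 G := L a (lp.single 2 1 1)

lemma hat_add (a b : MonoidAlgebra ℤ G) : hat (a + b) = hat a + hat b := by simp [hat]

lemma hat_zero : hat (0 : MonoidAlgebra ℤ G) = 0 := by simp [hat]

lemma L_hat (a b : MonoidAlgebra ℤ G) : L a (hat b) = hat (a * b) := by simp [hat]

lemma hat_apply (a : MonoidAlgebra ℤ G) (h : G) : hat a h = ((a.coeff h : ℤ) : ℂ) := by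
  classical
  refine MonoidAlgebra.induction_linear a ?_ ?_ ?_
  · simp [hat_zero]
  · intro x y hx hy
    rw [hat_add, lp.coeFn_add, Pi.add_apply, hx, hy, MonoidAlgebra.coeff_add, Finsupp.add_apply,
      Int.cast_add]
  · intro g r
    rw [hat, L_single]
    have e1 : (r • lregL g : L2 G →L[ℂ] L2 G) (lp.single 2 1 1) = (r : ℂ) • lregL g (lp.single 2 1 1) := by
      rw [Int.cast_smul_eq_zsmul]; simp
    rw [e1, lp.coeFn_smul, Pi.smul_apply, lregL_apply]
    rw [MonoidAlgebra.coeff_single]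
    by_cases hh : g = h
    · subst hh; simp
    · rw [Finsupp.single_eq_of_ne (by exact fun e => hh e.symm), lp.single_apply_ne]
      · simp
      · intro e; exact hh (inv_mul_eq_one.1 e)

lemma hat_injective : Function.Injective (hat (G := G)) := by
  intro a b hab
  apply MonoidAlgebra.coeff_injective
  ext h
  have := congrArg (fun v : L2 G => v h) hab
  simp only [hat_apply] at this
  exact_mod_cast this

lemma act_hat {m n : ℕ} (D : Matrix (Fin m) (Fin n) (MonoidAlgebra ℤ G))
    (y : Fin n → MonoidAlgebra ℤ G) :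
    act (D.map L) (fun j => hat (y j)) = fun i => hat ((D *ᵥ y) i) := by
  funext i
  simp only [act, Matrix.map_apply, L_hat, Matrix.mulVec, dotProduct]
  simp only [hat, map_sum, sum_apply]

lemma finite_ne_zero_of_int (v : L2 G) (hv : ∀ h, ∃ n : ℤ, v h = n) : {h | v h ≠ 0}.Finite := by
  have h2 : 0 < (2 : ℝ≥0∞).toReal := by norm_num
  have hs := (lp.memℓp v).summable h2
  have ht := hs.tendsto_cofinite_zero
  have hev : ∀ᶠ h in Filter.cofinite, ‖v h‖ ^ (2 : ℝ≥0∞).toReal < 1 :=
    ht.eventually (gt_mem_nhds one_pos)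
  refine Set.Finite.subset (Filter.eventually_cofinite.1 hev) ?_
  intro h hh
  obtain ⟨n, hn⟩ := hv h
  simp only [Set.mem_ofPred_eq, not_lt]
  have hn0 : n ≠ 0 := by
    rintro rfl
    exact hh (by rw [hn]; simp)
  have h1 : (1 : ℝ) ≤ ‖v h‖ := by
    rw [hn]
    have : (1 : ℝ) ≤ |(n : ℝ)| := by exact_mod_cast Int.one_le_abs hn0
    simpa using this
  exact Real.one_le_rpow h1 h2.le

lemma exists_hat (v : L2 G) (hv : ∀ h, ∃ n : ℤ, v h = n) : ∃ a, hat a = v := by
  choose n hn using hv
  have hfin : (Function.support n).Finite := by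
    refine (finite_ne_zero_of_int v (fun h => ⟨n h, hn h⟩)).subset ?_
    intro h hh
    simp only [Set.mem_ofPred_eq, hn h]
    exact_mod_cast hh
  refine ⟨MonoidAlgebra.ofCoeff (Finsupp.ofSupportFinite n hfin), ?_⟩
  ext h
  rw [hat_apply, hn h]
  rfl

/-! ### real parts -/

noncomputable def reV (v : L2 G) : L2 G := (1 / 2 : ℂ) • (v + star v)

lemma reV_apply (v : L2 G) (h : G) : reV v h = ((v h).re : ℂ) := by
  rw [reV, lp.coeFn_smul, Pi.smul_apply, lp.coeFn_add, Pi.add_apply, lp.star_apply, smul_eq_mul]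
  rw [Complex.re_eq_add_conj]
  simp only [Complex.star_def]
  ring

lemma reV_add (v w : L2 G) : reV (v + w) = reV v + reV w := by
  ext h; simp [reV_apply]

lemma reV_zero : reV (0 : L2 G) = 0 := by
  ext h; simp [reV_apply]

lemma reV_sum {ι : Type*} (s : Finset ι) (f : ι → L2 G) :
    reV (∑ i ∈ s, f i) = ∑ i ∈ s, reV (f i) :=
  map_sum (⟨⟨reV, reV_zero⟩, reV_add⟩ : L2 G →+ L2 G) f s

lemma L_reV (a : MonoidAlgebra ℤ G) (v : L2 G) : L a (reV v) = reV (L a v) := by
  refine MonoidAlgebra.induction_linear a ?_ ?_ ?_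
  · simp [reV_zero]
  · intro x y hx hy
    simp only [map_add, add_apply, hx, hy, reV_add]
  · intro g r
    ext h
    rw [reV_apply, L_single]
    have e1 : ∀ w : L2 G, (r • lregL g : L2 G →L[ℂ] L2 G) w = (r : ℂ) • lregL g w := by
      intro w; rw [Int.cast_smul_eq_zsmul]; simp
    rw [e1, e1, lp.coeFn_smul, Pi.smul_apply, lregL_apply, lp.coeFn_smul, Pi.smul_apply, lregL_apply,
      reV_apply]
    simp

lemma act_reV {m n : ℕ} (D : Matrix (Fin m) (Fin n) (MonoidAlgebra ℤ G)) (v : Fin n → L2 G) :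
    act (D.map L) (fun j => reV (v j)) = fun i => reV (act (D.map L) v i) := by
  funext i
  simp only [act, Matrix.map_apply, L_reV, reV_sum]

end Pool.Agent.H919R4.ZS
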