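import Mathlib

/-!
Poly-(infinite cyclic) subgroups.
-/

set_option autoImplicit false

namespace Pool.Agent.N453.ZS

/-- `PolyZ P h`: the subgroup `P` has a series `1 = P_0 < P_1 < ⋯ < P_h = P` in which `P_i` is
normal in `P_(i+1)` with infinite cyclic quotient: `P_(i+1)` is generated by `P_i` and an element
`c` which normalises `P_i` and has no non-trivial power in `P_i`. So `P` is a poly-(infinite
cyclic) subgroup of Hirsch length `h`. -/
inductive PolyZ {G : Type} [Group G] : Subgroup G → ℕ → Prop
  | bot : PolyZ ⊥ 0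
  | step {P : Subgroup G} {h : ℕ} (c : G) : PolyZ P h → c ∈ Subgroup.normalizer P →
      (∀ m : ℤ, c ^ m ∈ P → m = 0) → PolyZ (P ⊔ Subgroup.zpowers c) (h + 1)

end Pool.Agent.N453.ZS
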