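import Pool.Agent.H79.LZ.N453_ZS_Quo

/-!
Subgroups of finite index of a finitely generated subgroup `P`: a power of an element which
normalises `P` normalises them.
-/

set_option autoImplicit false

namespace Pool.Agent.N453.ZS

variable {G : Type} [Group G]

/-- Conjugation by an element of the normaliser of `P`, as an endomorphism of `P`. -/
def cj (P : Subgroup G) (c : G) (hc : c ∈ Subgroup.normalizer P) : P →* P where
  toFun x := ⟨c * x * c⁻¹, (Subgroup.mem_normalizer_iff.1 hc x).1 x.2⟩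
  map_one' := Subtype.ext (by simp)
  map_mul' x y := Subtype.ext (by
    change c * ((x : G) * y) * c⁻¹ = c * x * c⁻¹ * (c * y * c⁻¹)
    group)

theorem exists_pow_normalizer {P D : Subgroup G} (hP : P.FG) (hD : D ≤ P)
    (hf : D.relIndex P ≠ 0) {c : G} (hc : c ∈ Subgroup.normalizer P) :
    ∃ k : ℕ, 0 < k ∧ c ^ k ∈ Subgroup.normalizer D := by
  classical
  have hfin : Finite (P ⧸ D.subgroupOf P) := Subgroup.index_ne_zero_iff_finite.1 hf
  let ρ : P →* Equiv.Perm (P ⧸ D.subgroupOf P) := MulAction.toPermHom P (P ⧸ D.subgroupOf P)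
  obtain ⟨T, hT, hTf⟩ := Group.fg_iff.1 ((Group.fg_iff_subgroup_fg P).2 hP)
  let F : ℕ → (T → Equiv.Perm (P ⧸ D.subgroupOf P)) := fun k t =>
    ρ (cj P (c ^ k) (pow_mem hc k) t)
  have hTfin : Finite T := hTf
  obtain ⟨k1, k2, hne, hk⟩ := Finite.exists_ne_map_eq_of_infinite F
  have key : ∀ k1 k2 : ℕ, k1 < k2 → F k1 = F k2 →
      ∃ k : ℕ, 0 < k ∧ c ^ k ∈ Subgroup.normalizer D := by
    intro k1 k2 hlt hk
    have h1 : ρ.comp (cj P (c ^ k1) (pow_mem hc k1)) = ρ.comp (cj P (c ^ k2) (pow_mem hc k2)) := by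
      refine MonoidHom.eq_of_eqOn_dense hT fun t ht => ?_
      exact congrFun hk ⟨t, ht⟩
    refine ⟨k2 - k1, by omega, ?_⟩
    have h2 : ∀ y : P, ρ y = ρ (cj P (c ^ (k2 - k1)) (pow_mem hc _) y) := by
      intro y
      have h3 := DFunLike.congr_fun h1 (cj P (c ^ k1)⁻¹ (inv_mem (pow_mem hc k1)) y)
      have e1 : cj P (c ^ k1) (pow_mem hc k1) (cj P (c ^ k1)⁻¹ (inv_mem (pow_mem hc k1)) y) = y := by
        apply Subtype.ext
        change c ^ k1 * ((c ^ k1)⁻¹ * y * (c ^ k1)⁻¹⁻¹) * (c ^ k1)⁻¹ = y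
        group
      have e2 : cj P (c ^ k2) (pow_mem hc k2) (cj P (c ^ k1)⁻¹ (inv_mem (pow_mem hc k1)) y) =
          cj P (c ^ (k2 - k1)) (pow_mem hc _) y := by
        apply Subtype.ext
        change c ^ k2 * ((c ^ k1)⁻¹ * y * (c ^ k1)⁻¹⁻¹) * (c ^ k2)⁻¹ =
          c ^ (k2 - k1) * y * (c ^ (k2 - k1))⁻¹
        have e3 : c ^ k2 = c ^ (k2 - k1) * c ^ k1 := by
          rw [← pow_add]
          congr 1
          omega
        rw [e3]
        group
      rw [MonoidHom.comp_apply, MonoidHom.comp_apply, e1, e2] at h3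
      exact h3
    have h3 : ∀ y : P, (y : G) ∈ D ↔ ρ y ((1 : P) : P ⧸ D.subgroupOf P) = ((1 : P) : P ⧸ D.subgroupOf P) := by
      intro y
      have e1 : ρ y ((1 : P) : P ⧸ D.subgroupOf P) = ((y * 1 : P) : P ⧸ D.subgroupOf P) := rfl
      rw [e1, mul_one, eq_comm, QuotientGroup.eq, inv_one, one_mul, Subgroup.mem_subgroupOf]
    rw [Subgroup.mem_normalizer_iff]
    intro y
    by_cases hy : y ∈ P
    · rw [h3 ⟨y, hy⟩, h2 ⟨y, hy⟩, ← h3]
      rfl
    · refine ⟨fun h => absurd (hD h) hy, fun h => absurd ?_ hy⟩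
      exact (Subgroup.mem_normalizer_iff.1 (pow_mem hc (k2 - k1)) y).2 (hD h)
  rcases lt_or_gt_of_ne hne with h | h
  · exact key k1 k2 h hk
  · exact key k2 k1 h hk.symm

theorem relIndex_sup {P D : Subgroup G} (hf : D.relIndex P ≠ 0) {c : G}
    (hc : c ∈ Subgroup.normalizer P) {k : ℕ} (hk : 0 < k) :
    (D ⊔ Subgroup.zpowers (c ^ k)).relIndex (P ⊔ Subgroup.zpowers c) ≠ 0 := by
  classical
  have hfin : Finite (P ⧸ D.subgroupOf P) := Subgroup.index_ne_zero_iff_finite.1 hf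
  set K : Subgroup G := P ⊔ Subgroup.zpowers c with hK
  set D' : Subgroup G := D ⊔ Subgroup.zpowers (c ^ k) with hD'
  have hcK : ∀ i : ℤ, c ^ i ∈ K := fun i =>
    Subgroup.mem_sup_right (zpow_mem (Subgroup.mem_zpowers c) i)
  have hPK : ∀ y : P, (y : G) ∈ K := fun y => Subgroup.mem_sup_left y.2
  let f : Fin k × (P ⧸ D.subgroupOf P) → K ⧸ D'.subgroupOf K := fun q =>
    ((⟨c ^ ((q.1 : ℕ) : ℤ) * (q.2.out : G), mul_mem (hcK _) (hPK _)⟩ : K) : K ⧸ D'.subgroupOf K)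
  have hs : Function.Surjective f := by
    intro x
    induction x using QuotientGroup.induction_on with
    | H x =>
      obtain ⟨g, hg⟩ := x
      obtain ⟨m, hm⟩ := (mem_sup_zpowers hc).1 hg
      have hk' : (k : ℤ) ≠ 0 := by omega
      have hr0 := Int.emod_nonneg (-m) hk'
      have hr1 := Int.emod_lt_of_pos (-m) (show (0 : ℤ) < k by omega)
      have hdm := Int.emod_add_mul_ediv (-m) k
      set q : ℤ := (-m) / k with hq
      set r : ℤ := (-m) % k with hr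
      have hp : c ^ ((k : ℤ) * q) * (c ^ m * g) * (c ^ ((k : ℤ) * q))⁻¹ ∈ P :=
        (Subgroup.mem_normalizer_iff.1 (zpow_mem hc _) _).1 hm
      set p : P := ⟨_, hp⟩ with hpd
      refine ⟨(⟨r.toNat, by omega⟩, (p : P ⧸ D.subgroupOf P)), ?_⟩
      obtain ⟨d, hd⟩ := QuotientGroup.mk_out_eq_mul (D.subgroupOf P) p
      change ((⟨c ^ ((r.toNat : ℕ) : ℤ) * (((p : P ⧸ D.subgroupOf P).out : P) : G), _⟩ : K) :
        K ⧸ D'.subgroupOf K) = _
      rw [QuotientGroup.eq, Subgroup.mem_subgroupOf]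
      change (c ^ ((r.toNat : ℕ) : ℤ) * (((p : P ⧸ D.subgroupOf P).out : P) : G))⁻¹ * g ∈ D'
      rw [hd]
      have e1 : ((r.toNat : ℕ) : ℤ) = r := Int.toNat_of_nonneg hr0
      have e2 : (c ^ r * ((p * (d : P) : P) : G))⁻¹ * g = ((d : P) : G)⁻¹ * c ^ ((k : ℤ) * q) := by
        change (c ^ r * (c ^ ((k : ℤ) * q) * (c ^ m * g) * (c ^ ((k : ℤ) * q))⁻¹ * ((d : P) : G)))⁻¹ * g
          = _
        have e3 : c ^ r * c ^ ((k : ℤ) * q) * c ^ m = 1 := by
          rw [← zpow_add, ← zpow_add, hdm, neg_add_cancel, zpow_zero]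
        have e4 : c ^ r * (c ^ ((k : ℤ) * q) * (c ^ m * g) * (c ^ ((k : ℤ) * q))⁻¹ * ((d : P) : G)) =
            (c ^ r * c ^ ((k : ℤ) * q) * c ^ m) * g * (c ^ ((k : ℤ) * q))⁻¹ * ((d : P) : G) := by
          group
        rw [e4, e3, one_mul]
        group
      rw [e1, e2]
      have hdD : ((d : P) : G) ∈ D := d.2
      refine mul_mem (inv_mem (Subgroup.mem_sup_left hdD)) (Subgroup.mem_sup_right ?_)
      rw [zpow_mul, zpow_natCast]
      exact zpow_mem (Subgroup.mem_zpowers _) q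
  have hfin2 : Finite (K ⧸ D'.subgroupOf K) := Finite.of_surjective f hs
  exact Subgroup.index_ne_zero_iff_finite.2 hfin2

end Pool.Agent.N453.ZS
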