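import Pool.Agent.H79.LZ.N453_ZS_PD

/-!
From the cohomology `H^k(G; ℤ[G])` of `Pool.Agent.H919R4.ZS.Defs` to the cohomology with
coefficients in the permutation module `ℤ[G/1]`.
-/

set_option autoImplicit false

namespace Pool.Agent.N453.ZS

open Pool.Agent.H919R4.ZS (FinRes)
open Pool.Agent.H919R4.AS (permZ ringZ cobdZ coboundariesZ cohomologyZ)

variable {G : Type} [Group G]

/-- Coordinatewise, the finitely supported function of an element of the group ring. -/
def cf {a : ℕ} : (Fin a → MonoidAlgebra ℤ G) →+ (Fin a → (G →₀ ℤ)) where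
  toFun y := fun j => (y j).coeff
  map_zero' := rfl
  map_add' _ _ := rfl

lemma cf_apply {a : ℕ} (y : Fin a → MonoidAlgebra ℤ G) (j : Fin a) : cf y j = (y j).coeff := rfl

lemma cf_inj {a : ℕ} : Function.Injective (cf : (Fin a → MonoidAlgebra ℤ G) →+ _) := by
  intro x y h
  funext j
  exact MonoidAlgebra.coeff_injective (congrFun h j)

lemma cf_surj {a : ℕ} (z : Fin a → (G →₀ ℤ)) :
    ∃ y : Fin a → MonoidAlgebra ℤ G, cf y = z :=
  ⟨fun j => MonoidAlgebra.ofCoeff (z j), rfl⟩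

lemma ringZ_coeff (a b : MonoidAlgebra ℤ G) : ringZ G G a b.coeff = (a * b).coeff := by
  refine MonoidAlgebra.induction_linear a ?_ ?_ ?_
  · rw [map_zero, zero_mul]; rfl
  · intro x y hx hy
    rw [map_add, add_mul, MonoidAlgebra.coeff_add, ← hx, ← hy]
    rfl
  · intro g r
    refine MonoidAlgebra.induction_linear b ?_ ?_ ?_
    · rw [mul_zero, MonoidAlgebra.coeff_zero, map_zero]
    · intro x y hx hy
      rw [mul_add, MonoidAlgebra.coeff_add, MonoidAlgebra.coeff_add, map_add, hx, hy]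
    · intro h s
      rw [ringZ_single, MonoidAlgebra.single_mul_single, MonoidAlgebra.coeff_single,
        MonoidAlgebra.coeff_single, Finsupp.mapDomain_single, Finsupp.smul_single, smul_eq_mul,
        smul_eq_mul]

lemma cobdZ_cf (X : FinRes G) (i : ℕ) (y : Fin (X.n i) → MonoidAlgebra ℤ G) :
    cobdZ X G i (cf y) = cf (X.cobd i y) := by
  funext k
  change ∑ j, ringZ G G (X.d i k j) (y j).coeff = ((X.d i).mulVec y k).coeff
  rw [Matrix.mulVec, dotProduct, MonoidAlgebra.coeff_sum]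
  exact Finset.sum_congr rfl fun j _ => ringZ_coeff _ _

lemma cob_cf (X : FinRes G) {i : ℕ} {y : Fin (X.n i) → MonoidAlgebra ℤ G} :
    cf y ∈ coboundariesZ X G i ↔ y ∈ X.coboundaries i := by
  cases i with
  | zero =>
    change cf y = 0 ↔ y = 0
    constructor
    · intro h
      apply cf_inj
      rw [h, map_zero]
    · rintro rfl
      rw [map_zero]
  | succ i =>
    constructor
    · rintro ⟨w, hw⟩
      obtain ⟨v, rfl⟩ := cf_surj w
      refine ⟨v, cf_inj ?_⟩
      rw [← cobdZ_cf, hw]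
    · rintro ⟨v, rfl⟩
      exact ⟨cf v, cobdZ_cf X i v⟩

lemma mem_of_subsingleton (X : FinRes G) {k : ℕ} (h : Subsingleton (X.cohomology k))
    {y : Fin (X.n k) → MonoidAlgebra ℤ G} (hy : X.cobd k y = 0) : y ∈ X.coboundaries k := by
  rw [QuotientAddGroup.subsingleton_iff, AddSubgroup.addSubgroupOf_eq_top] at h
  exact h hy

lemma low_of (X : FinRes G) {n : ℕ} (h : ∀ k < n, Subsingleton (X.cohomology k)) : Low X G n := by
  intro k hk z hz
  obtain ⟨y, rfl⟩ := cf_surj z
  rw [cob_cf]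
  refine mem_of_subsingleton X (h k hk) (cf_inj ?_)
  rw [← cobdZ_cf, hz, map_zero]

lemma cyc_of (X : FinRes G) {n : ℕ} (h : ∀ k < n, Subsingleton (X.cohomology k))
    (e : X.cohomology n ≃+ ℤ) : Cyc X G n := by
  refine ⟨low_of X h, ?_⟩
  obtain ⟨⟨x, hx⟩, hx1⟩ := QuotientAddGroup.mk_surjective (e.symm 1)
  have key : ∀ (y : Fin (X.n n) → MonoidAlgebra ℤ G) (hy : y ∈ (X.cobd n).ker),
      ((⟨y, hy⟩ : (X.cobd n).ker) : X.cohomology n) = 0 ↔ y ∈ X.coboundaries n := by
    intro y hy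
    rw [QuotientAddGroup.eq_zero_iff]
    rfl
  refine ⟨cf x, by rw [cobdZ_cf, show X.cobd n x = 0 from hx, map_zero], ?_, ?_⟩
  · intro a ha
    rw [← map_zsmul, cob_cf, ← key _ (AddSubgroup.zsmul_mem _ hx a)] at ha
    have h1 : a • (((⟨x, hx⟩ : (X.cobd n).ker) : X.cohomology n)) = 0 := ha
    rw [hx1] at h1
    have h2 := congrArg e h1
    rw [map_zsmul, AddEquiv.apply_symm_apply, map_zero, smul_eq_mul, mul_one] at h2
    exact h2
  · intro z hz
    obtain ⟨y, rfl⟩ := cf_surj z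
    have hy : y ∈ (X.cobd n).ker := by
      change X.cobd n y = 0
      apply cf_inj
      rw [← cobdZ_cf, hz, map_zero]
    refine ⟨e ((⟨y, hy⟩ : (X.cobd n).ker) : X.cohomology n), ?_⟩
    set a : ℤ := e ((⟨y, hy⟩ : (X.cobd n).ker) : X.cohomology n) with ha
    rw [← map_zsmul, ← map_sub, cob_cf,
      ← key _ (AddSubgroup.sub_mem _ hy (AddSubgroup.zsmul_mem _ hx a))]
    have h1 : (((⟨y, hy⟩ : (X.cobd n).ker) : X.cohomology n)) -
        a • (((⟨x, hx⟩ : (X.cobd n).ker) : X.cohomology n)) = 0 := by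
      rw [hx1]
      apply e.injective
      rw [map_sub, map_zsmul, AddEquiv.apply_symm_apply, map_zero, ← ha]
      simp
    exact h1

lemma Cyc.congr {X : FinRes G} {S T : Type} [MulAction G S] [MulAction G T] (φ : S ≃ T)
    (hφ : ∀ (g : G) (s : S), φ (g • s) = g • φ s) {m : ℕ} (h : Cyc X S m) : Cyc X T m := by
  have hφ' : ∀ (g : G) (s : T), φ.symm (g • s) = g • φ.symm s := by
    intro g s
    apply φ.injective
    rw [hφ, Equiv.apply_symm_apply, Equiv.apply_symm_apply]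
  have e1 : ∀ {a : ℕ} (z : Fin a → (T →₀ ℤ)), psh φ (psh φ.symm z) = z := by
    intro a z
    rw [psh_psh]
    simp only [Equiv.apply_symm_apply]
    exact psh_id z
  have e2 : ∀ {a : ℕ} (z : Fin a → (S →₀ ℤ)), psh φ.symm (psh φ z) = z := by
    intro a z
    rw [psh_psh]
    simp only [Equiv.symm_apply_apply]
    exact psh_id z
  obtain ⟨hl, x, hx0, hx1, hx2⟩ := h
  refine ⟨?_, psh φ x, by rw [cobdZ_psh X φ hφ, hx0, map_zero], ?_, ?_⟩
  · intro k hk z hz
    rw [← e1 z]
    refine cob_psh X φ hφ (hl k hk _ ?_)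
    rw [cobdZ_psh X φ.symm hφ', hz, map_zero]
  · intro a ha
    have h1 := cob_psh X φ.symm hφ' ha
    rw [map_zsmul, e2] at h1
    exact hx1 a h1
  · intro z hz
    obtain ⟨a, ha⟩ := hx2 (psh φ.symm z) (by rw [cobdZ_psh X φ.symm hφ', hz, map_zero])
    refine ⟨a, ?_⟩
    have h1 := cob_psh X φ hφ ha
    rw [map_sub, map_zsmul, e1] at h1
    exact h1

theorem cyc_bot (X : FinRes G) {n : ℕ} (h : ∀ k < n, Subsingleton (X.cohomology k))
    (e : X.cohomology n ≃+ ℤ) : Cyc X (G ⧸ (⊥ : Subgroup G)) n := by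
  refine (cyc_of X h e).congr
    (Equiv.ofBijective (fun g : G => (g : G ⧸ (⊥ : Subgroup G))) ⟨?_, ?_⟩) ?_
  · intro a b hab
    have h1 := QuotientGroup.eq.1 hab
    rw [Subgroup.mem_bot] at h1
    exact (eq_of_inv_mul_eq_one h1)
  · exact QuotientGroup.mk_surjective
  · intro g s
    rfl

end Pool.Agent.N453.ZS
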