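import Pool.Agent.H79.LZ.N453_ZS_Quo

/-!
If `H^k(G; ℤ[G/N]) = 0` for `k < m + 1` and `H^(m+1)(G; ℤ[G/N])` is infinite cyclic, then the same
holds for `m` and `N ⊔ ⟨c²⟩`, where `c` normalises `N` and has infinite order modulo `N`.
-/

set_option autoImplicit false

namespace Pool.Agent.N453.ZS

open Pool.Agent.H919R4.ZS (FinRes)
open Pool.Agent.H919R4.AS (permZ ringZ cobdZ coboundariesZ cohomologyZ)

variable {G : Type} [Group G]

/-- `H^k(G; ℤ[S]) = 0` for `k < m`, and `H^m(G; ℤ[S])` is infinite cyclic. -/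
def Cyc (X : FinRes G) (S : Type) [MulAction G S] (m : ℕ) : Prop :=
  Low X S m ∧ ∃ x : Fin (X.n m) → (S →₀ ℤ), cobdZ X S m x = 0 ∧
    (∀ a : ℤ, a • x ∈ coboundariesZ X S m → a = 0) ∧
    ∀ z : Fin (X.n m) → (S →₀ ℤ), cobdZ X S m z = 0 →
      ∃ a : ℤ, z - a • x ∈ coboundariesZ X S m

lemma Low.mono {X : FinRes G} {S : Type} [MulAction G S] {m k : ℕ} (h : Low X S m) (hk : k ≤ m) :
    Low X S k := fun i hi => h i (hi.trans_le hk)

lemma cyc_step (X : FinRes G) {S T : Type} [MulAction G S] [MulAction G T] {p : S → T}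
    {R : Equiv.Perm S} (h : IsQuo G p (R ^ 2)) (hR : ∀ (g : G) (s : S), R (g • s) = g • R s) {m : ℕ}
    (hS : Cyc X S (m + 1)) : Cyc X T m := by
  obtain ⟨hl, x, hx0, hx1, hx2⟩ := hS
  have hR' : ∀ (g : G) (s : S), R.symm (g • s) = g • R.symm s := by
    intro g s
    apply R.injective
    rw [hR, Equiv.apply_symm_apply, Equiv.apply_symm_apply]
  have c1 : ∀ {z : Fin (X.n (m + 1)) → (S →₀ ℤ)}, z ∈ coboundariesZ X S (m + 1) →
      psh R z ∈ coboundariesZ X S (m + 1) := fun hz => cob_psh X R hR hz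
  obtain ⟨a, ha⟩ := hx2 (psh R x) (by rw [cobdZ_psh X R hR, hx0, map_zero])
  obtain ⟨b, hb⟩ := hx2 (psh R.symm x) (by rw [cobdZ_psh X R.symm hR', hx0, map_zero])
  have hab : b * a = 1 := by
    have h1 := c1 hb
    rw [map_sub, map_zsmul, psh_psh] at h1
    have h2 : psh (fun s : S => R (R.symm s)) x = x := by
      simp only [Equiv.apply_symm_apply]
      exact psh_id x
    rw [h2] at h1
    have h3 := AddSubgroup.add_mem _ h1 (AddSubgroup.zsmul_mem _ ha b)
    rw [smul_sub, sub_add_sub_cancel, ← mul_smul] at h3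
    have h4 := hx1 (1 - b * a) (by rw [sub_smul, one_smul]; exact h3)
    omega
  have haa : a * a = 1 := by
    rcases Int.isUnit_iff.1 (IsUnit.of_mul_eq_one_right b hab) with h1 | h1 <;> rw [h1] <;> rfl
  have h2 : psh (R ^ 2 : Equiv.Perm S) x - x ∈ coboundariesZ X S (m + 1) := by
    have h1 := AddSubgroup.add_mem _ (c1 ha) (AddSubgroup.zsmul_mem _ ha a)
    rw [map_sub, map_zsmul, psh_psh, smul_sub, sub_add_sub_cancel, ← mul_smul, haa,
      one_smul] at h1
    exact h1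
  obtain ⟨y, hy⟩ : x - psh (R ^ 2 : Equiv.Perm S) x ∈ coboundariesZ X S (m + 1) := by
    have := AddSubgroup.neg_mem _ h2
    rwa [neg_sub] at this
  refine ⟨step_low X h (m := m) hl, psh p y, step_cocyc X h hy.symm, ?_, ?_⟩
  · intro a ha
    exact hx1 a (step_ne X h hy.symm a ha)
  · intro z hz
    exact step_gen X h hl hy.symm hx2 z hz

lemma rmul_sq (N : Subgroup G) (c : G) (hc : c ∈ Subgroup.normalizer N) :
    rmul N (c ^ 2) (pow_mem hc 2) = rmul N c hc ^ 2 := by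
  ext s
  induction s using QuotientGroup.induction_on with
  | H x =>
    change ((x * c ^ 2 : G) : G ⧸ N) = ((x * c * c : G) : G ⧸ N)
    rw [pow_two, mul_assoc]

/-- the step for `ℤ[G/N]` -/
theorem cyc_coset (X : FinRes G) (N : Subgroup G) (c : G) (hc : c ∈ Subgroup.normalizer N)
    (hi : ∀ m : ℤ, c ^ m ∈ N → m = 0) {m : ℕ} (h : Cyc X (G ⧸ N) (m + 1)) :
    Cyc X (G ⧸ (N ⊔ Subgroup.zpowers (c ^ 2))) m := by
  have h1 := isQuo N (c ^ 2) (pow_mem hc 2) (by
    intro k hk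
    have h2 : c ^ (2 * k) ∈ N := by
      rw [zpow_mul]
      exact_mod_cast hk
    have := hi _ h2
    omega)
  rw [rmul_sq N c hc] at h1
  exact cyc_step X h1 (rmul_smul N c hc) h

end Pool.Agent.N453.ZS
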