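import Pool.Agent.H79.LZ.H919R4_AS_Final

/-!
Cohomology of a group with coefficients in permutation modules `ℤ[S]`, `ℤ[T]`, where `T` is the
quotient of the `G`-set `S` by an equivariant permutation `R` without finite cycles: the long exact
sequence of `0 → ℤ[S] → ℤ[S] → ℤ[T] → 0`, in the form of statements on cocycles.
-/

set_option autoImplicit false

namespace Pool.Agent.N453.ZS

open Pool.Agent.H919R4.ZS (FinRes)
open Pool.Agent.H919R4.AS (permZ ringZ cobdZ coboundariesZ cohomologyZ)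

noncomputable section

/-- The map of tuples of elements of permutation modules given by a map of sets. -/
def psh {S T : Type} (φ : S → T) {a : ℕ} : (Fin a → (S →₀ ℤ)) →+ (Fin a → (T →₀ ℤ)) where
  toFun y := fun j => Finsupp.mapDomain φ (y j)
  map_zero' := by funext j; simp
  map_add' x y := by funext j; simp [Finsupp.mapDomain_add]

lemma psh_apply {S T : Type} (φ : S → T) {a : ℕ} (y : Fin a → (S →₀ ℤ)) (j : Fin a) :
    psh φ y j = Finsupp.mapDomain φ (y j) := rfl

lemma psh_psh {S T U : Type} (φ : S → T) (ψ : T → U) {a : ℕ} (y : Fin a → (S →₀ ℤ)) :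
    psh ψ (psh φ y) = psh (fun s => ψ (φ s)) y := by
  funext j
  simp only [psh_apply]
  rw [← Finsupp.mapDomain_comp]
  rfl

lemma psh_id {S : Type} {a : ℕ} (y : Fin a → (S →₀ ℤ)) : psh (fun s : S => s) y = y := by
  funext j
  exact Finsupp.mapDomain_id

variable {G : Type} [Group G]

lemma ringZ_single {S : Type} [MulAction G S] (g : G) (r : ℤ) (f : S →₀ ℤ) :
    ringZ G S (MonoidAlgebra.single g r) f = r • Finsupp.mapDomain (fun z : S => g • z) f := by
  have e4 : ringZ G S (MonoidAlgebra.single g r) = (r : AddMonoid.End (S →₀ ℤ)) * permZ G S g := by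
    change MonoidAlgebra.liftNC _ _ _ = _
    rw [MonoidAlgebra.liftNC_single]
    rfl
  rw [e4]
  change (r : AddMonoid.End (S →₀ ℤ)) (permZ G S g f) = _
  rw [AddMonoid.End.intCast_apply]
  rfl

lemma map_ringZ {S T : Type} [MulAction G S] [MulAction G T] (φ : S → T)
    (hφ : ∀ (g : G) (s : S), φ (g • s) = g • φ s) (a : MonoidAlgebra ℤ G) (f : S →₀ ℤ) :
    Finsupp.mapDomain φ (ringZ G S a f) = ringZ G T a (Finsupp.mapDomain φ f) := by
  refine MonoidAlgebra.induction_linear a ?_ ?_ ?_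
  · simp
  · intro x y hx hy
    rw [map_add, map_add]
    change Finsupp.mapDomain φ (ringZ G S x f + ringZ G S y f) =
      ringZ G T x (Finsupp.mapDomain φ f) + ringZ G T y (Finsupp.mapDomain φ f)
    rw [Finsupp.mapDomain_add, hx, hy]
  · intro g r
    rw [ringZ_single, ringZ_single, Finsupp.mapDomain_smul, ← Finsupp.mapDomain_comp,
      ← Finsupp.mapDomain_comp]
    congr 2
    funext s
    exact hφ g s

lemma cobdZ_psh (X : FinRes G) {S T : Type} [MulAction G S] [MulAction G T] (φ : S → T)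
    (hφ : ∀ (g : G) (s : S), φ (g • s) = g • φ s) (i : ℕ) (y : Fin (X.n i) → (S →₀ ℤ)) :
    cobdZ X T i (psh φ y) = psh φ (cobdZ X S i y) := by
  funext k
  change ∑ j, ringZ G T (X.d i k j) (Finsupp.mapDomain φ (y j)) =
    Finsupp.mapDomain φ (∑ j, ringZ G S (X.d i k j) (y j))
  rw [Finsupp.mapDomain_finsetSum]
  exact Finset.sum_congr rfl fun j _ => (map_ringZ φ hφ _ _).symm

lemma cobdZ_cobdZ (X : FinRes G) {S : Type} [MulAction G S] (i : ℕ) (y : Fin (X.n i) → (S →₀ ℤ)) :
    cobdZ X S (i + 1) (cobdZ X S i y) = 0 := by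
  funext k
  change ∑ j, ringZ G S (X.d (i + 1) k j) (∑ l, ringZ G S (X.d i j l) (y l)) = 0
  have h := Pool.Agent.H919R4.ZS.d_mul_d X i
  calc ∑ j, ringZ G S (X.d (i + 1) k j) (∑ l, ringZ G S (X.d i j l) (y l))
      = ∑ l, ∑ j, ringZ G S (X.d (i + 1) k j) (ringZ G S (X.d i j l) (y l)) := by
        rw [Finset.sum_comm]
        exact Finset.sum_congr rfl fun j _ => map_sum _ _ _
    _ = ∑ l, ringZ G S ((X.d (i + 1) * X.d i) k l) (y l) := by
        refine Finset.sum_congr rfl fun l _ => ?_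
        rw [Matrix.mul_apply, map_sum]
        have e := AddMonoidHom.finsetSum_apply
          (fun j => ringZ G S (X.d (i + 1) k j * X.d i j l)) Finset.univ (y l)
        refine Eq.trans ?_ e.symm
        refine Finset.sum_congr rfl fun j _ => ?_
        rw [map_mul]
        rfl
    _ = 0 := by
        rw [h]
        simp

lemma cob_psh (X : FinRes G) {S T : Type} [MulAction G S] [MulAction G T] (φ : S → T)
    (hφ : ∀ (g : G) (s : S), φ (g • s) = g • φ s) {k : ℕ} {z : Fin (X.n k) → (S →₀ ℤ)}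
    (hz : z ∈ coboundariesZ X S k) : psh φ z ∈ coboundariesZ X T k := by
  cases k with
  | zero =>
    have h0 : z = 0 := hz
    rw [h0, map_zero]
    exact AddSubgroup.zero_mem _
  | succ k =>
    obtain ⟨y, rfl⟩ := hz
    exact ⟨psh φ y, cobdZ_psh X φ hφ k y⟩

lemma cocyc_of_cob (X : FinRes G) {S : Type} [MulAction G S] {k : ℕ}
    {z : Fin (X.n k) → (S →₀ ℤ)} (hz : z ∈ coboundariesZ X S k) : cobdZ X S k z = 0 := by
  cases k with
  | zero =>
    have h0 : z = 0 := hz
    rw [h0, map_zero]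
  | succ k =>
    obtain ⟨y, rfl⟩ := hz
    exact cobdZ_cobdZ X k y

/-- `H^k(G; ℤ[S]) = 0` for `k < m`. -/
def Low (X : FinRes G) (S : Type) [MulAction G S] (m : ℕ) : Prop :=
  ∀ k < m, ∀ z : Fin (X.n k) → (S →₀ ℤ), cobdZ X S k z = 0 → z ∈ coboundariesZ X S k

/-- `T` is the quotient of the `G`-set `S` by the equivariant permutation `R`, which has no finite
cycles. -/
structure IsQuo (G : Type) [Group G] {S T : Type} [MulAction G S] [MulAction G T] (p : S → T)
    (R : Equiv.Perm S) : Prop where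
  p_smul : ∀ (g : G) (s : S), p (g • s) = g • p s
  R_smul : ∀ (g : G) (s : S), R (g • s) = g • R s
  p_R : ∀ s, p (R s) = p s
  surj : Function.Surjective p
  fib : ∀ s s', p s = p s' → ∃ m : ℤ, (R ^ m) s = s'
  free : ∀ (s : S) (m : ℤ), (R ^ m) s = s → m = 0

section

variable {S T : Type} [MulAction G S] [MulAction G T] {p : S → T} {R : Equiv.Perm S}

lemma psh_surj {p : S → T} (hp : Function.Surjective p) {a : ℕ} (y : Fin a → (T →₀ ℤ)) :
    ∃ x, psh p x = y := by
  choose σ hσ using hp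
  refine ⟨psh σ y, ?_⟩
  rw [psh_psh]
  funext j
  rw [psh_apply]
  simp only [hσ]
  exact Finsupp.mapDomain_id

lemma exists_sub (h : IsQuo G p R) (x : S →₀ ℤ) (hx : Finsupp.mapDomain p x = 0) :
    ∃ y, x = y - Finsupp.mapDomain R y := by
  choose σ hσ using h.surj
  let D : (S →₀ ℤ) →+ (S →₀ ℤ) :=
    AddMonoidHom.id _ - Finsupp.mapDomain.addMonoidHom R
  have hD : ∀ y, D y = y - Finsupp.mapDomain R y := fun y => rfl
  have h1 : ∀ (m : ℤ) (s : S) (n : ℤ),
      Finsupp.single s n - Finsupp.single ((R ^ m) s) n ∈ D.range := by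
    have hs : ∀ (s : S) (n : ℤ), Finsupp.single s n - Finsupp.single (R s) n ∈ D.range := by
      intro s n
      refine ⟨Finsupp.single s n, ?_⟩
      rw [hD, Finsupp.mapDomain_single]
    intro m
    induction m using Int.induction_on with
    | zero => intro s n; simp
    | succ i ih =>
      intro s n
      have h2 := D.range.add_mem (ih s n) (hs ((R ^ (i : ℤ)) s) n)
      rw [sub_add_sub_cancel] at h2
      rw [add_comm, zpow_add, zpow_one, Equiv.Perm.mul_apply]
      exact h2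
    | pred i ih =>
      intro s n
      have h2 := D.range.sub_mem (ih s n) (hs ((R ^ (-(i : ℤ) - 1)) s) n)
      have h3 : R ((R ^ (-(i : ℤ) - 1)) s) = (R ^ (-(i : ℤ))) s := by
        rw [← Equiv.Perm.mul_apply, ← zpow_one_add]
        congr 2
        ring
      rw [h3] at h2
      have h4 : Finsupp.single s n - Finsupp.single ((R ^ (-(i : ℤ))) s) n -
          (Finsupp.single ((R ^ (-(i : ℤ) - 1)) s) n - Finsupp.single ((R ^ (-(i : ℤ))) s) n) =
          Finsupp.single s n - Finsupp.single ((R ^ (-(i : ℤ) - 1)) s) n := by abel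
      rw [h4] at h2
      exact h2
  have h2 : ∀ x : S →₀ ℤ, x - Finsupp.mapDomain (fun s => σ (p s)) x ∈ D.range := by
    intro x
    induction x using Finsupp.induction_linear with
    | zero => simp
    | add f g hf hg =>
      rw [Finsupp.mapDomain_add, add_sub_add_comm]
      exact D.range.add_mem hf hg
    | single s n =>
      rw [Finsupp.mapDomain_single]
      obtain ⟨m, hm⟩ := h.fib s (σ (p s)) (hσ (p s)).symm
      rw [← hm]
      exact h1 m s n
  have h3 : Finsupp.mapDomain (fun s => σ (p s)) x = 0 := by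
    have : (fun s => σ (p s)) = σ ∘ p := rfl
    rw [this, Finsupp.mapDomain_comp, hx]
    simp
  obtain ⟨y, hy⟩ := h2 x
  rw [h3, sub_zero] at hy
  exact ⟨y, by rw [← hy, hD]⟩

lemma eq_zero_of_fix (h : IsQuo G p R) (y : S →₀ ℤ) (hy : Finsupp.mapDomain R y = y) : y = 0 := by
  have h1 : ∀ s, y (R s) = y s := by
    intro s
    conv_lhs => rw [← hy]
    exact Finsupp.mapDomain_apply R.injective y s
  have h2 : ∀ (m : ℕ) (s : S), y ((R ^ m) s) = y s := by
    intro m
    induction m with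
    | zero => intro s; rfl
    | succ m ih =>
      intro s
      rw [pow_succ, Equiv.Perm.mul_apply, ih, h1]
  by_contra hne
  obtain ⟨s, hs⟩ := Finsupp.ne_iff.1 hne
  have hs' : y s ≠ 0 := by simpa using hs
  have hinj : Function.Injective fun m : ℕ => (R ^ m) s := by
    intro a b hab
    have h3 : (R ^ ((a : ℤ) - b)) s = s := by
      have h4 : (R ^ (a : ℤ)) s = (R ^ (b : ℤ)) s := by exact_mod_cast hab
      rw [sub_eq_neg_add, zpow_add, Equiv.Perm.mul_apply, h4, ← Equiv.Perm.mul_apply, ← zpow_add]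
      simp
    have := h.free s _ h3
    omega
  have hfin : (Set.range fun m : ℕ => (R ^ m) s).Finite := by
    refine (Finset.finite_toSet y.support).subset ?_
    rintro _ ⟨m, rfl⟩
    rw [Finset.mem_coe, Finsupp.mem_support_iff]
    change y ((R ^ m) s) ≠ 0
    rw [h2]
    exact hs'
  exact Set.infinite_range_of_injective hinj hfin

lemma psh_ker (h : IsQuo G p R) {a : ℕ} (x : Fin a → (S →₀ ℤ)) (hx : psh p x = 0) :
    ∃ y, x = y - psh R y := by
  choose y hy using fun j => exists_sub h (x j) (congrFun hx j)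
  refine ⟨y, ?_⟩
  funext j
  rw [Pi.sub_apply, psh_apply]
  exact hy j

lemma psh_inj (h : IsQuo G p R) {a : ℕ} (x : Fin a → (S →₀ ℤ)) (hx : x - psh R x = 0) :
    x = 0 := by
  funext j
  refine eq_zero_of_fix h (x j) ?_
  have h1 := congrFun hx j
  rw [Pi.sub_apply, psh_apply, Pi.zero_apply, sub_eq_zero] at h1
  exact h1.symm

lemma psh_sub_R (h : IsQuo G p R) {a : ℕ} (x : Fin a → (S →₀ ℤ)) :
    psh p (x - psh R x) = 0 := by
  rw [map_sub, psh_psh]
  simp only [h.p_R]
  exact sub_self _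

variable (X : FinRes G)

lemma lift_cob (h : IsQuo G p R) {k : ℕ} {z : Fin (X.n k) → (T →₀ ℤ)}
    (hz : z ∈ coboundariesZ X T k) : ∃ e ∈ coboundariesZ X S k, psh p e = z := by
  cases k with
  | zero =>
    have h0 : z = 0 := hz
    exact ⟨0, AddSubgroup.zero_mem _, by rw [h0, map_zero]⟩
  | succ k =>
    obtain ⟨y, rfl⟩ := hz
    obtain ⟨x, rfl⟩ := psh_surj h.surj y
    exact ⟨cobdZ X S k x, ⟨x, rfl⟩, (cobdZ_psh X p h.p_smul k x).symm⟩

lemma cobd_sub (h : IsQuo G p R) (k : ℕ) (x : Fin (X.n k) → (S →₀ ℤ)) :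
    cobdZ X S k (x - psh R x) = cobdZ X S k x - psh R (cobdZ X S k x) := by
  rw [map_sub, cobdZ_psh X R h.R_smul]

theorem step_low (h : IsQuo G p R) {m : ℕ} (hm : Low X S (m + 1)) : Low X T m := by
  intro k hk z hz
  obtain ⟨y, rfl⟩ := psh_surj h.surj z
  rw [cobdZ_psh X p h.p_smul] at hz
  obtain ⟨w, hw⟩ := psh_ker h _ hz
  have h1 : cobdZ X S (k + 1) w = 0 := by
    apply psh_inj h
    rw [← cobd_sub X h, ← hw, cobdZ_cobdZ]
  obtain ⟨v, hv⟩ := hm (k + 1) (by omega) w h1
  have h2 : cobdZ X S k (y - (v - psh R v)) = 0 := by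
    rw [map_sub, cobd_sub X h, hv, ← hw, sub_self]
  have h3 := cob_psh X p h.p_smul (hm k (by omega) _ h2)
  rw [map_sub, psh_sub_R h, sub_zero] at h3
  exact h3

theorem step_cocyc (h : IsQuo G p R) {m : ℕ} {x : Fin (X.n (m + 1)) → (S →₀ ℤ)}
    {y : Fin (X.n m) → (S →₀ ℤ)} (hxy : x - psh R x = cobdZ X S m y) :
    cobdZ X T m (psh p y) = 0 := by
  rw [cobdZ_psh X p h.p_smul, ← hxy, psh_sub_R h]

theorem step_ne (h : IsQuo G p R) {m : ℕ} {x : Fin (X.n (m + 1)) → (S →₀ ℤ)}
    {y : Fin (X.n m) → (S →₀ ℤ)} (hxy : x - psh R x = cobdZ X S m y) (a : ℤ)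
    (ha : a • psh p y ∈ coboundariesZ X T m) : a • x ∈ coboundariesZ X S (m + 1) := by
  obtain ⟨e, he, he'⟩ := lift_cob X h ha
  have h1 : psh p (a • y - e) = 0 := by
    rw [map_sub, map_zsmul, he', sub_self]
  obtain ⟨v, hv⟩ := psh_ker h _ h1
  have h2 : a • x - cobdZ X S m v = 0 := by
    apply psh_inj h
    have e1 : a • (x - psh R x) = cobdZ X S m v - psh R (cobdZ X S m v) := by
      rw [hxy, ← map_zsmul, ← cobd_sub X h, ← hv, map_sub, cocyc_of_cob X he, sub_zero]
    rw [map_sub, map_zsmul]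
    rw [smul_sub] at e1
    have e2 : a • x - cobdZ X S m v - (a • psh R x - psh R (cobdZ X S m v)) =
        a • x - a • psh R x - (cobdZ X S m v - psh R (cobdZ X S m v)) := by abel
    rw [e2, e1, sub_self]
  exact ⟨v, (sub_eq_zero.1 h2).symm⟩

theorem step_fix (h : IsQuo G p R) {m : ℕ} (hm : Low X S (m + 1))
    {x : Fin (X.n (m + 1)) → (S →₀ ℤ)} {y : Fin (X.n m) → (S →₀ ℤ)}
    (hxy : x - psh R x = cobdZ X S m y) {Q : S → S} {Q' : T → T}
    (hQ : ∀ (g : G) (s : S), Q (g • s) = g • Q s) (hQR : ∀ s, Q (R s) = R (Q s))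
    (hQp : ∀ s, p (Q s) = Q' (p s)) (a : ℤ)
    (ha : psh Q x - a • x ∈ coboundariesZ X S (m + 1)) :
    psh Q' (psh p y) - a • psh p y ∈ coboundariesZ X T m := by
  obtain ⟨v, hv⟩ := ha
  have h1 : cobdZ X S m (psh Q y - a • y - (v - psh R v)) = 0 := by
    rw [map_sub, map_sub, cobd_sub X h, hv, map_zsmul, cobdZ_psh X Q hQ, ← hxy]
    have e1 : psh Q (psh R x) = psh R (psh Q x) := by
      rw [psh_psh, psh_psh]
      congr 1
      congr 1
      funext s
      exact hQR s
    rw [map_sub, map_sub, map_zsmul, e1, smul_sub]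
    abel
  have h2 := cob_psh X p h.p_smul (hm m (by omega) _ h1)
  rw [map_sub, map_sub, psh_sub_R h, sub_zero, map_zsmul, psh_psh] at h2
  rw [psh_psh]
  simp only [hQp] at h2
  exact h2

theorem step_gen (h : IsQuo G p R) {m : ℕ} (hm : Low X S (m + 1))
    {x : Fin (X.n (m + 1)) → (S →₀ ℤ)} {y : Fin (X.n m) → (S →₀ ℤ)}
    (hxy : x - psh R x = cobdZ X S m y)
    (hg : ∀ z : Fin (X.n (m + 1)) → (S →₀ ℤ), cobdZ X S (m + 1) z = 0 →
      ∃ a : ℤ, z - a • x ∈ coboundariesZ X S (m + 1))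
    (z : Fin (X.n m) → (T →₀ ℤ)) (hz : cobdZ X T m z = 0) :
    ∃ a : ℤ, z - a • psh p y ∈ coboundariesZ X T m := by
  obtain ⟨u, rfl⟩ := psh_surj h.surj z
  rw [cobdZ_psh X p h.p_smul] at hz
  obtain ⟨w, hw⟩ := psh_ker h _ hz
  have h1 : cobdZ X S (m + 1) w = 0 := by
    apply psh_inj h
    rw [← cobd_sub X h, ← hw, cobdZ_cobdZ]
  obtain ⟨a, v, hv⟩ := hg w h1
  refine ⟨a, ?_⟩
  have h2 : cobdZ X S m (u - a • y - (v - psh R v)) = 0 := by
    rw [map_sub, map_sub, cobd_sub X h, hv, map_zsmul, ← hxy, hw, map_sub, map_zsmul, smul_sub]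
    abel
  have h3 := cob_psh X p h.p_smul (hm m (by omega) _ h2)
  rw [map_sub, map_sub, psh_sub_R h, sub_zero, map_zsmul] at h3
  exact h3

end

end

end Pool.Agent.N453.ZS
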