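import Pool.Agent.H79.LZ.TH254_ZT_Defs
import Pool.Agent.H79.LZ.H919R4_ZS_Contr
import Pool.Agent.H79.LZ.H919R4_AS_Ext

set_option autoImplicit false
set_option linter.unusedSectionVars false

open scoped Matrix ENNReal Pointwise

namespace Pool.Agent.TH254.ZT

open Pool.Agent.H496R3.ZS (Ell IsAmenable permRep)
open Pool.Agent.H919R4.ZS (RedC toRed FinRes d_mul_d exact_of_subsingleton exists_rows)
open Pool.Agent.H919R4.AS (Mult LL LL_single exists_ext)

noncomputable section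

/-! ### the contraction in all degrees -/

section contr

variable {G : Type} [Group G] (X : FinRes G) {S : Type*} [Ring S]
  (φ : MonoidAlgebra ℤ G →+* S)

/-- the contraction identities in degree `k`, including `d s d = d` -/
def CI : ∀ k : ℕ, Matrix (Fin (X.n k)) (Fin (X.n (k + 1))) S → Prop
  | 0, s => s * (X.d 0).map φ = 1
  | k + 1, s => ∃ s' : Matrix (Fin (X.n k)) (Fin (X.n (k + 1))) S,
      (X.d k).map φ * s' + s * (X.d (k + 1)).map φ = 1

lemma exists_contr (k : ℕ) (h : ∀ i ≤ k, Subsingleton (X.homology φ i)) :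
    ∃ s : Matrix (Fin (X.n k)) (Fin (X.n (k + 1))) S,
      (X.d k).map φ * s * (X.d k).map φ = (X.d k).map φ ∧ CI X φ k s := by
  have dd : ∀ i, (X.d (i + 1)).map φ * (X.d i).map φ = 0 := by
    intro i
    rw [← Matrix.map_mul, d_mul_d]; ext; simp
  induction k with
  | zero =>
    obtain ⟨s0, hs0⟩ := exists_rows ((X.d 0).map φ) (1 : Matrix (Fin (X.n 0)) (Fin (X.n 0)) S)
      (fun i => exact_of_subsingleton X φ 0 (h 0 le_rfl) _ trivial)
    exact ⟨s0, by rw [Matrix.mul_assoc, hs0, Matrix.mul_one], hs0⟩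
  | succ k ih =>
    obtain ⟨s, hs, -⟩ := ih (fun i hi => h i (by omega))
    have e1 : (1 - (X.d k).map φ * s) * (X.d k).map φ = 0 := by
      rw [Matrix.sub_mul, Matrix.one_mul, hs, sub_self]
    obtain ⟨s1, hs1⟩ := exists_rows ((X.d (k + 1)).map φ) (1 - (X.d k).map φ * s)
      (fun i => exact_of_subsingleton X φ (k + 1) (h (k + 1) le_rfl) _ (by
        change ((1 - (X.d k).map φ * s : Matrix (Fin (X.n (k + 1))) (Fin (X.n (k + 1))) S) i) ᵥ*
          (X.d k).map φ = 0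
        rw [← Matrix.mul_apply_eq_vecMul, e1]; rfl))
    refine ⟨s1, ?_, s, ?_⟩
    · rw [Matrix.mul_assoc, hs1, Matrix.mul_sub, Matrix.mul_one, ← Matrix.mul_assoc, dd,
        Matrix.zero_mul, sub_zero]
    · rw [hs1]; abel

end contr

/-! ### the adjoint action -/

variable {G : Type} [Group G] {C : Subgroup G} {Z : Type} [MulAction G Z]

lemma norm_rep (m : Mult G Z) (g : G) (v : Ell Z) : ‖m.rep g v‖ = ‖v‖ := by
  change ‖(Mult.mulIso (m.φ g) (m.norm_one g)) (Pool.Agent.H496R3.ZS.permIso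
    (MulAction.toPerm (g⁻¹ : G) : Z ≃ Z) v)‖ = ‖v‖
  rw [LinearIsometry.norm_map, LinearIsometry.norm_map]

lemma rep_adjoint (m : Mult G Z) (g : G) :
    ContinuousLinearMap.adjoint (m.rep g) = m.rep g⁻¹ := by
  symm
  rw [ContinuousLinearMap.eq_adjoint_iff]
  intro u v
  set U : Ell Z →ₗᵢ[ℂ] Ell Z := ⟨(m.rep g).toLinearMap, fun v => norm_rep m g v⟩ with hU
  have h1 : ∀ w, U w = m.rep g w := fun w => rfl
  rw [← U.inner_map_map, h1, h1]
  have h2 : m.rep g (m.rep g⁻¹ u) = u := by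
    rw [← mul_apply_eq_comp, ← map_mul, mul_inv_cancel, map_one]
    rfl
  rw [h2]

/-- the action of the adjoints of the transposed matrix -/
def coact {a b : ℕ} (M : Matrix (Fin a) (Fin b) (Ell Z →L[ℂ] Ell Z)) (v : Fin a → Ell Z) :
    Fin b → Ell Z := fun j => ∑ i, ContinuousLinearMap.adjoint (M i j) (v i)

lemma coact_mul {a b c : ℕ} (M : Matrix (Fin a) (Fin b) (Ell Z →L[ℂ] Ell Z))
    (N : Matrix (Fin b) (Fin c) (Ell Z →L[ℂ] Ell Z)) (v : Fin a → Ell Z) :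
    coact (M * N) v = coact N (coact M v) := by
  funext i
  simp only [coact, Matrix.mul_apply, map_sum, sum_apply]
  rw [Finset.sum_comm]
  refine Finset.sum_congr rfl fun l _ => Finset.sum_congr rfl fun j _ => ?_
  rw [ContinuousLinearMap.mul_def, ContinuousLinearMap.adjoint_comp]
  rfl

lemma coact_add {a b : ℕ} (M N : Matrix (Fin a) (Fin b) (Ell Z →L[ℂ] Ell Z))
    (v : Fin a → Ell Z) : coact (M + N) v = coact M v + coact N v := by
  funext i
  simp [coact, Finset.sum_add_distrib]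

lemma coact_one {a : ℕ} (v : Fin a → Ell Z) :
    coact (1 : Matrix (Fin a) (Fin a) (Ell Z →L[ℂ] Ell Z)) v = v := by
  funext i
  simp only [coact]
  rw [Finset.sum_eq_single i]
  · rw [Matrix.one_apply_eq]
    have : ContinuousLinearMap.adjoint (1 : Ell Z →L[ℂ] Ell Z) = 1 := by
      symm
      rw [ContinuousLinearMap.eq_adjoint_iff]
      intro x y; rfl
    rw [this]; rfl
  · intro j _ hj
    rw [Matrix.one_apply_ne hj, map_zero]; rfl
  · simp

lemma coact_zero {a b : ℕ} (M : Matrix (Fin a) (Fin b) (Ell Z →L[ℂ] Ell Z)) :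
    coact M (0 : Fin a → Ell Z) = 0 := by
  funext i
  simp [coact]

lemma LL_eq_sum (m : Mult G Z) (a : MonoidAlgebra ℤ G) :
    LL m a = ∑ g ∈ a.coeff.support, (a.coeff g : ℂ) • m.rep g := by
  conv_lhs => rw [← MonoidAlgebra.sum_coeff_single a]
  rw [Finsupp.sum, map_sum]
  refine Finset.sum_congr rfl fun g _ => ?_
  rw [LL_single, Int.cast_smul_eq_zsmul]

/-- the formula for the adjoint of the action of an element of the integral group ring -/
lemma adjoint_LL (m : Mult G Z) (a : MonoidAlgebra ℤ G) (v : Ell Z) :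
    ContinuousLinearMap.adjoint (LL m a) v =
      ∑ g ∈ a.coeff.support, (a.coeff g : ℂ) • m.rep g⁻¹ v := by
  rw [LL_eq_sum, map_sum, sum_apply]
  refine Finset.sum_congr rfl fun g _ => ?_
  rw [LinearIsometryEquiv.map_smulₛₗ, rep_adjoint, smul_apply]
  congr 1
  simp

lemma adjoint_LL_apply (m : Mult G Z) (a : MonoidAlgebra ℤ G) (v : Ell Z) (q : Z) :
    ContinuousLinearMap.adjoint (LL m a) v q =
      ∑ g ∈ a.coeff.support, (a.coeff g : ℂ) * m.rep g⁻¹ v q := by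
  rw [adjoint_LL, lp.coeFn_sum, Finset.sum_apply]
  rfl

/-- a closed tuple is the image of a tuple, for the adjoint differentials -/
lemma exists_fill (X : FinRes G) (hC : IsAmenable C) (m : Mult G (G ⧸ C)) (k : ℕ)
    (h : ∀ i ≤ k, Subsingleton (X.homology (toRed G) i)) (v : Fin (X.n k) → Ell (G ⧸ C))
    (hv : ∀ i, ∀ e : i + 1 = k, coact ((X.d i).map (LL m)) (fun j => v (Fin.cast (by rw [e]) j)) = 0) :
    ∃ w, coact ((X.d k).map (LL m)) w = v := by
  obtain ⟨t, ht⟩ := exists_ext hC m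
  have key : ∀ i, ((X.d i).map (toRed G)).map t = (X.d i).map (LL m) := by
    intro i
    refine funext fun j => funext fun k => ?_
    exact ht (X.d i j k)
  obtain ⟨s, -, hs⟩ := exists_contr X (toRed G) k h
  cases k with
  | zero =>
    have f0 : s.map t * (X.d 0).map (LL m) = 1 := by
      have := Pool.Agent.H919R4.ZS.map_ident0 t _ _ hs
      rwa [key 0] at this
    refine ⟨coact (s.map t) v, ?_⟩
    rw [← coact_mul, f0, coact_one]
  | succ k =>
    obtain ⟨s', hs'⟩ := hs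
    have f1 : (X.d k).map (LL m) * s'.map t + s.map t * (X.d (k + 1)).map (LL m) = 1 := by
      have := Pool.Agent.H919R4.ZS.map_ident t _ _ _ _ hs'
      rwa [key k, key (k + 1)] at this
    refine ⟨coact (s.map t) v, ?_⟩
    have h0 : coact ((X.d k).map (LL m)) v = 0 := hv k rfl
    conv_rhs => rw [← coact_one v, ← f1, coact_add, coact_mul, coact_mul, h0, coact_zero, zero_add]

/-! ### the multiplier of a character -/

/-- a section of `G → G ⧸ C` -/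
def sec (q : G ⧸ C) : G := Quotient.out q

lemma mk_sec (q : G ⧸ C) : (QuotientGroup.mk (sec q) : G ⧸ C) = q := Quotient.out_eq q

lemma cmem (g : G) (z : G ⧸ C) : (sec (g⁻¹ • z))⁻¹ * (g⁻¹ * sec z) ∈ C := by
  rw [← QuotientGroup.eq, mk_sec]
  conv_lhs => rw [← mk_sec z]
  rfl

/-- the cocycle -/
def coc (g : G) (z : G ⧸ C) : C := ⟨(sec (g⁻¹ • z))⁻¹ * (g⁻¹ * sec z), cmem g z⟩

lemma coc_mul (g h : G) (z : G ⧸ C) : coc (g * h) z = coc h (g⁻¹ • z) * coc g z := by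
  apply Subtype.ext
  change (sec ((g * h)⁻¹ • z))⁻¹ * ((g * h)⁻¹ * sec z) =
    (sec (h⁻¹ • g⁻¹ • z))⁻¹ * (h⁻¹ * sec (g⁻¹ • z)) * ((sec (g⁻¹ • z))⁻¹ * (g⁻¹ * sec z))
  rw [mul_inv_rev, mul_smul]
  group

/-- the multiplier of a unitary character of `C` -/
def mchar (χ : C →* ℂ) (hχ : ∀ c, ‖χ c‖ = 1) : Mult G (G ⧸ C) where
  φ g z := (χ (coc g z))⁻¹
  norm_one g z := by rw [norm_inv, hχ, inv_one]
  mul g h z := by rw [coc_mul, map_mul, mul_inv, mul_comm]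

/-- the difference of an element and the representative of its coset -/
def dc (x : G) : C := ⟨(sec (QuotientGroup.mk x : G ⧸ C))⁻¹ * x, by
  rw [← QuotientGroup.eq, mk_sec]⟩

lemma dc_sec (q : G ⧸ C) : (dc (sec q) : C) = 1 := by
  apply Subtype.ext
  change (sec (QuotientGroup.mk (sec q) : G ⧸ C))⁻¹ * sec q = 1
  rw [mk_sec, inv_mul_cancel]

lemma mk_mul (x : G) (c : C) : (QuotientGroup.mk (x * c) : G ⧸ C) = QuotientGroup.mk x := by
  rw [eq_comm, QuotientGroup.eq]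
  simp

lemma dc_mul (x : G) (c : C) : (dc (x * c) : C) = dc x * c := by
  apply Subtype.ext
  change (sec (QuotientGroup.mk (x * c) : G ⧸ C))⁻¹ * (x * c) =
    (sec (QuotientGroup.mk x : G ⧸ C))⁻¹ * x * c
  rw [mk_mul, mul_assoc]

/-- from functions on `G ⧸ C` to twisted functions on `G` -/
def back (χ : C →* ℂ) (w : Ell (G ⧸ C)) (x : G) : ℂ :=
  (χ (dc x⁻¹))⁻¹ * w (QuotientGroup.mk x⁻¹)

lemma back_sec (χ : C →* ℂ) (w : Ell (G ⧸ C)) (q : G ⧸ C) : back χ w (sec q)⁻¹ = w q := by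
  rw [back, inv_inv, dc_sec, map_one, inv_one, one_mul, mk_sec]

lemma back_mul {χ : C →* ℂ} (w : Ell (G ⧸ C)) (c : C) (x : G) :
    back χ w (c * x) = χ c * back χ w x := by
  have h1 : ((c : G) * x)⁻¹ = x⁻¹ * ((c⁻¹ : C) : G) := by
    rw [mul_inv_rev]; rfl
  have h2 : χ c * χ c⁻¹ = 1 := by rw [← map_mul, mul_inv_cancel, map_one]
  have h3 : χ c⁻¹ = (χ c)⁻¹ := (inv_eq_of_mul_eq_one_right h2).symm
  rw [back, back, h1, dc_mul, mk_mul, map_mul, h3, mul_inv, inv_inv]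
  ring

lemma norm_back {χ : C →* ℂ} (hχ : ∀ c, ‖χ c‖ = 1) (w : Ell (G ⧸ C)) (x : G) :
    ‖back χ w x‖ = ‖w (QuotientGroup.mk x⁻¹)‖ := by
  rw [back, norm_mul, norm_inv, hχ, inv_one, one_mul]

lemma isChain_back {χ : C →* ℂ} (hχ : ∀ c, ‖χ c‖ = 1) {m : ℕ} (w : Fin m → Ell (G ⧸ C)) :
    IsChain χ (fun j => back χ (w j)) := by
  classical
  refine ⟨fun j c x => back_mul (w j) c x, ∑ j, ‖w j‖ ^ 2, fun j T hT => ?_⟩
  have h1 : ∑ x ∈ T, ‖back χ (w j) x‖ ^ 2 =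
      ∑ q ∈ T.image (fun x => (QuotientGroup.mk x⁻¹ : G ⧸ C)), ‖w j q‖ ^ 2 := by
    rw [Finset.sum_image]
    · exact Finset.sum_congr rfl fun x _ => by rw [norm_back hχ]
    · intro x hx y hy hxy
      refine hT x hx y hy ?_
      have := QuotientGroup.eq.1 hxy
      rwa [inv_inv] at this
  rw [h1]
  have h2 : ∑ q ∈ T.image (fun x => (QuotientGroup.mk x⁻¹ : G ⧸ C)), ‖w j q‖ ^ 2 ≤ ‖w j‖ ^ 2 := by
    have h3 := lp.sum_rpow_le_norm_rpow (p := 2) (by norm_num) (w j)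
      (T.image (fun x => (QuotientGroup.mk x⁻¹ : G ⧸ C)))
    have h4 : (2 : ENNReal).toReal = ((2 : ℕ) : ℝ) := by norm_num
    simp only [h4, Real.rpow_natCast] at h3
    exact h3
  exact h2.trans (Finset.single_le_sum (f := fun j => ‖w j‖ ^ 2) (fun i _ => by positivity)
    (Finset.mem_univ j))

lemma memlp_of_chain {χ : C →* ℂ} {m : ℕ} {f : Fin m → G → ℂ} (hf : IsChain χ f) (j : Fin m) :
    Memℓp (fun q : G ⧸ C => f j (sec q)⁻¹) 2 := by
  classical
  obtain ⟨-, B, hB⟩ := hf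
  refine memℓp_gen' (C := B) fun E => ?_
  have h4 : (2 : ENNReal).toReal = ((2 : ℕ) : ℝ) := by norm_num
  simp only [h4, Real.rpow_natCast]
  have hinj : ∀ q q' : G ⧸ C, (sec q)⁻¹ * ((sec q')⁻¹)⁻¹ ∈ C → q = q' := by
    intro q q' h
    rw [inv_inv, ← QuotientGroup.eq, mk_sec, mk_sec] at h
    exact h
  have h1 : ∑ q ∈ E, ‖f j (sec q)⁻¹‖ ^ 2 = ∑ x ∈ E.image (fun q => (sec q)⁻¹), ‖f j x‖ ^ 2 := by
    rw [Finset.sum_image]
    intro q _ q' _ h
    refine hinj q q' ?_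
    change (sec q)⁻¹ = (sec q')⁻¹ at h
    rw [h, mul_inv_cancel]
    exact C.one_mem
  rw [h1]
  refine hB j _ ?_
  intro x hx y hy hxy
  obtain ⟨q, -, rfl⟩ := Finset.mem_image.1 hx
  obtain ⟨q', -, rfl⟩ := Finset.mem_image.1 hy
  rw [hinj q q' hxy]

/-- the tuple of functions on `G ⧸ C` of a chain -/
def toV {χ : C →* ℂ} {m : ℕ} {f : Fin m → G → ℂ} (hf : IsChain χ f) (j : Fin m) : Ell (G ⧸ C) :=
  ⟨fun q => f j (sec q)⁻¹, memlp_of_chain hf j⟩

lemma toV_apply {χ : C →* ℂ} {m : ℕ} {f : Fin m → G → ℂ} (hf : IsChain χ f) (j : Fin m)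
    (q : G ⧸ C) : toV hf j q = f j (sec q)⁻¹ := rfl

lemma rep_transl {χ : C →* ℂ} (hχ : ∀ c, ‖χ c‖ = 1) (u : G → ℂ)
    (hu : ∀ (c : C) (x : G), u (c * x) = χ c * u x) (U : Ell (G ⧸ C))
    (hU : ∀ q, U q = u (sec q)⁻¹) (g : G) (q : G ⧸ C) :
    (mchar χ hχ).rep g⁻¹ U q = u ((sec q)⁻¹ * g⁻¹) := by
  rw [Mult.rep_apply, hU]
  change (χ (coc g⁻¹ q))⁻¹ * _ = _
  have h1 : (sec q)⁻¹ * g⁻¹ = ((coc g⁻¹ q)⁻¹ : C) * (sec (g⁻¹⁻¹ • q))⁻¹ := by
    change _ = ((sec (g⁻¹⁻¹ • q))⁻¹ * (g⁻¹⁻¹ * sec q))⁻¹ * (sec (g⁻¹⁻¹ • q))⁻¹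
    group
  have h2 : χ (coc g⁻¹ q) * χ (coc g⁻¹ q)⁻¹ = 1 := by rw [← map_mul, mul_inv_cancel, map_one]
  rw [h1, hu, (inv_eq_of_mul_eq_one_right h2)]

lemma coact_eq_bdry {χ : C →* ℂ} (hχ : ∀ c, ‖χ c‖ = 1) (X : FinRes G) (k : ℕ)
    (u : Fin (X.n (k + 1)) → G → ℂ)
    (hu : ∀ (j : Fin (X.n (k + 1))) (c : C) (x : G), u j (c * x) = χ c * u j x)
    (U : Fin (X.n (k + 1)) → Ell (G ⧸ C)) (hU : ∀ j q, U j q = u j (sec q)⁻¹)
    (l : Fin (X.n k)) (q : G ⧸ C) :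
    coact ((X.d k).map (LL (mchar χ hχ))) U l q = bdry X k u l (sec q)⁻¹ := by
  rw [coact, lp.coeFn_sum, Finset.sum_apply, bdry]
  refine Finset.sum_congr rfl fun j _ => ?_
  rw [Matrix.map_apply, adjoint_LL_apply]
  refine Finset.sum_congr rfl fun g _ => ?_
  rw [rep_transl hχ (u j) (hu j) (U j) (hU j)]

lemma bdry_mul {χ : C →* ℂ} (X : FinRes G) (k : ℕ)
    (u : Fin (X.n (k + 1)) → G → ℂ)
    (hu : ∀ (j : Fin (X.n (k + 1))) (c : C) (x : G), u j (c * x) = χ c * u j x)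
    (l : Fin (X.n k)) (c : C) (x : G) : bdry X k u l (c * x) = χ c * bdry X k u l x := by
  rw [bdry, bdry, Finset.mul_sum]
  refine Finset.sum_congr rfl fun j _ => ?_
  rw [Finset.mul_sum]
  refine Finset.sum_congr rfl fun g _ => ?_
  rw [mul_assoc, hu]
  ring

lemma eq_of_eq_sec {χ : C →* ℂ} (u v : G → ℂ) (hu : ∀ (c : C) (x : G), u (c * x) = χ c * u x)
    (hv : ∀ (c : C) (x : G), v (c * x) = χ c * v x)
    (h : ∀ q : G ⧸ C, u (sec q)⁻¹ = v (sec q)⁻¹) : u = v := by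
  funext x
  have h1 : x = (((dc x⁻¹)⁻¹ : C) : G) * (sec (QuotientGroup.mk x⁻¹ : G ⧸ C))⁻¹ := by
    change x = ((sec (QuotientGroup.mk x⁻¹ : G ⧸ C))⁻¹ * x⁻¹)⁻¹ * _
    group
  rw [h1, hu, hv, h]

/-- **the main step** -/
theorem main (X : FinRes G) (hC : IsAmenable C) (χ : C →* ℂ) (hχ : ∀ c, ‖χ c‖ = 1) (k : ℕ)
    (h : ∀ i ≤ k, Subsingleton (X.homology (toRed G) i)) (f : Fin (X.n k) → G → ℂ)
    (hf : IsChain χ f) (hc : IsCycle X k f) : ∃ h, IsChain χ h ∧ bdry X k h = f := by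
  obtain ⟨w, hw⟩ := exists_fill X hC (mchar χ hχ) k h (toV hf) (by
    intro i e
    subst e
    funext l
    ext q
    have h1 : bdry X i f = 0 := hc
    change coact ((X.d i).map (LL (mchar χ hχ))) (toV hf) l q = 0
    rw [coact_eq_bdry hχ X i f hf.1 (toV hf) (fun j q => rfl) l q, h1]
    rfl)
  refine ⟨fun j => back χ (w j), isChain_back hχ w, ?_⟩
  funext j
  refine eq_of_eq_sec (C := C) (χ := χ) _ _
    (fun c x => bdry_mul X k _ (isChain_back hχ w).1 j c x) (fun c x => hf.1 j c x) fun q => ?_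
  rw [← coact_eq_bdry hχ X k _ (isChain_back hχ w).1 w (fun j q => (back_sec χ (w j) q).symm), hw]
  rfl

theorem final (X : FinRes G) (hC : IsAmenable C) (χ : C →* ℂ) (hχ : ∀ c, ‖χ c‖ = 1) (k : ℕ)
    (f : Fin (X.n k) → G → ℂ) (hf : IsChain χ f) (hc : IsCycle X k f)
    (hnb : (k = X.len ∧ f ≠ 0) ∨ ¬ ∃ h, IsChain χ h ∧ bdry X k h = f) :
    ∃ i ≤ k, Nontrivial (X.homology (toRed G) i) := by
  by_contra hcon
  push Not at hcon
  have h1 : ∀ i ≤ k, Subsingleton (X.homology (toRed G) i) := fun i hi =>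
    not_nontrivial_iff_subsingleton.1 (by simpa using hcon i hi)
  obtain ⟨h, hh, hb⟩ := main X hC χ hχ k h1 f hf hc
  rcases hnb with ⟨hk, h0⟩ | hn
  · apply h0
    rw [← hb]
    have hz : X.n (k + 1) = 0 := X.n_eq_zero _ (by omega)
    funext l x
    have : IsEmpty (Fin (X.n (k + 1))) := by rw [hz]; infer_instance
    rw [bdry, Finset.univ_eq_empty, Finset.sum_empty]
    rfl
  · exact hn ⟨h, hh, hb⟩

end

end Pool.Agent.TH254.ZT
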