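import Pool.Agent.H79.LZ.H919R4_AS_Ext
import Pool.Agent.H79.LZ.TH254_ZT_Main

/-!
Contractions over `C*_r(G)` are approximated by matrices over the complex group ring.
-/

set_option autoImplicit false
set_option linter.unusedSectionVars false

open scoped Matrix ENNReal

namespace Pool.Agent.Q134.ZS

open Pool.Agent.H496R3.ZS (Ell permRep integ integ_single)
open Pool.Agent.H919R4.ZS (FinRes RedC toRed valR L L_single coe_toRed lregL d_mul_d)

noncomputable section

variable {G : Type} [Group G]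

/-- the inclusion `ℤ[G] → ℂ[G]` -/
def cx : MonoidAlgebra ℤ G →+* MonoidAlgebra ℂ G :=
  MonoidAlgebra.mapRingHom G (Int.castRingHom ℂ)

lemma cx_single (g : G) (n : ℤ) :
    cx (MonoidAlgebra.single g n) = MonoidAlgebra.single g (n : ℂ) := by
  simp [cx]

lemma integ_cx (a : MonoidAlgebra ℤ G) : integ G G (cx a) = L a := by
  refine MonoidAlgebra.induction_linear a ?_ ?_ ?_
  · simp
  · intro x y hx hy
    rw [map_add, map_add, map_add, hx, hy]
  · intro g r
    rw [cx_single, L_single, integ, MonoidAlgebra.lift_single, Int.cast_smul_eq_zsmul]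
    rfl

lemma exists_approx_mat {a b : ℕ} (s : Matrix (Fin a) (Fin b) (RedC G)) {ε : ℝ} (hε : 0 < ε) :
    ∃ s' : Matrix (Fin a) (Fin b) (MonoidAlgebra ℂ G),
      ∀ i j, ‖(valR (s i j) : Ell G →L[ℂ] Ell G) - integ G G (s' i j)‖ < ε := by
  have h : ∀ i j, ∃ x : MonoidAlgebra ℂ G,
      ‖(valR (s i j) : Ell G →L[ℂ] Ell G) - integ G G x‖ < ε := by
    intro i j
    have h1 := Pool.Agent.H919R4.AS.valR_mem (s i j)
    obtain ⟨_, ⟨x, rfl⟩, hx⟩ := Metric.mem_closure_iff.1 h1 ε hε
    exact ⟨x, by rwa [← dist_eq_norm]⟩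
  choose s' hs' using h
  exact ⟨s', hs'⟩

/-- the contraction identity up to the error `e` -/
def CIe (X : FinRes G) :
    ∀ k : ℕ, Matrix (Fin (X.n k)) (Fin (X.n k)) (MonoidAlgebra ℂ G) → Prop
  | 0, e => ∃ s : Matrix (Fin (X.n 0)) (Fin (X.n 1)) (MonoidAlgebra ℂ G),
      s * (X.d 0).map cx + e = 1
  | k + 1, e => ∃ (s' : Matrix (Fin (X.n k)) (Fin (X.n (k + 1))) (MonoidAlgebra ℂ G))
      (s : Matrix (Fin (X.n (k + 1))) (Fin (X.n (k + 2))) (MonoidAlgebra ℂ G)),
      (X.d k).map cx * s' + s * (X.d (k + 1)).map cx + e = 1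

lemma map_integ_cx {a b : ℕ} (D : Matrix (Fin a) (Fin b) (MonoidAlgebra ℤ G)) (i : Fin a)
    (j : Fin b) : integ G G ((D.map cx) i j) = L (D i j) := integ_cx _

lemma norm_le_total {a b : ℕ} (D : Matrix (Fin a) (Fin b) (Ell G →L[ℂ] Ell G)) (i : Fin a)
    (j : Fin b) : ‖D i j‖ ≤ ∑ i, ∑ j, ‖D i j‖ := by
  refine le_trans ?_ (Finset.single_le_sum (f := fun i => ∑ j, ‖D i j‖)
    (fun i _ => Finset.sum_nonneg fun j _ => norm_nonneg _) (Finset.mem_univ i))
  exact Finset.single_le_sum (f := fun j => ‖D i j‖) (fun j _ => norm_nonneg _)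
    (Finset.mem_univ j)

lemma norm_row_le {a b : ℕ} (D : Matrix (Fin a) (Fin b) (Ell G →L[ℂ] Ell G)) (i : Fin a) :
    ∑ j, ‖D i j‖ ≤ ∑ i, ∑ j, ‖D i j‖ :=
  Finset.single_le_sum (f := fun i => ∑ j, ‖D i j‖)
    (fun i _ => Finset.sum_nonneg fun j _ => norm_nonneg _) (Finset.mem_univ i)

lemma norm_col_le {a b : ℕ} (D : Matrix (Fin a) (Fin b) (Ell G →L[ℂ] Ell G)) (j : Fin b) :
    ∑ i, ‖D i j‖ ≤ ∑ i, ∑ j, ‖D i j‖ := by
  refine Finset.sum_le_sum fun i _ => ?_
  exact Finset.single_le_sum (f := fun j => ‖D i j‖) (fun j _ => norm_nonneg _)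
    (Finset.mem_univ j)

/-- the contractions over `C*_r(G)` are approximated over `ℂ[G]` -/
theorem exists_approx (X : FinRes G) (k : ℕ)
    (h : ∀ i ≤ k, Subsingleton (X.homology (toRed G) i)) {δ : ℝ} (hδ : 0 < δ) :
    ∃ e : Matrix (Fin (X.n k)) (Fin (X.n k)) (MonoidAlgebra ℂ G),
      (∀ i j, ‖integ G G (e i j)‖ ≤ δ) ∧ CIe X k e := by
  obtain ⟨s, -, hs⟩ := Pool.Agent.TH254.ZT.exists_contr X (toRed G) k h
  have key : ∀ i, ((X.d i).map (toRed G)).map (valR (G := G)) = (X.d i).map (L (G := G)) := by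
    intro i
    refine funext fun j => funext fun k => ?_
    exact coe_toRed (X.d i j k)
  have key2 : ∀ i, ((X.d i).map cx).map (integ G G) = (X.d i).map (L (G := G)) := by
    intro i
    refine funext fun j => funext fun k => ?_
    exact integ_cx (X.d i j k)
  cases k with
  | zero =>
    have f0 : s.map (valR (G := G)) * (X.d 0).map L = 1 := by
      have := Pool.Agent.H919R4.ZS.map_ident0 (valR (G := G)) _ _ hs
      rwa [key 0] at this
    set M : ℝ := ∑ i, ∑ j, ‖((X.d 0).map (L (G := G))) i j‖ with hM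
    have hM0 : 0 ≤ M := Finset.sum_nonneg fun _ _ => Finset.sum_nonneg fun _ _ => norm_nonneg _
    obtain ⟨t, ht⟩ := exists_approx_mat s (ε := δ / (M + 1)) (by positivity)
    refine ⟨1 - t * (X.d 0).map cx, ?_, t, by abel⟩
    intro i j
    have e1 : integ G G ((1 - t * (X.d 0).map cx : Matrix _ _ (MonoidAlgebra ℂ G)) i j) =
        ∑ l, ((valR (s i l) : Ell G →L[ℂ] Ell G) - integ G G (t i l)) * L (X.d 0 l j) := by
      rw [Matrix.sub_apply, map_sub, Matrix.mul_apply, map_sum]
      have e2 : integ G G ((1 : Matrix (Fin (X.n 0)) (Fin (X.n 0)) (MonoidAlgebra ℂ G)) i j) =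
          ∑ l, (valR (s i l) : Ell G →L[ℂ] Ell G) * L (X.d 0 l j) := by
        have e3 := congrFun (congrFun f0 i) j
        rw [Matrix.mul_apply] at e3
        simp only [Matrix.map_apply] at e3
        rw [e3]
        by_cases hij : i = j
        · subst hij; rw [Matrix.one_apply_eq, Matrix.one_apply_eq, map_one]
        · rw [Matrix.one_apply_ne hij, Matrix.one_apply_ne hij, map_zero]
      rw [e2, ← Finset.sum_sub_distrib]
      refine Finset.sum_congr rfl fun l _ => ?_
      rw [map_mul, map_integ_cx, sub_mul]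
    rw [e1]
    refine (norm_sum_le _ _).trans ?_
    calc ∑ l, ‖((valR (s i l) : Ell G →L[ℂ] Ell G) - integ G G (t i l)) * L (X.d 0 l j)‖
        ≤ ∑ l, δ / (M + 1) * ‖((X.d 0).map (L (G := G))) l j‖ := by
          refine Finset.sum_le_sum fun l _ => ?_
          refine (norm_mul_le _ _).trans ?_
          exact mul_le_mul_of_nonneg_right (ht i l).le (norm_nonneg _)
      _ = δ / (M + 1) * ∑ l, ‖((X.d 0).map (L (G := G))) l j‖ := by rw [Finset.mul_sum]
      _ ≤ δ / (M + 1) * M := mul_le_mul_of_nonneg_left (norm_col_le _ j) (by positivity)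
      _ ≤ δ := by
          rw [div_mul_eq_mul_div, div_le_iff₀ (by positivity)]
          nlinarith
  | succ k =>
    obtain ⟨s', hs'⟩ := hs
    have f1 : (X.d k).map L * s'.map (valR (G := G)) +
        s.map (valR (G := G)) * (X.d (k + 1)).map L = 1 := by
      have := Pool.Agent.H919R4.ZS.map_ident (valR (G := G)) _ _ _ _ hs'
      rwa [key k, key (k + 1)] at this
    set M : ℝ := ∑ i, ∑ j, ‖((X.d (k + 1)).map (L (G := G))) i j‖ with hM
    set M' : ℝ := ∑ i, ∑ j, ‖((X.d k).map (L (G := G))) i j‖ with hM'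
    have hM0 : 0 ≤ M := Finset.sum_nonneg fun _ _ => Finset.sum_nonneg fun _ _ => norm_nonneg _
    have hM0' : 0 ≤ M' := Finset.sum_nonneg fun _ _ => Finset.sum_nonneg fun _ _ => norm_nonneg _
    obtain ⟨t, ht⟩ := exists_approx_mat s (ε := δ / (M + M' + 1)) (by positivity)
    obtain ⟨t', ht'⟩ := exists_approx_mat s' (ε := δ / (M + M' + 1)) (by positivity)
    refine ⟨1 - ((X.d k).map cx * t' + t * (X.d (k + 1)).map cx), ?_, t', t, by abel⟩
    intro i j
    have e1 : integ G G ((1 - ((X.d k).map cx * t' + t * (X.d (k + 1)).map cx) :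
        Matrix _ _ (MonoidAlgebra ℂ G)) i j) =
        ∑ l, L (X.d k i l) * ((valR (s' l j) : Ell G →L[ℂ] Ell G) - integ G G (t' l j)) +
        ∑ l, ((valR (s i l) : Ell G →L[ℂ] Ell G) - integ G G (t i l)) * L (X.d (k + 1) l j) := by
      rw [Matrix.sub_apply, map_sub, Matrix.add_apply, map_add, Matrix.mul_apply,
        Matrix.mul_apply, map_sum, map_sum]
      have e2 : integ G G ((1 : Matrix (Fin (X.n (k + 1))) (Fin (X.n (k + 1)))
          (MonoidAlgebra ℂ G)) i j) =
          ∑ l, L (X.d k i l) * (valR (s' l j) : Ell G →L[ℂ] Ell G) +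
          ∑ l, (valR (s i l) : Ell G →L[ℂ] Ell G) * L (X.d (k + 1) l j) := by
        have e3 := congrFun (congrFun f1 i) j
        rw [Matrix.add_apply, Matrix.mul_apply, Matrix.mul_apply] at e3
        simp only [Matrix.map_apply] at e3
        rw [e3]
        by_cases hij : i = j
        · subst hij; rw [Matrix.one_apply_eq, Matrix.one_apply_eq, map_one]
        · rw [Matrix.one_apply_ne hij, Matrix.one_apply_ne hij, map_zero]
      rw [e2]
      simp only [mul_sub, sub_mul, Finset.sum_sub_distrib, map_mul, map_integ_cx]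
      abel
    rw [e1]
    refine (norm_add_le _ _).trans ?_
    have b1 : ‖∑ l, L (X.d k i l) * ((valR (s' l j) : Ell G →L[ℂ] Ell G) -
        integ G G (t' l j))‖ ≤ M' * (δ / (M + M' + 1)) := by
      refine (norm_sum_le _ _).trans ?_
      calc ∑ l, ‖L (X.d k i l) * ((valR (s' l j) : Ell G →L[ℂ] Ell G) - integ G G (t' l j))‖
          ≤ ∑ l, ‖((X.d k).map (L (G := G))) i l‖ * (δ / (M + M' + 1)) := by
            refine Finset.sum_le_sum fun l _ => ?_
            refine (norm_mul_le _ _).trans ?_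
            exact mul_le_mul_of_nonneg_left (ht' l j).le (norm_nonneg _)
        _ = (∑ l, ‖((X.d k).map (L (G := G))) i l‖) * (δ / (M + M' + 1)) := by
            rw [Finset.sum_mul]
        _ ≤ M' * (δ / (M + M' + 1)) :=
            mul_le_mul_of_nonneg_right (norm_row_le _ i) (by positivity)
    have b2 : ‖∑ l, ((valR (s i l) : Ell G →L[ℂ] Ell G) - integ G G (t i l)) *
        L (X.d (k + 1) l j)‖ ≤ M * (δ / (M + M' + 1)) := by
      refine (norm_sum_le _ _).trans ?_
      calc ∑ l, ‖((valR (s i l) : Ell G →L[ℂ] Ell G) - integ G G (t i l)) * L (X.d (k + 1) l j)‖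
          ≤ ∑ l, ‖((X.d (k + 1)).map (L (G := G))) l j‖ * (δ / (M + M' + 1)) := by
            refine Finset.sum_le_sum fun l _ => ?_
            refine (norm_mul_le _ _).trans ?_
            rw [mul_comm]
            exact mul_le_mul_of_nonneg_left (ht i l).le (norm_nonneg _)
        _ = (∑ l, ‖((X.d (k + 1)).map (L (G := G))) l j‖) * (δ / (M + M' + 1)) := by
            rw [Finset.sum_mul]
        _ ≤ M * (δ / (M + M' + 1)) :=
            mul_le_mul_of_nonneg_right (norm_col_le _ j) (by positivity)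
    refine (add_le_add b1 b2).trans ?_
    rw [← add_mul, ← mul_div_assoc, div_le_iff₀ (by positivity)]
    nlinarith

end

end Pool.Agent.Q134.ZS
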