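import Pool.Agent.H79.LZ.H919R4_ZS_Defs
import Pool.Agent.H79.LZ.H496R3_ZS_Stmt

/-!
Chains and cochains of a finite aspherical complex with values in the functions on a `G`-set.

Let `X : FinRes G` be the cellular chain complex of the universal cover of a finite aspherical
complex `M` with fundamental group `G`, and let `G` act on the set `Z`. We consider tuples
`a : Fin (X.n k) → Z → ℂ` of functions on `Z`, one for each `k`-cell of `M`. For `Z = G ⧸ C` the
`k`-cells of the covering `M_C` with fundamental group `C` are indexed by `Fin (X.n k) × Z`, and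
such tuples are the (locally finite) cellular `k`-chains, and also the cellular `k`-cochains, of
`M_C`.
-/

set_option autoImplicit false

open scoped Pointwise Classical

namespace Pool.Agent.Q134.ZS

open Pool.Agent.H919R4.ZS (FinRes)

variable {G : Type} [Group G] {Z : Type} [MulAction G Z]

/-- The boundary of a `(k+1)`-chain `a` (finitely supported or not):
`(∂ a) l z = ∑_j ∑_g d_{jl}(g) a_j(g z)`, where `d = X.d k`. -/
def boundary (X : FinRes G) (k : ℕ) (a : Fin (X.n (k + 1)) → Z → ℂ) : Fin (X.n k) → Z → ℂ :=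
  fun l z => ∑ j, ∑ g ∈ (X.d k j l).coeff.support, ((X.d k j l).coeff g : ℂ) * a j (g • z)

/-- The coboundary of a `k`-cochain `b`: `(δ b) i z = ∑_j ∑_g d_{ij}(g) b_j(g⁻¹ z)`, where
`d = X.d k`. -/
def coboundary (X : FinRes G) (k : ℕ) (b : Fin (X.n k) → Z → ℂ) : Fin (X.n (k + 1)) → Z → ℂ :=
  fun i z => ∑ j, ∑ g ∈ (X.d k i j).coeff.support, ((X.d k i j).coeff g : ℂ) * b j (g⁻¹ • z)

/-- The `k`-chain `a` is a cycle (no condition if `k = 0`). -/
def IsCycle (X : FinRes G) : ∀ k : ℕ, (Fin (X.n k) → Z → ℂ) → Prop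
  | 0, _ => True
  | k + 1, a => boundary X k a = 0

/-- The `k`-cochain `b` is a cocycle. -/
def IsCocycle (X : FinRes G) (k : ℕ) (b : Fin (X.n k) → Z → ℂ) : Prop := coboundary X k b = 0

/-- The tuple of functions `b` vanishes outside of the finite set `S`. -/
def SuppIn {m : ℕ} (b : Fin m → Z → ℂ) (S : Finset Z) : Prop := ∀ j, ∀ z ∉ S, b j z = 0

/-- The sum of the squares of the values of `b` in the set `S`. -/
noncomputable def energy {m : ℕ} (b : Fin m → Z → ℂ) (S : Finset Z) : ℝ :=
  ∑ j, ∑ z ∈ S, ‖b j z‖ ^ 2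

/-- The growth of `b`, seen from the finite set `S` with respect to the finite set `F` of elements
of `G`, is at most `lam` (for infinitely many radii): for infinitely many `r` the sum of the
squares of the values of `b` in `F^r • S = {g₁ ⋯ g_r z : g_i ∈ F, z ∈ S}` is at most `lam ^ r`. -/
def GrowthLE {m : ℕ} (b : Fin m → Z → ℂ) (S : Finset Z) (F : Finset G) (lam : ℝ) : Prop :=
  ∃ᶠ r : ℕ in Filter.atTop, energy b (F ^ r • S) ≤ lam ^ r

end Pool.Agent.Q134.ZS
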