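import Pool.Agent.H79.LZ.Q134_ZS_Approx
import Pool.Agent.H79.LZ.Q134_ZS_Defs

/-!
Local operators with small norm, acting on functions of small growth.
-/

set_option autoImplicit false
set_option linter.unusedSectionVars false

open scoped Matrix ENNReal Pointwise Classical
open Filter Topology

namespace Pool.Agent.Q134.ZS

open Pool.Agent.H496R3.ZS (Ell permRep integ integ_single IsAmenable norm_integ_le)
open Pool.Agent.H919R4.ZS (FinRes RedC toRed valR L L_single coe_toRed lregL d_mul_d)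

noncomputable section

variable {G : Type} [Group G] {Z : Type} [MulAction G Z]

/-! ### truncation -/

/-- the truncation of a function to a finite set -/
def trunc (T : Finset Z) (f : Z → ℂ) : Ell Z :=
  ⟨fun z => if z ∈ T then f z else 0, by
    refine memℓp_gen ?_
    refine summable_of_ne_finset_zero (s := T) fun z hz => ?_
    rw [if_neg hz]; simp⟩

lemma trunc_apply (T : Finset Z) (f : Z → ℂ) (z : Z) :
    trunc T f z = if z ∈ T then f z else 0 := rfl

lemma norm_sq_eq (v : Ell Z) : HasSum (fun z => ‖v z‖ ^ 2) (‖v‖ ^ 2) := by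
  have h := lp.hasSum_norm (p := 2) (by norm_num) v
  have h4 : (2 : ENNReal).toReal = ((2 : ℕ) : ℝ) := by norm_num
  simp only [h4, Real.rpow_natCast] at h
  exact h

lemma norm_sq_trunc (T : Finset Z) (f : Z → ℂ) : ‖trunc T f‖ ^ 2 = ∑ z ∈ T, ‖f z‖ ^ 2 := by
  refine (norm_sq_eq _).unique ?_
  have h1 : ∑ z ∈ T, ‖f z‖ ^ 2 = ∑ z ∈ T, ‖trunc T f z‖ ^ 2 :=
    Finset.sum_congr rfl fun z hz => by rw [trunc_apply, if_pos hz]
  rw [h1]
  refine hasSum_sum_of_ne_finset_zero fun z hz => ?_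
  rw [trunc_apply, if_neg hz]
  simp

/-! ### local operators -/

/-- the values of `T f` in a set `S` depend on the values of `f` in `F • S` only -/
def Loc (F : Finset G) {n : ℕ} (T : (Fin n → Z → ℂ) → (Fin n → Z → ℂ)) : Prop :=
  ∀ (z : Z) (f f' : Fin n → Z → ℂ), (∀ j, ∀ g ∈ F, f j (g • z) = f' j (g • z)) →
    ∀ j, T f j z = T f' j z

/-- the operator acts on square summable functions, with norm at most `1/2` -/
def Half {n : ℕ} (T : (Fin n → Z → ℂ) → (Fin n → Z → ℂ)) : Prop :=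
  ∀ v : Fin n → Ell Z, ∃ w : Fin n → Ell Z, (∀ j z, w j z = T (fun j z => v j z) j z) ∧
    ∑ j, ‖w j‖ ≤ 1 / 2 * ∑ j, ‖v j‖

lemma Loc.iterate {F : Finset G} {n : ℕ} {T : (Fin n → Z → ℂ) → (Fin n → Z → ℂ)}
    (hT : Loc F T) (m : ℕ) (z : Z) (f f' : Fin n → Z → ℂ)
    (h : ∀ j, ∀ g ∈ F ^ m, f j (g • z) = f' j (g • z)) (j : Fin n) :
    T^[m] f j z = T^[m] f' j z := by
  induction m generalizing f f' with
  | zero =>
    have := h j 1 (by simp)
    simpa using this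
  | succ m ih =>
    rw [Function.iterate_succ_apply, Function.iterate_succ_apply]
    refine ih _ _ (fun j g hg => ?_)
    refine hT (g • z) f f' (fun j g' hg' => ?_) j
    rw [← mul_smul]
    refine h j _ ?_
    rw [pow_succ']
    exact Finset.mul_mem_mul hg' hg

lemma Half.iterate {n : ℕ} {T : (Fin n → Z → ℂ) → (Fin n → Z → ℂ)} (hT : Half T) (m : ℕ)
    (v : Fin n → Ell Z) : ∃ w : Fin n → Ell Z,
      (∀ j z, w j z = T^[m] (fun j z => v j z) j z) ∧
      ∑ j, ‖w j‖ ≤ (1 / 2) ^ m * ∑ j, ‖v j‖ := by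
  induction m with
  | zero => exact ⟨v, fun _ _ => rfl, by simp⟩
  | succ m ih =>
    obtain ⟨w, hw, hw'⟩ := ih
    obtain ⟨u, hu, hu'⟩ := hT w
    refine ⟨u, fun j z => ?_, ?_⟩
    · rw [hu, Function.iterate_succ_apply']
      congr 2
      funext j z
      exact hw j z
    · calc ∑ j, ‖u j‖ ≤ 1 / 2 * ∑ j, ‖w j‖ := hu'
        _ ≤ 1 / 2 * ((1 / 2) ^ m * ∑ j, ‖v j‖) := by
            exact mul_le_mul_of_nonneg_left hw' (by norm_num)
        _ = (1 / 2) ^ (m + 1) * ∑ j, ‖v j‖ := by ring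

lemma bound_iter {F : Finset G} {n : ℕ} {T : (Fin n → Z → ℂ) → (Fin n → Z → ℂ)}
    (hT : Loc F T) (hT' : Half T) (S : Finset Z) (a f : Fin n → Z → ℂ) (m : ℕ) {B : ℝ}
    (hB : energy f (F ^ m • S) ≤ B ^ 2) (hB0 : 0 ≤ B) :
    ‖∑ j, ∑ z ∈ S, a j z * T^[m] f j z‖ ≤
      (∑ j, ∑ z ∈ S, ‖a j z‖) * ((1 / 2) ^ m * (n * B)) := by
  set v : Fin n → Ell Z := fun j => trunc (F ^ m • S) (f j) with hv
  obtain ⟨w, hw, hw'⟩ := hT'.iterate m v
  have h1 : ∀ j, ∀ z ∈ S, T^[m] f j z = w j z := by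
    intro j z hz
    rw [hw]
    refine hT.iterate m z _ _ (fun j g hg => ?_) j
    rw [hv]
    simp only
    rw [trunc_apply, if_pos (Finset.smul_mem_smul hg hz)]
  have h2 : ∑ j, ‖v j‖ ≤ n * B := by
    have h3 : ∀ j ∈ Finset.univ, ‖v j‖ ≤ B := by
      intro j _
      have h4 : ‖v j‖ ^ 2 ≤ B ^ 2 := by
        refine le_trans ?_ hB
        rw [hv, norm_sq_trunc, energy]
        exact Finset.single_le_sum (f := fun j => ∑ z ∈ F ^ m • S, ‖f j z‖ ^ 2)
          (fun j _ => Finset.sum_nonneg fun z _ => by positivity) (Finset.mem_univ j)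
      exact (sq_le_sq₀ (norm_nonneg _) hB0).1 h4
    have := Finset.sum_le_card_nsmul Finset.univ (fun j => ‖v j‖) B h3
    simpa using this
  have h5 : ∀ j z, ‖w j z‖ ≤ (1 / 2) ^ m * (n * B) := by
    intro j z
    calc ‖w j z‖ ≤ ‖w j‖ := lp.norm_apply_le_norm (by norm_num) (w j) z
      _ ≤ ∑ j, ‖w j‖ := Finset.single_le_sum (f := fun j => ‖w j‖)
          (fun j _ => norm_nonneg _) (Finset.mem_univ j)
      _ ≤ (1 / 2) ^ m * ∑ j, ‖v j‖ := hw'
      _ ≤ (1 / 2) ^ m * (n * B) := mul_le_mul_of_nonneg_left h2 (by positivity)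
  refine (norm_sum_le _ _).trans ?_
  rw [Finset.sum_mul]
  refine Finset.sum_le_sum fun j _ => ?_
  refine (norm_sum_le _ _).trans ?_
  rw [Finset.sum_mul]
  refine Finset.sum_le_sum fun z hz => ?_
  rw [norm_mul, h1 j z hz]
  exact mul_le_mul_of_nonneg_left (h5 j z) (norm_nonneg _)

/-- **the vanishing lemma** -/
theorem vanish {F : Finset G} {n : ℕ} {T : (Fin n → Z → ℂ) → (Fin n → Z → ℂ)}
    (hT : Loc F T) (hT' : Half T) (S : Finset Z) (a f : Fin n → Z → ℂ) {c : ℂ}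
    (hc : ∀ m, ∑ j, ∑ z ∈ S, a j z * T^[m] f j z = c) (hg : GrowthLE f S F 2) : c = 0 := by
  by_contra hne
  set A : ℝ := (∑ j, ∑ z ∈ S, ‖a j z‖) * n with hA
  have hlim : Tendsto (fun m : ℕ => A * (Real.sqrt 2 / 2) ^ m) atTop (𝓝 (A * 0)) := by
    refine (tendsto_pow_atTop_nhds_zero_of_lt_one (by positivity) ?_).const_mul A
    rw [div_lt_one (by norm_num)]
    rw [Real.sqrt_lt' (by norm_num)]
    norm_num
  rw [mul_zero] at hlim
  have hev : ∀ᶠ m : ℕ in atTop, A * (Real.sqrt 2 / 2) ^ m < ‖c‖ :=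
    hlim.eventually (gt_mem_nhds (norm_pos_iff.2 hne))
  obtain ⟨m, hm, hm'⟩ := (hg.and_eventually hev).exists
  have h1 : (Real.sqrt 2 ^ m) ^ 2 = 2 ^ m := by
    rw [← pow_mul, mul_comm m 2, pow_mul, Real.sq_sqrt (by norm_num)]
  have h2 := bound_iter hT hT' S a f m (B := Real.sqrt 2 ^ m) (by rw [h1]; exact hm)
    (by positivity)
  rw [hc m] at h2
  have h3 : (∑ j, ∑ z ∈ S, ‖a j z‖) * ((1 / 2) ^ m * (n * Real.sqrt 2 ^ m)) =
      A * (Real.sqrt 2 / 2) ^ m := by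
    rw [hA, div_pow, div_pow, one_pow]
    ring
  rw [h3] at h2
  exact absurd h2 (not_le.2 hm')

end

end Pool.Agent.Q134.ZS
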