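import Pool.Agent.H79.LZ.Q134_ZS_Op

/-!
Cycles and cocycles of small growth, and the homology with coefficients in `C*_r(G)`.
-/

set_option autoImplicit false
set_option linter.unusedSectionVars false

open scoped Matrix ENNReal Pointwise Classical
open Filter Topology

namespace Pool.Agent.Q134.ZS

open Pool.Agent.H496R3.ZS (Ell integ IsAmenable)
open Pool.Agent.H919R4.ZS (FinRes toRed d_mul_d)

noncomputable section

variable {G : Type} [Group G] {Z : Type} [MulAction G Z]

lemma cx_coeff (a : MonoidAlgebra ℤ G) (g : G) : (cx a).coeff g = (a.coeff g : ℂ) := by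
  rw [cx, MonoidAlgebra.coeff_mapRingHom]
  rfl

lemma cx_support (a : MonoidAlgebra ℤ G) : (cx a).coeff.support = a.coeff.support := by
  ext g
  rw [Finsupp.mem_support_iff, Finsupp.mem_support_iff, cx_coeff, Int.cast_ne_zero]

lemma coboundary_eq (X : FinRes G) (k : ℕ) (b : Fin (X.n k) → Z → ℂ) :
    coboundary X k b = actF ((X.d k).map cx) b := by
  funext i z
  rw [coboundary, actF, Finset.sum_apply]
  refine Finset.sum_congr rfl fun j _ => ?_
  rw [tr_apply, Matrix.map_apply, cx_support]
  exact Finset.sum_congr rfl fun g _ => by rw [cx_coeff]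

lemma boundary_eq (X : FinRes G) (k : ℕ) (a : Fin (X.n (k + 1)) → Z → ℂ) :
    boundary X k a = coF ((X.d k).map cx) a := by
  funext i z
  rw [boundary, coF, Finset.sum_apply]
  refine Finset.sum_congr rfl fun j _ => ?_
  rw [trc_apply, Matrix.map_apply, cx_support]
  exact Finset.sum_congr rfl fun g _ => by rw [cx_coeff, map_intCast]

lemma D_mul_D (X : FinRes G) (k : ℕ) : (X.d (k + 1)).map cx * (X.d k).map cx = 0 := by
  rw [← Matrix.map_mul, d_mul_d]
  ext; simp

lemma hasSum_shift (S : Finset Z) (a c : Z → ℂ) (ha : ∀ z ∉ S, a z = 0) (g : G) :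
    HasSum (fun w => a (g • w) * c w) (∑ z ∈ S, a z * c (g⁻¹ • z)) := by
  have h1 : HasSum (fun z => a z * c (g⁻¹ • z)) (∑ z ∈ S, a z * c (g⁻¹ • z)) :=
    hasSum_sum_of_ne_finset_zero fun z hz => by rw [ha z hz, zero_mul]
  have h2 := (MulAction.toPerm g : Equiv.Perm Z).hasSum_iff.2 h1
  refine h2.congr_fun ?_ |> fun h => h
  intro w
  change a (g • w) * c w = a (g • w) * c (g⁻¹ • g • w)
  rw [inv_smul_smul]

/-- pairing of a finite tuple with a tuple -/
def pair {n : ℕ} (S : Finset Z) (a f : Fin n → Z → ℂ) : ℂ := ∑ j, ∑ z ∈ S, a j z * f j z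

lemma pair_add {n : ℕ} (S : Finset Z) (a f f' : Fin n → Z → ℂ) :
    pair S a (f + f') = pair S a f + pair S a f' := by
  simp only [pair, Pi.add_apply, mul_add, Finset.sum_add_distrib]

lemma pair_coboundary (X : FinRes G) (k : ℕ) (S : Finset Z) (a : Fin (X.n (k + 1)) → Z → ℂ)
    (ha : SuppIn a S) (hc : boundary X k a = 0) (c : Fin (X.n k) → Z → ℂ) :
    pair S a (coboundary X k c) = 0 := by
  have h1 : pair S a (coboundary X k c) = ∑ l, ∑ j, ∑ g ∈ (X.d k j l).coeff.support,
      ((X.d k j l).coeff g : ℂ) * ∑ z ∈ S, a j z * c l (g⁻¹ • z) := by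
    rw [Finset.sum_comm, pair]
    refine Finset.sum_congr rfl fun j _ => ?_
    simp only [coboundary, Finset.mul_sum]
    rw [Finset.sum_comm]
    refine Finset.sum_congr rfl fun l _ => ?_
    rw [Finset.sum_comm]
    refine Finset.sum_congr rfl fun g _ => Finset.sum_congr rfl fun z _ => ?_
    ring
  rw [h1]
  refine Finset.sum_eq_zero fun l _ => ?_
  have h2 : HasSum (fun w => ∑ j, ∑ g ∈ (X.d k j l).coeff.support,
      ((X.d k j l).coeff g : ℂ) * (a j (g • w) * c l w))
      (∑ j, ∑ g ∈ (X.d k j l).coeff.support,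
      ((X.d k j l).coeff g : ℂ) * ∑ z ∈ S, a j z * c l (g⁻¹ • z)) :=
    hasSum_sum fun j _ => hasSum_sum fun g _ => (hasSum_shift S (a j) (c l) (ha j) g).mul_left _
  have h3 : (fun w => ∑ j, ∑ g ∈ (X.d k j l).coeff.support,
      ((X.d k j l).coeff g : ℂ) * (a j (g • w) * c l w)) = fun _ => 0 := by
    funext w
    have h4 := congrFun (congrFun hc l) w
    rw [boundary] at h4
    have h5 : (∑ j, ∑ g ∈ (X.d k j l).coeff.support,
      ((X.d k j l).coeff g : ℂ) * (a j (g • w) * c l w)) =
      (∑ j, ∑ g ∈ (X.d k j l).coeff.support, ((X.d k j l).coeff g : ℂ) * a j (g • w)) *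
        c l w := by
      rw [Finset.sum_mul]
      refine Finset.sum_congr rfl fun j _ => ?_
      rw [Finset.sum_mul]
      exact Finset.sum_congr rfl fun g _ => by ring
    rw [h5, h4]
    simp
  rw [h3] at h2
  exact h2.unique hasSum_zero

lemma pair_boundary (X : FinRes G) (k : ℕ) (S : Finset Z) (b : Fin (X.n k) → Z → ℂ)
    (hb : SuppIn b S) (hc : coboundary X k b = 0) (c : Fin (X.n (k + 1)) → Z → ℂ) :
    pair S b (boundary X k c) = 0 := by
  have h1 : pair S b (boundary X k c) = ∑ j, ∑ i, ∑ g ∈ (X.d k j i).coeff.support,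
      ((X.d k j i).coeff g : ℂ) * ∑ z ∈ S, b i z * c j (g • z) := by
    rw [Finset.sum_comm, pair]
    refine Finset.sum_congr rfl fun i _ => ?_
    simp only [boundary, Finset.mul_sum]
    rw [Finset.sum_comm]
    refine Finset.sum_congr rfl fun j _ => ?_
    rw [Finset.sum_comm]
    refine Finset.sum_congr rfl fun g _ => Finset.sum_congr rfl fun z _ => ?_
    ring
  rw [h1]
  refine Finset.sum_eq_zero fun j _ => ?_
  have h2 : HasSum (fun w => ∑ i, ∑ g ∈ (X.d k j i).coeff.support,
      ((X.d k j i).coeff g : ℂ) * (b i (g⁻¹ • w) * c j w))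
      (∑ i, ∑ g ∈ (X.d k j i).coeff.support,
      ((X.d k j i).coeff g : ℂ) * ∑ z ∈ S, b i z * c j (g • z)) := by
    refine hasSum_sum fun i _ => hasSum_sum fun g _ => ?_
    have h := hasSum_shift S (b i) (c j) (hb i) g⁻¹
    rw [inv_inv] at h
    exact h.mul_left _
  have h3 : (fun w => ∑ i, ∑ g ∈ (X.d k j i).coeff.support,
      ((X.d k j i).coeff g : ℂ) * (b i (g⁻¹ • w) * c j w)) = fun _ => 0 := by
    funext w
    have h4 := congrFun (congrFun hc j) w
    rw [coboundary] at h4
    have h5 : (∑ i, ∑ g ∈ (X.d k j i).coeff.support,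
      ((X.d k j i).coeff g : ℂ) * (b i (g⁻¹ • w) * c j w)) =
      (∑ i, ∑ g ∈ (X.d k j i).coeff.support, ((X.d k j i).coeff g : ℂ) * b i (g⁻¹ • w)) *
        c j w := by
      rw [Finset.sum_mul]
      refine Finset.sum_congr rfl fun j _ => ?_
      rw [Finset.sum_mul]
      exact Finset.sum_congr rfl fun g _ => by ring
    rw [h5, h4]
    simp
  rw [h3] at h2
  exact h2.unique hasSum_zero

/-- iterating the error on a cocycle does not change the pairing with a finite cycle -/
lemma pair_iter_cocycle (X : FinRes G) (k : ℕ)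
    (E : Matrix (Fin (X.n k)) (Fin (X.n k)) (MonoidAlgebra ℂ G)) (hE : CIe X k E)
    (S : Finset Z) (a f : Fin (X.n k) → Z → ℂ) (ha : SuppIn a S) (hc : IsCycle X k a)
    (hf : IsCocycle X k f) (m : ℕ) : pair S a ((actF E)^[m] f) = pair S a f := by
  have key : ∀ f : Fin (X.n k) → Z → ℂ, IsCocycle X k f →
      IsCocycle X k (actF E f) ∧ pair S a (actF E f) = pair S a f := by
    intro f hf
    cases k with
    | zero =>
      obtain ⟨s, hs⟩ := hE
      have h1 : actF E f = f := by
        have h2 : actF (s * (X.d 0).map cx + E) f = f := by rw [hs, actF_one]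
        rw [actF_add, actF_mul, ← coboundary_eq, show coboundary X 0 f = 0 from hf, actF_zero,
          zero_add] at h2
        exact h2
      rw [h1]
      exact ⟨hf, rfl⟩
    | succ k =>
      obtain ⟨s', s, hs⟩ := hE
      have h2 : actF ((X.d k).map cx * s' + s * (X.d (k + 1)).map cx + E) f = f := by
        rw [hs, actF_one]
      rw [actF_add, actF_add, actF_mul, actF_mul, ← coboundary_eq X (k + 1),
        show coboundary X (k + 1) f = 0 from hf, actF_zero, add_zero, ← coboundary_eq] at h2
      constructor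
      · have h3 : coboundary X (k + 1) f = coboundary X (k + 1) (coboundary X k (actF s' f)) +
            coboundary X (k + 1) (actF E f) := by
          conv_lhs => rw [← h2]
          rw [coboundary_eq, coboundary_eq X (k + 1), coboundary_eq X (k + 1)]
          funext i
          simp [actF, Finset.sum_add_distrib]
        have h4 : coboundary X (k + 1) (coboundary X k (actF s' f)) = 0 := by
          rw [coboundary_eq, coboundary_eq, ← actF_mul, D_mul_D, actF_zero_left]
        rw [h4, zero_add, show coboundary X (k + 1) f = 0 from hf] at h3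
        exact h3.symm
      · conv_rhs => rw [← h2]
        rw [pair_add, pair_coboundary X k S a ha hc, zero_add]
  induction m generalizing f with
  | zero => rfl
  | succ m ih =>
    rw [Function.iterate_succ_apply, ih _ (key f hf).1, (key f hf).2]

/-- iterating the error on a cycle does not change the pairing with a finite cocycle -/
lemma pair_iter_cycle (X : FinRes G) (k : ℕ)
    (E : Matrix (Fin (X.n k)) (Fin (X.n k)) (MonoidAlgebra ℂ G)) (hE : CIe X k E)
    (S : Finset Z) (b f : Fin (X.n k) → Z → ℂ) (hb : SuppIn b S) (hc : IsCocycle X k b)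
    (hf : IsCycle X k f) (m : ℕ) : pair S b ((coF E)^[m] f) = pair S b f := by
  have key : ∀ f : Fin (X.n k) → Z → ℂ, IsCycle X k f →
      IsCycle X k (coF E f) ∧ pair S b (coF E f) = pair S b f := by
    intro f hf
    cases k with
    | zero =>
      obtain ⟨s, hs⟩ := hE
      refine ⟨trivial, ?_⟩
      have h2 : coF (s * (X.d 0).map cx + E) f = f := by rw [hs, coF_one]
      rw [coF_add, coF_mul, ← boundary_eq] at h2
      conv_rhs => rw [← h2]
      rw [pair_add, pair_boundary X 0 S b hb hc, zero_add]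
    | succ k =>
      obtain ⟨s', s, hs⟩ := hE
      have h2 : coF ((X.d k).map cx * s' + s * (X.d (k + 1)).map cx + E) f = f := by
        rw [hs, coF_one]
      rw [coF_add, coF_add, coF_mul, coF_mul, ← boundary_eq X k,
        show boundary X k f = 0 from hf, coF_zero, zero_add, ← boundary_eq] at h2
      constructor
      · have h3 : boundary X k f = boundary X k (boundary X (k + 1) (coF s f)) +
            boundary X k (coF E f) := by
          conv_lhs => rw [← h2]
          rw [boundary_eq, boundary_eq X k, boundary_eq X k]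
          funext i
          simp [coF, Finset.sum_add_distrib]
        have h4 : boundary X k (boundary X (k + 1) (coF s f)) = 0 := by
          rw [boundary_eq, boundary_eq, ← coF_mul, D_mul_D, coF_zero_left]
        rw [h4, zero_add, show boundary X k f = 0 from hf] at h3
        exact h3.symm
      · conv_rhs => rw [← h2]
        rw [pair_add, pair_boundary X (k + 1) S b hb hc, zero_add]
  induction m generalizing f with
  | zero => rfl
  | succ m ih =>
    rw [Function.iterate_succ_apply, ih _ (key f hf).1, (key f hf).2]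

/-- **cocycles of small growth** -/
theorem slow_cocycle (X : FinRes G) (k : ℕ) (hZ : ∀ z : Z, IsAmenable (MulAction.stabilizer G z))
    (h : ∀ F : Finset G, ∃ (a b : Fin (X.n k) → Z → ℂ) (S : Finset Z), SuppIn a S ∧
      IsCycle X k a ∧ IsCocycle X k b ∧ ∑ j, ∑ z ∈ S, a j z * b j z ≠ 0 ∧ GrowthLE b S F 2) :
    ∃ i ≤ k, Nontrivial (X.homology (toRed G) i) := by
  by_contra hcon
  push Not at hcon
  have hs : ∀ i ≤ k, Subsingleton (X.homology (toRed G) i) := fun i hi =>
    not_nontrivial_iff_subsingleton.1 (by simpa using hcon i hi)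
  obtain ⟨E, hE, hE'⟩ := exists_approx X k hs (δ := 1 / (2 * (X.n k + 1))) (by positivity)
  have hδ : (X.n k : ℝ) * (1 / (2 * (X.n k + 1))) ≤ 1 / 2 := by
    rw [mul_one_div, div_le_div_iff₀ (by positivity) (by norm_num)]
    nlinarith
  obtain ⟨a, b, S, ha, hac, hbc, hne, hg⟩ := h (suppE E)
  exact hne (vanish (loc_actF E) (half_actF hZ E hE hδ) S a b
    (fun m => pair_iter_cocycle X k E hE' S a b ha hac hbc m) hg)

/-- **cycles of small growth** -/
theorem slow_cycle (X : FinRes G) (k : ℕ) (hZ : ∀ z : Z, IsAmenable (MulAction.stabilizer G z))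
    (h : ∀ F : Finset G, ∃ (a b : Fin (X.n k) → Z → ℂ) (S : Finset Z), SuppIn b S ∧
      IsCycle X k a ∧ IsCocycle X k b ∧ ∑ j, ∑ z ∈ S, b j z * a j z ≠ 0 ∧ GrowthLE a S F 2) :
    ∃ i ≤ k, Nontrivial (X.homology (toRed G) i) := by
  by_contra hcon
  push Not at hcon
  have hs : ∀ i ≤ k, Subsingleton (X.homology (toRed G) i) := fun i hi =>
    not_nontrivial_iff_subsingleton.1 (by simpa using hcon i hi)
  obtain ⟨E, hE, hE'⟩ := exists_approx X k hs (δ := 1 / (2 * (X.n k + 1))) (by positivity)
  have hδ : (X.n k : ℝ) * (1 / (2 * (X.n k + 1))) ≤ 1 / 2 := by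
    rw [mul_one_div, div_le_div_iff₀ (by positivity) (by norm_num)]
    nlinarith
  obtain ⟨a, b, S, hb, hac, hbc, hne, hg⟩ := h (suppE E)
  exact hne (vanish (loc_coF E) (half_coF hZ E hE hδ) S b a
    (fun m => pair_iter_cycle X k E hE' S b a hb hbc hac m) hg)

end

end Pool.Agent.Q134.ZS
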