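import Pool.Agent.H79.LZ.Q134_ZS_SubAlg
import Pool.Agent.H79.LZ.H919R4_ZS_Deriv

/-!
Chain maps and homotopies between the resolutions of `N` and `G`.
-/

set_option autoImplicit false
set_option linter.unusedSectionVars false

open scoped Matrix

namespace Pool.Agent.Q134.ZS

open Pool.Agent.H919R4.ZS (FinRes augm d_mul_d eps eps_add eps_sub eps_smul eps_zsmul eps_single
  augm_single exists_rows)

noncomputable section

variable {G : Type} [Group G] {N : Subgroup G}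

lemma cz_int (N : Type) [Group N] (x : MonoidAlgebra ℤ N) : cz ℤ N x = x := by
  refine MonoidAlgebra.induction_linear x (map_zero _) ?_ ?_
  · intro b c hb hc
    rw [map_add, hb, hc]
  · intro h n
    rw [cz_single]
    rfl

lemma augm_ii (x : MonoidAlgebra ℤ N) : augm G (ii ℤ N x) = augm N x := by
  refine MonoidAlgebra.induction_linear x (by simp) ?_ ?_
  · intro b c hb hc
    rw [map_add, map_add, map_add, hb, hc]
  · intro h n
    rw [ii_single, augm_single, augm_single]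

lemma cz_ii (R : Type) [CommRing R] (x : MonoidAlgebra ℤ N) :
    cz R G (ii ℤ N x) = ii R N (cz R N x) := by
  refine MonoidAlgebra.induction_linear x (by simp) ?_ ?_
  · intro b c hb hc
    rw [map_add, map_add, map_add, map_add, hb, hc]
  · intro h n
    rw [ii_single, cz_single, cz_single, ii_single]

variable {X : FinRes G} {Y : FinRes N} (P : SubMap X N Y)

lemma g1_cz (R : Type) [CommRing R] (q : G → MonoidAlgebra ℤ N) (x : MonoidAlgebra ℤ G) :
    g1 R q (cz R G x) = cz R N (g1 ℤ q x) := by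
  refine MonoidAlgebra.induction_linear x (by simp) ?_ ?_
  · intro b c hb hc
    rw [map_add, map_add, map_add, map_add, hb, hc]
  · intro h n
    rw [cz_single, g1_single, g1_single, cz_int, cz_zsmul]

lemma gg_cz (R : Type) [CommRing R] (i : ℕ) (v : Fin (X.n i) → MonoidAlgebra ℤ G) :
    gg R P i (fun j => cz R G (v j)) = fun m => cz R N (gg ℤ P i v m) := by
  funext m
  simp only [gg, map_sum, g1_cz]

lemma gg_bd_int (i : ℕ) (v : Fin (X.n (i + 1)) → MonoidAlgebra ℤ G) :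
    gg ℤ P i (v ᵥ* X.d i) = gg ℤ P (i + 1) v ᵥ* Y.d i := by
  have h := gg_bd ℤ P i v
  have e1 : (X.d i).map (cz ℤ G) = X.d i := by
    refine funext fun a => funext fun b => cz_int G _
  have e2 : (Y.d i).map (cz ℤ N) = Y.d i := by
    refine funext fun a => funext fun b => cz_int N _
  rwa [e1, e2] at h

lemma eps_gg_aux (j : Fin (X.n 0)) (x : MonoidAlgebra ℤ G) :
    ∑ m, augm N (g1 ℤ (fun γ => P.p 0 j γ m) x) * Y.aug m = augm G x * X.aug j := by
  refine MonoidAlgebra.induction_linear x (by simp) ?_ ?_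
  · intro b c hb hc
    simp only [map_add, add_mul, Finset.sum_add_distrib]
    rw [hb, hc]
  · intro γ n
    simp only [g1_single, cz_int, map_zsmul, augm_single, smul_eq_mul]
    rw [← P.aug j γ, Finset.mul_sum]
    exact Finset.sum_congr rfl fun m _ => mul_assoc _ _ _

lemma eps_gg (v : Fin (X.n 0) → MonoidAlgebra ℤ G) : eps Y (gg ℤ P 0 v) = eps X v := by
  simp only [eps, gg, map_sum, Finset.sum_mul]
  rw [Finset.sum_comm]
  exact Finset.sum_congr rfl fun j _ => eps_gg_aux P j (v j)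

/-- rows of a product -/
lemma mul_row {S : Type} [Ring S] {a b c : ℕ} (M : Matrix (Fin a) (Fin b) S)
    (M' : Matrix (Fin b) (Fin c) S) (i : Fin a) :
    (M * M') i = ∑ m, fun j => M i m * M' m j := by
  funext j
  rw [Matrix.mul_apply, Finset.sum_apply]

/-- the rows can be lifted -/
def CF (X : FinRes G) (Y : FinRes N) (i : ℕ)
    (F : Matrix (Fin (Y.n i)) (Fin (X.n i)) (MonoidAlgebra ℤ G)) : Prop :=
  ∀ b : Fin (Y.n (i + 1)), ∃ y, y ᵥ* X.d i = ((Y.d i).map (ii ℤ N) * F) b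

lemma CF_base (X : FinRes G) (Y : FinRes N) :
    ∃ F : Matrix (Fin (Y.n 0)) (Fin (X.n 0)) (MonoidAlgebra ℤ G),
      CF X Y 0 F ∧ ∀ b, eps X (F b) = Y.aug b := by
  obtain ⟨x0, hx0⟩ := X.surj
  have hx : eps X x0 = 1 := hx0
  refine ⟨fun b => Y.aug b • x0, ?_, fun b => by rw [eps_zsmul, hx, mul_one]⟩
  intro b
  refine (X.exact_zero _).1 ?_
  change eps X _ = 0
  have h1 : ((Y.d 0).map (ii ℤ N) * (show Matrix (Fin (Y.n 0)) (Fin (X.n 0)) (MonoidAlgebra ℤ G)
      from fun b => Y.aug b • x0)) b = (∑ m, ii ℤ N (Y.d 0 b m) * (Y.aug m : MonoidAlgebra ℤ G)) • x0 := by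
    funext j
    rw [Matrix.mul_apply, Pi.smul_apply, smul_eq_mul, Finset.sum_mul]
    refine Finset.sum_congr rfl fun m _ => ?_
    rw [Matrix.map_apply, Pi.smul_apply, mul_assoc, zsmul_eq_mul]
  refine (congrArg (eps X) h1).trans ?_
  rw [eps_smul, hx, mul_one, map_sum]
  have h2 : eps Y (Y.d 0 b) = 0 := by
    refine (Y.exact_zero _).2 ⟨Pi.single b 1, ?_⟩
    rw [Matrix.single_one_vecMul]
    rfl
  rw [← h2, eps]
  refine Finset.sum_congr rfl fun m _ => ?_
  rw [map_mul, augm_ii, map_intCast]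
  rfl

lemma CF_step (X : FinRes G) (Y : FinRes N) (i : ℕ)
    (F : Matrix (Fin (Y.n i)) (Fin (X.n i)) (MonoidAlgebra ℤ G)) (hF : CF X Y i F) :
    ∃ F' : Matrix (Fin (Y.n (i + 1))) (Fin (X.n (i + 1))) (MonoidAlgebra ℤ G),
      CF X Y (i + 1) F' ∧ F' * X.d i = (Y.d i).map (ii ℤ N) * F := by
  obtain ⟨F', hF'⟩ := exists_rows (X.d i) ((Y.d i).map (ii ℤ N) * F) hF
  refine ⟨F', ?_, hF'⟩
  intro b
  refine (X.exact_succ i _).1 ?_
  rw [← Matrix.mul_apply_eq_vecMul, Matrix.mul_assoc, hF', ← Matrix.mul_assoc, ← Matrix.map_mul,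
    d_mul_d]
  have : ((0 : Matrix (Fin (Y.n (i + 1 + 1))) (Fin (Y.n i)) (MonoidAlgebra ℤ N)).map (ii ℤ N)) = 0 := by
    ext; simp
  rw [this, Matrix.zero_mul]
  rfl

/-- the chain map from `Y` to `X` -/
lemma exists_F (X : FinRes G) (Y : FinRes N) :
    ∃ F : ∀ i, Matrix (Fin (Y.n i)) (Fin (X.n i)) (MonoidAlgebra ℤ G),
      (∀ b, eps X (F 0 b) = Y.aug b) ∧
        ∀ i, F (i + 1) * X.d i = (Y.d i).map (ii ℤ N) * F i := by
  obtain ⟨F0, h0, h0'⟩ := CF_base X Y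
  choose! st hst hst' using CF_step X Y
  let S : ∀ i, {F : Matrix (Fin (Y.n i)) (Fin (X.n i)) (MonoidAlgebra ℤ G) // CF X Y i F} :=
    fun i => Nat.rec ⟨F0, h0⟩ (fun i F => ⟨st i F.1, hst i F.1 F.2⟩) i
  refine ⟨fun i => (S i).1, h0', fun i => ?_⟩
  exact hst' i (S i).1 (S i).2

/-- the homotopy -/
lemma exists_h (Y : FinRes N) (A : ∀ i, Matrix (Fin (Y.n i)) (Fin (Y.n i)) (MonoidAlgebra ℤ N))
    (h0 : ∀ b, eps Y (A 0 b) = Y.aug b) (hA : ∀ i, A (i + 1) * Y.d i = Y.d i * A i) :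
    ∃ h : ∀ i, Matrix (Fin (Y.n i)) (Fin (Y.n (i + 1))) (MonoidAlgebra ℤ N),
      1 - A 0 = h 0 * Y.d 0 ∧ ∀ i, 1 - A (i + 1) = Y.d i * h i + h (i + 1) * Y.d (i + 1) := by
  have base : ∃ h : Matrix (Fin (Y.n 0)) (Fin (Y.n 1)) (MonoidAlgebra ℤ N),
      Y.d 0 * (1 - A 0) = Y.d 0 * h * Y.d 0 ∧ h * Y.d 0 = 1 - A 0 := by
    obtain ⟨h, hh⟩ := exists_rows (Y.d 0) (1 - A 0) (by
      intro b
      refine (Y.exact_zero _).1 ?_
      change eps Y ((1 : Matrix (Fin (Y.n 0)) (Fin (Y.n 0)) (MonoidAlgebra ℤ N)) b - A 0 b) = 0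
      rw [eps_sub, h0]
      have : (1 : Matrix (Fin (Y.n 0)) (Fin (Y.n 0)) (MonoidAlgebra ℤ N)) b = Pi.single b 1 := by
        funext j
        rw [Matrix.one_apply, Pi.single_apply]
        simp only [eq_comm]
      rw [this, eps_single, sub_self])
    exact ⟨h, by rw [Matrix.mul_assoc, hh], hh⟩
  have step : ∀ (i : ℕ) (h : Matrix (Fin (Y.n i)) (Fin (Y.n (i + 1))) (MonoidAlgebra ℤ N)),
      Y.d i * (1 - A i) = Y.d i * h * Y.d i →
      ∃ h' : Matrix (Fin (Y.n (i + 1))) (Fin (Y.n (i + 2))) (MonoidAlgebra ℤ N),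
        Y.d (i + 1) * (1 - A (i + 1)) = Y.d (i + 1) * h' * Y.d (i + 1) ∧
          h' * Y.d (i + 1) = 1 - A (i + 1) - Y.d i * h := by
    intro i h hh
    obtain ⟨h', hh'⟩ := exists_rows (Y.d (i + 1)) (1 - A (i + 1) - Y.d i * h) (by
      intro b
      refine (Y.exact_succ i _).1 ?_
      rw [← Matrix.mul_apply_eq_vecMul, Matrix.sub_mul, Matrix.sub_mul, Matrix.one_mul, hA, ← hh,
        Matrix.mul_sub, Matrix.mul_one, sub_self]
      rfl)
    refine ⟨h', ?_, hh'⟩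
    have e : 1 - A (i + 1) = h' * Y.d (i + 1) + Y.d i * h := by rw [hh']; abel
    rw [e, Matrix.mul_add, ← Matrix.mul_assoc, ← Matrix.mul_assoc, d_mul_d, Matrix.zero_mul,
      add_zero]
  obtain ⟨b0, hb0, hb0'⟩ := base
  choose! st hst hst' using step
  let S : ∀ i, {h : Matrix (Fin (Y.n i)) (Fin (Y.n (i + 1))) (MonoidAlgebra ℤ N) //
      Y.d i * (1 - A i) = Y.d i * h * Y.d i} :=
    fun i => Nat.rec ⟨b0, hb0⟩ (fun i h => ⟨st i h.1, hst i h.1 h.2⟩) i
  refine ⟨fun i => (S i).1, hb0'.symm, fun i => ?_⟩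
  have h1 := hst' i (S i).1 (S i).2
  change 1 - A (i + 1) = Y.d i * (S i).1 + st i (S i).1 * Y.d (i + 1)
  rw [h1]
  abel

end

end Pool.Agent.Q134.ZS
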