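import Pool.Agent.H79.LZ.Q134_ZS_SubNorm
import Pool.Agent.H79.LZ.Q134_ZS_Semi

/-!
Vanishing over `C*_r(G)` descends along slow chain maps.
-/

set_option autoImplicit false
set_option linter.unusedSectionVars false

open scoped Matrix ENNReal Pointwise Classical
open Filter Topology

namespace Pool.Agent.Q134.ZS

open Pool.Agent.H496R3.ZS (Ell integ)
open Pool.Agent.H919R4.ZS (FinRes RedC toRed valR L redCstar groupRing Op lreg)

noncomputable section

section ring

variable (N : Type) [Group N]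

lemma integ_mem_red (x : MonoidAlgebra ℂ N) : (show Op N from integ N N x) ∈ redCstar N := by
  refine Subring.le_topologicalClosure _ ?_
  refine MonoidAlgebra.induction_linear x ?_ ?_ ?_
  · rw [map_zero]; exact Subring.zero_mem _
  · intro x y hx hy
    rw [map_add]; exact Subring.add_mem _ hx hy
  · intro g r
    refine Subring.subset_closure ⟨r, g, ?_⟩
    change integ N N (MonoidAlgebra.single g r) = _
    rw [integ, MonoidAlgebra.lift_single]
    rfl

/-- the reduced `C*`-algebra as a normed ring -/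
instance normedRedC : NormedRing (RedC N) :=
  NormedRing.induced (RedC N) (Op N) (Subring.subtype (redCstar N)) Subtype.val_injective

instance completeRedC : CompleteSpace (RedC N) := by
  have h : IsClosed ((redCstar N : Subring (Op N)) : Set (Op N)) :=
    Subring.isClosed_topologicalClosure _
  have : CompleteSpace (Op N) := inferInstanceAs (CompleteSpace (Ell N →L[ℂ] Ell N))
  exact h.completeSpace_coe

/-- `ℂ[N] → C*_r(N)` -/
def toRedC : MonoidAlgebra ℂ N →+* RedC N :=
  RingHom.codRestrict (show MonoidAlgebra ℂ N →+* Op N from (integ N N).toRingHom) (redCstar N)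
    (integ_mem_red N)

lemma toRedC_cx : (toRedC N).comp cx = toRed N := by
  refine RingHom.ext fun a => ?_
  refine Subtype.ext ?_
  exact integ_cx a

lemma norm_toRedC (x : MonoidAlgebra ℂ N) : ‖toRedC N x‖ = ‖integ N N x‖ := rfl

end ring

variable {G : Type} [Group G] {N : Subgroup G}

theorem slow_vanish {X : FinRes G} {Y : FinRes N} (P : SubMap X N Y) (k : ℕ) (hP : P.Slow k)
    (i : ℕ) (hi : i ≤ k) (hX : ∀ j ≤ i, Subsingleton (X.homology (toRed G) j)) :
    Subsingleton (Y.homology (toRed N) i) := by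
  obtain ⟨F, h, hF, h0, h1⟩ := exists_comp P
  obtain ⟨e, he, hCI⟩ := exists_approx X i hX (δ := 1 / (4 * (X.n i + 1))) (by positivity)
  have hrs : ∀ a, rs e a ≤ 1 / 4 := by
    intro a
    have h2 := Finset.sum_le_card_nsmul Finset.univ (fun j => ‖integ G G (e a j)‖) _
      (fun j _ => he a j)
    rw [Finset.card_univ, Fintype.card_fin, nsmul_eq_mul] at h2
    refine h2.trans ?_
    rw [mul_one_div, div_le_div_iff₀ (by positivity) (by norm_num)]
    nlinarith
  set F' := (F i).map (cz ℂ G) with hF'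
  set S : Finset G := supp F' ∪ supp e with hS
  set C : ℝ := ∑ b, rs F' b with hC
  have hC0 : 0 ≤ C := Finset.sum_nonneg fun b _ => rs_nonneg _ _
  -- choose the radius
  have hlim : Tendsto (fun r : ℕ => (16 * C) * (1 / 2 : ℝ) ^ r) atTop (𝓝 ((16 * C) * 0)) :=
    (tendsto_pow_atTop_nhds_zero_of_lt_one (by norm_num) (by norm_num)).const_mul _
  rw [mul_zero] at hlim
  have hev : ∀ᶠ r : ℕ in atTop, (16 * C) * (1 / 2 : ℝ) ^ r < 1 / (2 * (Y.n i + 1)) :=
    hlim.eventually (gt_mem_nhds (by positivity))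
  obtain ⟨r, ⟨T, hT, hT'⟩, hr, hr2⟩ :=
    ((hP S 2 one_lt_two).and_eventually (hev.and (eventually_ge_atTop 2))).exists
  obtain ⟨m, rfl⟩ : ∃ m, r = m + 2 := ⟨r - 2, by omega⟩
  set E' := GG ℂ P i (F' * e ^ (m + 1)) with hE'
  have hCI' : CIe Y i E' := CIe_transfer P F h hF h0 h1 i _ (CIe_pow X i e hCI m)
  have hb : ∀ b c, ‖toRedC N (E' b c)‖ ≤ 1 / (2 * (Y.n i + 1)) := by
    intro b c
    rw [norm_toRedC]
    have h2 : ‖integ N N (E' b c)‖ ≤ rs (F' * e ^ (m + 1)) b *
        ∑ j, ∑ γ ∈ T, chainSize (P.p i j γ) := by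
      refine norm_gg_le P i ((F' * e ^ (m + 1)) b) T (fun j g hg => ?_) c
      exact hT g (support_pow F' e Finset.subset_union_left Finset.subset_union_right (m + 1)
        b j hg)
    have h3 : rs (F' * e ^ (m + 1)) b ≤ C * (1 / 4) ^ (m + 1) := by
      refine (rs_pow F' e (by norm_num) hrs (m + 1) b).trans ?_
      refine mul_le_mul_of_nonneg_right ?_ (by positivity)
      exact Finset.single_le_sum (f := fun b => rs F' b) (fun b _ => rs_nonneg _ _)
        (Finset.mem_univ b)
    refine h2.trans ?_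
    calc rs (F' * e ^ (m + 1)) b * ∑ j, ∑ γ ∈ T, chainSize (P.p i j γ)
        ≤ (C * (1 / 4) ^ (m + 1)) * 2 ^ (m + 2) := by
          refine mul_le_mul h3 (hT' i hi) ?_ (by positivity)
          exact Finset.sum_nonneg fun j _ => Finset.sum_nonneg fun γ _ =>
            Finset.sum_nonneg fun m _ => l1_nonneg _
      _ = (4 * C) * (1 / 2) ^ (m + 2) := by
          have e1 : (1 / 4 : ℝ) ^ (m + 1) = 4 * ((1 / 4) ^ (m + 2)) := by
            rw [pow_succ (1 / 4 : ℝ) (m + 1)]; ring
          have e2 : (1 / 4 : ℝ) ^ (m + 2) * 2 ^ (m + 2) = (1 / 2) ^ (m + 2) := by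
            rw [← mul_pow]; norm_num
          rw [e1, ← e2]; ring
      _ ≤ (16 * C) * (1 / 2) ^ (m + 2) :=
          mul_le_mul_of_nonneg_right (by nlinarith) (by positivity)
      _ ≤ 1 / (2 * (Y.n i + 1)) := hr.le
  have hfin := vanish_of_small Y i E' hCI' (toRedC N) hb (by
    rw [mul_one_div, div_le_div_iff₀ (by positivity) (by norm_num)]
    nlinarith)
  rw [toRedC_cx] at hfin
  exact hfin

/-- **slow maps to a subgroup** -/
theorem slow_main {X : FinRes G} {Y : FinRes N} (P : SubMap X N Y) (k : ℕ) (hP : P.Slow k)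
    (hY : ∃ i ≤ k, Nontrivial (Y.homology (toRed N) i)) :
    ∃ i ≤ k, Nontrivial (X.homology (toRed G) i) := by
  by_contra hcon
  push Not at hcon
  have hs : ∀ i ≤ k, Subsingleton (X.homology (toRed G) i) := fun i hi =>
    not_nontrivial_iff_subsingleton.1 (by simpa using hcon i hi)
  obtain ⟨i, hi, hi'⟩ := hY
  exact not_nontrivial_iff_subsingleton.2
    (slow_vanish P k hP i hi fun j hj => hs j (hj.trans hi)) hi'

end

end Pool.Agent.Q134.ZS
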