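import Pool.Agent.H79.LZ.Q134_ZS_SubCh

/-!
Transfer of the contraction identities from `G` to the subgroup `N`.
-/

set_option autoImplicit false
set_option linter.unusedSectionVars false

open scoped Matrix

namespace Pool.Agent.Q134.ZS

open Pool.Agent.H919R4.ZS (FinRes augm d_mul_d eps)

noncomputable section

variable {G : Type} [Group G] {N : Subgroup G} {X : FinRes G} {Y : FinRes N} (P : SubMap X N Y)

/-- the extension of the chain map to matrices -/
def GG (R : Type) [CommRing R] (P : SubMap X N Y) (i : ℕ) {a : ℕ}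
    (M : Matrix (Fin a) (Fin (X.n i)) (MonoidAlgebra R G)) :
    Matrix (Fin a) (Fin (Y.n i)) (MonoidAlgebra R N) := fun b => gg R P i (M b)

variable (R : Type) [CommRing R]

lemma GG_bd (i : ℕ) {a : ℕ} (M : Matrix (Fin a) (Fin (X.n (i + 1))) (MonoidAlgebra R G)) :
    GG R P i (M * (X.d i).map (cz R G)) = GG R P (i + 1) M * (Y.d i).map (cz R N) := by
  funext b
  rw [GG, Matrix.mul_apply_eq_vecMul, gg_bd, Matrix.mul_apply_eq_vecMul]
  rfl

lemma GG_add (i : ℕ) {a : ℕ} (M M' : Matrix (Fin a) (Fin (X.n i)) (MonoidAlgebra R G)) :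
    GG R P i (M + M') = GG R P i M + GG R P i M' := by
  funext b
  exact gg_add R P i (M b) (M' b)

lemma GG_smul (i : ℕ) {a c : ℕ} (D : Matrix (Fin a) (Fin c) (MonoidAlgebra R N))
    (M : Matrix (Fin c) (Fin (X.n i)) (MonoidAlgebra R G)) :
    GG R P i (D.map (ii R N) * M) = D * GG R P i M := by
  funext b
  change gg R P i ((D.map (ii R N) * M) b) = _
  have h1 : (D.map (ii R N) * M) b = ∑ m, fun j => ii R N (D b m) * M m j := by
    funext j
    rw [Matrix.mul_apply, Finset.sum_apply]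
    rfl
  rw [h1, gg_sum]
  funext j
  rw [Finset.sum_apply, Matrix.mul_apply]
  refine Finset.sum_congr rfl fun m _ => ?_
  rw [gg_smul]
  rfl

lemma GG_cz (i : ℕ) {a : ℕ} (M : Matrix (Fin a) (Fin (X.n i)) (MonoidAlgebra ℤ G)) :
    GG R P i (M.map (cz R G)) = (GG ℤ P i M).map (cz R N) := by
  funext b
  exact gg_cz P R i (M b)

lemma cz_int_mat (N : Type) [Group N] {a b : ℕ} (D : Matrix (Fin a) (Fin b) (MonoidAlgebra ℤ N)) :
    D.map (cz ℤ N) = D := funext fun _ => funext fun _ => cz_int N _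

/-- the composition of the two chain maps and the homotopy -/
theorem exists_comp (P : SubMap X N Y) :
    ∃ (F : ∀ i, Matrix (Fin (Y.n i)) (Fin (X.n i)) (MonoidAlgebra ℤ G))
      (h : ∀ i, Matrix (Fin (Y.n i)) (Fin (Y.n (i + 1))) (MonoidAlgebra ℤ N)),
      (∀ i, F (i + 1) * X.d i = (Y.d i).map (ii ℤ N) * F i) ∧
      1 - GG ℤ P 0 (F 0) = h 0 * Y.d 0 ∧
      ∀ i, 1 - GG ℤ P (i + 1) (F (i + 1)) = Y.d i * h i + h (i + 1) * Y.d (i + 1) := by
  obtain ⟨F, hF0, hF⟩ := exists_F X Y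
  obtain ⟨h, h0, h1⟩ := exists_h Y (fun i => GG ℤ P i (F i))
    (fun b => (eps_gg P (F 0 b)).trans (hF0 b)) (fun i => by
      have e := GG_bd P ℤ i (F (i + 1))
      rw [cz_int_mat, cz_int_mat, hF, GG_smul] at e
      exact e.symm)
  exact ⟨F, h, hF, h0, h1⟩

lemma map_cx_sub {a : ℕ} (A : Matrix (Fin a) (Fin a) (MonoidAlgebra ℤ N)) :
    (1 - A).map (cz ℂ N) = 1 - A.map (cz ℂ N) := by
  rw [Matrix.map_sub _ (map_sub _), Pool.Agent.H919R4.ZS.map_one']

/-- **transfer** -/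
theorem CIe_transfer (P : SubMap X N Y)
    (F : ∀ i, Matrix (Fin (Y.n i)) (Fin (X.n i)) (MonoidAlgebra ℤ G))
    (h : ∀ i, Matrix (Fin (Y.n i)) (Fin (Y.n (i + 1))) (MonoidAlgebra ℤ N))
    (hF : ∀ i, F (i + 1) * X.d i = (Y.d i).map (ii ℤ N) * F i)
    (h0 : 1 - GG ℤ P 0 (F 0) = h 0 * Y.d 0)
    (h1 : ∀ i, 1 - GG ℤ P (i + 1) (F (i + 1)) = Y.d i * h i + h (i + 1) * Y.d (i + 1))
    (k : ℕ) (e : Matrix (Fin (X.n k)) (Fin (X.n k)) (MonoidAlgebra ℂ G)) (he : CIe X k e) :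
    CIe Y k (GG ℂ P k ((F k).map (cz ℂ G) * e)) := by
  cases k with
  | zero =>
    obtain ⟨s, hs⟩ := he
    refine ⟨(h 0).map (cz ℂ N) + GG ℂ P 1 ((F 0).map (cz ℂ G) * s), ?_⟩
    have e1 : (F 0).map (cz ℂ G) * (s * (X.d 0).map (cz ℂ G) + e) = (F 0).map (cz ℂ G) := by
      have : s * (X.d 0).map (cz ℂ G) + e = 1 := hs
      rw [this, Matrix.mul_one]
    have e2 := congrArg (GG ℂ P 0) e1
    rw [Matrix.mul_add, ← Matrix.mul_assoc, GG_add, GG_bd, GG_cz] at e2
    have e3 := congrArg (fun M => M.map (cz ℂ N)) h0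
    simp only [map_cx_sub, Matrix.map_mul] at e3
    rw [← e2] at e3
    change ((h 0).map (cz ℂ N) + GG ℂ P 1 ((F 0).map (cz ℂ G) * s)) * (Y.d 0).map (cz ℂ N) +
      GG ℂ P 0 ((F 0).map (cz ℂ G) * e) = 1
    rw [Matrix.add_mul, ← e3]
    abel
  | succ k =>
    obtain ⟨s', s, hs⟩ := he
    refine ⟨(h k).map (cz ℂ N) + GG ℂ P (k + 1) ((F k).map (cz ℂ G) * s'),
      (h (k + 1)).map (cz ℂ N) + GG ℂ P (k + 2) ((F (k + 1)).map (cz ℂ G) * s), ?_⟩
    have e1 : (F (k + 1)).map (cz ℂ G) * ((X.d k).map (cz ℂ G) * s' +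
        s * (X.d (k + 1)).map (cz ℂ G) + e) = (F (k + 1)).map (cz ℂ G) := by
      have : (X.d k).map (cz ℂ G) * s' + s * (X.d (k + 1)).map (cz ℂ G) + e = 1 := hs
      rw [this, Matrix.mul_one]
    have e2 := congrArg (GG ℂ P (k + 1)) e1
    have e4 : (F (k + 1)).map (cz ℂ G) * (X.d k).map (cz ℂ G) =
        ((Y.d k).map (cz ℂ N)).map (ii ℂ N) * (F k).map (cz ℂ G) := by
      rw [← Matrix.map_mul, hF, Matrix.map_mul]
      congr 1
      exact funext fun a => funext fun b => cz_ii ℂ (Y.d k a b)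
    rw [Matrix.mul_add, Matrix.mul_add, ← Matrix.mul_assoc, ← Matrix.mul_assoc, e4,
      Matrix.mul_assoc, GG_add, GG_add, GG_bd, GG_cz, GG_smul] at e2
    have e3 := congrArg (fun M => M.map (cz ℂ N)) (h1 k)
    simp only [map_cx_sub, Matrix.map_mul, Matrix.map_add _ (map_add (cz ℂ N))] at e3
    rw [← e2] at e3
    change (Y.d k).map (cz ℂ N) * ((h k).map (cz ℂ N) +
      GG ℂ P (k + 1) ((F k).map (cz ℂ G) * s')) +
      ((h (k + 1)).map (cz ℂ N) + GG ℂ P (k + 2) ((F (k + 1)).map (cz ℂ G) * s)) *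
      (Y.d (k + 1)).map (cz ℂ N) +
      GG ℂ P (k + 1) ((F (k + 1)).map (cz ℂ G) * e) = 1
    rw [Matrix.mul_add, Matrix.add_mul]
    have e5 := sub_eq_iff_eq_add.1 e3
    rw [e5]
    abel

/-- powers -/
theorem CIe_pow (X : FinRes G) (k : ℕ)
    (e : Matrix (Fin (X.n k)) (Fin (X.n k)) (MonoidAlgebra ℂ G)) (he : CIe X k e) (m : ℕ) :
    CIe X k (e ^ (m + 1)) := by
  cases k with
  | zero =>
    induction m with
    | zero => rwa [zero_add, pow_one]
    | succ m ih =>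
      obtain ⟨s, hs⟩ := he
      obtain ⟨t, ht⟩ := ih
      refine ⟨s + e * t, ?_⟩
      have h1 : e = 1 - s * (X.d 0).map cx := by rw [← hs]; abel
      have h2 : e * (t * (X.d 0).map cx + e ^ (m + 1)) = e := by rw [ht, Matrix.mul_one]
      rw [pow_succ' e (m + 1), Matrix.add_mul, Matrix.mul_assoc e t, add_assoc, ← Matrix.mul_add,
        h2, hs]
  | succ k =>
    obtain ⟨s', s, hs⟩ := he
    set D := (X.d k).map (cx (G := G)) with hD
    set D' := (X.d (k + 1)).map (cx (G := G)) with hD'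
    have hDD : D' * D = 0 := by
      rw [hD, hD', ← Matrix.map_mul, d_mul_d]
      ext; simp
    have hcomm : D' * e = (1 - D' * s) * D' := by
      have h2 : D' * (D * s' + s * D' + e) = D' := by rw [hs, Matrix.mul_one]
      rw [Matrix.mul_add, Matrix.mul_add, ← Matrix.mul_assoc, hDD, Matrix.zero_mul, zero_add,
        ← Matrix.mul_assoc] at h2
      rw [Matrix.sub_mul, Matrix.one_mul]
      exact eq_sub_of_add_eq' h2
    have hpow : ∀ m : ℕ, D' * e ^ m = (1 - D' * s) ^ m * D' := by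
      intro m
      induction m with
      | zero => rw [pow_zero, pow_zero, Matrix.mul_one, Matrix.one_mul]
      | succ m ih => rw [pow_succ, ← Matrix.mul_assoc, ih, Matrix.mul_assoc, hcomm,
          ← Matrix.mul_assoc, ← pow_succ]
    induction m with
    | zero => rw [zero_add, pow_one]; exact ⟨s', s, hs⟩
    | succ m ih =>
      obtain ⟨t', t, ht⟩ := ih
      refine ⟨t' + s' * e ^ (m + 1), t + s * (1 - D' * s) ^ (m + 1), ?_⟩
      have h2 : (D * s' + s * D' + e) * e ^ (m + 1) = e ^ (m + 1) := by rw [hs, Matrix.one_mul]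
      rw [Matrix.add_mul, Matrix.add_mul, Matrix.mul_assoc s D', hpow, ← pow_succ'] at h2
      have h3 : D * t' + t * D' + e ^ (m + 1) = 1 := ht
      have h4 : D * (t' + s' * e ^ (m + 1)) + (t + s * (1 - D' * s) ^ (m + 1)) * D' +
          e ^ (m + 1 + 1) = (D * t' + t * D') + (D * s' * e ^ (m + 1) +
          s * ((1 - D' * s) ^ (m + 1) * D') + e ^ (m + 1 + 1)) := by
        rw [Matrix.mul_add, Matrix.add_mul, ← Matrix.mul_assoc D s', Matrix.mul_assoc s]
        abel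
      rw [h2, h3] at h4
      exact h4

end

end Pool.Agent.Q134.ZS
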