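import Mathlib

set_option autoImplicit false

open scoped Matrix ComplexConjugate

namespace Pool.Agent.R778

/-- Clifford matrices over `Fin N`. -/
theorem exists_cliff_fin (N : ℕ) (ζ : Fin N → ℂ) (hζ : ∀ j, ‖ζ j‖ = 1) :
    ∃ (S : Type) (_ : Fintype S) (_ : DecidableEq S) (c : (Fin N → ℂ) → Matrix S S ℂ)
      (U Γ : Matrix S S ℂ),
      (∀ v w, c (v - w) = c v - c w) ∧ (∀ v, (c v)ᴴ = c v) ∧
      (∀ v, c v * c v = ((∑ j, ‖v j‖ ^ 2 : ℝ) : ℂ) • (1 : Matrix S S ℂ)) ∧
      (∀ v, Γ * c v = - (c v * Γ)) ∧ (∀ v, U * c v = c (ζ * v) * U) ∧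
      (Γ * U).trace = ∏ j, (1 - ζ j) := by
  induction N with
  | zero =>
    refine ⟨Unit, inferInstance, inferInstance, fun _ => 0, 1, 1, ?_, ?_, ?_, ?_, ?_, ?_⟩
    · intro v w; simp
    · intro v; simp
    · intro v; simp
    · intro v; simp
    · intro v; simp
    · simp [Matrix.trace]
  | succ N ih =>
    obtain ⟨S, i1, i2, c, U, Γ, h1, h2, h3, h4, h5, h6⟩ := ih (fun j => ζ j.succ)
      (fun j => hζ j.succ)
    refine ⟨S ⊕ S, inferInstance, inferInstance,
      fun v => Matrix.fromBlocks (c (fun j => v j.succ)) (conj (v 0) • 1) (v 0 • 1)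
        (- c (fun j => v j.succ)),
      Matrix.fromBlocks U 0 0 (ζ 0 • U), Matrix.fromBlocks Γ 0 0 (-Γ), ?_, ?_, ?_, ?_, ?_, ?_⟩
    · intro v w
      have e : (fun j : Fin N => (v - w) j.succ) = (fun j => v j.succ) - fun j => w j.succ := rfl
      have e1 := h1 (fun j => v j.succ) (fun j => w j.succ)
      beta_reduce
      rw [e, e1, sub_eq_add_neg (Matrix.fromBlocks _ _ _ _), Matrix.fromBlocks_neg,
        Matrix.fromBlocks_add]
      congr 1
      · rw [← sub_eq_add_neg, ← sub_smul, ← map_sub]; rfl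
      · rw [← sub_eq_add_neg, ← sub_smul]; rfl
      · abel
    · intro v
      rw [Matrix.fromBlocks_conjTranspose]
      congr 1
      · exact h2 _
      · rw [Matrix.conjTranspose_smul, Matrix.conjTranspose_one]; rfl
      · rw [Matrix.conjTranspose_smul, Matrix.conjTranspose_one]; simp
      · rw [Matrix.conjTranspose_neg, h2]
    · intro v
      rw [Matrix.fromBlocks_multiply, ← Matrix.fromBlocks_one, Matrix.fromBlocks_smul]
      have hz : (v 0) * conj (v 0) = ((‖v 0‖ ^ 2 : ℝ) : ℂ) := by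
        rw [Complex.mul_conj, Complex.normSq_eq_norm_sq]
      have hz' : conj (v 0) * (v 0) = ((‖v 0‖ ^ 2 : ℝ) : ℂ) := by
        rw [mul_comm]; exact hz
      have hs : ((∑ j, ‖v j‖ ^ 2 : ℝ) : ℂ) = ((‖v 0‖ ^ 2 : ℝ) : ℂ) +
          ((∑ j : Fin N, ‖v j.succ‖ ^ 2 : ℝ) : ℂ) := by
        rw [← Complex.ofReal_add, Fin.sum_univ_succ]
      have e3 := h3 (fun j => v j.succ)
      congr 1
      · rw [e3, hs, add_smul, Matrix.smul_mul, Matrix.mul_smul, Matrix.one_mul, smul_smul, hz',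
          add_comm]
      · simp
      · simp
      · rw [neg_mul_neg, e3, hs, add_smul, Matrix.smul_mul, Matrix.mul_smul,
          Matrix.one_mul, smul_smul, hz]
    · intro v
      rw [Matrix.fromBlocks_multiply, Matrix.fromBlocks_multiply, Matrix.fromBlocks_neg]
      have e4 := h4 (fun j => v j.succ)
      congr 1
      · simp [e4]
      · simp
      · simp
      · simp [e4]
    · intro v
      rw [Matrix.fromBlocks_multiply, Matrix.fromBlocks_multiply]
      have e5 := h5 (fun j => v j.succ)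
      have hz : conj (ζ 0) * ζ 0 = 1 := by
        rw [mul_comm, Complex.mul_conj, Complex.normSq_eq_norm_sq, hζ]; simp
      have e : (fun j : Fin N => (ζ * v) j.succ) = (fun j => ζ j.succ) * fun j => v j.succ := rfl
      rw [e]
      congr 1
      · simp only [Matrix.mul_zero, Matrix.zero_mul, add_zero, smul_zero]; exact e5
      · simp only [Matrix.zero_mul, add_zero, Matrix.mul_smul, Matrix.mul_one, Matrix.mul_zero,
          zero_add, Pi.mul_apply, map_mul, Matrix.smul_mul, Matrix.one_mul, smul_smul]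
        congr 1
        linear_combination (- conj (v 0)) * hz
      · simp [smul_smul, mul_comm]
      · simp only [Matrix.zero_mul, zero_add, Matrix.mul_zero, Matrix.mul_neg, Matrix.neg_mul,
          Matrix.smul_mul, Matrix.mul_smul]
        rw [e5, smul_zero, zero_add, smul_neg]
    · rw [Matrix.fromBlocks_multiply, Matrix.trace, Fintype.sum_sum_type]
      simp only [Matrix.diag_apply, Matrix.fromBlocks_apply₁₁, Matrix.fromBlocks_apply₂₂,
        Matrix.mul_zero, add_zero, Matrix.zero_mul, zero_add, Matrix.neg_mul, Matrix.mul_smul,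
        Matrix.smul_apply, Matrix.neg_apply, smul_eq_mul, mul_neg, Finset.sum_neg_distrib,
        ← Finset.mul_sum]
      have h7 : ∑ x, (Γ * U) x x = ∏ j : Fin N, (1 - ζ j.succ) := h6
      rw [h7, Fin.prod_univ_succ]
      ring

theorem exists_cliff (J : Type) [Fintype J] (ζ : J → ℂ) (hζ : ∀ j, ‖ζ j‖ = 1) :
    ∃ (S : Type) (_ : Fintype S) (_ : DecidableEq S) (c : (J → ℂ) → Matrix S S ℂ)
      (U Γ : Matrix S S ℂ),
      (∀ v w, c (v - w) = c v - c w) ∧ (∀ v, (c v)ᴴ = c v) ∧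
      (∀ v, c v * c v = ((∑ j, ‖v j‖ ^ 2 : ℝ) : ℂ) • (1 : Matrix S S ℂ)) ∧
      (∀ v, Γ * c v = - (c v * Γ)) ∧ (∀ v, U * c v = c (ζ * v) * U) ∧
      (Γ * U).trace = ∏ j, (1 - ζ j) := by
  let e := Fintype.equivFin J
  obtain ⟨S, i1, i2, c, U, Γ, h1, h2, h3, h4, h5, h6⟩ :=
    exists_cliff_fin (Fintype.card J) (ζ ∘ e.symm) (fun j => hζ _)
  refine ⟨S, i1, i2, fun v => c (v ∘ e.symm), U, Γ, ?_, ?_, ?_, ?_, ?_, ?_⟩
  · intro v w; exact h1 _ _
  · intro v; exact h2 _
  · intro v
    rw [h3]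
    congr 2
    exact e.symm.sum_comp (fun j => ‖v j‖ ^ 2)
  · intro v; exact h4 _
  · intro v; exact h5 _
  · rw [h6]
    exact e.symm.prod_comp (fun j => 1 - ζ j)

end Pool.Agent.R778
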