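import Pool.Agent.H79.LZ.R778_ZSDefs
import Pool.Agent.H79.LZ.H919R4_ZS_Act

set_option autoImplicit false
set_option linter.unusedSectionVars false

open scoped Matrix ENNReal InnerProductSpace

namespace Pool.Agent.R778.ZS

open Pool.Agent.H919R4.ZS

section contraction

theorem exists_contraction {S : Type} [Ring S] {K : Type} [Fintype K] [DecidableEq K]
    (D : Matrix K K S) (deg : K → ℕ) (hdeg : ∀ κ μ, D κ μ ≠ 0 → deg μ < deg κ)
    (hDD : D * D = 0) (hex : ∀ x : K → S, x ᵥ* D = 0 → ∃ y, y ᵥ* D = x) :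
    ∃ s : Matrix K K S, D * s + s * D = 1 := by
  have key : ∀ n : ℕ, ∃ s : Matrix K K S, ∀ κ, deg κ < n → (D * s + s * D) κ =
      (1 : Matrix K K S) κ := by
    intro n
    induction n with
    | zero => exact ⟨0, fun κ h => absurd h (Nat.not_lt_zero _)⟩
    | succ n ih =>
      obtain ⟨s, hs⟩ := ih
      have hcyc : ∀ κ, deg κ = n → ((1 : Matrix K K S) κ - (D * s) κ) ᵥ* D = 0 := by
        intro κ hκ
        have e1 : (D * (s * D)) κ = D κ := by
          have e2 : (D * (s * D)) κ = (D * (1 - D * s)) κ := by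
            funext ν
            rw [Matrix.mul_apply, Matrix.mul_apply]
            refine Finset.sum_congr rfl fun μ _ => ?_
            by_cases h : D κ μ = 0
            · rw [h, zero_mul, zero_mul]
            · have h2 := hs μ (lt_of_lt_of_le (hdeg κ μ h) hκ.le)
              have h3 := congrFun h2 ν
              rw [Matrix.add_apply] at h3
              rw [Matrix.sub_apply, ← h3, add_sub_cancel_left]
          rw [e2, Matrix.mul_sub, Matrix.mul_one, ← Matrix.mul_assoc, hDD, Matrix.zero_mul,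
            sub_zero]
        rw [Matrix.sub_vecMul, ← Matrix.mul_apply_eq_vecMul, ← Matrix.mul_apply_eq_vecMul,
          Matrix.one_mul, Matrix.mul_assoc, e1, sub_self]
      classical
      choose y hy using fun κ (h : deg κ = n) => hex _ (hcyc κ h)
      refine ⟨fun κ => if h : deg κ = n then y κ h else s κ, ?_⟩
      set s' : Matrix K K S := fun κ => if h : deg κ = n then y κ h else s κ with hs'
      have hlt : ∀ κ, deg κ < n → s' κ = s κ := fun κ h => dif_neg h.ne
      have hDs : ∀ κ, deg κ ≤ n → (D * s') κ = (D * s) κ := by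
        intro κ hκ
        funext ν
        rw [Matrix.mul_apply, Matrix.mul_apply]
        refine Finset.sum_congr rfl fun μ _ => ?_
        by_cases h : D κ μ = 0
        · rw [h, zero_mul, zero_mul]
        · rw [hlt μ (lt_of_lt_of_le (hdeg κ μ h) hκ)]
      intro κ hκ
      have e0 : (D * s' + s' * D) κ = (D * s') κ + s' κ ᵥ* D := by
        rw [← Matrix.mul_apply_eq_vecMul]; rfl
      rw [e0, hDs κ (Nat.lt_succ_iff.1 hκ)]
      rcases Nat.lt_succ_iff_lt_or_eq.1 hκ with h | h
      · rw [hlt κ h, ← hs κ h, ← Matrix.mul_apply_eq_vecMul]; rfl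
      · have : s' κ = y κ h := dif_pos h
        rw [this, hy κ h]
        exact add_sub_cancel _ _
  obtain ⟨s, hs⟩ := key (Finset.univ.sup deg + 1)
  refine ⟨s, funext fun κ => hs κ ?_⟩
  exact Nat.lt_succ_iff.2 (Finset.le_sup (Finset.mem_univ κ))

end contraction

variable {G : Type} [Group G] (X : FinRes G)

/-- the row vector `x` in degree `i` -/
def comp {S : Type} [Ring S] (x : Bas X → S) (i : ℕ) : Fin (X.n i) → S :=
  fun j => if h : i < X.len + 1 then x ⟨⟨i, h⟩, j⟩ else 0

lemma vecMul_bmat {S : Type} [Ring S] (φ : MonoidAlgebra ℤ G →+* S) (x : Bas X → S)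
    (i : Fin (X.len + 1)) (l : Fin (X.n i)) :
    (x ᵥ* (Matrix.of (bmat X)).map φ) ⟨i, l⟩ = (comp X x (i + 1) ᵥ* (X.d i).map φ) l := by
  rw [Matrix.vecMul, dotProduct, Matrix.vecMul, dotProduct, Fintype.sum_sigma]
  by_cases h : (i : ℕ) + 1 < X.len + 1
  · rw [Finset.sum_eq_single (⟨i + 1, h⟩ : Fin (X.len + 1))]
    · refine Finset.sum_congr rfl fun j _ => ?_
      rw [Matrix.map_apply, Matrix.map_apply, Matrix.of_apply, bmat, dif_pos rfl, comp, dif_pos h]
      rfl
    · intro k _ hk
      refine Finset.sum_eq_zero fun j _ => ?_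
      rw [Matrix.map_apply, Matrix.of_apply, bmat, dif_neg, map_zero, mul_zero]
      intro h2
      exact hk (Fin.ext h2)
    · intro h2; exact absurd (Finset.mem_univ _) h2
  · rw [Finset.sum_eq_zero, Finset.sum_eq_zero]
    · intro j _
      rw [comp, dif_neg h, zero_mul]
    · intro k _
      refine Finset.sum_eq_zero fun j _ => ?_
      rw [Matrix.map_apply, Matrix.of_apply, bmat, dif_neg, map_zero, mul_zero]
      intro h2
      exact h (h2 ▸ k.2)

lemma bmat_mul_bmat : (Matrix.of (bmat X)) * (Matrix.of (bmat X)) = 0 := by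
  refine funext fun κ => funext fun ⟨i, l⟩ => ?_
  have h1 := vecMul_bmat X (RingHom.id _) (bmat X κ) i l
  rw [show (Matrix.of (bmat X)).map (RingHom.id (MonoidAlgebra ℤ G)) = Matrix.of (bmat X) from
    by ext; rfl] at h1
  rw [Matrix.mul_apply_eq_vecMul]
  change (bmat X κ ᵥ* Matrix.of (bmat X)) ⟨i, l⟩ = 0
  rw [h1]
  by_cases hk : (κ.1 : ℕ) = i + 2
  · obtain ⟨⟨k, hk2⟩, j⟩ := κ
    change k = i + 2 at hk
    subst hk
    have e : comp X (bmat X ⟨⟨(i : ℕ) + 2, hk2⟩, j⟩) (i + 1) = X.d (i + 1) j := by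
      funext j'
      have h3 : (i : ℕ) + 1 < X.len + 1 := by omega
      rw [comp, dif_pos h3, bmat, dif_pos rfl]
      rfl
    rw [e]
    have e2 := congrFun (congrFun (d_mul_d X i) j) l
    rw [Matrix.mul_apply_eq_vecMul] at e2
    rw [show (X.d i).map (RingHom.id (MonoidAlgebra ℤ G)) = X.d i from by ext; rfl]
    exact e2
  · have e : comp X (bmat X κ) (i + 1) = 0 := by
      funext j'
      rw [comp]
      split_ifs with h3
      · rw [bmat, dif_neg]
        · rfl
        · exact hk
      · rfl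
    rw [e, Matrix.zero_vecMul]
    rfl

theorem bmat_exact {S : Type} [Ring S] (φ : MonoidAlgebra ℤ G →+* S)
    (h : ∀ i ≤ X.len, Subsingleton (X.homology φ i)) (x : Bas X → S)
    (hx : x ᵥ* (Matrix.of (bmat X)).map φ = 0) :
    ∃ y, y ᵥ* (Matrix.of (bmat X)).map φ = x := by
  have h1 : ∀ i : Fin (X.len + 1), comp X x (i + 1) ᵥ* (X.d i).map φ = 0 := by
    intro i
    funext l
    rw [← vecMul_bmat, hx]; rfl
  have h2 : ∀ i : Fin (X.len + 1), ∃ y, y ᵥ* (X.d i).map φ = comp X x i := by
    rintro ⟨i, hi⟩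
    refine exact_of_subsingleton X φ i (h i (Nat.lt_succ_iff.1 hi)) _ ?_
    cases i with
    | zero => trivial
    | succ i => exact h1 ⟨i, by omega⟩
  choose y hy using h2
  have hcast : ∀ κ : Bas X, 1 ≤ (κ.1 : ℕ) → X.n κ.1 = X.n ((κ.1 : ℕ) - 1 + 1) := by
    intro κ h
    congr 1
    omega
  let yy : Bas X → S := fun κ => if h : 1 ≤ (κ.1 : ℕ) then y ⟨κ.1 - 1, by omega⟩
    (Fin.cast (hcast κ h) κ.2) else 0
  refine ⟨yy, ?_⟩
  funext ⟨i, l⟩
  rw [vecMul_bmat]
  by_cases h3 : (i : ℕ) + 1 < X.len + 1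
  · have e : comp X yy (i + 1) = y i := by
      funext j
      rw [comp, dif_pos h3]
      change (if h : 1 ≤ (i : ℕ) + 1 then y ⟨(i : ℕ) + 1 - 1, by omega⟩
        (Fin.cast (hcast ⟨⟨i + 1, h3⟩, j⟩ h) j) else 0) = y i j
      rw [dif_pos (Nat.le_add_left 1 i)]
      rfl
    rw [e, hy, comp, dif_pos i.2]
  · have hn : X.n (i + 1) = 0 := X.n_eq_zero _ (by omega)
    have e : comp X yy (i + 1) = y i := by
      funext j
      exact absurd j.2 (by omega)
    rw [e, hy, comp, dif_pos i.2]

lemma map_bmat_mul {S : Type} [Ring S] (φ : MonoidAlgebra ℤ G →+* S) :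
    (Matrix.of (bmat X)).map φ * (Matrix.of (bmat X)).map φ = 0 := by
  rw [← Matrix.map_mul, bmat_mul_bmat]; ext; simp

lemma map_contr {S T : Type} [Ring S] [Ring T] (ψ : S →+* T) {K : Type} [Fintype K]
    [DecidableEq K] (D s : Matrix K K S) (h : D * s + s * D = 1) :
    D.map ψ * s.map ψ + s.map ψ * D.map ψ = 1 := by
  rw [← Matrix.map_mul, ← Matrix.map_mul, ← Matrix.map_add _ (map_add _), h]
  refine funext fun i => funext fun j => ?_
  by_cases h : i = j
  · subst h; simp
  · simp [h]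

theorem exists_opcontr (h : ∀ i ≤ X.len, Subsingleton (X.homology (toRed G) i)) :
    ∃ s : Matrix (Bas X) (Bas X) (L2 G →L[ℂ] L2 G),
      (Matrix.of (bmat X)).map L * s + s * (Matrix.of (bmat X)).map L = 1 := by
  obtain ⟨s, hs⟩ := exists_contraction ((Matrix.of (bmat X)).map (toRed G)) (fun κ => (κ.1 : ℕ))
    (by
      intro κ μ hne
      rw [Matrix.map_apply, Matrix.of_apply, bmat] at hne
      by_cases h : (κ.1 : ℕ) = μ.1 + 1
      · omega
      · rw [dif_neg h, map_zero] at hne; exact absurd rfl hne)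
    (map_bmat_mul X (toRed G))
    (fun x hx => bmat_exact X (toRed G) h x hx)
  refine ⟨s.map (valR (G := G)), ?_⟩
  have e1 : (Matrix.of (bmat X)).map (L (G := G)) =
      ((Matrix.of (bmat X)).map (toRed G)).map (valR (G := G)) := by
    refine funext fun κ => funext fun μ => ?_
    exact (coe_toRed (bmat X κ μ)).symm
  rw [e1]
  exact map_contr (valR (G := G)) _ _ hs

end Pool.Agent.R778.ZS
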