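import Pool.Agent.H79.LZ.R778_Gap

set_option autoImplicit false
set_option linter.unusedSectionVars false

open scoped Matrix ENNReal InnerProductSpace

namespace Pool.Agent.R778.ZS

open Pool.Agent.H919R4.ZS

/-- the spectral gap from a bounded contraction -/
theorem abstract_gap {V : Type} [NormedAddCommGroup V] [InnerProductSpace ℂ V] [CompleteSpace V]
    {K : Type} [Fintype K] [DecidableEq K] (D s : Matrix K K (V →L[ℂ] V)) (hDD : D * D = 0)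
    (hs : D * s + s * D = 1) :
    ∃ c : ℝ, 0 < c ∧ ∀ v : K → V, c * ∑ κ, ‖v κ‖ ^ 2 ≤
      ∑ κ, ‖(∑ μ, D κ μ (v μ)) + ∑ μ, ContinuousLinearMap.adjoint (D μ κ) (v μ)‖ ^ 2 := by
  set M : ℝ := ∑ κ, ∑ μ, ‖s κ μ‖ with hM
  set N : ℝ := (Fintype.card K : ℝ) with hN
  have hM0 : 0 ≤ M := Finset.sum_nonneg fun _ _ => Finset.sum_nonneg fun _ _ => norm_nonneg _
  have hN0 : 0 ≤ N := Nat.cast_nonneg _
  refine ⟨1 / (2 * M ^ 2 * N ^ 2 + 1), by positivity, fun v => ?_⟩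
  set P : K → V := fun κ => ∑ μ, D κ μ (v μ) with hP
  set Q : K → V := fun κ => ∑ μ, ContinuousLinearMap.adjoint (D μ κ) (v μ) with hQ
  set q : ℝ := ∑ κ, ‖v κ‖ ^ 2 with hq
  set a : ℝ := ∑ κ, ‖v κ‖ with ha
  set p1 : ℝ := ∑ κ, ‖P κ‖ with hp1
  set q1 : ℝ := ∑ κ, ‖Q κ‖ with hq1
  have ha0 : 0 ≤ a := Finset.sum_nonneg fun _ _ => norm_nonneg _
  have hp0 : 0 ≤ p1 := Finset.sum_nonneg fun _ _ => norm_nonneg _
  have hq0 : 0 ≤ q1 := Finset.sum_nonneg fun _ _ => norm_nonneg _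
  have hqq : 0 ≤ q := Finset.sum_nonneg fun _ _ => sq_nonneg _
  have hS : ∀ (w : K → V) (κ : K), ‖∑ μ, s κ μ (w μ)‖ ≤ ∑ μ, ‖s κ μ‖ * ‖w μ‖ := by
    intro w κ
    exact (norm_sum_le _ _).trans (Finset.sum_le_sum fun μ _ => (s κ μ).le_opNorm _)
  have hS2 : ∀ (w : K → V) (κ : K), ‖∑ μ, s κ μ (w μ)‖ ≤ M * ∑ μ, ‖w μ‖ := by
    intro w κ
    refine (hS w κ).trans ?_
    rw [Finset.mul_sum]
    refine Finset.sum_le_sum fun μ _ => mul_le_mul_of_nonneg_right ?_ (norm_nonneg _)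
    calc ‖s κ μ‖ ≤ ∑ μ, ‖s κ μ‖ :=
          Finset.single_le_sum (f := fun μ => ‖s κ μ‖) (fun _ _ => norm_nonneg _)
            (Finset.mem_univ μ)
      _ ≤ M := Finset.single_le_sum (f := fun κ => ∑ μ, ‖s κ μ‖)
            (fun _ _ => Finset.sum_nonneg fun _ _ => norm_nonneg _) (Finset.mem_univ κ)
  -- the identity
  have hv : ∀ κ, v κ = ∑ μ, D κ μ (∑ ν, s μ ν (v ν)) + ∑ μ, s κ μ (P μ) := by
    intro κ
    have h1 : ∑ ν, ((D * s + s * D) κ ν) (v ν) = v κ := by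
      rw [hs, Finset.sum_eq_single κ]
      · rw [Matrix.one_apply_eq]; rfl
      · intro ν _ h; rw [Matrix.one_apply_ne' h]; rfl
      · intro h; exact absurd (Finset.mem_univ _) h
    rw [← h1]
    simp only [Matrix.add_apply, Matrix.mul_apply, add_apply,
      Finset.sum_add_distrib, sum_apply, mul_apply_eq_comp, hP,
      map_sum]
    congr 1
    · exact Finset.sum_comm
    · exact Finset.sum_comm
  have h2 : q ≤ M * a * (p1 + q1) := by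
    have e1 : ∀ κ, ‖v κ‖ ^ 2 = (∑ μ, (⟪ContinuousLinearMap.adjoint (D κ μ) (v κ),
        ∑ ν, s μ ν (v ν)⟫_ℂ).re) + (⟪v κ, ∑ μ, s κ μ (P μ)⟫_ℂ).re := by
      intro κ
      have e2 : (⟪v κ, v κ⟫_ℂ).re = ‖v κ‖ ^ 2 := inner_self_eq_norm_sq (𝕜 := ℂ) (v κ)
      rw [← e2]
      nth_rewrite 2 [hv κ]
      rw [inner_add_right, Complex.add_re, inner_sum, Complex.re_sum]
      congr 1
      exact Finset.sum_congr rfl fun μ _ => by
        rw [ContinuousLinearMap.adjoint_inner_left]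
    have e3 : q = (∑ μ, (⟪Q μ, ∑ ν, s μ ν (v ν)⟫_ℂ).re) +
        ∑ κ, (⟪v κ, ∑ μ, s κ μ (P μ)⟫_ℂ).re := by
      rw [hq, Finset.sum_congr rfl fun κ _ => e1 κ, Finset.sum_add_distrib, Finset.sum_comm]
      congr 1
      refine Finset.sum_congr rfl fun μ _ => ?_
      rw [hQ, sum_inner, Complex.re_sum]
    have e4 : ∀ (y z : V), (⟪y, z⟫_ℂ).re ≤ ‖y‖ * ‖z‖ := fun y z =>
      (Complex.re_le_norm _).trans (norm_inner_le_norm _ _)
    calc q ≤ (∑ μ, ‖Q μ‖ * (M * a)) + ∑ κ, ‖v κ‖ * (M * p1) := by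
          rw [e3]
          refine add_le_add (Finset.sum_le_sum fun μ _ => ?_) (Finset.sum_le_sum fun κ _ => ?_)
          · exact (e4 _ _).trans (mul_le_mul_of_nonneg_left (hS2 v μ) (norm_nonneg _))
          · exact (e4 _ _).trans (mul_le_mul_of_nonneg_left (hS2 P κ) (norm_nonneg _))
      _ = M * a * (p1 + q1) := by
          rw [← Finset.sum_mul, ← Finset.sum_mul]; ring
  have cs : ∀ w : K → V, (∑ κ, ‖w κ‖) ^ 2 ≤ N * ∑ κ, ‖w κ‖ ^ 2 := by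
    intro w
    have := @sq_sum_le_card_mul_sum_sq K ℝ _ _ _ _ Finset.univ (fun κ => ‖w κ‖)
    simpa [hN] using this
  have h3 : q ≤ M ^ 2 * N * (p1 + q1) ^ 2 := by
    rcases hqq.eq_or_lt with h | h
    · rw [← h]; positivity
    · have h4 : q * q ≤ (M * a * (p1 + q1)) ^ 2 := by
        rw [← pow_two]; exact pow_le_pow_left₀ hqq h2 2
      have h5 : a ^ 2 ≤ N * q := cs v
      have h6 : (M * a * (p1 + q1)) ^ 2 ≤ (M ^ 2 * N * (p1 + q1) ^ 2) * q := by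
        calc (M * a * (p1 + q1)) ^ 2 = (M ^ 2 * (p1 + q1) ^ 2) * a ^ 2 := by ring
          _ ≤ (M ^ 2 * (p1 + q1) ^ 2) * (N * q) := mul_le_mul_of_nonneg_left h5 (by positivity)
          _ = _ := by ring
      exact le_of_mul_le_mul_right (h4.trans h6) h
  have h7 : (p1 + q1) ^ 2 ≤ 2 * N * (∑ κ, ‖P κ‖ ^ 2 + ∑ κ, ‖Q κ‖ ^ 2) := by
    have := cs P
    have := cs Q
    nlinarith [sq_nonneg (p1 - q1)]
  have horth : ∑ κ, ‖P κ + Q κ‖ ^ 2 = ∑ κ, ‖P κ‖ ^ 2 + ∑ κ, ‖Q κ‖ ^ 2 := by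
    have e5 : ∑ κ, (⟪P κ, Q κ⟫_ℂ) = 0 := by
      have e6 : ∀ κ, ⟪P κ, Q κ⟫_ℂ = ∑ μ, ⟪D μ κ (P κ), v μ⟫_ℂ := by
        intro κ
        rw [hQ, inner_sum]
        exact Finset.sum_congr rfl fun μ _ => by rw [ContinuousLinearMap.adjoint_inner_right]
      rw [Finset.sum_congr rfl fun κ _ => e6 κ, Finset.sum_comm]
      refine Finset.sum_eq_zero fun μ _ => ?_
      rw [← sum_inner]
      have e7 : ∑ κ, D μ κ (P κ) = ∑ ν, ((D * D) μ ν) (v ν) := by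
        simp only [Matrix.mul_apply, sum_apply,
          mul_apply_eq_comp, hP, map_sum]
        exact Finset.sum_comm
      rw [e7, hDD]
      simp
    have e8 : ∀ κ, ‖P κ + Q κ‖ ^ 2 = ‖P κ‖ ^ 2 + 2 * (⟪P κ, Q κ⟫_ℂ).re + ‖Q κ‖ ^ 2 := fun κ =>
      norm_add_sq (𝕜 := ℂ) (P κ) (Q κ)
    rw [Finset.sum_congr rfl fun κ _ => e8 κ, Finset.sum_add_distrib, Finset.sum_add_distrib,
      ← Finset.mul_sum, ← Complex.re_sum, e5]
    simp
  rw [horth, div_mul_eq_mul_div, one_mul, div_le_iff₀ (by positivity)]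
  have h8 : 0 ≤ ∑ κ, ‖P κ‖ ^ 2 + ∑ κ, ‖Q κ‖ ^ 2 := by positivity
  calc q ≤ M ^ 2 * N * (p1 + q1) ^ 2 := h3
    _ ≤ M ^ 2 * N * (2 * N * (∑ κ, ‖P κ‖ ^ 2 + ∑ κ, ‖Q κ‖ ^ 2)) :=
        mul_le_mul_of_nonneg_left h7 (by positivity)
    _ ≤ (∑ κ, ‖P κ‖ ^ 2 + ∑ κ, ‖Q κ‖ ^ 2) * (2 * M ^ 2 * N ^ 2 + 1) := by nlinarith

end Pool.Agent.R778.ZS
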