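import Pool.Agent.H79.LZ.R778_Cliff
import Pool.Agent.H79.LZ.R778_Core

set_option autoImplicit false

open scoped Matrix ComplexConjugate InnerProductSpace Kronecker

namespace Pool.Agent.R778

/-- The vanishing of the Lefschetz number of an automorphism of finite order in the presence of a
spectral gap and of a proper Lipschitz equivariant map to a Hilbert space. -/
theorem master {E : Type} (B : E → E → ℝ) (γ ε : E → ℝ) (τ : Equiv.Perm E)
    (hsymm : ∀ σ ρ, B σ ρ = B ρ σ) (hγ : ∀ σ, γ σ = 1 ∨ γ σ = -1)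
    (hodd : ∀ σ ρ, B σ ρ ≠ 0 → γ σ = - γ ρ) (hε : ∀ σ, ε σ = 1 ∨ ε σ = -1)
    (hB : ∀ σ ρ, B (τ σ) (τ ρ) = ε σ * ε ρ * B σ ρ) (hγτ : ∀ σ, γ (τ σ) = γ σ)
    (nb : E → Finset E) (hnb : ∀ σ ρ, B σ ρ ≠ 0 → σ ∈ nb ρ)
    (b : ℝ) (hb0 : 0 ≤ b) (hb : ∀ σ (A : Finset E), ∑ ρ ∈ A, |B σ ρ| ≤ b)
    (c : ℝ) (hc : 0 < c)
    (gap : ∀ (A A' : Finset E), A ⊆ A' → (∀ ρ ∈ A, nb ρ ⊆ A') → ∀ x : E → ℂ,
      (∀ σ, σ ∉ A → x σ = 0) →
      c * ∑ σ ∈ A, ‖x σ‖ ^ 2 ≤ ∑ σ ∈ A', ‖∑ ρ ∈ A, (B σ ρ : ℂ) * x ρ‖ ^ 2)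
    {I : Type} [Fintype I] (ζ : I → ℂ) (hζ : ∀ i, ‖ζ i‖ = 1) (hζ1 : ∀ i, ζ i ≠ 1)
    {H : Type} [NormedAddCommGroup H] [InnerProductSpace ℂ H] (F : E → PiLp 2 (fun _ : I => H))
    (hF : ∀ σ i, F (τ σ) i = ζ i • F σ i)
    (C : ℝ) (hC : 0 ≤ C) (hLip : ∀ σ ρ, B σ ρ ≠ 0 → ‖F σ - F ρ‖ ≤ C)
    (hprop : ∀ R : ℝ, {σ | ‖F σ‖ ≤ R}.Finite) :
    ∑ᶠ σ ∈ {σ | τ σ = σ}, γ σ * ε σ = 0 := by
  classical
  set s : ℝ := (C * b + 1) / c with hs
  have hs0 : 0 < s := div_pos (by positivity) hc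
  have hsc : C * b < s * c := by rw [hs, div_mul_cancel₀ _ hc.ne']; linarith
  set R0 : ℝ := C + s * b with hR0
  set A : Finset E := (hprop R0).toFinset with hA
  have memA : ∀ σ, σ ∈ A ↔ ‖F σ‖ ≤ R0 := fun σ => by rw [hA]; simp
  have hnorm : ∀ σ, ‖F (τ σ)‖ = ‖F σ‖ := by
    intro σ
    rw [PiLp.norm_eq_of_L2, PiLp.norm_eq_of_L2]
    congr 1
    refine Finset.sum_congr rfl fun i _ => ?_
    rw [hF, norm_smul, hζ, one_mul]
  have hτA : ∀ σ, τ σ ∈ A ↔ σ ∈ A := fun σ => by rw [memA, memA, hnorm]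
  let τA : Equiv.Perm A := τ.subtypePerm hτA
  -- coordinates
  let V0 : Submodule ℂ H := Submodule.span ℂ (Set.range fun p : A × I => F p.1 p.2)
  have hfd : FiniteDimensional ℂ V0 := FiniteDimensional.span_of_finite ℂ (Set.finite_range _)
  let e := stdOrthonormalBasis ℂ V0
  have hV : ∀ σ ∈ A, ∀ i, F σ i ∈ V0 := fun σ hσ i =>
    Submodule.subset_span ⟨(⟨σ, hσ⟩, i), rfl⟩
  have hco : ∀ v ∈ V0, ∑ d, ‖⟪((e d : V0) : H), v⟫_ℂ‖ ^ 2 = ‖v‖ ^ 2 := by
    intro v hv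
    have := e.sum_sq_norm_inner_right (⟨v, hv⟩ : V0)
    simpa using this
  let w : E → (I × Fin (Module.finrank ℂ V0)) → ℂ := fun σ p => ⟪((e p.2 : V0) : H), F σ p.1⟫_ℂ
  have hw1 : ∀ σ ∈ A, ∑ j, ‖w σ j‖ ^ 2 = ‖F σ‖ ^ 2 := by
    intro σ hσ
    rw [Fintype.sum_prod_type, PiLp.norm_sq_eq_of_L2]
    exact Finset.sum_congr rfl fun i _ => hco _ (hV σ hσ i)
  have hw2 : ∀ σ ∈ A, ∀ ρ ∈ A, ∑ j, ‖(w σ - w ρ) j‖ ^ 2 = ‖F σ - F ρ‖ ^ 2 := by
    intro σ hσ ρ hρ
    rw [Fintype.sum_prod_type, PiLp.norm_sq_eq_of_L2]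
    refine Finset.sum_congr rfl fun i _ => ?_
    rw [PiLp.sub_apply, ← hco _ (V0.sub_mem (hV σ hσ i) (hV ρ hρ i))]
    refine Finset.sum_congr rfl fun d _ => ?_
    change ‖⟪((e d : V0) : H), F σ i⟫_ℂ - ⟪((e d : V0) : H), F ρ i⟫_ℂ‖ ^ 2 = _
    rw [← inner_sub_right]
  obtain ⟨S, iS1, iS2, cl, U, Γ, c1, c2, c3, c4, c5, c6⟩ :=
    exists_cliff (I × Fin (Module.finrank ℂ V0)) (fun p => ζ p.1) (fun p => hζ _)
  have hwτ : ∀ σ, w (τ σ) = (fun p : I × Fin (Module.finrank ℂ V0) => ζ p.1) * w σ := by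
    intro σ
    funext p
    change ⟪((e p.2 : V0) : H), F (τ σ) p.1⟫_ℂ = ζ p.1 * ⟪((e p.2 : V0) : H), F σ p.1⟫_ℂ
    rw [hF, inner_smul_right]
  -- norms of Clifford matrices
  have cn : ∀ (v : (I × Fin (Module.finrank ℂ V0)) → ℂ) (y : EuclideanSpace ℂ S),
      ‖Matrix.toEuclideanLin (cl v) y‖ ^ 2 = (∑ j, ‖v j‖ ^ 2) * ‖y‖ ^ 2 := by
    intro v y
    have h1 : ⟪Matrix.toEuclideanLin (cl v) y, Matrix.toEuclideanLin (cl v) y⟫_ℂ =
        ((∑ j, ‖v j‖ ^ 2 : ℝ) : ℂ) * ⟪y, y⟫_ℂ := by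
      have h2 : LinearMap.adjoint (Matrix.toEuclideanLin (cl v)) = Matrix.toEuclideanLin (cl v) := by
        rw [← Matrix.toEuclideanLin_conjTranspose_eq_adjoint, c2]
      rw [← LinearMap.adjoint_inner_right, h2]
      have h3 : Matrix.toEuclideanLin (cl v) (Matrix.toEuclideanLin (cl v) y) =
          ((∑ j, ‖v j‖ ^ 2 : ℝ) : ℂ) • y := by
        have h4 : Matrix.toEuclideanLin (cl v * cl v) y =
            Matrix.toEuclideanLin (cl v) (Matrix.toEuclideanLin (cl v) y) := by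
          ext a
          simp [Matrix.toEuclideanLin_apply, Matrix.mulVec_mulVec]
        rw [← h4, c3]
        ext a
        simp [Matrix.toEuclideanLin_apply, Matrix.smul_mulVec]
      rw [h3, inner_smul_right]
    have h5 := congrArg Complex.re h1
    rw [Complex.re_ofReal_mul] at h5
    have h6 : ∀ z : EuclideanSpace ℂ S, (⟪z, z⟫_ℂ).re = ‖z‖ ^ 2 := fun z =>
      inner_self_eq_norm_sq (𝕜 := ℂ) z
    rw [h6, h6] at h5
    exact h5
  have csub : ∀ (v v' : (I × Fin (Module.finrank ℂ V0)) → ℂ) (y : EuclideanSpace ℂ S),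
      Matrix.toEuclideanLin (cl v) y - Matrix.toEuclideanLin (cl v') y =
        Matrix.toEuclideanLin (cl (v - v')) y := by
    intro v v' y
    rw [c1, map_sub, LinearMap.sub_apply]
  -- the matrices
  let Bm : Matrix A A ℂ := fun σ ρ => (B σ ρ : ℂ)
  let P : Matrix A A ℂ := fun σ ρ => if σ = τA ρ then (ε ρ : ℂ) else 0
  let g : Matrix A A ℂ := Matrix.diagonal fun σ => (γ σ : ℂ)
  let T : Matrix (A × S) (A × S) ℂ := (s : ℂ) • (Bm ⊗ₖ (1 : Matrix S S ℂ)) +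
    ∑ σ : A, (Matrix.single σ σ (γ σ : ℂ)) ⊗ₖ cl (w σ)
  have γ2 : ∀ σ, (γ σ : ℂ) * γ σ = 1 := fun σ => by
    rcases hγ σ with h | h <;> rw [h] <;> norm_num
  have ε2 : ∀ σ, (ε σ : ℂ) * ε σ = 1 := fun σ => by
    rcases hε σ with h | h <;> rw [h] <;> norm_num
  -- invertibility
  have hTu : IsUnit T := by
    rw [← Matrix.mulVec_injective_iff_isUnit, ← Matrix.coe_mulVecLin, ← LinearMap.ker_eq_bot,
      LinearMap.ker_eq_bot']
    intro x hx
    rw [Matrix.mulVecLin_apply] at hx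
    let X : E → EuclideanSpace ℂ S := fun σ =>
      if h : σ ∈ A then WithLp.toLp 2 (fun a => x (⟨σ, h⟩, a)) else 0
    have hX1 : ∀ (σ : A) (a : S), X σ a = x (σ, a) := by
      intro σ a
      change (if h : (σ : E) ∈ A then (WithLp.toLp 2 (fun a => x (⟨σ, h⟩, a)) :
        EuclideanSpace ℂ S) else 0) a = _
      rw [dif_pos σ.2]
    have hX0 : ∀ σ, σ ∉ A → X σ = 0 := fun σ h => dif_neg h
    have key := estimate A (A ∪ A.biUnion nb) Finset.subset_union_left B γ (fun σ => ‖F σ‖)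
      hsymm hγ hodd b hb0 hb C hC (fun σ => Matrix.toEuclideanLin (cl (w σ))) X ?_ ?_ ?_ s c hs0
      hsc ?_ ?_ ?_
    · funext p
      obtain ⟨σ, a⟩ := p
      rw [← hX1, key σ σ.2]
      rfl
    · intro σ hσ
      have h1 := cn (w σ) (X σ)
      rw [hw1 σ hσ, ← mul_pow] at h1
      exact (sq_eq_sq₀ (norm_nonneg _) (by positivity)).1 h1
    · intro σ hσ ρ hρ hne
      have h1 := cn (w σ - w ρ) (X σ)
      rw [hw2 σ hσ ρ hρ, ← mul_pow] at h1
      have h2 := (sq_eq_sq₀ (norm_nonneg _) (by positivity)).1 h1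
      change ‖Matrix.toEuclideanLin (cl (w σ)) (X σ) - Matrix.toEuclideanLin (cl (w ρ)) (X σ)‖ ≤ _
      rw [csub, h2]
      exact mul_le_mul_of_nonneg_right (hLip σ ρ hne) (norm_nonneg _)
    · intro σ y z
      have h2 : LinearMap.adjoint (Matrix.toEuclideanLin (cl (w σ))) =
          Matrix.toEuclideanLin (cl (w σ)) := by
        rw [← Matrix.toEuclideanLin_conjTranspose_eq_adjoint, c2]
      rw [← LinearMap.adjoint_inner_right, h2]
    · intro σ hσ ρ hρ hne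
      have h1 : R0 < ‖F σ‖ := by
        rw [memA] at hσ; exact not_le.1 hσ
      have h2 := hLip σ ρ hne
      have h3 : ‖F σ‖ ≤ ‖F σ - F ρ‖ + ‖F ρ‖ := norm_le_norm_sub_add _ _
      change s * b ≤ ‖F ρ‖
      rw [hR0] at h1
      linarith
    · intro σ hσ
      ext a
      have h1 := congrFun hx (⟨σ, hσ⟩, a)
      simp only [Matrix.mulVec, dotProduct, Fintype.sum_prod_type, Pi.zero_apply] at h1
      have hTe : ∀ (ρ : A) (a' : S), T (⟨σ, hσ⟩, a) (ρ, a') =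
          (s : ℂ) * ((B σ ρ : ℂ) * (1 : Matrix S S ℂ) a a') +
            (if ρ = ⟨σ, hσ⟩ then (γ σ : ℂ) * cl (w σ) a a' else 0) := by
        intro ρ a'
        change ((s : ℂ) • (Bm ⊗ₖ (1 : Matrix S S ℂ)) +
          ∑ σ : A, (Matrix.single σ σ (γ σ : ℂ)) ⊗ₖ cl (w σ)) (⟨σ, hσ⟩, a) (ρ, a') = _
        rw [Matrix.add_apply, Matrix.smul_apply, Matrix.kroneckerMap_apply, Matrix.sum_apply]
        congr 1
        rw [Finset.sum_eq_single (⟨σ, hσ⟩ : A)]
        · rw [Matrix.kroneckerMap_apply, Matrix.single_apply]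
          by_cases h : ρ = ⟨σ, hσ⟩
          · rw [if_pos h, if_pos ⟨rfl, h.symm⟩]
          · rw [if_neg h, if_neg (fun h' => h h'.2.symm), zero_mul]
        · intro κ _ hκ
          rw [Matrix.kroneckerMap_apply, Matrix.single_apply, if_neg (fun h' => hκ h'.1),
            zero_mul]
        · intro h; exact absurd (Finset.mem_univ _) h
      simp only [hTe, add_mul, Finset.sum_add_distrib] at h1
      have e1 : ∑ ρ : A, ∑ a' : S, (s : ℂ) * ((B σ ρ : ℂ) * (1 : Matrix S S ℂ) a a') * x (ρ, a') =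
          (s : ℂ) * ∑ ρ ∈ A, (B σ ρ : ℂ) * X ρ a := by
        rw [Finset.mul_sum, ← Finset.sum_coe_sort A (fun ρ => (s : ℂ) * ((B σ ρ : ℂ) * X ρ a))]
        refine Finset.sum_congr rfl fun ρ _ => ?_
        rw [Finset.sum_eq_single a]
        · rw [Matrix.one_apply_eq, hX1]; ring
        · intro a' _ h; rw [Matrix.one_apply_ne' h]; ring
        · intro h; exact absurd (Finset.mem_univ _) h
      have e2 : ∑ ρ : A, ∑ a' : S, (if ρ = ⟨σ, hσ⟩ then (γ σ : ℂ) * cl (w σ) a a' else 0) *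
          x (ρ, a') = (γ σ : ℂ) * ∑ a', cl (w σ) a a' * X σ a' := by
        rw [Finset.sum_eq_single (⟨σ, hσ⟩ : A)]
        · rw [Finset.mul_sum]
          refine Finset.sum_congr rfl fun a' _ => ?_
          rw [if_pos rfl, ← hX1]; ring
        · intro ρ _ h
          exact Finset.sum_eq_zero fun a' _ => by rw [if_neg h, zero_mul]
        · intro h; exact absurd (Finset.mem_univ _) h
      rw [e1, e2] at h1
      simp only [PiLp.add_apply, PiLp.smul_apply, smul_eq_mul, WithLp.ofLp_sum, Finset.sum_apply,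
        PiLp.zero_apply, Matrix.toEuclideanLin_apply, Matrix.mulVec, dotProduct, WithLp.ofLp_smul,
        Pi.smul_apply]
      exact h1
    · simp only [EuclideanSpace.norm_sq_eq]
      rw [Finset.sum_comm, Finset.sum_comm (s := A ∪ A.biUnion nb), Finset.mul_sum]
      refine Finset.sum_le_sum fun a _ => ?_
      have h1 := gap A (A ∪ A.biUnion nb) Finset.subset_union_left
        (fun ρ hρ => (Finset.subset_biUnion_of_mem nb hρ).trans Finset.subset_union_right)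
        (fun σ => X σ a) (fun σ hσ => by rw [hX0 σ hσ]; rfl)
      refine h1.trans (le_of_eq ?_)
      refine Finset.sum_congr rfl fun σ _ => ?_
      simp only [WithLp.ofLp_sum, Finset.sum_apply, WithLp.ofLp_smul, Pi.smul_apply, smul_eq_mul]
  -- anticommutation
  have hgB : g * Bm = - (Bm * g) := by
    ext σ ρ
    rw [Matrix.neg_apply, Matrix.diagonal_mul, Matrix.mul_diagonal]
    by_cases h : B σ ρ = 0
    · have : Bm σ ρ = 0 := by change (B σ ρ : ℂ) = 0; rw [h]; simp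
      rw [this]; simp
    · rw [hodd _ _ h]; push_cast; ring
  have hGT : (g ⊗ₖ Γ) * T = - (T * (g ⊗ₖ Γ)) := by
    change (g ⊗ₖ Γ) * ((s : ℂ) • (Bm ⊗ₖ (1 : Matrix S S ℂ)) +
      ∑ σ : A, (Matrix.single σ σ (γ σ : ℂ)) ⊗ₖ cl (w σ)) =
      - (((s : ℂ) • (Bm ⊗ₖ (1 : Matrix S S ℂ)) +
      ∑ σ : A, (Matrix.single σ σ (γ σ : ℂ)) ⊗ₖ cl (w σ)) * (g ⊗ₖ Γ))
    rw [Matrix.mul_add, Matrix.add_mul, neg_add, Matrix.mul_sum, Matrix.sum_mul,
      ← Finset.sum_neg_distrib]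
    congr 1
    · rw [Matrix.mul_smul, Matrix.smul_mul, ← Matrix.mul_kronecker_mul,
        ← Matrix.mul_kronecker_mul, hgB, Matrix.one_mul, Matrix.mul_one, ← smul_neg]
      congr 1
      ext ⟨i, j⟩ ⟨k, l⟩
      simp [Matrix.kroneckerMap_apply]
    · refine Finset.sum_congr rfl fun σ _ => ?_
      rw [← Matrix.mul_kronecker_mul, ← Matrix.mul_kronecker_mul, c4]
      have e3 : g * Matrix.single σ σ (γ σ : ℂ) = Matrix.single σ σ (γ σ : ℂ) * g := by
        ext i j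
        rw [Matrix.diagonal_mul, Matrix.mul_diagonal, Matrix.single_apply]
        by_cases h : σ = i ∧ σ = j
        · rw [if_pos h, ← h.1, ← h.2, mul_comm]
        · rw [if_neg h]; simp
      rw [e3]
      ext ⟨i, j⟩ ⟨k, l⟩
      simp [Matrix.kroneckerMap_apply]
  have hPB : P * Bm = Bm * P := by
    ext σ ρ
    obtain ⟨σ', rfl⟩ := τA.surjective σ
    rw [Matrix.mul_apply, Matrix.mul_apply, Finset.sum_eq_single σ', Finset.sum_eq_single (τA ρ)]
    · change (if τA σ' = τA σ' then (ε σ' : ℂ) else 0) * (B σ' ρ : ℂ) =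
        (B (τ σ') (τ ρ) : ℂ) * (if τA ρ = τA ρ then (ε ρ : ℂ) else 0)
      rw [if_pos rfl, if_pos rfl, hB]
      push_cast
      linear_combination (- (ε σ' : ℂ) * (B σ' ρ : ℂ)) * ε2 ρ
    · intro κ _ hκ
      have : P κ ρ = 0 := if_neg hκ
      rw [this, mul_zero]
    · intro h; exact absurd (Finset.mem_univ _) h
    · intro κ _ hκ
      have : P (τA σ') κ = 0 := if_neg fun h => hκ (τA.injective h).symm
      rw [this, zero_mul]
    · intro h; exact absurd (Finset.mem_univ _) h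
  have hUT : (P ⊗ₖ U) * T = T * (P ⊗ₖ U) := by
    change (P ⊗ₖ U) * ((s : ℂ) • (Bm ⊗ₖ (1 : Matrix S S ℂ)) +
      ∑ σ : A, (Matrix.single σ σ (γ σ : ℂ)) ⊗ₖ cl (w σ)) =
      ((s : ℂ) • (Bm ⊗ₖ (1 : Matrix S S ℂ)) +
      ∑ σ : A, (Matrix.single σ σ (γ σ : ℂ)) ⊗ₖ cl (w σ)) * (P ⊗ₖ U)
    rw [Matrix.mul_add, Matrix.add_mul, Matrix.mul_sum, Matrix.sum_mul]
    congr 1
    · rw [Matrix.mul_smul, Matrix.smul_mul, ← Matrix.mul_kronecker_mul,
        ← Matrix.mul_kronecker_mul, hPB, Matrix.one_mul, Matrix.mul_one]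
    · have e4 : ∀ (σ i j : A), (P * Matrix.single σ σ (γ σ : ℂ)) i j =
          if j = σ then P i σ * γ σ else 0 := by
        intro σ i j
        by_cases h : j = σ
        · rw [if_pos h, h, Matrix.mul_single_apply_same]
        · rw [if_neg h, Matrix.mul_single_apply_of_ne _ _ _ _ _ h]
      have e5 : ∀ (σ i j : A), (Matrix.single σ σ (γ σ : ℂ) * P) i j =
          if i = σ then γ σ * P σ j else 0 := by
        intro σ i j
        by_cases h : i = σ
        · rw [if_pos h, h, Matrix.single_mul_apply_same]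
        · rw [if_neg h, Matrix.single_mul_apply_of_ne _ _ _ _ _ h]
      ext ⟨i, a⟩ ⟨j, a'⟩
      simp only [Matrix.sum_apply, ← Matrix.mul_kronecker_mul, Matrix.kroneckerMap_apply]
      rw [Finset.sum_eq_single j, Finset.sum_eq_single i, e4, e5, if_pos rfl, if_pos rfl]
      · by_cases h : i = τA j
        · have h1 : (γ i : ℂ) = γ j := by rw [h]; change ((γ (τ j) : ℝ) : ℂ) = _; rw [hγτ]
          have h2 : cl (w i) * U = U * cl (w j) := by
            rw [c5, ← hwτ, h]; rfl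
          rw [h1, h2]; ring
        · have : P i j = 0 := if_neg h
          rw [this]; ring
      · intro κ _ hκ; rw [e5, if_neg hκ.symm, zero_mul]
      · intro h; exact absurd (Finset.mem_univ _) h
      · intro κ _ hκ; rw [e4, if_neg hκ.symm, zero_mul]
      · intro h; exact absurd (Finset.mem_univ _) h
  have htr := trace_zero T (P ⊗ₖ U) (g ⊗ₖ Γ) hTu hGT hUT
  rw [← Matrix.mul_kronecker_mul, Matrix.trace_kronecker, c6] at htr
  have hne : ∏ j : I × Fin (Module.finrank ℂ V0), (1 - ζ j.1) ≠ 0 :=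
    Finset.prod_ne_zero_iff.2 fun j _ => sub_ne_zero.2 (hζ1 j.1).symm
  have htr2 : (g * P).trace = 0 := (mul_eq_zero.1 htr).resolve_right hne
  have hfix : {σ | τ σ = σ} = ((A.filter fun σ => τ σ = σ : Finset E) : Set E) := by
    ext σ
    simp only [Set.mem_ofPred_eq, Finset.coe_filter]
    refine ⟨fun h => ⟨?_, h⟩, fun h => h.2⟩
    rw [memA]
    have h0 : F σ = 0 := by
      ext i
      have h1 := hF σ i
      rw [h] at h1
      have h2 : (1 - ζ i) • F σ i = 0 := by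
        rw [sub_smul, one_smul, ← h1, sub_self]
      exact (smul_eq_zero.1 h2).resolve_left (sub_ne_zero.2 (hζ1 i).symm)
    rw [h0, norm_zero]
    positivity
  rw [hfix, finsum_mem_coe_finset]
  have h5 : (g * P).trace = ((∑ σ ∈ A.filter (fun σ => τ σ = σ), γ σ * ε σ : ℝ) : ℂ) := by
    rw [Finset.sum_filter, Complex.ofReal_sum, ← Finset.sum_coe_sort A
      (fun σ => ((if τ σ = σ then γ σ * ε σ else 0 : ℝ) : ℂ)), Matrix.trace]
    refine Finset.sum_congr rfl fun σ _ => ?_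
    rw [Matrix.diag_apply, Matrix.diagonal_mul]
    change (γ σ : ℂ) * (if σ = τA σ then (ε σ : ℂ) else 0) = _
    by_cases h : τ (σ : E) = σ
    · have h' : σ = τA σ := Subtype.ext h.symm
      rw [if_pos h', if_pos h]; push_cast; rfl
    · have h' : ¬ σ = τA σ := fun h' => h (congrArg Subtype.val h').symm
      rw [if_neg h', if_neg h]; simp
  rw [h5] at htr2
  exact_mod_cast htr2

end Pool.Agent.R778
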