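import Mathlib

/-!
Smith theory mod 2 for based complexes with finitely many fixed basis elements: the number of
fixed cells of an involution of an acyclic complex is odd.
-/

set_option autoImplicit false
set_option linter.unusedSectionVars false

namespace Pool.Agent.R778.Par

open Finsupp

section
variable {E : Type} (dim : E → ℕ)

/-- chains supported in dimensions `≥ j` -/
abbrev ge (j : ℕ) : Submodule (ZMod 2) (E →₀ ZMod 2) :=
  Finsupp.supported (ZMod 2) (ZMod 2) {σ | j ≤ dim σ}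

lemma add_self_V (v : E →₀ ZMod 2) : v + v = 0 := by
  ext σ
  rw [Finsupp.add_apply]
  exact CharTwo.add_self_eq_zero _

variable (τ : Equiv.Perm E) (hτ : ∀ σ, τ (τ σ) = σ) (hdim : ∀ σ, dim (τ σ) = dim σ)

/-- the map induced by `τ` -/
noncomputable abbrev tm (τ : Equiv.Perm E) : (E →₀ ZMod 2) →ₗ[ZMod 2] (E →₀ ZMod 2) :=
  Finsupp.lmapDomain (ZMod 2) (ZMod 2) τ

lemma tm_single (σ : E) (c : ZMod 2) : tm τ (single σ c) = single (τ σ) c := by
  simp [tm]

include hτ in
lemma tm_tm (v : E →₀ ZMod 2) : tm τ (tm τ v) = v := by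
  induction v using Finsupp.induction_linear with
  | zero => simp
  | add f g hf hg => rw [map_add, map_add, hf, hg]
  | single a b => rw [tm_single, tm_single, hτ]

include hdim in
lemma tm_ge {j : ℕ} {v : E →₀ ZMod 2} (hv : v ∈ ge dim j) : tm τ v ∈ ge dim j := by
  classical
  rw [Finsupp.mem_supported] at hv ⊢
  intro σ hσ
  have h1 : σ ∈ v.support.image τ := Finsupp.mapDomain_support hσ
  obtain ⟨ρ, hρ, rfl⟩ := Finset.mem_image.1 h1
  change j ≤ dim (τ ρ)
  rw [hdim]
  exact hv hρ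

end

section main
variable {E : Type} (dim : E → ℕ) (N : ℕ) (hN : ∀ σ, dim σ ≤ N)
  (τ : Equiv.Perm E) (hτ : ∀ σ, τ (τ σ) = σ) (hdim : ∀ σ, dim (τ σ) = dim σ)
  (D : (E →₀ ZMod 2) →ₗ[ZMod 2] (E →₀ ZMod 2)) (hD2 : ∀ v, D (D v) = 0)
  (hDτ : ∀ v, D (tm τ v) = tm τ (D v))
  (hDdim : ∀ σ ρ, D (single σ 1) ρ ≠ 0 → dim ρ < dim σ)
  (ε : (E →₀ ZMod 2) →ₗ[ZMod 2] ZMod 2) (hε1 : ∀ v ∈ ge dim 1, ε v = 0) (hεD : ∀ v, ε (D v) = 0)
  (hετ : ∀ v, ε (tm τ v) = ε v) (hsurj : ∃ x, ε x = 1)
  (EX : ∀ j, ∀ y ∈ ge dim j, D y ∈ ge dim j → ε y = 0 →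
    ∃ w ∈ ge dim (j + 1), y + D w ∈ ge dim (j + 1))

/-- the total differential of the Tate complex -/
noncomputable def nd : (E →₀ ZMod 2) →ₗ[ZMod 2] (E →₀ ZMod 2) := D + (LinearMap.id + tm τ)

lemma nd_apply (v : E →₀ ZMod 2) : nd τ D v = D v + (v + tm τ v) := rfl

include hτ hD2 hDτ in
lemma nd_nd (v : E →₀ ZMod 2) : nd τ D (nd τ D v) = 0 := by
  simp only [nd_apply, map_add, hD2, hDτ, tm_tm τ hτ]
  have h1 := add_self_V (D v)
  have h2 := add_self_V (tm τ (D v))
  have h3 := add_self_V (tm τ v)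
  have h4 := add_self_V v
  have : 0 + (D v + tm τ (D v)) + (D v + (v + tm τ v) + (tm τ (D v) + (tm τ v + v))) =
      (D v + D v) + (tm τ (D v) + tm τ (D v)) + (tm τ v + tm τ v) + (v + v) := by abel
  rw [this, h1, h2, h3, h4]
  simp

lemma ge_top {N : ℕ} (hN : ∀ σ, dim σ ≤ N) {v : E →₀ ZMod 2} (hv : v ∈ ge dim (N + 1)) : v = 0 := by
  rw [Finsupp.mem_supported] at hv
  rw [← Finsupp.support_eq_empty, Finset.eq_empty_iff_forall_notMem]
  intro σ hσ
  have : N + 1 ≤ dim σ := hv hσ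
  have := hN σ
  omega

lemma ge_mono {i j : ℕ} (h : i ≤ j) {v : E →₀ ZMod 2} (hv : v ∈ ge dim j) : v ∈ ge dim i := by
  rw [Finsupp.mem_supported] at hv ⊢
  intro σ hσ
  exact h.trans (hv hσ)

include hε1 hεD hετ in
lemma eps_nd (v : E →₀ ZMod 2) : ε (nd τ D v) = 0 := by
  rw [nd_apply, map_add, map_add, hεD, hετ, zero_add]
  exact CharTwo.add_self_eq_zero _

include hτ hdim hD2 hDτ hεD hετ hsurj EX hε1 hN in
lemma exists_z : ∃ z, nd τ D z = 0 ∧ ε z = 1 := by
  have key : ∀ j, ∃ x, ε x = 1 ∧ nd τ D x ∈ ge dim j := by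
    intro j
    induction j with
    | zero =>
      obtain ⟨x, hx⟩ := hsurj
      refine ⟨x, hx, ?_⟩
      rw [Finsupp.mem_supported]
      intro σ _
      exact Nat.zero_le _
    | succ j ih =>
      obtain ⟨x, hx, hy⟩ := ih
      have h1 := nd_nd τ hτ D hD2 hDτ x
      have h2 : D (nd τ D x) ∈ ge dim j := by
        rw [nd_apply] at h1
        rw [eq_neg_of_add_eq_zero_left h1]
        exact Submodule.neg_mem _ (Submodule.add_mem _ hy (tm_ge dim τ hdim hy))
      obtain ⟨w, hw, hw'⟩ := EX j _ hy h2 (eps_nd dim τ D ε hε1 hεD hετ x)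
      refine ⟨x + w, ?_, ?_⟩
      · rw [map_add, hx, hε1 w (ge_mono dim (by omega) hw), add_zero]
      · rw [map_add]
        have : nd τ D x + nd τ D w = (nd τ D x + D w) + (w + tm τ w) := by
          rw [nd_apply τ D w]; abel
        rw [this]
        exact Submodule.add_mem _ hw' (Submodule.add_mem _ hw (tm_ge dim τ hdim hw))
  obtain ⟨z, hz, hz'⟩ := key (N + 1)
  exact ⟨z, ge_top dim hN hz', hz⟩

include hτ hdim hD2 hDτ hεD hετ EX hε1 hN in
lemma exists_bd (y : E →₀ ZMod 2) (hy : nd τ D y = 0) (hε : ε y = 0) : ∃ w, nd τ D w = y := by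
  have key : ∀ j, ∃ w, y + nd τ D w ∈ ge dim j := by
    intro j
    induction j with
    | zero =>
      refine ⟨0, ?_⟩
      rw [Finsupp.mem_supported]
      intro σ _
      exact Nat.zero_le _
    | succ j ih =>
      obtain ⟨w, hw⟩ := ih
      have h1 : nd τ D (y + nd τ D w) = 0 := by
        rw [map_add, hy, nd_nd τ hτ D hD2 hDτ, add_zero]
      have h2 : D (y + nd τ D w) ∈ ge dim j := by
        rw [nd_apply] at h1
        rw [eq_neg_of_add_eq_zero_left h1]
        exact Submodule.neg_mem _ (Submodule.add_mem _ hw (tm_ge dim τ hdim hw))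
      have h3 : ε (y + nd τ D w) = 0 := by
        rw [map_add, hε, eps_nd dim τ D ε hε1 hεD hετ, add_zero]
      obtain ⟨w', hw1, hw2⟩ := EX j _ hw h2 h3
      refine ⟨w + w', ?_⟩
      rw [map_add]
      have : y + (nd τ D w + nd τ D w') = (y + nd τ D w + D w') + (w' + tm τ w') := by
        rw [nd_apply τ D w']; abel
      rw [this]
      exact Submodule.add_mem _ hw2 (Submodule.add_mem _ hw1 (tm_ge dim τ hdim hw1))
  obtain ⟨w, hw⟩ := key (N + 1)
  refine ⟨w, ?_⟩
  have h1 := ge_top dim hN hw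
  rw [eq_neg_of_add_eq_zero_right h1]
  exact (eq_neg_of_add_eq_zero_left (add_self_V y)).symm

end main

section split
variable {E : Type} [LinearOrder E] (dim : E → ℕ)
  (τ : Equiv.Perm E) (hτ : ∀ σ, τ (τ σ) = σ) (hdim : ∀ σ, dim (τ σ) = dim σ)
  (D : (E →₀ ZMod 2) →ₗ[ZMod 2] (E →₀ ZMod 2)) (hD2 : ∀ v, D (D v) = 0)
  (hDτ : ∀ v, D (tm τ v) = tm τ (D v))
  (hDdim : ∀ σ ρ, D (single σ 1) ρ ≠ 0 → dim ρ < dim σ)

/-- span of the chosen representatives of the free orbits -/
abbrev U : Submodule (ZMod 2) (E →₀ ZMod 2) := Finsupp.supported (ZMod 2) (ZMod 2) {σ | σ < τ σ}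

/-- span of the fixed cells -/
abbrev Fx : Submodule (ZMod 2) (E →₀ ZMod 2) := Finsupp.supported (ZMod 2) (ZMod 2) {σ | τ σ = σ}

/-- `U + N U` -/
noncomputable def S : Submodule (ZMod 2) (E →₀ ZMod 2) := U τ ⊔ (U τ).map (nd τ D)

/-- chains supported in dimensions `< j` -/
abbrev lt (j : ℕ) : Submodule (ZMod 2) (E →₀ ZMod 2) :=
  Finsupp.supported (ZMod 2) (ZMod 2) {σ | dim σ < j}

include hDdim in
lemma D_lt {j : ℕ} {v : E →₀ ZMod 2} (hv : v ∈ lt dim (j + 1)) : D v ∈ lt dim j := by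
  have h1 : v ∈ Submodule.span (ZMod 2) ((fun σ => single σ (1 : ZMod 2)) '' {σ | dim σ < j + 1}) := by
    rwa [← Finsupp.supported_eq_span_single]
  refine Submodule.span_induction (p := fun v _ => D v ∈ lt dim j) ?_ ?_ ?_ ?_ h1
  · rintro _ ⟨σ, hσ, rfl⟩
    rw [Finsupp.mem_supported]
    intro ρ hρ
    have h2 := hDdim σ ρ (Finsupp.mem_support_iff.1 hρ)
    have h3 : dim σ < j + 1 := hσ
    change dim ρ < j
    omega
  · rw [map_zero]; exact Submodule.zero_mem _
  · intro x y _ _ hx hy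
    rw [map_add]; exact Submodule.add_mem _ hx hy
  · intro c x _ hx
    rw [map_smul]; exact Submodule.smul_mem _ _ hx

include hτ hdim hDdim in
lemma sup_eq_top : Fx τ ⊔ S τ D = ⊤ := by
  have key : ∀ j, lt dim j ≤ Fx τ ⊔ S τ D := by
    intro j
    induction j with
    | zero =>
      intro v hv
      have : v = 0 := by
        rw [Finsupp.mem_supported] at hv
        rw [← Finsupp.support_eq_empty, Finset.eq_empty_iff_forall_notMem]
        intro σ hσ
        exact absurd (hv hσ) (Nat.not_lt_zero _)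
      rw [this]; exact Submodule.zero_mem _
    | succ j ih =>
      rw [lt, Finsupp.supported_eq_span_single, Submodule.span_le]
      rintro _ ⟨σ, hσ, rfl⟩
      change single σ (1 : ZMod 2) ∈ Fx τ ⊔ S τ D
      rcases lt_trichotomy σ (τ σ) with h | h | h
      · refine Submodule.mem_sup_right (Submodule.mem_sup_left ?_)
        exact Finsupp.single_mem_supported _ _ h
      · refine Submodule.mem_sup_left ?_
        exact Finsupp.single_mem_supported _ _ h.symm
      · have h1 : single (τ σ) (1 : ZMod 2) ∈ U τ := by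
          refine Finsupp.single_mem_supported _ _ ?_
          change τ σ < τ (τ σ)
          rw [hτ]; exact h
        have h2 : single σ (1 : ZMod 2) = nd τ D (single (τ σ) 1) + single (τ σ) 1 +
            D (single (τ σ) 1) := by
          rw [nd_apply, tm_single, hτ]
          have e1 := add_self_V (D (single (τ σ) (1 : ZMod 2)))
          have e2 := add_self_V (single (τ σ) (1 : ZMod 2))
          have : D (single (τ σ) 1) + (single (τ σ) 1 + single σ (1 : ZMod 2)) + single (τ σ) 1 +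
            D (single (τ σ) 1) = (D (single (τ σ) 1) + D (single (τ σ) 1)) +
            (single (τ σ) 1 + single (τ σ) 1) + single σ (1 : ZMod 2) := by abel
          rw [this, e1, e2]; simp
        rw [h2]
        refine Submodule.add_mem _ (Submodule.add_mem _ ?_ ?_) ?_
        · exact Submodule.mem_sup_right (Submodule.mem_sup_right ⟨_, h1, rfl⟩)
        · exact Submodule.mem_sup_right (Submodule.mem_sup_left h1)
        · refine ih (D_lt dim D hDdim ?_)
          refine Finsupp.single_mem_supported _ _ ?_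
          change dim (τ σ) < j + 1
          rw [hdim]; exact hσ
  rw [eq_top_iff]
  intro v _
  refine key (v.support.sup dim + 1) ?_
  rw [Finsupp.mem_supported]
  intro σ hσ
  exact Nat.lt_succ_of_le (Finset.le_sup hσ)

/-- the projection onto the span of the cells `τ σ`, `σ < τ σ` -/
noncomputable def pr (v : E →₀ ZMod 2) : E →₀ ZMod 2 := v.filter (fun σ => τ σ < σ)

include hτ hdim hDdim in
lemma indep {f u u' : E →₀ ZMod 2} (hf : f ∈ Fx τ) (hu : u ∈ U τ) (hu' : u' ∈ U τ)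
    (h : f = u + nd τ D u') : f = 0 ∧ u = 0 ∧ u' = 0 := by
  classical
  have hu0 : u' = 0 := by
    by_contra hne
    -- a cell of maximal dimension in the support
    obtain ⟨σ, hσ, hmax⟩ := Finset.exists_max_image u'.support dim
      (Finsupp.support_nonempty_iff.2 hne)
    have hσ1 : σ < τ σ := hu' hσ
    have h1 := DFunLike.congr_fun h (τ σ)
    have hfz : f (τ σ) = 0 := by
      by_contra h2
      have : τ (τ σ) = τ σ := hf (Finsupp.mem_support_iff.2 h2)
      rw [hτ] at this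
      exact hσ1.ne this
    have hU0 : ∀ w ∈ U τ, w (τ σ) = 0 := by
      intro w hw
      by_contra h2
      have : τ σ < τ (τ σ) := hw (Finsupp.mem_support_iff.2 h2)
      rw [hτ] at this
      exact lt_asymm hσ1 this
    have hD0 : D u' (τ σ) = 0 := by
      have h3 : u' ∈ lt dim (dim σ + 1) := by
        rw [Finsupp.mem_supported]
        intro ρ hρ
        exact Nat.lt_succ_of_le (hmax ρ hρ)
      have h4 := D_lt dim D hDdim h3
      by_contra h2
      have h5 : dim (τ σ) < dim σ := h4 (Finsupp.mem_support_iff.2 h2)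
      rw [hdim] at h5
      exact lt_irrefl _ h5
    have htm : tm τ u' (τ σ) = u' σ := by
      exact Finsupp.mapDomain_apply τ.injective u' σ
    rw [hfz, Finsupp.add_apply, hU0 u hu, nd_apply, Finsupp.add_apply, Finsupp.add_apply, hD0,
      hU0 u' hu', htm, zero_add, zero_add, zero_add] at h1
    exact (Finsupp.mem_support_iff.1 hσ) h1.symm
  subst hu0
  rw [map_zero, add_zero] at h
  have h3 : f = 0 := by
    rw [← Finsupp.support_eq_empty, Finset.eq_empty_iff_forall_notMem]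
    intro σ hσ
    have h4 : τ σ = σ := hf hσ
    have h5 : σ < τ σ := hu (h ▸ hσ)
    exact h5.ne h4.symm
  exact ⟨h3, by rw [← h, h3], rfl⟩

include hτ hdim hDdim in
lemma nd_U_inj {u : E →₀ ZMod 2} (hu : u ∈ U τ) (h : nd τ D u = 0) : u = 0 := by
  have := indep dim τ hτ hdim D hDdim (f := 0) (u := 0) (u' := u) (Submodule.zero_mem _)
    (Submodule.zero_mem _) hu (by rw [h, add_zero])
  exact this.2.2

include hτ hdim hDdim in
lemma disj : Disjoint (Fx τ) (S τ D) := by
  rw [Submodule.disjoint_def]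
  intro f hf hS
  obtain ⟨u, hu, w, hw, hfw⟩ := Submodule.mem_sup.1 hS
  obtain ⟨u', hu', rfl⟩ := hw
  exact (indep dim τ hτ hdim D hDdim hf hu hu' hfw.symm).1

include hτ hD2 hDτ in
lemma nd_S {v : E →₀ ZMod 2} (hv : v ∈ S τ D) : nd τ D v ∈ S τ D := by
  obtain ⟨u, hu, w, ⟨u', hu', rfl⟩, rfl⟩ := Submodule.mem_sup.1 hv
  rw [map_add, nd_nd τ hτ D hD2 hDτ, add_zero]
  exact Submodule.mem_sup_right ⟨u, hu, rfl⟩

end split

section final
variable {E : Type} (dim : E → ℕ) (N : ℕ) (hN : ∀ σ, dim σ ≤ N)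
  (τ : Equiv.Perm E) (hτ : ∀ σ, τ (τ σ) = σ) (hdim : ∀ σ, dim (τ σ) = dim σ)
  (D : (E →₀ ZMod 2) →ₗ[ZMod 2] (E →₀ ZMod 2)) (hD2 : ∀ v, D (D v) = 0)
  (hDτ : ∀ v, D (tm τ v) = tm τ (D v))
  (hDdim : ∀ σ ρ, D (single σ 1) ρ ≠ 0 → dim ρ < dim σ)
  (ε : (E →₀ ZMod 2) →ₗ[ZMod 2] ZMod 2) (hε1 : ∀ v ∈ ge dim 1, ε v = 0) (hεD : ∀ v, ε (D v) = 0)
  (hετ : ∀ v, ε (tm τ v) = ε v) (hsurj : ∃ x, ε x = 1)
  (EX : ∀ j, ∀ y ∈ ge dim j, D y ∈ ge dim j → ε y = 0 →
    ∃ w ∈ ge dim (j + 1), y + D w ∈ ge dim (j + 1))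

include hN hτ hdim hD2 hDτ hDdim hε1 hεD hετ hsurj EX in
/-- **Smith theory.** The number of fixed cells is odd. -/
theorem odd_fixed (hfin : {σ | τ σ = σ}.Finite) : Odd hfin.toFinset.card := by
  classical
  letI : LinearOrder E := IsWellOrder.linearOrder (WellOrderingRel (α := E))
  let Q := (E →₀ ZMod 2) ⧸ S τ D
  have hcompl : IsCompl (S τ D) (Fx τ) :=
    ⟨(disj dim τ hτ hdim D hDdim).symm, by
      rw [codisjoint_iff, sup_comm]; exact sup_eq_top dim τ hτ hdim D hDdim⟩
  let eQ : Q ≃ₗ[ZMod 2] Fx τ := Submodule.quotientEquivOfIsCompl _ _ hcompl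
  haveI : Finite {σ | τ σ = σ} := hfin
  let eF : Fx τ ≃ₗ[ZMod 2] ({σ | τ σ = σ} →₀ ZMod 2) :=
    Finsupp.supportedEquivFinsupp {σ | τ σ = σ}
  haveI : Module.Finite (ZMod 2) (Fx τ) := Module.Finite.equiv eF.symm
  haveI : Module.Finite (ZMod 2) Q := Module.Finite.equiv eQ.symm
  have hrk : Module.finrank (ZMod 2) Q = hfin.toFinset.card := by
    rw [eQ.finrank_eq, eF.finrank_eq]
    haveI : Fintype {σ | τ σ = σ} := hfin.fintype
    rw [Module.finrank_finsupp_self, Set.Finite.card_toFinset]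
  let n : Q →ₗ[ZMod 2] Q := (S τ D).mapQ (S τ D) (nd τ D) (fun v hv => nd_S τ hτ D hD2 hDτ hv)
  obtain ⟨z, hz, hz1⟩ := exists_z dim N hN τ hτ hdim D hD2 hDτ ε hε1 hεD hετ hsurj EX
  have hinj : ∀ u ∈ U τ, nd τ D u = 0 → u = 0 := fun u hu h =>
    nd_U_inj dim τ hτ hdim D hDdim hu h
  have hzn : (Submodule.Quotient.mk z : Q) ∉ LinearMap.range n := by
    rintro ⟨q, hq⟩
    obtain ⟨y, rfl⟩ := Submodule.Quotient.mk_surjective _ q
    have h1 : nd τ D y - z ∈ S τ D := (Submodule.Quotient.eq _).1 hq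
    obtain ⟨u, hu, w, ⟨u', hu', rfl⟩, huw⟩ := Submodule.mem_sup.1 h1
    have h2 := congrArg (nd τ D) huw
    rw [map_add, nd_nd τ hτ D hD2 hDτ, map_sub, nd_nd τ hτ D hD2 hDτ, hz, sub_zero, add_zero] at h2
    have h3 := hinj u hu h2
    rw [h3, zero_add] at huw
    have h4 := congrArg ε huw
    rw [map_sub, eps_nd dim τ D ε hε1 hεD hετ, eps_nd dim τ D ε hε1 hεD hετ, hz1] at h4
    exact absurd h4 (by decide)
  have hker : LinearMap.ker n = LinearMap.range n ⊔ Submodule.span (ZMod 2) {(Submodule.Quotient.mk z : Q)} := by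
    apply le_antisymm
    · intro q hq
      obtain ⟨y, rfl⟩ := Submodule.Quotient.mk_surjective _ q
      have h1 : nd τ D y ∈ S τ D := by
        have : (Submodule.Quotient.mk (nd τ D y) : Q) = 0 := hq
        exact (Submodule.Quotient.mk_eq_zero _).1 this
      obtain ⟨u, hu, w, ⟨u', hu', rfl⟩, huw⟩ := Submodule.mem_sup.1 h1
      have h2 := congrArg (nd τ D) huw
      rw [map_add, nd_nd τ hτ D hD2 hDτ, nd_nd τ hτ D hD2 hDτ, add_zero] at h2
      have h3 := hinj u hu h2
      rw [h3, zero_add] at huw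
      have h4 : nd τ D (y + u') = 0 := by
        rw [map_add, huw]; exact add_self_V _
      have hu'0 : (Submodule.Quotient.mk u' : Q) = 0 :=
        (Submodule.Quotient.mk_eq_zero _).2 (Submodule.mem_sup_left hu')
      have h5 : (Submodule.Quotient.mk y : Q) = Submodule.Quotient.mk (y + u') := by
        rw [Submodule.Quotient.mk_add, hu'0, add_zero]
      rw [h5]
      have h01 : ∀ c : ZMod 2, c = 0 ∨ c = 1 := by decide
      rcases h01 (ε (y + u')) with hc | hc
      · obtain ⟨w, hw⟩ := exists_bd dim N hN τ hτ hdim D hD2 hDτ ε hε1 hεD hετ EX _ h4 hc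
        refine Submodule.mem_sup_left ⟨Submodule.Quotient.mk w, ?_⟩
        rw [← hw]; rfl
      · have h6 : nd τ D (y + u' + z) = 0 := by rw [map_add, h4, hz, add_zero]
        have h7 : ε (y + u' + z) = 0 := by rw [map_add, hc, hz1]; decide
        obtain ⟨w, hw⟩ := exists_bd dim N hN τ hτ hdim D hD2 hDτ ε hε1 hεD hετ EX _ h6 h7
        have h8 : y + u' = nd τ D w + z := by
          rw [hw, add_assoc (y + u'), add_self_V, add_zero]
        rw [h8, Submodule.Quotient.mk_add]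
        refine Submodule.add_mem_sup ⟨Submodule.Quotient.mk w, rfl⟩
          (Submodule.mem_span_singleton_self _)
    · refine sup_le ?_ ?_
      · rintro _ ⟨q, rfl⟩
        obtain ⟨y, rfl⟩ := Submodule.Quotient.mk_surjective _ q
        change (Submodule.Quotient.mk (nd τ D (nd τ D y)) : Q) = 0
        rw [nd_nd τ hτ D hD2 hDτ]; rfl
      · rw [Submodule.span_le, Set.singleton_subset_iff]
        change (Submodule.Quotient.mk (nd τ D z) : Q) = 0
        rw [hz]; rfl
  have h1 := LinearMap.finrank_range_add_finrank_ker n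
  have h2 : Module.finrank (ZMod 2) (LinearMap.ker n) = Module.finrank (ZMod 2) (LinearMap.range n) + 1 := by
    rw [hker]
    exact Submodule.finrank_sup_span_singleton hzn
  rw [hrk, h2] at h1
  exact ⟨_, by rw [← h1]; ring⟩

end final

end Pool.Agent.R778.Par
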