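import Pool.Agent.H79.LZ.R778_Master
import Pool.Agent.H79.LZ.R778_Gap3

set_option autoImplicit false
set_option linter.unusedSectionVars false

open scoped InnerProductSpace

namespace Pool.Agent.R778.ZS

open Pool.Agent.H919R4.ZS (FinRes toRed)

variable {G : Type} [Group G] {X : FinRes G}

lemma dim_of_inc {σ ρ : Cell X} (h : inc X σ ρ ≠ 0) : dim σ = dim ρ + 1 := by
  by_contra hne
  apply h
  have hne' : ¬ ((σ.2.1 : ℕ) = ρ.2.1 + 1) := hne
  rw [inc, bmat, dif_neg hne']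
  simp

section fourier

variable {E H : Type} [NormedAddCommGroup H] [InnerProductSpace ℂ H] (τ : Equiv.Perm E)
  (f : E → H) (n : ℕ) (ω : ℂ)

/-- Fourier component -/
noncomputable def four (a : ℕ) (σ : E) : H := ∑ k ∈ Finset.range n, (ω ^ a) ^ k • f ((τ ^ k) σ)

lemma four_perm (hn : τ ^ n = 1) (hω : ω ^ n = 1) (hn0 : 0 < n) (a : ℕ) (σ : E) :
    four τ f n ω a (τ σ) = (ω ^ a)⁻¹ • four τ f n ω a σ := by
  have hω0 : ω ≠ 0 := by
    intro h
    rw [h, zero_pow hn0.ne'] at hω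
    exact zero_ne_one hω
  have h1 : (ω ^ a) ≠ 0 := pow_ne_zero _ hω0
  rw [eq_inv_smul_iff₀ h1, four, four, Finset.smul_sum]
  have h2 : ∀ k, (ω ^ a) • (ω ^ a) ^ k • f ((τ ^ k) (τ σ)) =
      (ω ^ a) ^ (k + 1) • f ((τ ^ (k + 1)) σ) := by
    intro k
    rw [smul_smul, ← pow_succ', pow_succ τ k]
    rfl
  simp only [h2]
  have h3 := Finset.sum_range_succ (fun k => (ω ^ a) ^ k • f ((τ ^ k) σ)) n
  have h4 := Finset.sum_range_succ' (fun k => (ω ^ a) ^ k • f ((τ ^ k) σ)) n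
  rw [h3] at h4
  have h5 : (ω ^ a) ^ n • f ((τ ^ n) σ) = (ω ^ a) ^ 0 • f ((τ ^ 0) σ) := by
    rw [hn, ← pow_mul, mul_comm, pow_mul, hω, one_pow, pow_zero, pow_zero]
  rw [h5] at h4
  exact (add_right_cancel h4).symm

lemma sum_four (hω : IsPrimitiveRoot ω n) (hn0 : 0 < n) (σ : E) :
    ∑ a ∈ Finset.range n, four τ f n ω a σ = (n : ℂ) • f σ := by
  simp only [four]
  rw [Finset.sum_comm]
  have h1 : ∀ k ∈ Finset.range n, ∑ a ∈ Finset.range n, (ω ^ a) ^ k • f ((τ ^ k) σ) =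
      if k = 0 then (n : ℂ) • f σ else 0 := by
    intro k hk
    rw [← Finset.sum_smul]
    split_ifs with h
    · subst h; simp
    · have h2 : ω ^ k - 1 ≠ 0 := by
        rw [sub_ne_zero]
        exact hω.pow_ne_one_of_pos_of_lt h (Finset.mem_range.1 hk)
      have h3 : ∑ a ∈ Finset.range n, (ω ^ a) ^ k = 0 := by
        have h4 : ∀ a, (ω ^ a) ^ k = (ω ^ k) ^ a := fun a => by rw [← pow_mul, ← pow_mul, mul_comm]
        simp only [h4]
        have h5 := geom_sum_mul (ω ^ k) n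
        rw [← pow_mul, mul_comm k n, pow_mul, hω.pow_eq_one, one_pow, sub_self] at h5
        exact (mul_eq_zero.1 h5).resolve_right h2
      rw [h3, zero_smul]
  rw [Finset.sum_congr rfl h1, Finset.sum_ite_eq' (Finset.range n) 0, if_pos (Finset.mem_range.2 hn0)]

end fourier

theorem main (φ : CellAut X) (n : ℕ) (hn : 0 < n) (hφ : φ.perm ^ n = 1)
    {H : Type} [NormedAddCommGroup H] [InnerProductSpace ℂ H] (f : Cell X → H) (C : ℝ)
    (hf : ∀ σ ρ, inc X σ ρ ≠ 0 → ‖f σ - f ρ‖ ≤ C)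
    (hp : ∀ R : ℝ, {σ | ‖f σ - f (φ.perm σ)‖ ≤ R}.Finite) (hL : φ.lefschetz ≠ 0) :
    ∃ i ≤ X.len, Nontrivial (X.homology (toRed G) i) := by
  classical
  by_contra hcon
  push Not at hcon
  have hsub : ∀ i ≤ X.len, Subsingleton (X.homology (toRed G) i) := by
    intro i hi
    exact not_nontrivial_iff_subsingleton.1 (not_nontrivial_iff_subsingleton.2 (hcon i hi))
  obtain ⟨c, hc, hgap⟩ := gap_cells X hsub
  set τ := φ.perm with hτ
  set ω : ℂ := Complex.exp (2 * Real.pi * Complex.I / n) with hω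
  have hprim : IsPrimitiveRoot ω n := Complex.isPrimitiveRoot_exp n hn.ne'
  have hωn : ω ^ n = 1 := hprim.pow_eq_one
  have hωnorm : ‖ω‖ = 1 := Complex.norm_eq_one_of_pow_eq_one hωn hn.ne'
  let I : Type := {a : Fin n // (a : ℕ) ≠ 0}
  let ζ : I → ℂ := fun a => (ω ^ (a.1 : ℕ))⁻¹
  have hζ : ∀ i, ‖ζ i‖ = 1 := fun i => by
    change ‖(ω ^ (i.1 : ℕ))⁻¹‖ = 1
    rw [norm_inv, norm_pow, hωnorm, one_pow, inv_one]
  have hζ1 : ∀ i, ζ i ≠ 1 := fun i h => by
    have h2 : (ω ^ (i.1 : ℕ))⁻¹ = 1 := h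
    exact hprim.pow_ne_one_of_pos_of_lt i.2 i.1.2 (inv_eq_one.1 h2)
  let F : Cell X → PiLp 2 (fun _ : I => H) := fun σ =>
    WithLp.toLp 2 (fun a : I => four τ f n ω (a.1 : ℕ) σ)
  have hFa : ∀ σ i, F σ i = four τ f n ω (i.1 : ℕ) σ := fun _ _ => rfl
  have hF : ∀ σ i, F (τ σ) i = ζ i • F σ i := fun σ i => four_perm τ f n ω hφ hωn hn _ σ
  set C' : ℝ := max C 0 with hC'
  have hC0 : 0 ≤ C' := le_max_right _ _
  have hincp : ∀ (k : ℕ) (σ ρ : Cell X), inc X σ ρ ≠ 0 → inc X ((τ ^ k) σ) ((τ ^ k) ρ) ≠ 0 := by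
    intro k
    induction k with
    | zero => exact fun σ ρ h => h
    | succ k ih =>
      intro σ ρ h
      rw [pow_succ, Equiv.Perm.mul_apply, Equiv.Perm.mul_apply]
      refine ih _ _ ?_
      rw [hτ, φ.inc_eq]
      exact mul_ne_zero (mul_ne_zero (Units.ne_zero _) (Units.ne_zero _)) h
  have hLipf : ∀ (k : ℕ) (σ ρ : Cell X), symB X σ ρ ≠ 0 →
      ‖f ((τ ^ k) σ) - f ((τ ^ k) ρ)‖ ≤ C' := by
    intro k σ ρ h
    by_cases h1 : inc X σ ρ = 0
    · have h2 : inc X ρ σ ≠ 0 := by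
        intro h2
        apply h
        rw [symB, h1, h2]; simp
      rw [norm_sub_rev]
      exact (hf _ _ (hincp k _ _ h2)).trans (le_max_left _ _)
    · exact (hf _ _ (hincp k _ _ h1)).trans (le_max_left _ _)
  have hcard : Fintype.card I ≤ n := by
    refine (Fintype.card_subtype_le _).trans ?_
    rw [Fintype.card_fin]
  have hLip : ∀ σ ρ, symB X σ ρ ≠ 0 → ‖F σ - F ρ‖ ≤ n * n * C' := by
    intro σ ρ h
    have h1 : ∀ i : I, ‖(F σ - F ρ) i‖ ≤ n * C' := by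
      intro i
      rw [PiLp.sub_apply, hFa, hFa, four, four, ← Finset.sum_sub_distrib]
      calc ‖∑ k ∈ Finset.range n, ((ω ^ (i.1 : ℕ)) ^ k • f ((τ ^ k) σ) -
            (ω ^ (i.1 : ℕ)) ^ k • f ((τ ^ k) ρ))‖
          ≤ ∑ k ∈ Finset.range n, C' := by
            refine (norm_sum_le _ _).trans (Finset.sum_le_sum fun k _ => ?_)
            rw [← smul_sub, norm_smul, norm_pow, norm_pow, hωnorm, one_pow, one_pow, one_mul]
            exact hLipf k σ ρ h
        _ = n * C' := by rw [Finset.sum_const, Finset.card_range, nsmul_eq_mul]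
    have h2 : ‖F σ - F ρ‖ ^ 2 ≤ (n * n * C') ^ 2 := by
      rw [PiLp.norm_sq_eq_of_L2]
      calc ∑ i, ‖(F σ - F ρ) i‖ ^ 2 ≤ ∑ i : I, (n * C') ^ 2 :=
            Finset.sum_le_sum fun i _ => pow_le_pow_left₀ (norm_nonneg _) (h1 i) 2
        _ = Fintype.card I * (n * C') ^ 2 := by
            rw [Finset.sum_const, Finset.card_univ, nsmul_eq_mul]
        _ ≤ n * (n * C') ^ 2 := by
            refine mul_le_mul_of_nonneg_right ?_ (sq_nonneg _)
            exact_mod_cast hcard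
        _ ≤ (n * n * C') ^ 2 := by
            have h3 : (1 : ℝ) ≤ n := by exact_mod_cast hn
            have h4 : (n : ℝ) ≤ n ^ 2 := by nlinarith
            calc (n : ℝ) * (n * C') ^ 2 ≤ n ^ 2 * (n * C') ^ 2 :=
                  mul_le_mul_of_nonneg_right h4 (sq_nonneg _)
              _ = _ := by ring
    exact (sq_le_sq₀ (norm_nonneg _) (by positivity)).1 h2
  have hprop : ∀ R : ℝ, {σ | ‖F σ‖ ≤ R}.Finite := by
    intro R
    refine (hp (2 * R)).subset fun σ hσ => ?_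
    change ‖f σ - f (τ σ)‖ ≤ 2 * R
    have hσ' : ‖F σ‖ ≤ R := hσ
    have e1 := sum_four τ f n ω hprim hn σ
    have e2 := sum_four τ f n ω hprim hn (τ σ)
    have e3 : (n : ℂ) • (f σ - f (τ σ)) =
        ∑ a ∈ Finset.range n, (1 - (ω ^ a)⁻¹) • four τ f n ω a σ := by
      rw [smul_sub, ← e1, ← e2, ← Finset.sum_sub_distrib]
      refine Finset.sum_congr rfl fun a _ => ?_
      rw [four_perm τ f n ω hφ hωn hn, sub_smul, one_smul]
    have e4 : ∀ a ∈ Finset.range n, ‖(1 - (ω ^ a)⁻¹) • four τ f n ω a σ‖ ≤ 2 * R := by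
      intro a ha
      by_cases h0 : a = 0
      · subst h0
        simp only [pow_zero, inv_one, sub_self, zero_smul, norm_zero]
        have := (norm_nonneg _).trans hσ'
        linarith
      · rw [norm_smul]
        have h5 : ‖1 - (ω ^ a)⁻¹‖ ≤ 2 := by
          refine (norm_sub_le _ _).trans ?_
          rw [norm_one, norm_inv, norm_pow, hωnorm, one_pow, inv_one]
          norm_num
        have h6 : ‖four τ f n ω a σ‖ ≤ R := by
          have := PiLp.norm_apply_le (F σ) (⟨⟨a, Finset.mem_range.1 ha⟩, h0⟩ : I)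
          exact this.trans hσ'
        exact mul_le_mul h5 h6 (norm_nonneg _) (by norm_num)
    have e5 : ‖(n : ℂ) • (f σ - f (τ σ))‖ ≤ n * (2 * R) := by
      rw [e3]
      refine (norm_sum_le _ _).trans ?_
      refine (Finset.sum_le_sum e4).trans (le_of_eq ?_)
      rw [Finset.sum_const, Finset.card_range, nsmul_eq_mul]
    rw [norm_smul, Complex.norm_natCast] at e5
    exact le_of_mul_le_mul_left e5 (by exact_mod_cast hn)
  have hγ : ∀ σ : Cell X, ((-1 : ℝ) ^ dim σ) = 1 ∨ ((-1 : ℝ) ^ dim σ) = -1 := fun σ =>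
    neg_one_pow_eq_or ℝ _
  have hodd : ∀ σ ρ : Cell X, symB X σ ρ ≠ 0 → ((-1 : ℝ) ^ dim σ) = - (-1 : ℝ) ^ dim ρ := by
    intro σ ρ h
    by_cases h1 : inc X σ ρ = 0
    · have h2 : inc X ρ σ ≠ 0 := by
        intro h2
        apply h
        rw [symB, h1, h2]; simp
      rw [dim_of_inc h2, pow_succ]; ring
    · rw [dim_of_inc h1, pow_succ]; ring
  have hε : ∀ σ : Cell X, (((φ.sign σ : ℤ) : ℝ)) = 1 ∨ (((φ.sign σ : ℤ) : ℝ)) = -1 := by
    intro σ
    rcases Int.units_eq_one_or (φ.sign σ) with h | h <;> rw [h] <;> simp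
  have hB : ∀ σ ρ, symB X (τ σ) (τ ρ) = ((φ.sign σ : ℤ) : ℝ) * ((φ.sign ρ : ℤ) : ℝ) *
      symB X σ ρ := by
    intro σ ρ
    rw [symB, symB, hτ, φ.inc_eq, φ.inc_eq]
    push_cast
    ring
  have key := master (symB X) (fun σ => (-1 : ℝ) ^ dim σ) (fun σ => ((φ.sign σ : ℤ) : ℝ)) τ
    (fun σ ρ => add_comm _ _) hγ hodd hε hB (fun σ => by rw [hτ, φ.dim_eq])
    (fun ρ => (finite_nb X ρ).toFinset) (fun σ ρ h => (finite_nb X ρ).mem_toFinset.2 h)
    (2 * bnorm X) (by have := bnorm_nonneg X; linarith) (row_bound X) c hc hgap ζ hζ hζ1 F hF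
    (n * n * C') (by positivity) hLip hprop
  apply hL
  have hfin : {σ | φ.perm σ = σ}.Finite := by
    refine (hp 0).subset fun σ hσ => ?_
    change ‖f σ - f (τ σ)‖ ≤ 0
    have : τ σ = σ := hσ
    rw [this, sub_self, norm_zero]
  rw [CellAut.lefschetz, finsum_mem_eq_finite_toFinset_sum _ hfin]
  rw [finsum_mem_eq_finite_toFinset_sum _ hfin] at key
  exact_mod_cast key

end Pool.Agent.R778.ZS
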