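import Pool.Agent.H79.LZ.R778_Par
import Pool.Agent.H79.LZ.R778_ZSFinal

set_option autoImplicit false
set_option linter.unusedSectionVars false

open scoped Matrix

namespace Pool.Agent.R778.ZS

open Pool.Agent.H919R4.ZS (FinRes augm d_mul_d)
open Pool.Agent.R778.Par

variable {G : Type} [Group G] (X : FinRes G)

/-- reduction modulo 2 of a chain -/
noncomputable def tcf (i : ℕ) (x : Fin (X.n i) → MonoidAlgebra ℤ G) (σ : Cell X) : ZMod 2 :=
  if h : (σ.2.1 : ℕ) = i then ((x (Fin.cast (congrArg X.n h) σ.2.2)).coeff σ.1 : ZMod 2) else 0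

lemma tcf_fin (i : ℕ) (x : Fin (X.n i) → MonoidAlgebra ℤ G) :
    (Function.support (tcf X i x)).Finite := by
  classical
  have h : Function.support (tcf X i x) ⊆
      ⋃ κ : Bas X, (fun g => ((g, κ) : Cell X)) '' (⋃ j : Fin (X.n i), ((x j).coeff.support : Set G)) := by
    rintro ⟨g, κ⟩ hσ
    refine Set.mem_iUnion.2 ⟨κ, g, ?_, rfl⟩
    have h1 : tcf X i x (g, κ) ≠ 0 := hσ
    unfold tcf at h1
    split_ifs at h1 with h2
    · refine Set.mem_iUnion.2 ⟨Fin.cast (congrArg X.n h2) κ.2, ?_⟩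
      refine Finset.mem_coe.2 (Finsupp.mem_support_iff.2 fun h3 => h1 ?_)
      change (((x (Fin.cast (congrArg X.n h2) κ.2)).coeff g : ℤ) : ZMod 2) = 0
      rw [h3]; simp
    · exact absurd rfl h1
  refine Set.Finite.subset (Set.finite_iUnion fun κ => Set.Finite.image _ ?_) h
  exact Set.finite_iUnion fun j => Finset.finite_toSet _

/-- reduction modulo 2 of a chain -/
noncomputable def tc (i : ℕ) (x : Fin (X.n i) → MonoidAlgebra ℤ G) : Cell X →₀ ZMod 2 :=
  Finsupp.ofSupportFinite (tcf X i x) (tcf_fin X i x)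

lemma tc_apply (i : ℕ) (x : Fin (X.n i) → MonoidAlgebra ℤ G) (σ : Cell X) :
    tc X i x σ = tcf X i x σ := rfl

lemma tc_apply_same (i : ℕ) (hi : i < X.len + 1) (x : Fin (X.n i) → MonoidAlgebra ℤ G) (g : G)
    (j : Fin (X.n i)) : tc X i x (g, ⟨⟨i, hi⟩, j⟩) = ((x j).coeff g : ZMod 2) := by
  rw [tc_apply, tcf, dif_pos rfl]; rfl

lemma tc_apply_ne (i : ℕ) (x : Fin (X.n i) → MonoidAlgebra ℤ G) (σ : Cell X)
    (h : dim σ ≠ i) : tc X i x σ = 0 := by
  have h' : ¬ ((σ.2.1 : ℕ) = i) := h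
  rw [tc_apply, tcf, dif_neg h']

lemma tc_add (i : ℕ) (x y : Fin (X.n i) → MonoidAlgebra ℤ G) :
    tc X i (x + y) = tc X i x + tc X i y := by
  ext σ
  rw [Finsupp.add_apply, tc_apply, tc_apply, tc_apply, tcf, tcf, tcf]
  split_ifs with h
  · simp [MonoidAlgebra.coeff_add]
  · simp

lemma tc_zero (i : ℕ) : tc X i 0 = 0 := by
  ext σ
  rw [tc_apply, tcf]
  split_ifs <;> simp

/-- the boundary of a cell modulo 2 -/
noncomputable def bd2 (σ : Cell X) : Cell X →₀ ZMod 2 :=
  Finsupp.ofSupportFinite (fun ρ => (inc X σ ρ : ZMod 2)) <| by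
    refine (finite_nb X σ).subset fun ρ hρ => ?_
    change symB X ρ σ ≠ 0
    have h1 : ((inc X σ ρ : ℤ) : ZMod 2) ≠ 0 := hρ
    have h2 : inc X σ ρ ≠ 0 := fun h => h1 (by rw [h]; simp)
    have h3 : inc X ρ σ = 0 := by
      by_contra h3
      have e1 := dim_of_inc h2
      have e2 := dim_of_inc h3
      omega
    rw [symB, h3]
    simpa using h2

lemma bd2_apply (σ ρ : Cell X) : bd2 X σ ρ = (inc X σ ρ : ZMod 2) := rfl

/-- the boundary map modulo 2 -/
noncomputable def D2 : (Cell X →₀ ZMod 2) →ₗ[ZMod 2] (Cell X →₀ ZMod 2) :=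
  Finsupp.linearCombination (ZMod 2) (bd2 X)

lemma D2_single (σ : Cell X) : D2 X (Finsupp.single σ 1) = bd2 X σ := by
  rw [D2, Finsupp.linearCombination_single, one_smul]

lemma D2_apply (v : Cell X →₀ ZMod 2) (ρ : Cell X) :
    D2 X v ρ = ∑ σ ∈ v.support, (inc X σ ρ : ZMod 2) * v σ := by
  rw [D2, Finsupp.linearCombination_apply, Finsupp.sum, Finsupp.finsetSum_apply]
  refine Finset.sum_congr rfl fun σ _ => ?_
  rw [Finsupp.smul_apply, bd2_apply, smul_eq_mul, mul_comm]

lemma D2_apply' (v : Cell X →₀ ZMod 2) (a : G) (μ : Bas X) :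
    D2 X v (a, μ) = ∑ κ, ∑ g ∈ (bmat X κ μ).coeff.support,
      ((bmat X κ μ).coeff g : ZMod 2) * v (a * g⁻¹, κ) := by
  classical
  rw [D2_apply]
  exact col_sum (bmat X) v.support (fun z : ℤ => (z : ZMod 2)) (by simp) v
    (fun σ hσ => Finsupp.notMem_support_iff.1 hσ) a μ

lemma D2_tc (i : ℕ) (x : Fin (X.n (i + 1)) → MonoidAlgebra ℤ G) :
    D2 X (tc X (i + 1) x) = tc X i (x ᵥ* X.d i) := by
  classical
  refine Finsupp.ext fun ρ => ?_
  obtain ⟨a, ⟨⟨k, hk⟩, l⟩⟩ := ρ
  rw [D2_apply']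
  by_cases hki : k = i
  · subst hki
    rw [tc_apply_same, Matrix.vecMul, dotProduct, MonoidAlgebra.coeff_sum, Finsupp.finsetSum_apply,
      Int.cast_sum]
    rw [Fintype.sum_sigma]
    by_cases hlen : k + 1 < X.len + 1
    · rw [Finset.sum_eq_single (⟨k + 1, hlen⟩ : Fin (X.len + 1))]
      · refine Finset.sum_congr rfl fun j _ => ?_
        rw [MonoidAlgebra.coeff_mul_apply_right, Finsupp.sum, Int.cast_sum]
        have hb : bmat X ⟨⟨k + 1, hlen⟩, j⟩ ⟨⟨k, hk⟩, l⟩ = X.d k j l := by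
          unfold bmat
          rw [dif_pos rfl]; rfl
        rw [hb]
        refine Finset.sum_congr rfl fun g _ => ?_
        rw [tc_apply_same, Int.cast_mul, mul_comm]
      · intro b _ hb
        refine Finset.sum_eq_zero fun j _ => Finset.sum_eq_zero fun g _ => ?_
        rw [tc_apply_ne, mul_zero]
        intro h
        exact hb (Fin.ext h)
      · intro h; exact absurd (Finset.mem_univ _) h
    · have hn : X.n (k + 1) = 0 := X.n_eq_zero _ (by omega)
      haveI : IsEmpty (Fin (X.n (k + 1))) := by rw [hn]; infer_instance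
      rw [Finset.univ_eq_empty (α := Fin (X.n (k + 1))), Finset.sum_empty]
      refine Finset.sum_eq_zero fun b _ => Finset.sum_eq_zero fun j _ =>
        Finset.sum_eq_zero fun g _ => ?_
      rw [tc_apply_ne, mul_zero]
      intro h
      have h1 : (b : ℕ) = k + 1 := h
      exact hlen (h1 ▸ b.2)
  · rw [tc_apply_ne X i _ _ (show dim (X := X) (a, ⟨⟨k, hk⟩, l⟩) ≠ i from hki)]
    refine Finset.sum_eq_zero fun κ _ => Finset.sum_eq_zero fun g hg => ?_
    by_cases h : (κ.1 : ℕ) = i + 1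
    · exfalso
      refine (Finsupp.mem_support_iff.1 hg) ?_
      unfold bmat
      rw [dif_neg]
      · simp
      · change ¬ ((κ.1 : ℕ) = k + 1)
        omega
    · rw [tc_apply_ne X (i + 1) x _ (show dim (X := X) (a * g⁻¹, κ) ≠ i + 1 from h), mul_zero]

/-- the augmentation modulo 2 -/
noncomputable def eps : (Cell X →₀ ZMod 2) →ₗ[ZMod 2] ZMod 2 :=
  Finsupp.linearCombination (ZMod 2) (fun σ : Cell X =>
    if h : (σ.2.1 : ℕ) = 0 then (X.aug (Fin.cast (congrArg X.n h) σ.2.2) : ZMod 2) else 0)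

lemma eps_ge_one {v : Cell X →₀ ZMod 2} (hv : v ∈ ge (dim (X := X)) 1) : eps X v = 0 := by
  rw [eps, Finsupp.linearCombination_apply, Finsupp.sum]
  refine Finset.sum_eq_zero fun σ hσ => ?_
  have h1 : 1 ≤ dim σ := hv hσ
  rw [dif_neg, smul_zero]
  intro h
  have : dim σ = 0 := h
  omega

lemma augm_eq (x : MonoidAlgebra ℤ G) : augm G x = ∑ g ∈ x.coeff.support, x.coeff g := by
  unfold augm
  change MonoidAlgebra.lift ℤ ℤ G 1 x = _
  rw [MonoidAlgebra.lift_apply]
  simp [Finsupp.sum]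

lemma eps_tc (x : Fin (X.n 0) → MonoidAlgebra ℤ G) :
    eps X (tc X 0 x) = ((∑ j, augm G (x j) * X.aug j : ℤ) : ZMod 2) := by
  classical
  set T : Finset G := Finset.univ.biUnion (fun j => (x j).coeff.support) with hT
  have hsub : (tc X 0 x).support ⊆ T ×ˢ (Finset.univ : Finset (Bas X)) := by
    rintro ⟨g, ⟨⟨k, hk⟩, j⟩⟩ hσ
    refine Finset.mem_product.2 ⟨?_, Finset.mem_univ _⟩
    have h1 := Finsupp.mem_support_iff.1 hσ
    have hk0 : k = 0 := by
      by_contra hk0
      exact h1 (tc_apply_ne X 0 x _ hk0)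
    subst hk0
    refine Finset.mem_biUnion.2 ⟨j, Finset.mem_univ _, Finsupp.mem_support_iff.2 fun h2 => h1 ?_⟩
    rw [tc_apply_same, h2]; simp
  rw [eps, Finsupp.linearCombination_apply, Finsupp.sum_of_support_subset _ hsub _
    (by intros; exact zero_smul _ _), Finset.sum_product_right, Fintype.sum_sigma,
    Finset.sum_eq_single (⟨0, Nat.succ_pos _⟩ : Fin (X.len + 1))]
  · push_cast
    refine Finset.sum_congr rfl fun j _ => ?_
    rw [augm_eq]
    have h2 : ∑ g ∈ (x j).coeff.support, (x j).coeff g = ∑ g ∈ T, (x j).coeff g := by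
      refine Finset.sum_subset ?_ ?_
      · intro g hg
        exact Finset.mem_biUnion.2 ⟨j, Finset.mem_univ _, hg⟩
      · intro g _ hg
        exact Finsupp.notMem_support_iff.1 hg
    rw [h2, Int.cast_sum, Finset.sum_mul]
    refine Finset.sum_congr rfl fun g _ => ?_
    rw [tc_apply_same]
    rfl
  · intro b _ hb
    refine Finset.sum_eq_zero fun j _ => Finset.sum_eq_zero fun g _ => ?_
    rw [tc_apply_ne, zero_smul]
    intro h
    exact hb (Fin.ext h)
  · intro h; exact absurd (Finset.mem_univ _) h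

/-- lift a mod 2 chain to an integral chain -/
noncomputable def lft (i : ℕ) (hi : i < X.len + 1) (v : Cell X →₀ ZMod 2) :
    Fin (X.n i) → MonoidAlgebra ℤ G := fun j =>
  .ofCoeff (((v.comapDomain (fun g => ((g, ⟨⟨i, hi⟩, j⟩) : Cell X))
    (Function.Injective.injOn (fun g g' h => congrArg Prod.fst h))).mapRange (fun c : ZMod 2 => (c.val : ℤ)) (by simp)))

lemma tc_lft (i : ℕ) (hi : i < X.len + 1) (v : Cell X →₀ ZMod 2) (σ : Cell X)
    (hσ : dim σ = i) : tc X i (lft X i hi v) σ = v σ := by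
  obtain ⟨g, ⟨⟨k, hk⟩, j⟩⟩ := σ
  have hk' : k = i := hσ
  subst hk'
  rw [tc_apply_same, lft, MonoidAlgebra.coeff_ofCoeff, Finsupp.mapRange_apply,
    Finsupp.comapDomain_apply]
  simp

lemma exists_two (i : ℕ) (hi : i < X.len + 1) (v : Fin (X.n i) → MonoidAlgebra ℤ G)
    (h : tc X i v = 0) : ∃ c : Fin (X.n i) → MonoidAlgebra ℤ G, v = c + c := by
  refine ⟨fun j => .ofCoeff ((v j).coeff.mapRange (fun z : ℤ => z / 2) (by simp)), ?_⟩
  funext j
  refine MonoidAlgebra.coeff_injective (Finsupp.ext fun g => ?_)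
  rw [Pi.add_apply, MonoidAlgebra.coeff_add, MonoidAlgebra.coeff_ofCoeff, Finsupp.add_apply,
    Finsupp.mapRange_apply]
  have h1 := DFunLike.congr_fun h (g, ⟨⟨i, hi⟩, j⟩)
  rw [tc_apply_same] at h1
  have h2 : (2 : ℤ) ∣ (v j).coeff g := by
    have := (ZMod.intCast_zmod_eq_zero_iff_dvd ((v j).coeff g) 2).1 h1
    exact_mod_cast this
  omega

/-- only the part of dimension `i + 1` contributes to the part of dimension `i` of the boundary -/
lemma D2_congr (v w : Cell X →₀ ZMod 2) (ρ : Cell X)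
    (h : ∀ σ, dim σ = dim ρ + 1 → v σ = w σ) : D2 X v ρ = D2 X w ρ := by
  classical
  obtain ⟨a, μ⟩ := ρ
  rw [D2_apply', D2_apply']
  refine Finset.sum_congr rfl fun κ _ => Finset.sum_congr rfl fun g hg => ?_
  have h1 : (κ.1 : ℕ) = μ.1 + 1 := by
    by_contra h1
    refine (Finsupp.mem_support_iff.1 hg) ?_
    unfold bmat
    rw [dif_neg h1]; simp
  rw [h (a * g⁻¹, κ) h1]

lemma eps_congr (v w : Cell X →₀ ZMod 2) (h : ∀ σ, dim σ = 0 → v σ = w σ) : eps X v = eps X w := by
  have h1 : v - w ∈ ge (dim (X := X)) 1 := by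
    rw [Finsupp.mem_supported]
    intro σ hσ
    by_contra hc
    have h2 : dim σ = 0 := by
      have : ¬ (1 ≤ dim σ) := hc
      omega
    refine Finsupp.mem_support_iff.1 hσ ?_
    rw [Finsupp.sub_apply, h σ h2, sub_self]
  have h2 := eps_ge_one X h1
  rw [map_sub, sub_eq_zero] at h2
  exact h2

lemma dim_le (σ : Cell X) : dim σ ≤ X.len := Nat.lt_succ_iff.1 σ.2.1.2

lemma D2_D2 (v : Cell X →₀ ZMod 2) : D2 X (D2 X v) = 0 := by
  refine Finsupp.ext fun ρ => ?_
  have hρ := dim_le X ρ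
  by_cases h2 : dim ρ + 2 < X.len + 1
  · have e1 : D2 X (D2 X v) ρ = D2 X (D2 X (tc X (dim ρ + 1 + 1) (lft X (dim ρ + 1 + 1) h2 v))) ρ := by
      refine D2_congr X _ _ ρ fun σ hσ => D2_congr X _ _ σ fun κ hκ => ?_
      rw [tc_lft]
      omega
    rw [e1, D2_tc, D2_tc, Matrix.vecMul_vecMul, d_mul_d, Matrix.vecMul_zero, tc_zero]
  · have e1 : D2 X (D2 X v) ρ = D2 X 0 ρ := by
      refine D2_congr X _ _ ρ fun σ hσ => ?_
      have e2 : D2 X v σ = D2 X 0 σ := by
        refine D2_congr X _ _ σ fun κ hκ => ?_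
        have := dim_le X κ
        omega
      rw [e2]; simp
    rw [e1]; simp

lemma eps_D2 (v : Cell X →₀ ZMod 2) : eps X (D2 X v) = 0 := by
  by_cases h1 : 1 < X.len + 1
  · have e1 : eps X (D2 X v) = eps X (D2 X (tc X (0 + 1) (lft X (0 + 1) h1 v))) := by
      refine eps_congr X _ _ fun σ hσ => D2_congr X _ _ σ fun κ hκ => ?_
      rw [tc_lft]
      omega
    rw [e1, D2_tc, eps_tc, (X.exact_zero _).2 ⟨_, rfl⟩]
    simp
  · have e1 : eps X (D2 X v) = eps X (D2 X 0) := by
      refine eps_congr X _ _ fun σ hσ => D2_congr X _ _ σ fun κ hκ => ?_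
      have := dim_le X κ
      omega
    rw [e1]; simp

lemma exists_eps : ∃ v, eps X v = 1 := by
  obtain ⟨x, hx⟩ := X.surj
  refine ⟨tc X 0 x, ?_⟩
  rw [eps_tc, hx]; simp

lemma EX (j : ℕ) (y : Cell X →₀ ZMod 2) (hy : y ∈ ge (dim (X := X)) j)
    (hD : D2 X y ∈ ge (dim (X := X)) j) (hε : eps X y = 0) :
    ∃ w ∈ ge (dim (X := X)) (j + 1), y + D2 X w ∈ ge (dim (X := X)) (j + 1) := by
  by_cases hj : j < X.len + 1
  swap
  · refine ⟨0, Submodule.zero_mem _, ?_⟩
    rw [map_zero, add_zero, Finsupp.mem_supported]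
    intro σ hσ
    have h1 : j ≤ dim σ := hy hσ
    have := dim_le X σ
    omega
  set x := lft X j hj y with hx
  -- it suffices to find an integral chain `w` with `tc x = tc (w d)`
  suffices h : ∃ w : Fin (X.n (j + 1)) → MonoidAlgebra ℤ G, tc X j x = tc X j (w ᵥ* X.d j) by
    obtain ⟨w, hw⟩ := h
    refine ⟨tc X (j + 1) w, ?_, ?_⟩
    · rw [Finsupp.mem_supported]
      intro σ hσ
      by_contra hc
      refine Finsupp.mem_support_iff.1 hσ (tc_apply_ne X _ _ _ ?_)
      intro h
      exact hc h.ge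
    · rw [D2_tc, ← hw, Finsupp.mem_supported]
      intro σ hσ
      by_contra hc
      have hc' : dim σ < j + 1 := not_le.1 hc
      refine Finsupp.mem_support_iff.1 hσ ?_
      rw [Finsupp.add_apply]
      by_cases hσj : dim σ = j
      · rw [hx, tc_lft X j hj y σ hσj]
        exact CharTwo.add_self_eq_zero _
      · rw [tc_apply_ne X _ _ _ hσj, add_zero]
        by_contra hne
        have h1 : j ≤ dim σ := hy (Finsupp.mem_support_iff.2 hne)
        omega
  have key : ∃ e : Fin (X.n j) → MonoidAlgebra ℤ G, ∃ w : Fin (X.n (j + 1)) → MonoidAlgebra ℤ G,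
      x - (e + e) = w ᵥ* X.d j := by
    cases j with
    | zero =>
      have h1 : eps X (tc X 0 x) = 0 := by
        rw [← hε]
        exact eps_congr X _ _ fun σ hσ => tc_lft X 0 hj y σ hσ
      rw [eps_tc] at h1
      have h2 : (2 : ℤ) ∣ ∑ j, augm G (x j) * X.aug j := by
        have := (ZMod.intCast_zmod_eq_zero_iff_dvd _ 2).1 h1
        exact_mod_cast this
      obtain ⟨k, hk⟩ := h2
      obtain ⟨s, hs⟩ := X.surj
      refine ⟨k • s, ?_⟩
      obtain ⟨w, hw⟩ := (X.exact_zero (x - (k • s + k • s))).1 (by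
        have e1 : ∀ j, augm G ((x - (k • s + k • s)) j) * X.aug j =
            augm G (x j) * X.aug j - 2 * k * (augm G (s j) * X.aug j) := by
          intro j
          rw [Pi.sub_apply, Pi.add_apply, Pi.smul_apply, map_sub, map_add, map_zsmul]
          simp only [smul_eq_mul]
          ring
        simp only [e1]
        rw [Finset.sum_sub_distrib, ← Finset.mul_sum, hs, hk]
        ring)
      exact ⟨w, hw.symm⟩
    | succ i =>
      have h1 : tc X i (x ᵥ* X.d i) = 0 := by
        rw [← D2_tc]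
        refine Finsupp.ext fun ρ => ?_
        by_cases hρ : dim ρ = i
        · have e1 : D2 X (tc X (i + 1) x) ρ = D2 X y ρ := by
            refine D2_congr X _ _ ρ fun σ hσ => ?_
            rw [hx, tc_lft]
            omega
          rw [e1]
          by_contra hne
          have h2 : i + 1 ≤ dim ρ := hD (Finsupp.mem_support_iff.2 hne)
          omega
        · rw [D2_tc, tc_apply_ne X _ _ _ hρ]; rfl
      obtain ⟨c, hc⟩ := exists_two X i (by omega) _ h1
      have hcc : ∃ e : Fin (X.n (i + 1)) → MonoidAlgebra ℤ G, e ᵥ* X.d i = c := by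
        cases i with
        | zero =>
          refine (X.exact_zero c).1 ?_
          have e1 := (X.exact_zero (x ᵥ* X.d 0)).2 ⟨_, rfl⟩
          rw [hc] at e1
          have e2 : ∀ j, augm G ((c + c) j) * X.aug j = 2 * (augm G (c j) * X.aug j) := by
            intro j
            rw [Pi.add_apply, map_add]; ring
          simp only [e2] at e1
          rw [← Finset.mul_sum] at e1
          omega
        | succ m =>
          refine (X.exact_succ m c).1 ?_
          have e1 := (X.exact_succ m (x ᵥ* X.d (m + 1))).2 ⟨_, rfl⟩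
          rw [hc, Matrix.add_vecMul] at e1
          funext l
          have e2 := congrFun e1 l
          rw [Pi.add_apply, Pi.zero_apply] at e2
          refine MonoidAlgebra.coeff_injective (Finsupp.ext fun g => ?_)
          have e3 := DFunLike.congr_fun (congrArg MonoidAlgebra.coeff e2) g
          rw [MonoidAlgebra.coeff_add, Finsupp.add_apply] at e3
          change _ = (0 : ℤ)
          change _ = (0 : ℤ) at e3
          omega
      obtain ⟨e, he⟩ := hcc
      refine ⟨e, ?_⟩
      obtain ⟨w, hw⟩ := (X.exact_succ i (x - (e + e))).1 (by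
        rw [Matrix.sub_vecMul, Matrix.add_vecMul, he, hc, sub_self])
      exact ⟨w, hw.symm⟩
  obtain ⟨e, w, hw⟩ := key
  refine ⟨w, ?_⟩
  rw [← hw]
  have h1 : x = (x - (e + e)) + (e + e) := by abel
  conv_lhs => rw [h1]
  rw [tc_add, tc_add X j e e, add_self_V, add_zero]

/-- An involution of the universal cover with finitely many invariant cells has an odd number of
invariant cells. -/
theorem odd_of_involution (φ : CellAut X) (hφ : φ.perm ^ 2 = 1)
    (hfin : {σ | φ.perm σ = σ}.Finite) : Odd hfin.toFinset.card := by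
  have hτ : ∀ σ, φ.perm (φ.perm σ) = σ := fun σ => by
    have := congrArg (fun e : Equiv.Perm (Cell X) => e σ) hφ
    rw [pow_two] at this
    exact this
  have hDτ : ∀ v, D2 X (tm φ.perm v) = tm φ.perm (D2 X v) := by
    intro v
    induction v using Finsupp.induction_linear with
    | zero => simp
    | add f g hf hg => rw [map_add, map_add, hf, hg, map_add, map_add]
    | single σ c =>
      have h1 : Finsupp.single σ c = c • Finsupp.single σ (1 : ZMod 2) := by
        rw [Finsupp.smul_single, smul_eq_mul, mul_one]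
      rw [h1, map_smul, map_smul, map_smul, map_smul, tm_single, D2_single, D2_single]
      congr 1
      refine Finsupp.ext fun ρ => ?_
      obtain ⟨ρ', rfl⟩ := φ.perm.surjective ρ
      rw [bd2_apply, φ.inc_eq]
      have e1 : tm φ.perm (bd2 X σ) (φ.perm ρ') = bd2 X σ ρ' :=
        Finsupp.mapDomain_apply φ.perm.injective _ _
      rw [e1, bd2_apply]
      have h2 : ∀ u : ℤˣ, ((u : ℤ) : ZMod 2) = 1 := by
        intro u
        rcases Int.units_eq_one_or u with h | h <;> rw [h] <;> decide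
      push_cast
      rw [h2, h2, one_mul, one_mul]
  have hge : ∀ v ∈ ge (dim (X := X)) 1, eps X v = 0 := fun v hv => eps_ge_one X hv
  have h0 : ∀ v, eps X v = 0 → eps X (tm φ.perm v) = 0 := by
    intro v hv
    obtain ⟨w, hw, hw'⟩ := EX X 0 v (by
      rw [Finsupp.mem_supported]; intro σ _; exact Nat.zero_le _) (by
      rw [Finsupp.mem_supported]; intro σ _; exact Nat.zero_le _) hv
    have h1 := eps_ge_one X (tm_ge (dim (X := X)) φ.perm φ.dim_eq hw')
    rw [map_add, map_add, ← hDτ, eps_D2, add_zero] at h1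
    exact h1
  refine odd_fixed (dim (X := X)) X.len (dim_le X) φ.perm hτ φ.dim_eq (D2 X) (D2_D2 X) hDτ ?_
    (eps X) hge (eps_D2 X) ?_ (exists_eps X) (EX X) hfin
  · intro σ ρ h
    rw [D2_single, bd2_apply] at h
    have h1 : inc X σ ρ ≠ 0 := fun h1 => h (by rw [h1]; simp)
    rw [dim_of_inc h1]; omega
  · intro v
    have h01 : ∀ c : ZMod 2, c = 0 ∨ c = 1 := by decide
    rcases h01 (eps X v) with h | h
    · rw [h, h0 v h]
    · rcases h01 (eps X (tm φ.perm v)) with h' | h'
      · have := h0 _ h'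
        rw [tm_tm φ.perm hτ, h] at this
        exact absurd this (by decide)
      · rw [h, h']

/-- The Lefschetz number of an involution with finitely many invariant cells is not zero. -/
theorem lefschetz_ne_zero (φ : CellAut X) (hφ : φ.perm ^ 2 = 1)
    (hfin : {σ | φ.perm σ = σ}.Finite) : φ.lefschetz ≠ 0 := by
  have h := odd_of_involution X φ hφ hfin
  intro h0
  rw [CellAut.lefschetz, finsum_mem_eq_finite_toFinset_sum _ hfin] at h0
  have h1 := congrArg (fun z : ℤ => (z : ZMod 2)) h0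
  have h2 : ∀ σ : Cell X, (((-1) ^ dim σ * (φ.sign σ : ℤ) : ℤ) : ZMod 2) = 1 := by
    intro σ
    have h3 : ((-1 : ℤ) ^ dim σ : ℤ) = 1 ∨ ((-1 : ℤ) ^ dim σ : ℤ) = -1 := neg_one_pow_eq_or ℤ _
    rcases h3 with h3 | h3 <;> rcases Int.units_eq_one_or (φ.sign σ) with h4 | h4 <;>
      rw [h3, h4] <;> decide
  simp only [Int.cast_sum, h2, Finset.sum_const, nsmul_eq_mul, mul_one, Int.cast_zero] at h1
  obtain ⟨k, hk⟩ := h
  rw [hk] at h1
  push_cast at h1
  have h5 : (2 : ZMod 2) = 0 := by decide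
  rw [h5, zero_mul, zero_add] at h1
  exact absurd h1 (by decide)

end Pool.Agent.R778.ZS
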