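import Pool.Agent.H79.LZ.R778_Refl

set_option autoImplicit false
set_option linter.unusedSectionVars false

open scoped InnerProductSpace

namespace Pool.Agent.R778.ZS

open Pool.Agent.H919R4.ZS (FinRes toRed)

variable {G : Type} [Group G] {X : FinRes G}

lemma inc_deck (g : G) (σ ρ : Cell X) : inc X (deck g σ) (deck g ρ) = inc X σ ρ := by
  unfold inc deck
  congr 1
  change (g * σ.1)⁻¹ * (g * ρ.1) = σ.1⁻¹ * ρ.1
  group

lemma adj_deck (g : G) (σ ρ : Cell X) : Adj X (deck g σ) (deck g ρ) ↔ Adj X σ ρ := by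
  unfold Adj
  rw [inc_deck, inc_deck]

lemma deck_deck (g h : G) (σ : Cell X) : deck g (deck h σ) = deck (g * h) σ := by
  unfold deck
  rw [mul_assoc]

lemma deck_one (σ : Cell X) : deck (1 : G) σ = σ := by
  unfold deck
  rw [one_mul]

/-- deck transformations as permutations of the cells -/
def deckE (X : FinRes G) (g : G) : Equiv.Perm (Cell X) where
  toFun := deck g
  invFun := deck g⁻¹
  left_inv σ := by rw [deck_deck, inv_mul_cancel, deck_one]
  right_inv σ := by rw [deck_deck, mul_inv_cancel, deck_one]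

lemma adj_perm (φ : CellAut X) (σ ρ : Cell X) : Adj X (φ.perm σ) (φ.perm ρ) ↔ Adj X σ ρ := by
  unfold Adj
  rw [φ.inc_eq, φ.inc_eq]
  simp

/-- **Involutions.** No condition on Lefschetz numbers. -/
theorem main_involution (φ : CellAut X) (hφ : φ.perm ^ 2 = 1)
    {H : Type} [NormedAddCommGroup H] [InnerProductSpace ℂ H] (f : Cell X → H) (C : ℝ)
    (hf : ∀ σ ρ, inc X σ ρ ≠ 0 → ‖f σ - f ρ‖ ≤ C)
    (hp : ∀ R : ℝ, {σ | ‖f σ - f (φ.perm σ)‖ ≤ R}.Finite) :
    ∃ i ≤ X.len, Nontrivial (X.homology (toRed G) i) := by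
  have hfin : {σ | φ.perm σ = σ}.Finite := by
    refine (hp 0).subset fun σ hσ => ?_
    change ‖f σ - f (φ.perm σ)‖ ≤ 0
    have : φ.perm σ = σ := hσ
    rw [this, sub_self, norm_zero]
  exact main φ 2 two_pos hφ f C hf hp (lefschetz_ne_zero X φ hφ hfin)

section walls

variable {k : ℕ} (W : Fin k → Set (Cell X))
  (hloc : ∀ i σ, {S : Set (Cell X) | (∃ g : G, S = deck g '' W i) ∧ σ ∈ S}.Finite)
  (hfin : {σ | ∀ i, σ ∈ W i}.Finite) (hne : {σ | ∀ i, σ ∈ W i}.Nonempty)

include hloc hfin hne in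
/-- coarse transversality of the walls -/
lemma walls_finite (R : ℕ) : {σ | ∀ i, σ ∈ nbh X (W i) R}.Finite := by
  classical
  let Φ : Cell X → Bas X × (Fin k → Set (Cell X)) := fun σ => (σ.2, fun i => deck σ.1⁻¹ '' W i)
  refine Set.Finite.of_finite_fibers Φ ?_ ?_
  · -- finite image
    let T : Bas X → Fin k → Set (Set (Cell X)) := fun κ i =>
      ⋃ ρ ∈ nbh X {((1, κ) : Cell X)} R, {S : Set (Cell X) | (∃ g : G, S = deck g '' W i) ∧ ρ ∈ S}
    have hT : ∀ κ i, (T κ i).Finite := fun κ i =>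
      (nbh_finite (Set.finite_singleton _) R).biUnion fun ρ _ => hloc i ρ
    have h1 : (⋃ κ : Bas X, {κ} ×ˢ (Set.pi Set.univ (T κ))).Finite :=
      Set.finite_iUnion fun κ => (Set.finite_singleton κ).prod (Set.Finite.pi fun i => hT κ i)
    refine h1.subset ?_
    rintro _ ⟨⟨g, κ⟩, hσ, rfl⟩
    refine Set.mem_iUnion.2 ⟨κ, Set.mem_prod.2 ⟨rfl, Set.mem_univ_pi.2 fun i => ?_⟩⟩
    have h2 : ((g, κ) : Cell X) ∈ nbh X (W i) R := hσ i
    have h3 := (nbh_image (deckE X g⁻¹) (adj_deck g⁻¹) (W i) R (g, κ)).2 h2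
    have h4 : deckE X g⁻¹ (g, κ) = (1, κ) := by
      change ((g⁻¹ * g, κ) : Cell X) = _
      rw [inv_mul_cancel]
    rw [h4] at h3
    obtain ⟨ρ, hρ, h5⟩ := nbh_exists h3
    exact Set.mem_biUnion h5 ⟨⟨g⁻¹, rfl⟩, hρ⟩
  · rintro ⟨κ, V⟩ ⟨σ₀, hσ₀, he⟩
    obtain ⟨ρ₀, hρ₀⟩ := hne
    -- the stabiliser of the walls embeds into the intersection of the walls
    have hstab : {h : G | ∀ i, deck h '' W i = W i}.Finite := by
      refine Set.Finite.of_finite_image (f := fun h => deck h ρ₀) (hfin.subset ?_) ?_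
      · rintro _ ⟨h, hh, rfl⟩ i
        rw [← hh i]
        exact ⟨ρ₀, hρ₀ i, rfl⟩
      · intro h _ h' _ heq
        have : h * ρ₀.1 = h' * ρ₀.1 := congrArg Prod.fst heq
        exact mul_right_cancel this
    refine (hstab.image fun h => ((h⁻¹ * σ₀.1, κ) : Cell X)).subset ?_
    rintro ⟨g, κ'⟩ ⟨-, hg⟩
    have e1 : Φ (g, κ') = (κ, V) := hg
    have e2 := congrArg Prod.fst e1
    have e3 := congrArg Prod.snd e1
    have e4 := congrArg Prod.snd he
    refine ⟨σ₀.1 * g⁻¹, fun i => ?_, ?_⟩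
    · have e5 : deck g⁻¹ '' W i = deck σ₀.1⁻¹ '' W i := by
        have := e3.trans e4.symm
        exact congrFun this i
      have e6 : ∀ (a b : G) (S : Set (Cell X)), deck a '' (deck b '' S) = deck (a * b) '' S := by
        intro a b S
        rw [Set.image_image]
        refine Set.image_congr fun x _ => deck_deck a b x
      rw [← e6, e5, e6, mul_inv_cancel]
      have : (deck (1 : G) : Cell X → Cell X) = id := funext deck_one
      rw [this, Set.image_id]
    · change (((σ₀.1 * g⁻¹)⁻¹ * σ₀.1, κ) : Cell X) = (g, κ')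
      have e7 : κ' = κ := e2
      rw [e7]
      congr 1
      group

end walls

/-- the signed distance from the walls -/
noncomputable def sd {k : ℕ} (r : Fin k → Reflection X) (σ : Cell X) : EuclideanSpace ℂ (Fin k) :=
  WithLp.toLp 2 fun i => (((r i).side σ : ℤ) : ℂ) * (lev X (r i).wall σ : ℂ)

lemma sd_apply {k : ℕ} (r : Fin k → Reflection X) (σ : Cell X) (i : Fin k) :
    sd r σ i = (((r i).side σ : ℤ) : ℂ) * (lev X (r i).wall σ : ℂ) := rfl

theorem main_reflections
    (hconn : ∀ σ ρ : Cell X, Relation.ReflTransGen (Adj X) σ ρ) {k : ℕ}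
    (r : Fin k → Reflection X)
    (hcomm : ∀ i j σ, (r i).perm ((r j).perm σ) = (r j).perm ((r i).perm σ))
    (hside : ∀ i j, i ≠ j → ∀ σ, (r i).side ((r j).perm σ) = (r i).side σ)
    (hloc : ∀ i σ, {S : Set (Cell X) | (∃ g : G, S = deck g '' (r i).wall) ∧ σ ∈ S}.Finite)
    (hfin : {σ | ∀ i, σ ∈ (r i).wall}.Finite) :
    ∃ i ≤ X.len, Nontrivial (X.homology (toRed G) i) := by
  classical
  set φ := prodAut r (List.finRange k) with hφdef
  have hsq : ∀ σ, φ.perm (φ.perm σ) = σ := prodAut_sq r hcomm _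
  have hφ2 : φ.perm ^ 2 = 1 := by
    refine Equiv.ext fun σ => ?_
    rw [pow_two]; exact hsq σ
  have hs : ∀ i σ, (r i).side (φ.perm σ) = -(r i).side σ := by
    intro i σ
    have := prodAut_side r hside (List.finRange k) (List.nodup_finRange k) i σ
    rw [if_pos (List.mem_finRange i)] at this
    exact this
  have hfixsub : {σ | φ.perm σ = σ} ⊆ {σ | ∀ i, σ ∈ (r i).wall} := by
    intro σ hσ i
    have h1 := hs i σ
    have h2 : φ.perm σ = σ := hσ
    rw [h2] at h1
    change (r i).side σ = 0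
    revert h1
    generalize (r i).side σ = s
    revert s
    decide
  have hfix : {σ | φ.perm σ = σ}.Finite := hfin.subset hfixsub
  have hne : {σ | ∀ i, σ ∈ (r i).wall}.Nonempty := by
    have hodd := odd_of_involution X φ hφ2 hfix
    have : hfix.toFinset.Nonempty := by
      rw [Finset.nonempty_iff_ne_empty]
      intro h
      rw [h] at hodd
      simp at hodd
    obtain ⟨σ, hσ⟩ := this
    exact ⟨σ, hfixsub (hfix.mem_toFinset.1 hσ)⟩
  have hWne : ∀ i, (r i).wall.Nonempty := fun i => ⟨hne.some, hne.some_mem i⟩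
  have hWφ : ∀ i, φ.perm '' (r i).wall = (r i).wall := by
    intro i
    ext σ
    constructor
    · rintro ⟨ρ, hρ, rfl⟩
      change (r i).side (φ.perm ρ) = 0
      have : (r i).side ρ = 0 := hρ
      rw [hs, this]; rfl
    · intro h
      refine ⟨φ.perm σ, ?_, hsq σ⟩
      change (r i).side (φ.perm σ) = 0
      have : (r i).side σ = 0 := h
      rw [hs, this]; rfl
  have hodd : ∀ σ, sd r (φ.perm σ) = - sd r σ := by
    intro σ
    refine PiLp.ext fun i => ?_
    rw [PiLp.neg_apply, sd_apply, sd_apply, hs,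
      lev_image φ.perm (adj_perm φ) (hWφ i)]
    have : (((-(r i).side σ : SignType) : ℤ) : ℂ) = -(((r i).side σ : ℤ) : ℂ) := by
      rw [SignType.coe_neg]; push_cast; rfl
    rw [this]; ring
  refine main_involution φ hφ2 (sd r) k ?_ ?_
  · intro σ ρ h
    have h1 : ∀ i, ‖(sd r σ - sd r ρ) i‖ ≤ 1 := by
      intro i
      have hadj : Adj X σ ρ := Or.inl h
      have l1 := lev_adj hconn (hWne i) hadj
      have l2 := lev_adj hconn (hWne i) hadj.symm'
      rw [PiLp.sub_apply, sd_apply, sd_apply]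
      have hsgn : ∀ s : SignType, ‖(((s : ℤ)) : ℂ)‖ ≤ 1 := by
        intro s
        cases s <;> simp
      rcases (r i).side_adj σ ρ h with h0 | h0 | h0
      · rw [lev_of_mem (S := (r i).wall) h0] at l1 ⊢
        rw [h0]
        simp only [SignType.coe_zero, Int.cast_zero, Nat.cast_zero, mul_zero,
          zero_sub, norm_neg, norm_mul]
        have h2 : ‖((lev X (r i).wall ρ : ℕ) : ℂ)‖ ≤ 1 := by
          rw [Complex.norm_natCast]; exact_mod_cast l1
        calc _ ≤ (1 : ℝ) * 1 := mul_le_mul (hsgn _) h2 (norm_nonneg _) zero_le_one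
          _ = 1 := one_mul 1
      · rw [lev_of_mem (S := (r i).wall) h0] at l2 ⊢
        rw [h0]
        simp only [SignType.coe_zero, Int.cast_zero, Nat.cast_zero, mul_zero,
          sub_zero, norm_mul]
        have h2 : ‖((lev X (r i).wall σ : ℕ) : ℂ)‖ ≤ 1 := by
          rw [Complex.norm_natCast]; exact_mod_cast l2
        calc _ ≤ (1 : ℝ) * 1 := mul_le_mul (hsgn _) h2 (norm_nonneg _) zero_le_one
          _ = 1 := one_mul 1
      · rw [h0, ← mul_sub, norm_mul]
        have h2 : ‖((lev X (r i).wall σ : ℕ) : ℂ) - ((lev X (r i).wall ρ : ℕ) : ℂ)‖ ≤ 1 := by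
          have e : ((lev X (r i).wall σ : ℕ) : ℂ) - ((lev X (r i).wall ρ : ℕ) : ℂ) =
              (((lev X (r i).wall σ : ℝ) - (lev X (r i).wall ρ : ℝ) : ℝ) : ℂ) := by push_cast; rfl
          rw [e, Complex.norm_real, Real.norm_eq_abs, abs_le]
          have l1' : (lev X (r i).wall ρ : ℝ) ≤ lev X (r i).wall σ + 1 := by exact_mod_cast l1
          have l2' : (lev X (r i).wall σ : ℝ) ≤ lev X (r i).wall ρ + 1 := by exact_mod_cast l2
          constructor <;> linarith
        calc _ ≤ (1 : ℝ) * 1 := mul_le_mul (hsgn _) h2 (norm_nonneg _) zero_le_one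
          _ = 1 := one_mul 1
    have h2 : ‖sd r σ - sd r ρ‖ ^ 2 ≤ (k : ℝ) ^ 2 := by
      rw [EuclideanSpace.norm_sq_eq]
      calc ∑ i, ‖(sd r σ - sd r ρ) i‖ ^ 2 ≤ ∑ i : Fin k, (1 : ℝ) :=
            Finset.sum_le_sum fun i _ => pow_le_one₀ (norm_nonneg _) (h1 i)
        _ = k := by simp
        _ ≤ (k : ℝ) ^ 2 := by
          rcases Nat.eq_zero_or_pos k with h | h
          · subst h; simp
          · have : (1 : ℝ) ≤ k := by exact_mod_cast h
            nlinarith
    exact (sq_le_sq₀ (norm_nonneg _) (by positivity)).1 h2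
  · intro R
    refine (walls_finite (fun i => (r i).wall) hloc hfin hne ⌊R⌋₊).subset fun σ hσ i => ?_
    have h1 : ‖sd r σ - sd r (φ.perm σ)‖ ≤ R := hσ
    rw [hodd, sub_neg_eq_add, ← two_smul ℂ, norm_smul] at h1
    have h2 : ‖(2 : ℂ)‖ = 2 := by simp
    rw [h2] at h1
    have h3 := PiLp.norm_apply_le (sd r σ) i
    rw [sd_apply, norm_mul, Complex.norm_natCast] at h3
    have hR : 0 ≤ R := (by positivity : (0 : ℝ) ≤ 2 * ‖sd r σ‖).trans h1
    by_cases h0 : (r i).side σ = 0
    · exact nbh_mono _ (Nat.zero_le _) h0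
    · have h4 : ‖((((r i).side σ : SignType) : ℤ) : ℂ)‖ = 1 := by
        revert h0
        generalize (r i).side σ = s
        intro h0
        cases s
        · exact absurd rfl h0
        · simp
        · simp
      rw [h4, one_mul] at h3
      have h5 : (lev X (r i).wall σ : ℝ) ≤ R := by
        have := norm_nonneg (sd r σ)
        linarith
      exact nbh_mono _ (Nat.le_floor h5) (mem_nbh_lev hconn (hWne i) σ)

end Pool.Agent.R778.ZS
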