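import Pool.Agent.H79.LZ.H919R4_ZS_Defs

/-!
Cells of the universal cover of a finite aspherical complex, incidence numbers, and cellular
automorphisms of the universal cover.

A finite aspherical complex `M` with fundamental group `G` enters through the cellular chain
complex of its universal cover, a finite free resolution `X : FinRes G` of the trivial
`ℤ[G]`-module `ℤ` with chosen bases.
-/

set_option autoImplicit false

namespace Pool.Agent.R778.ZS

open Pool.Agent.H919R4.ZS (FinRes)

variable {G : Type} [Group G]

/-- The cells of `M`: pairs `(i, j)`, where `i ≤ dim M` is the dimension and `j` is the number of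
the cell among the `X.n i` cells of dimension `i`. -/
abbrev Bas (X : FinRes G) : Type := Σ i : Fin (X.len + 1), Fin (X.n i)

/-- The matrix over `ℤ[G]` of the boundary map of `X` in the basis of all cells: the boundary of
the basis element `κ` is `∑_κ', bmat X κ κ' • κ'`. -/
noncomputable def bmat (X : FinRes G) (κ κ' : Bas X) : MonoidAlgebra ℤ G :=
  if h : (κ.1 : ℕ) = κ'.1 + 1 then X.d κ'.1 (Fin.cast (congrArg X.n h) κ.2) κ'.2 else 0

/-- The cells of the universal cover of `M`: the pair `(g, κ)` is the translate by `g` of the
chosen lift of the cell `κ` of `M`. -/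
abbrev Cell (X : FinRes G) : Type := G × Bas X

/-- The dimension of a cell of the universal cover. -/
def dim {X : FinRes G} (σ : Cell X) : ℕ := σ.2.1

/-- The incidence number `[σ : ρ]`: the coefficient of the cell `ρ` in the cellular boundary of
the cell `σ` of the universal cover (it is `0` unless `dim σ = dim ρ + 1`). -/
noncomputable def inc (X : FinRes G) (σ ρ : Cell X) : ℤ :=
  (bmat X σ.2 ρ.2).coeff (σ.1⁻¹ * ρ.1)

/-- A cellular automorphism of the universal cover of `M` (it need not commute with the deck
transformations): a permutation `perm` of the cells which preserves dimensions, such that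
`σ ↦ sign σ • perm σ`, with signs `sign σ = ±1`, commutes with the boundary. -/
structure CellAut (X : FinRes G) where
  /-- the permutation of the cells -/
  perm : Equiv.Perm (Cell X)
  /-- `+1` if the map `σ → perm σ` preserves the orientations, `-1` if it reverses them -/
  sign : Cell X → ℤˣ
  /-- dimensions are preserved -/
  dim_eq : ∀ σ, dim (perm σ) = dim σ
  /-- incidence numbers are preserved, up to the signs -/
  inc_eq : ∀ σ ρ, inc X (perm σ) (perm ρ) = sign σ * sign ρ * inc X σ ρ

/-- The Lefschetz number of a cellular automorphism `φ` with finitely many invariant cells: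
`∑ (-1)^(dim σ) * sign σ`, the sum over all cells `σ` with `φ(σ) = σ`. -/
noncomputable def CellAut.lefschetz {X : FinRes G} (φ : CellAut X) : ℤ :=
  ∑ᶠ σ ∈ {σ | φ.perm σ = σ}, (-1) ^ dim σ * (φ.sign σ : ℤ)

end Pool.Agent.R778.ZS
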