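import Pool.Agent.H79.LZ.TH38_ZT_Final
import Pool.Agent.H79.LZ.H919R4_ZS_Final

/-!
Finite free resolutions for a group and for a quotient by an amenable normal subgroup: comparison of
the homology with coefficients in the reduced group C*-algebras.
-/

set_option autoImplicit false
set_option linter.unusedSectionVars false

open scoped Matrix

namespace Pool.Agent.R807.ZK

open Pool.Agent.H919R4.ZS MonoidAlgebra Pool.Agent.TH38.ZT
open Pool.Agent.H496R3.ZS (IsAmenable)

/-- the ring homomorphism of the integral group rings induced by a homomorphism of groups -/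
noncomputable def gmap {G Q : Type} [Group G] [Group Q] (f : G →* Q) :
    MonoidAlgebra ℤ G →+* MonoidAlgebra ℤ Q := mapDomainRingHom ℤ f

section

variable {G Q : Type} [Group G] [Group Q]

lemma gmap_single (f : G →* Q) (g : G) (c : ℤ) : gmap f (single g c) = single (f g) c := by
  rw [gmap, mapDomainRingHom_apply, mapDomain_single]

lemma augm_gmap (f : G →* Q) (r : MonoidAlgebra ℤ G) : augm Q (gmap f r) = augm G r := by
  refine induction_linear r ?_ ?_ ?_
  · rw [map_zero, map_zero, map_zero]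
  · intro x y hx hy
    rw [map_add, map_add, map_add, hx, hy]
  · intro g c
    rw [gmap_single, augm_single, augm_single]

lemma gmap_comp {P : Type} [Group P] (f : G →* Q) (s : P →* G) :
    (gmap f).comp (gmap s) = gmap (f.comp s) := by
  refine hom_ext_single fun g => ?_
  rw [RingHom.comp_apply, gmap_single, gmap_single, gmap_single]
  rfl

lemma gmap_id : gmap (MonoidHom.id G) = RingHom.id (MonoidAlgebra ℤ G) := by
  refine hom_ext_single fun g => ?_
  rw [gmap_single]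
  rfl

lemma gmap_surj (f : G →* Q) (hf : Function.Surjective f) : Function.Surjective (gmap f) := by
  intro r
  refine induction_linear r ?_ ?_ ?_
  · exact ⟨0, map_zero _⟩
  · rintro x y ⟨x', rfl⟩ ⟨y', rfl⟩
    exact ⟨x' + y', map_add _ _ _⟩
  · intro q c
    obtain ⟨g, rfl⟩ := hf q
    exact ⟨single g c, gmap_single f g c⟩

/-- the condition used to continue a chain map -/
def Gd (X : FinRes G) (Y : FinRes Q) (π : MonoidAlgebra ℤ G →+* MonoidAlgebra ℤ Q) :
    ∀ i, Matrix (Fin (X.n i)) (Fin (Y.n i)) (MonoidAlgebra ℤ Q) → Prop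
  | 0 => fun F => ∀ k, eps Y (F k) = X.aug k
  | i + 1 => fun F => (X.d (i + 1)).map π * F * Y.d i = 0

lemma eps_row (X : FinRes G) (k : Fin (X.n 1)) :
    ∑ j, augm G (X.d 0 k j) * X.aug j = 0 := by
  have h1 := eps_d X (Pi.single k 1)
  rwa [Matrix.single_one_vecMul] at h1

lemma dmap (X : FinRes G) (π : MonoidAlgebra ℤ G →+* MonoidAlgebra ℤ Q) (i : ℕ) :
    (X.d (i + 1)).map π * (X.d i).map π = 0 := by
  rw [← Matrix.map_mul, d_mul_d]; ext; simp

/-- chain maps along a ring homomorphism which respects the augmentations -/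
theorem fwd (X : FinRes G) (Y : FinRes Q) (π : MonoidAlgebra ℤ G →+* MonoidAlgebra ℤ Q)
    (hπ : ∀ a, augm Q (π a) = augm G a) :
    ∃ E : ∀ i, Matrix (Fin (X.n i)) (Fin (Y.n i)) (MonoidAlgebra ℤ Q),
      (∀ k, eps Y (E 0 k) = X.aug k) ∧ ∀ i, (X.d i).map π * E i = E (i + 1) * Y.d i := by
  obtain ⟨x0, hx0⟩ := Y.surj
  change eps Y x0 = 1 at hx0
  obtain ⟨f, hf0, hf⟩ := dep_seq
    (α := fun i => {F : Matrix (Fin (X.n i)) (Fin (Y.n i)) (MonoidAlgebra ℤ Q) // Gd X Y π i F})
    (fun i F F' => (X.d i).map π * F.1 = F'.1 * Y.d i)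
    ⟨fun k => X.aug k • x0, fun k => by
      rw [eps_zsmul, hx0, mul_one]⟩ (by
      rintro i ⟨F, hF⟩
      obtain ⟨F', hF'⟩ : ∃ s : Matrix (Fin (X.n (i + 1))) (Fin (Y.n (i + 1))) (MonoidAlgebra ℤ Q),
          s * Y.d i = (X.d i).map π * F := by
        cases i with
        | zero =>
          refine zrows_zero Y _ fun k => ?_
          rw [Matrix.mul_apply_eq_vecMul, eps_vecMul]
          have h1 := eps_row X k
          rw [← h1]
          refine Finset.sum_congr rfl fun j _ => ?_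
          rw [hF j, Matrix.map_apply, hπ]
        | succ i => exact zrows_succ Y i _ hF
      refine ⟨⟨F', ?_⟩, hF'.symm⟩
      change (X.d (i + 1)).map π * F' * Y.d i = 0
      rw [Matrix.mul_assoc, hF', ← Matrix.mul_assoc, dmap, Matrix.zero_mul])
  refine ⟨fun i => (f i).1, ?_, hf⟩
  exact (f 0).2

/-- chain maps back of nonzero degree, up to degree `p` -/
def Back (X : FinRes G) (Y : FinRes Q) (π : MonoidAlgebra ℤ G →+* MonoidAlgebra ℤ Q) (p : ℕ) :
    Prop := ∃ c : ℤ, c ≠ 0 ∧ ∃ F : ∀ i, Matrix (Fin (Y.n i)) (Fin (X.n i)) (MonoidAlgebra ℤ Q),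
      (∀ k, ∑ j, augm Q (F 0 k j) * X.aug j = c * Y.aug k) ∧
        ∀ i < p, Y.d i * F i = F (i + 1) * (X.d i).map π

/-- from a section -/
theorem back_section (X : FinRes G) (Y : FinRes Q) (f : G →* Q) (s : Q →* G)
    (hs : f.comp s = MonoidHom.id Q) (p : ℕ) : Back X Y (gmap f) p := by
  obtain ⟨F, hF0, hF⟩ := fwd Y X (gmap s) (augm_gmap s)
  refine ⟨1, one_ne_zero, fun i => (F i).map (gmap f), fun k => ?_, fun i _ => ?_⟩
  · rw [one_mul, ← hF0 k, eps]
    refine Finset.sum_congr rfl fun j _ => ?_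
    change augm Q (gmap f (F 0 k j)) * X.aug j = augm G (F 0 k j) * X.aug j
    rw [augm_gmap]
  · have h1 := congrArg (fun M => Matrix.map M (gmap f)) (hF i)
    have m : ∀ {a b c : ℕ} (M : Matrix (Fin a) (Fin b) (MonoidAlgebra ℤ G))
        (N : Matrix (Fin b) (Fin c) (MonoidAlgebra ℤ G)),
        (M * N).map (gmap f) = M.map (gmap f) * N.map (gmap f) := fun M N => Matrix.map_mul
    simp only [m] at h1
    have h2 : ((Y.d i).map (gmap s)).map (gmap f) = Y.d i := by
      refine Matrix.ext fun a b => ?_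
      simp only [Matrix.map_apply]
      have h3 : (gmap f).comp (gmap s) = RingHom.id _ := by rw [gmap_comp, hs, gmap_id]
      exact DFunLike.congr_fun h3 _
    rw [h2] at h1
    exact h1

/-- cycles are boundaries up to multiples -/
def TorAt (X : FinRes G) (π : MonoidAlgebra ℤ G →+* MonoidAlgebra ℤ Q) (q : ℕ) : Prop :=
  ∀ x : Fin (X.n (q + 1)) → MonoidAlgebra ℤ Q, x ᵥ* (X.d q).map π = 0 →
    ∃ c : ℤ, c ≠ 0 ∧ ∃ y, y ᵥ* (X.d (q + 1)).map π = c • x

lemma tor_rows {X : FinRes G} {π : MonoidAlgebra ℤ G →+* MonoidAlgebra ℤ Q} {q : ℕ}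
    (h : TorAt X π q) {a : ℕ} (M : Matrix (Fin a) (Fin (X.n (q + 1))) (MonoidAlgebra ℤ Q))
    (hM : M * (X.d q).map π = 0) :
    ∃ c : ℤ, c ≠ 0 ∧ ∃ s : Matrix (Fin a) (Fin (X.n (q + 1 + 1))) (MonoidAlgebra ℤ Q),
      s * (X.d (q + 1)).map π = c • M := by
  have h1 : ∀ k, ∃ c : ℤ, c ≠ 0 ∧ ∃ y, y ᵥ* (X.d (q + 1)).map π = c • M k := fun k =>
    h (M k) (by rw [← Matrix.mul_apply_eq_vecMul, hM]; rfl)
  choose c hc y hy using h1
  refine ⟨∏ k, c k, Finset.prod_ne_zero_iff.2 fun k _ => hc k, ?_⟩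
  refine exists_rows _ _ fun k => ⟨(∏ l ∈ Finset.univ.erase k, c l) • y k, ?_⟩
  rw [Matrix.smul_vecMul, hy, smul_smul, Finset.prod_erase_mul _ _ (Finset.mem_univ k)]
  rfl

/-- from the vanishing of the rational homology of the kernel -/
theorem back_acyclic (X : FinRes G) (Y : FinRes Q) (f : G →* Q) (hf : Function.Surjective f)
    (p : ℕ) (hX : ∀ q, q + 1 < p → TorAt X (gmap f) q) : Back X Y (gmap f) p := by
  obtain ⟨x0, hx0⟩ := X.surj
  have hz : ∀ (x : Fin (X.n 0) → MonoidAlgebra ℤ Q), ∑ j, augm Q (x j) * X.aug j = 0 →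
      ∃ y, y ᵥ* (X.d 0).map (gmap f) = x := by
    intro x hx
    choose x' hx' using fun j => gmap_surj f hf (x j)
    have h1 : ∑ j, augm G (x' j) * X.aug j = 0 := by
      rw [← hx]
      refine Finset.sum_congr rfl fun j _ => ?_
      rw [← hx' j, augm_gmap]
    obtain ⟨y, hy⟩ := (X.exact_zero x').1 h1
    refine ⟨fun k => gmap f (y k), ?_⟩
    funext j
    rw [← hx' j, ← hy]
    simp [Matrix.vecMul, dotProduct, map_sum]
  induction p with
  | zero =>
    refine ⟨1, one_ne_zero, Function.update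
      (fun i => (0 : Matrix (Fin (Y.n i)) (Fin (X.n i)) (MonoidAlgebra ℤ Q))) 0
      (Matrix.of fun k j => Y.aug k • gmap f (x0 j)),
      fun k => ?_, fun i hi => absurd hi (Nat.not_lt_zero i)⟩
    rw [Function.update_self, one_mul]
    have h1 : ∀ j, augm Q (Y.aug k • gmap f (x0 j)) * X.aug j =
        Y.aug k * (augm G (x0 j) * X.aug j) := by
      intro j
      rw [map_zsmul, augm_gmap, smul_eq_mul]
      ring
    refine (Finset.sum_congr rfl fun j _ => h1 j).trans ?_
    rw [← Finset.mul_sum, hx0, mul_one]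
  | succ p ih =>
    obtain ⟨c, hc, F, hF0, hF⟩ := ih fun q hq => hX q (by omega)
    obtain ⟨c', hc', M, hM⟩ : ∃ c' : ℤ, c' ≠ 0 ∧
        ∃ s : Matrix (Fin (Y.n (p + 1))) (Fin (X.n (p + 1))) (MonoidAlgebra ℤ Q),
          s * (X.d p).map (gmap f) = c' • (Y.d p * F p) := by
      cases p with
      | zero =>
        refine ⟨1, one_ne_zero, ?_⟩
        rw [one_smul]
        refine exists_rows _ _ fun k => hz _ ?_
        have h3 : ∀ j, augm Q ((Y.d 0 * F 0) k j) =
            ∑ l, augm Q (Y.d 0 k l) * augm Q (F 0 l j) := by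
          intro j
          rw [Matrix.mul_apply, map_sum]
          exact Finset.sum_congr rfl fun l _ => map_mul _ _ _
        calc ∑ j, augm Q ((Y.d 0 * F 0) k j) * X.aug j
            = ∑ j, ∑ l, augm Q (Y.d 0 k l) * (augm Q (F 0 l j) * X.aug j) := by
              refine Finset.sum_congr rfl fun j _ => ?_
              rw [h3, Finset.sum_mul]
              exact Finset.sum_congr rfl fun l _ => by ring
          _ = ∑ l, augm Q (Y.d 0 k l) * ∑ j, augm Q (F 0 l j) * X.aug j := by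
              rw [Finset.sum_comm]
              exact Finset.sum_congr rfl fun l _ => by rw [Finset.mul_sum]
          _ = ∑ l, c * (augm Q (Y.d 0 k l) * Y.aug l) :=
              Finset.sum_congr rfl fun l _ => by rw [hF0 l]; ring
          _ = 0 := by rw [← Finset.mul_sum, eps_row Y k, mul_zero]
      | succ p =>
        refine tor_rows (hX p (by omega)) _ ?_
        rw [Matrix.mul_assoc, ← hF p (Nat.lt_succ_self p), ← Matrix.mul_assoc, d_mul_d,
          Matrix.zero_mul]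
    refine ⟨c' * c, mul_ne_zero hc' hc, Function.update (fun i => c' • F i) (p + 1) M, ?_, ?_⟩
    · intro k
      rw [Function.update_of_ne (by omega)]
      have h1 : ∀ j, augm Q ((c' • F 0) k j) * X.aug j = c' * (augm Q (F 0 k j) * X.aug j) := by
        intro j
        change augm Q (c' • F 0 k j) * X.aug j = _
        rw [map_zsmul, smul_eq_mul]
        ring
      refine (Finset.sum_congr rfl fun j _ => h1 j).trans ?_
      rw [← Finset.mul_sum, hF0, mul_assoc]
    · intro i hi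
      rw [Function.update_of_ne (by omega)]
      rcases Nat.lt_succ_iff_lt_or_eq.1 hi with h | rfl
      · rw [Function.update_of_ne (by omega), Matrix.mul_smul, hF i h, Matrix.smul_mul]
      · rw [Function.update_self, Matrix.mul_smul, hM]

/-- a chain endomorphism over the multiplication by `c` on `ℤ` is homotopic to the multiplication by
`c`, up to degree `p` -/
theorem homotopy (Y : FinRes Q) (p : ℕ) (c : ℤ)
    (P : ∀ i, Matrix (Fin (Y.n i)) (Fin (Y.n i)) (MonoidAlgebra ℤ Q))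
    (hP0 : ∀ k, eps Y (P 0 k) = c * Y.aug k) (hP : ∀ i < p, Y.d i * P i = P (i + 1) * Y.d i) :
    ∃ h : ∀ i, Matrix (Fin (Y.n i)) (Fin (Y.n (i + 1))) (MonoidAlgebra ℤ Q),
      P 0 - c • 1 = h 0 * Y.d 0 ∧
        ∀ i < p, P (i + 1) - c • 1 = Y.d i * h i + h (i + 1) * Y.d (i + 1) := by
  obtain ⟨h0, hh0⟩ := zrows_zero Y (P 0 - c • 1) (fun k => by
    have h1 : (P 0 - c • 1 : Matrix (Fin (Y.n 0)) (Fin (Y.n 0)) (MonoidAlgebra ℤ Q)) k =
        P 0 k - c • Pi.single k 1 := by
      funext j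
      rw [Matrix.sub_apply, Pi.sub_apply, Matrix.smul_apply, Matrix.one_apply, Pi.smul_apply,
        Pi.single_apply]
      by_cases hjk : k = j
      · subst hjk; simp
      · rw [if_neg hjk, if_neg (fun e => hjk e.symm)]
    rw [h1, eps_sub, eps_zsmul, eps_single, hP0, sub_self])
  obtain ⟨f, hf0, hf⟩ := dep_seq
    (α := fun i => {h : Matrix (Fin (Y.n i)) (Fin (Y.n (i + 1))) (MonoidAlgebra ℤ Q) //
      i < p → Y.d i * (P i - c • 1 - h * Y.d i) = 0})
    (fun i h h' => i < p → P (i + 1) - c • 1 = Y.d i * h.1 + h'.1 * Y.d (i + 1))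
    ⟨h0, fun _ => by rw [hh0, sub_self, Matrix.mul_zero]⟩ (by
      rintro i ⟨h, hh⟩
      by_cases hi : i < p
      · obtain ⟨h', hh'⟩ := zrows_succ Y i (P (i + 1) - c • 1 - Y.d i * h) (by
          have hh2 := hh hi
          rw [Matrix.sub_mul, Matrix.sub_mul, ← hP i hi, Matrix.smul_mul, Matrix.one_mul,
            Matrix.mul_assoc]
          rw [Matrix.mul_sub, Matrix.mul_sub, Matrix.mul_smul, Matrix.mul_one] at hh2
          exact hh2)
        refine ⟨⟨h', fun _ => ?_⟩, fun _ => ?_⟩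
        · rw [hh', sub_sub_cancel, ← Matrix.mul_assoc, d_mul_d, Matrix.zero_mul]
        · change P (i + 1) - c • 1 = Y.d i * h + h' * Y.d (i + 1)
          rw [hh', add_sub_cancel]
      · exact ⟨⟨0, fun h => absurd h (by omega)⟩, fun h => absurd h hi⟩)
  refine ⟨fun i => (f i).1, ?_, hf⟩
  change P 0 - c • 1 = (f 0).1 * Y.d 0
  rw [hf0]
  exact hh0.symm

lemma map_smul_one {S : Type*} [Ring S] (ψ : MonoidAlgebra ℤ Q →+* S) (c : ℤ) {a : ℕ} :
    (c • (1 : Matrix (Fin a) (Fin a) (MonoidAlgebra ℤ Q))).map ψ = c • 1 := by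
  have h : (c • (1 : Matrix (Fin a) (Fin a) (MonoidAlgebra ℤ Q))).map ψ =
      c • ((1 : Matrix (Fin a) (Fin a) (MonoidAlgebra ℤ Q)).map ψ) := by
    refine Matrix.ext fun i j => ?_
    change ψ (c • _) = c • ψ _
    rw [map_zsmul]
  rw [h, map_one_mat]

/-- acyclicity in degree `p` descends -/
theorem descend {S : Type*} [Ring S] (hS : ∀ c : ℤ, c ≠ 0 → ∃ u : S, u * (c : S) = 1)
    (X : FinRes G) (Y : FinRes Q)
    (π : MonoidAlgebra ℤ G →+* MonoidAlgebra ℤ Q) (hπ : ∀ a, augm Q (π a) = augm G a)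
    (ψ : MonoidAlgebra ℤ Q →+* S) (p : ℕ) (hB : Back X Y π p) (h : ExAt X (ψ.comp π) p) :
    ExAt Y ψ p := by
  obtain ⟨c, hc, K, hK0, hK⟩ := hB
  obtain ⟨u, hu⟩ := hS c hc
  obtain ⟨F, hF0, hF⟩ := fwd X Y π hπ
  obtain ⟨H, hH0, hH⟩ := homotopy Y p c (fun i => K i * F i) (by
      intro k
      rw [Matrix.mul_apply_eq_vecMul, eps_vecMul, ← hK0 k]
      exact Finset.sum_congr rfl fun j _ => by rw [hF0 j]) (by
      intro i hi
      rw [← Matrix.mul_assoc, hK i hi, Matrix.mul_assoc, hF, ← Matrix.mul_assoc])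
  have m : ∀ {a b c : ℕ} (M : Matrix (Fin a) (Fin b) (MonoidAlgebra ℤ Q))
      (N : Matrix (Fin b) (Fin c) (MonoidAlgebra ℤ Q)), (M * N).map ψ = M.map ψ * N.map ψ :=
    fun M N => Matrix.map_mul
  have mm : ∀ {a b : ℕ} (M : Matrix (Fin a) (Fin b) (MonoidAlgebra ℤ G)),
      M.map (ψ.comp π) = (M.map π).map ψ := fun M => rfl
  have cc : ∀ {a b : ℕ} (x : Fin b → S) (z : Fin a → S) (D : Matrix (Fin a) (Fin b) S),
      z ᵥ* D = x ᵥ* (c • (1 : Matrix (Fin b) (Fin b) S)) → (u • z) ᵥ* D = x := by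
    intro a b x z D hz
    rw [Matrix.smul_vecMul, hz]
    have h1 : x ᵥ* (c • (1 : Matrix (Fin b) (Fin b) S)) = (c : S) • x := by
      rw [Matrix.vecMul_smul, Matrix.vecMul_one]
      funext j
      rw [Pi.smul_apply, Pi.smul_apply, smul_eq_mul, zsmul_eq_mul]
    rw [h1, smul_smul, hu, one_smul]
  cases p with
  | zero =>
    intro x
    obtain ⟨y, hy⟩ := h (x ᵥ* (K 0).map ψ)
    refine ⟨u • (y ᵥ* (F 1).map ψ - x ᵥ* (H 0).map ψ), cc _ _ _ ?_⟩
    have e1 : (K 0).map ψ * (F 0).map ψ - c • 1 = (H 0).map ψ * (Y.d 0).map ψ := by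
      have := congrArg (fun M => Matrix.map M ψ) hH0
      rw [Matrix.map_sub _ (map_sub ψ), map_smul_one, m, m] at this
      exact this
    have e2 : ((X.d 0).map π).map ψ * (F 0).map ψ = (F 1).map ψ * (Y.d 0).map ψ := by
      rw [← m, ← m, hF]
    rw [mm] at hy
    rw [Matrix.sub_vecMul, Matrix.vecMul_vecMul, Matrix.vecMul_vecMul, ← e1, ← e2,
      ← Matrix.vecMul_vecMul, hy, Matrix.vecMul_sub, Matrix.vecMul_vecMul]
    abel
  | succ i =>
    intro x hx
    have e0 : (Y.d i).map ψ * (K i).map ψ = (K (i + 1)).map ψ * ((X.d i).map π).map ψ := by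
      rw [← m, ← m, hK i (Nat.lt_succ_self i)]
    obtain ⟨y, hy⟩ := h (x ᵥ* (K (i + 1)).map ψ) (by
      rw [mm, Matrix.vecMul_vecMul, ← e0, ← Matrix.vecMul_vecMul, hx, Matrix.zero_vecMul])
    rw [mm] at hy
    refine ⟨u • (y ᵥ* (F (i + 2)).map ψ - x ᵥ* (H (i + 1)).map ψ), cc _ _ _ ?_⟩
    have e1 : (K (i + 1)).map ψ * (F (i + 1)).map ψ - c • 1 =
        (Y.d i).map ψ * (H i).map ψ + (H (i + 1)).map ψ * (Y.d (i + 1)).map ψ := by
      have := congrArg (fun M => Matrix.map M ψ) (hH i (Nat.lt_succ_self i))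
      rw [Matrix.map_sub _ (map_sub ψ), map_smul_one, Matrix.map_add _ (map_add ψ), m, m, m] at this
      exact this
    have e2 : ((X.d (i + 1)).map π).map ψ * (F (i + 1)).map ψ =
        (F (i + 2)).map ψ * (Y.d (i + 1)).map ψ := by
      rw [← m, ← m, hF]
    have e3 : x ᵥ* ((H (i + 1)).map ψ * (Y.d (i + 1)).map ψ) =
        x ᵥ* ((K (i + 1)).map ψ * (F (i + 1)).map ψ) - x ᵥ* (c • 1) := by
      have h4 : x ᵥ* ((K (i + 1)).map ψ * (F (i + 1)).map ψ - c • 1) =
          x ᵥ* ((Y.d i).map ψ * (H i).map ψ + (H (i + 1)).map ψ * (Y.d (i + 1)).map ψ) := by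
        rw [e1]
      rw [Matrix.vecMul_sub, Matrix.vecMul_add,
        ← Matrix.vecMul_vecMul x ((Y.d i).map ψ), hx, Matrix.zero_vecMul, zero_add] at h4
      exact h4.symm
    rw [Matrix.sub_vecMul, Matrix.vecMul_vecMul, Matrix.vecMul_vecMul, e3, ← e2,
      ← Matrix.vecMul_vecMul, hy, Matrix.vecMul_vecMul]
    abel

/-- nonzero integers are invertible in `C*_r(G)` -/
lemma redC_inv (G : Type) [Group G] (c : ℤ) (hc : c ≠ 0) : ∃ u : RedC G, u * (c : RedC G) = 1 := by
  have hm : ((c : ℂ)⁻¹ • lreg (1 : G) : Op G) ∈ redCstar G :=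
    Subring.le_topologicalClosure _ (Subring.subset_closure ⟨_, _, rfl⟩)
  refine ⟨⟨_, hm⟩, Subtype.ext ?_⟩
  have h1 : ((c : RedC G) : redCstar G).1 = (c : Op G) := rfl
  have h2 : (1 : Op G) = lreg (1 : G) := (map_one (lregHom G)).symm
  have hc' : (c : ℂ) ≠ 0 := by exact_mod_cast hc
  change ((c : ℂ)⁻¹ • lreg (1 : G) : Op G) * (c : Op G) = 1
  have h3 : (c : Op G) = (c : ℂ) • (1 : Op G) := by
    rw [← zsmul_one, Int.cast_smul_eq_zsmul]
  rw [h3, ← h2, smul_mul_smul_comm, one_mul, inv_mul_cancel₀ hc', one_smul]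

end

section

variable {G : Type} [Group G] (N : Subgroup G) [N.Normal]

/-- the homomorphism `ℤ[G] → C*_r(G/N)` -/
noncomputable def toQuot : MonoidAlgebra ℤ G →+* RedC (G ⧸ N) :=
  (toRed (G ⧸ N)).comp (gmap (QuotientGroup.mk' N))

/-- amenable kernels: change of the coefficients -/
theorem coeff (hN : IsAmenable N) (X : FinRes G) (p : ℕ) (h : ∀ i ≤ p, ExAt X (toRed G) i) :
    ∀ i ≤ p, ExAt X (toQuot N) i := by
  obtain ⟨T, hT⟩ := exists_red hN (fun _ : G => 1) (fun _ => by norm_num) (fun _ _ => by norm_num)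
  have e0 : T.comp (toRed G) = toQuot N := by
    refine hom_ext_single fun g => ?_
    rw [RingHom.comp_apply, hT, one_smul, toQuot, RingHom.comp_apply, gmap_single]
    rfl
  have := ex_comp X (toRed G) T p h
  rwa [e0] at this

/-- the conclusion for the quotient -/
theorem quot (hN : IsAmenable N) (X : FinRes G) (Y : FinRes (G ⧸ N)) (p : ℕ)
    (hB : Back X Y (gmap (QuotientGroup.mk' N)) p)
    (h : ∀ i ≤ p, ExAt X (toRed G) i) : ExAt Y (toRed (G ⧸ N)) p :=
  descend (redC_inv (G ⧸ N)) X Y (gmap (QuotientGroup.mk' N)) (augm_gmap _) (toRed (G ⧸ N)) p hB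
    (coeff N hN X p h p le_rfl)

end

end Pool.Agent.R807.ZK
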