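import Pool.Agent.H79.LZ.TH38_ZT_Wall

/-!
The Gysin argument: exactness for `G` after two changes of rings trivial on `z` gives exactness
for `G/⟨z⟩`.
-/

set_option autoImplicit false
set_option linter.unusedSectionVars false

open scoped Matrix

namespace Pool.Agent.TH38.ZT

open Pool.Agent.H919R4.ZS MonoidAlgebra

noncomputable section

variable {G : Type} [Group G] {z : G} [(Subgroup.zpowers z).Normal]
  {Y : FinRes (G ⧸ Subgroup.zpowers z)} {A : Type*} [Ring A]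

lemma map_DD (ψ : MonoidAlgebra ℤ G →+* A) (h1 : ψ (single z 1) = 1) (a : ℕ) :
    (DD z a).map ψ = 0 := by
  ext i j
  change ψ (Matrix.diagonal (fun _ => tt z) i j) = 0
  by_cases h : i = j
  · subst h
    rw [Matrix.diagonal_apply_eq, tt, map_sub, map_one, h1, sub_self]
  · rw [Matrix.diagonal_apply_ne _ h, map_zero]

lemma map_E' (hz : ¬ IsOfFinOrder z) (L : Lift z Y) (ψ ψ' : MonoidAlgebra ℤ G →+* A)
    (h1 : ψ (single z 1) = 1) (htw : ∀ g, ψ' (single g 1) = sgn z g • ψ (single g 1)) (i : ℕ) :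
    (L.E' i).map ψ = (L.E i).map ψ' := by
  ext k j
  refine tw_val z hz ψ ψ' h1 htw ?_
  have := congrFun (congrFun (L.hE' i) k) j
  rw [DD, DD, Matrix.mul_diagonal, Matrix.diagonal_mul] at this
  exact this

/-- vanishing of the homology of `A ⊗ Y` in degree `i` -/
def ZeroAt (L : Lift z Y) (χ : MonoidAlgebra ℤ G →+* A) : ℕ → Prop
  | 0 => ∀ x : Fin (Y.n 0) → A, ∃ y, y ᵥ* (L.E 0).map χ = x
  | i + 1 => ∀ x : Fin (Y.n (i + 1)) → A, x ᵥ* (L.E i).map χ = 0 →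
      ∃ y, y ᵥ* (L.E (i + 1)).map χ = x

lemma up0 (hz : ¬ IsOfFinOrder z) (L : Lift z Y) (ψ : MonoidAlgebra ℤ G →+* A)
    (h1 : ψ (single z 1) = 1) (hex : ExAt (wall hz Y L) ψ 0) : ZeroAt L ψ 0 := by
  intro x
  obtain ⟨y, hy⟩ := hex x
  obtain ⟨c, b, rfl⟩ := jn_surj (a := Y.n 1) (b := Y.n 0) y
  have h3 : jn c b ᵥ* (dm0 L).map ψ = x := hy
  rw [vec_dm0_map, map_DD ψ h1, Matrix.vecMul_zero, add_zero] at h3
  exact ⟨c, h3⟩

lemma up1 (hz : ¬ IsOfFinOrder z) (L : Lift z Y) (ψ : MonoidAlgebra ℤ G →+* A)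
    (h1 : ψ (single z 1) = 1) (hex : ExAt (wall hz Y L) ψ 1) : ZeroAt L ψ 1 := by
  intro x hx
  have h2 : jn x (0 : Fin (Y.n 0) → A) ᵥ* (dm0 L).map ψ = 0 := by
    rw [vec_dm0_map, map_DD ψ h1, Matrix.vecMul_zero, add_zero]
    exact hx
  obtain ⟨y, hy⟩ := hex _ h2
  obtain ⟨c, b, rfl⟩ := jn_surj (a := Y.n 2) (b := Y.n 1) y
  have h3 : jn c b ᵥ* (dms L 0).map ψ = jn x 0 := hy
  rw [vec_dms_map, map_DD ψ h1, Matrix.vecMul_zero, add_zero] at h3
  exact ⟨c, (jn_inj h3).1⟩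

/-- the Gysin argument, one step -/
lemma up_step (hz : ¬ IsOfFinOrder z) (L : Lift z Y) (ψ ψ' : MonoidAlgebra ℤ G →+* A)
    (h1 : ψ (single z 1) = 1) (htw : ∀ g, ψ' (single g 1) = sgn z g • ψ (single g 1)) (i : ℕ)
    (hex : ExAt (wall hz Y L) ψ (i + 2)) (hi : ZeroAt L ψ' i) : ZeroAt L ψ (i + 2) := by
  intro c hc
  have hc' : c ᵥ* (L.E (i + 1)).map ψ = 0 := hc
  obtain ⟨b, hb⟩ : ∃ b : Fin (Y.n (i + 1)) → A, b ᵥ* (L.E i).map ψ' = -(c ᵥ* (L.h i).map ψ) := by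
    cases i with
    | zero => exact hi _
    | succ j =>
      refine hi _ ?_
      have h2 : (L.h (j + 1)).map ψ * (L.E j).map ψ' =
          (L.E (j + 1 + 1)).map ψ * (L.h j).map ψ := by
        rw [← map_E' hz L ψ ψ' h1 htw, ← Matrix.map_mul, ← Matrix.map_mul, L.comm_h hz]
      rw [Matrix.neg_vecMul, Matrix.vecMul_vecMul, h2, ← Matrix.vecMul_vecMul, hc',
        Matrix.zero_vecMul, neg_zero]
  have h2 : jn c b ᵥ* (dms L i).map ψ = 0 := by
    rw [vec_dms_map, map_DD ψ h1, Matrix.vecMul_zero, add_zero, hc', map_E' hz L ψ ψ' h1 htw, hb,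
      sub_self, jn_zero]
  obtain ⟨y, hy⟩ := hex _ h2
  obtain ⟨c1, b1, rfl⟩ := jn_surj (a := Y.n (i + 3)) (b := Y.n (i + 2)) y
  have h3 : jn c1 b1 ᵥ* (dms L (i + 1)).map ψ = jn c b := hy
  rw [vec_dms_map, map_DD ψ h1, Matrix.vecMul_zero, add_zero] at h3
  exact ⟨c1, (jn_inj h3).1⟩

/-- **the Gysin argument** -/
theorem up (hz : ¬ IsOfFinOrder z) (L : Lift z Y) (ψ ψ' : MonoidAlgebra ℤ G →+* A)
    (h1 : ψ (single z 1) = 1) (htw : ∀ g, ψ' (single g 1) = sgn z g • ψ (single g 1)) (p : ℕ)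
    (hex : ∀ i ≤ p, ExAt (wall hz Y L) ψ i) (hex' : ∀ i ≤ p, ExAt (wall hz Y L) ψ' i) :
    ∀ i ≤ p, ZeroAt L ψ i := by
  have h1' : ψ' (single z 1) = 1 := by rw [htw, sgn_z, one_smul, h1]
  have htw' : ∀ g, ψ (single g 1) = sgn z g • ψ' (single g 1) := by
    intro g
    rw [htw, smul_smul, sgn_sq z hz, one_smul]
  have key : ∀ i, i ≤ p → ZeroAt L ψ i ∧ ZeroAt L ψ' i := by
    intro i
    induction i using Nat.strong_induction_on with
    | _ i ih =>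
      intro hi
      match i, ih, hi with
      | 0, _, hi => exact ⟨up0 hz L ψ h1 (hex 0 hi), up0 hz L ψ' h1' (hex' 0 hi)⟩
      | 1, _, hi => exact ⟨up1 hz L ψ h1 (hex 1 hi), up1 hz L ψ' h1' (hex' 1 hi)⟩
      | i + 2, ih, hi =>
        obtain ⟨a, b⟩ := ih i (by omega) (by omega)
        exact ⟨up_step hz L ψ ψ' h1 htw i (hex _ hi) b,
          up_step hz L ψ' ψ h1' htw' i (hex' _ hi) a⟩
  exact fun i hi => (key i hi).1

/-- exactness for the quotient group -/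
theorem ex_quot (hz : ¬ IsOfFinOrder z) (Y : FinRes (G ⧸ Subgroup.zpowers z)) (X : FinRes G)
    (ρ : MonoidAlgebra ℤ (G ⧸ Subgroup.zpowers z) →+* A) (ψ' : MonoidAlgebra ℤ G →+* A)
    (htw : ∀ g, ψ' (single g 1) = sgn z g • ρ (pr z (single g 1))) (p : ℕ)
    (hex : ∀ i ≤ p, ExAt X (ρ.comp (pr z)) i) (hex' : ∀ i ≤ p, ExAt X ψ' i) :
    ∀ i ≤ p, ExAt Y ρ i := by
  obtain ⟨L⟩ := exists_lift_data (z := z) Y
  have h1 : (ρ.comp (pr z)) (single z 1) = 1 := by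
    rw [RingHom.comp_apply, pr_single, mk_z, ← one_eq, map_one]
  have h := up hz L (ρ.comp (pr z)) ψ' h1 htw p (fun i hi => ex_indep X _ _ i (hex i hi))
    (fun i hi => ex_indep X _ _ i (hex' i hi))
  have hE : ∀ i, (L.E i).map (ρ.comp (pr z)) = (Y.d i).map ρ := by
    intro i
    rw [← L.hE i]
    rfl
  intro i hi
  have h0 := h i hi
  cases i with
  | zero =>
    intro x
    obtain ⟨y, hy⟩ := h0 x
    exact ⟨y, by rw [← hE]; exact hy⟩
  | succ i =>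
    intro x hx
    obtain ⟨y, hy⟩ := h0 x (by rw [hE]; exact hx)
    exact ⟨y, by rw [← hE]; exact hy⟩

end

end Pool.Agent.TH38.ZT
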