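import Pool.Agent.H79.LZ.TH38_ZT_Red

/-!
Towers of groups with infinite cyclic normal subgroups, and the homology with coefficients in the
reduced group C*-algebra.
-/

set_option autoImplicit false
set_option linter.unusedSectionVars false

open scoped Matrix

namespace Pool.Agent.TH38.ZT

open Pool.Agent.H919R4.ZS MonoidAlgebra

noncomputable section

lemma hom_ext_single {G : Type} [Group G] {A : Type*} [Ring A] {φ ψ : MonoidAlgebra ℤ G →+* A}
    (h : ∀ g, φ (single g 1) = ψ (single g 1)) : φ = ψ := by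
  refine RingHom.ext fun a => ?_
  refine MonoidAlgebra.induction_linear a ?_ ?_ ?_
  · rw [map_zero, map_zero]
  · intro x y hx hy
    rw [map_add, map_add, hx, hy]
  · intro g c
    have h1 : (single g c : MonoidAlgebra ℤ G) = c • single g 1 := by
      rw [smul_single, smul_eq_mul, mul_one]
    rw [h1, map_zsmul, map_zsmul, h]

/-- one step -/
theorem one_step {G : Type} [Group G] (z : G) [(Subgroup.zpowers z).Normal]
    (hz : ¬ IsOfFinOrder z) (Y : FinRes (G ⧸ Subgroup.zpowers z)) (X : FinRes G) (p : ℕ)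
    (h : ∀ i ≤ p, Subsingleton (X.homology (toRed G) i)) :
    ∀ i ≤ p, Subsingleton (Y.homology (toRed (G ⧸ Subgroup.zpowers z)) i) := by
  obtain ⟨T0, hT0⟩ := exists_red (amenable_zpowers z) (fun _ : G => 1) (fun _ => by norm_num)
    (fun _ _ => by norm_num)
  obtain ⟨T1, hT1⟩ := exists_red (amenable_zpowers z) (sgn z) (sgn_sq z hz) (sgn_mul z hz)
  have e0 : T0.comp (toRed G) = (toRed (G ⧸ Subgroup.zpowers z)).comp (pr z) := by
    refine hom_ext_single fun g => ?_
    rw [RingHom.comp_apply, RingHom.comp_apply, hT0, one_smul, pr_single]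
  have hex : ∀ i ≤ p, ExAt X (toRed G) i := fun i hi => (exAt_iff X _ i).2 (h i hi)
  have hex0 := ex_comp X (toRed G) T0 p hex
  rw [e0] at hex0
  have hex1 := ex_comp X (toRed G) T1 p hex
  intro i hi
  refine (exAt_iff Y _ i).1 (ex_quot hz Y X (toRed (G ⧸ Subgroup.zpowers z)) (T1.comp (toRed G))
    (fun g => ?_) p hex0 hex1 i hi)
  rw [RingHom.comp_apply, hT1, pr_single]

/-- `Tower G Q`: the group `Q` arises from `G` by successively dividing out infinite cyclic normal
subgroups. Equivalently (up to isomorphism) `Q = G/N` for a normal subgroup `N` which has a series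
`1 = N_0 < N_1 < ⋯ < N_k = N` of subgroups normal in `G` with infinite cyclic factors. -/
inductive Tower : ∀ (G : Type) [Group G] (Q : Type) [Group Q], Prop
  | refl (G : Type) [Group G] : Tower G G
  | step (G : Type) [Group G] (z : G) [(Subgroup.zpowers z).Normal] (hz : ¬ IsOfFinOrder z)
      (Q : Type) [Group Q] (h : Tower (G ⧸ Subgroup.zpowers z) Q) : Tower G Q

theorem tower {G : Type} [hG : Group G] {Q : Type} [hQ : Group Q] (h : @Tower G hG Q hQ)
    (Y : FinRes Q) : Nonempty (FinRes G) ∧ ∀ (X : FinRes G) (p : ℕ),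
      (∀ i ≤ p, Subsingleton (X.homology (toRed G) i)) →
        ∀ i ≤ p, Subsingleton (Y.homology (toRed Q) i) := by
  induction h with
  | refl G =>
    refine ⟨⟨Y⟩, fun X p h i hi => ?_⟩
    exact (exAt_iff Y _ i).1 (ex_indep X Y _ i ((exAt_iff X _ i).2 (h i hi)))
  | step G z hz Q h ih =>
    obtain ⟨⟨W⟩, h2⟩ := ih Y
    obtain ⟨L⟩ := exists_lift_data (z := z) W
    refine ⟨⟨wall hz W L⟩, fun X p h i hi => ?_⟩
    exact h2 W p (one_step z hz W X p h) i hi

end

end Pool.Agent.TH38.ZT
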