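import Pool.Agent.H79.LZ.H496R3_ZS_Stmt

/-!
Cyclic groups are amenable (Foelner condition).
-/

set_option autoImplicit false

namespace Pool.Agent.TH38.ZT

open scoped Pointwise symmDiff
open Pool.Agent.H496R3.ZS (IsAmenable)

theorem amenable_zpowers {G : Type} [Group G] (z : G) : IsAmenable (Subgroup.zpowers z) := by
  classical
  intro S ε hε
  set g : Subgroup.zpowers z := ⟨z, Subgroup.mem_zpowers z⟩ with hg
  have hgen : ∀ s : Subgroup.zpowers z, ∃ k : ℤ, s = g ^ k := by
    rintro ⟨s, k, rfl⟩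
    exact ⟨k, Subtype.ext (by simp [hg])⟩
  choose k hk using hgen
  obtain ⟨K, hK⟩ : ∃ K : ℕ, ∀ s ∈ S, (k s).natAbs ≤ K :=
    ⟨S.sup fun s => (k s).natAbs, fun s hs => Finset.le_sup (f := fun s => (k s).natAbs) hs⟩
  by_cases hfin : Finite (Subgroup.zpowers z)
  · have := Fintype.ofFinite (Subgroup.zpowers z)
    refine ⟨Finset.univ, ⟨1, Finset.mem_univ _⟩, fun s _ => ?_⟩
    have : (s • ((Finset.univ : Finset (Subgroup.zpowers z)) : Set (Subgroup.zpowers z))) =
        ((Finset.univ : Finset (Subgroup.zpowers z)) : Set (Subgroup.zpowers z)) := by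
      rw [Finset.coe_univ, Set.smul_set_univ]
    rw [this, symmDiff_self, Set.bot_eq_empty, Set.ncard_empty, Nat.cast_zero]
    exact mul_nonneg hε.le (Nat.cast_nonneg _)
  have hinf : ¬ IsOfFinOrder z := by
    intro h
    exact hfin (finite_zpowers.2 h).to_subtype
  have hinj : Function.Injective fun k : ℤ => g ^ k := by
    intro a b hab
    have h2 : ((g ^ a : Subgroup.zpowers z) : G) = ((g ^ b : Subgroup.zpowers z) : G) :=
      congrArg Subtype.val hab
    rw [Subgroup.coe_zpow, Subgroup.coe_zpow] at h2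
    exact injective_zpow_iff_not_isOfFinOrder.2 hinf h2
  obtain ⟨n, hn⟩ := exists_nat_gt (2 * K / ε)
  have hn' : 2 * (K : ℝ) ≤ ε * n := by
    rw [div_lt_iff₀ hε] at hn
    linarith
  set F : Finset (Subgroup.zpowers z) := (Finset.Ico (0 : ℤ) (n + 1)).image fun i => g ^ i with hF
  have hcard : F.card = n + 1 := by
    rw [hF, Finset.card_image_of_injective _ hinj, Int.card_Ico]
    omega
  refine ⟨F, Finset.card_pos.1 (by omega), fun s hs => ?_⟩
  set D : Finset ℤ := Finset.Ico (min 0 (k s)) (max 0 (k s)) ∪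
    Finset.Ico (min ((n : ℤ) + 1) (n + 1 + k s)) (max ((n : ℤ) + 1) (n + 1 + k s)) with hD
  have hDc : D.card ≤ 2 * K := by
    refine (Finset.card_union_le _ _).trans ?_
    rw [Int.card_Ico, Int.card_Ico]
    have := hK s hs
    omega
  have hsub : ((s • (F : Set (Subgroup.zpowers z))) ∆ (F : Set (Subgroup.zpowers z))) ⊆
      ((D.image fun i => g ^ i : Finset (Subgroup.zpowers z)) : Set (Subgroup.zpowers z)) := by
    have hmem : ∀ j : ℤ, g ^ j ∈ F ↔ 0 ≤ j ∧ j < n + 1 := by
      intro j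
      rw [hF, Finset.mem_image]
      constructor
      · rintro ⟨i, hi, hij⟩
        rw [← hinj hij]
        exact Finset.mem_Ico.1 hi
      · intro hj
        exact ⟨j, Finset.mem_Ico.2 hj, rfl⟩
    rintro x (⟨hx1, hx2⟩ | ⟨hx1, hx2⟩)
    · obtain ⟨y, hy, rfl⟩ := hx1
      obtain ⟨i, hi, rfl⟩ := Finset.mem_image.1 (Finset.mem_coe.1 hy)
      have e : s • g ^ i = g ^ (k s + i) := by
        rw [smul_eq_mul, zpow_add]
        congr 1
        exact hk s
      change s • g ^ i ∉ _ at hx2
      rw [e, Finset.mem_coe, hmem] at hx2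
      refine Finset.mem_coe.2 (Finset.mem_image.2 ⟨k s + i, ?_, e.symm⟩)
      rw [Finset.mem_Ico] at hi
      rw [hD, Finset.mem_union, Finset.mem_Ico, Finset.mem_Ico]
      omega
    · obtain ⟨i, hi, rfl⟩ := Finset.mem_image.1 (Finset.mem_coe.1 hx1)
      have h3 : ¬ (0 ≤ i - k s ∧ i - k s < n + 1) := by
        intro h4
        apply hx2
        refine ⟨g ^ (i - k s), Finset.mem_coe.2 ((hmem _).2 h4), ?_⟩
        calc s * g ^ (i - k s) = g ^ (k s) * g ^ (i - k s) :=
              congrArg (fun y => y * g ^ (i - k s)) (hk s)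
          _ = g ^ i := by rw [← zpow_add]; congr 1; omega
      refine Finset.mem_coe.2 (Finset.mem_image.2 ⟨i, ?_, rfl⟩)
      rw [Finset.mem_Ico] at hi
      rw [hD, Finset.mem_union, Finset.mem_Ico, Finset.mem_Ico]
      omega
  have h5 : ((s • (F : Set (Subgroup.zpowers z))) ∆ (F : Set (Subgroup.zpowers z))).ncard ≤
      2 * K := by
    refine (Set.ncard_le_ncard hsub (Finset.finite_toSet _)).trans ?_
    rw [Set.ncard_coe_finset]
    exact Finset.card_image_le.trans hDc
  calc (((s • (F : Set (Subgroup.zpowers z))) ∆ (F : Set (Subgroup.zpowers z))).ncard : ℝ)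
      ≤ 2 * K := by exact_mod_cast h5
    _ ≤ ε * n := hn'
    _ ≤ ε * F.card := by
      rw [hcard]
      push_cast
      nlinarith

end Pool.Agent.TH38.ZT
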