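import Pool.Agent.H79.LZ.H919R4_AS_Ext
import Pool.Agent.H79.LZ.TH38_ZT_Fol
import Pool.Agent.H79.LZ.TH38_ZT_Down

/-!
The homomorphisms `C*_r(G) → C*_r(G/C)` for an amenable normal subgroup `C`, twisted by a
character with values `±1`.
-/

set_option autoImplicit false
set_option linter.unusedSectionVars false

open scoped Matrix ENNReal
open Filter Topology

namespace Pool.Agent.TH38.ZT

open Pool.Agent.H496R3.ZS (Ell permRep IsAmenable integ)
open Pool.Agent.H919R4.ZS
open Pool.Agent.H919R4.AS (Mult Gam Gam_unique Gam_exists Gam_group valR_mem LL LL_single)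
open MonoidAlgebra (single)

noncomputable section

variable {G : Type} [Group G] {C : Subgroup G}

/-- as `exists_ext`, with the graph -/
theorem exists_ext' (hC : IsAmenable C) (m : Mult G (G ⧸ C)) :
    ∃ t : RedC G →+* (Ell (G ⧸ C) →L[ℂ] Ell (G ⧸ C)), (∀ a, t (toRed G a) = LL m a) ∧
      ∀ x, ((valR x : Ell G →L[ℂ] Ell G), t x) ∈ Gam m := by
  choose t ht using fun x : RedC G => Gam_exists hC m _ (valR_mem x)
  have hadd : ∀ a b, t (a + b) = t a + t b := by
    intro a b
    refine Gam_unique hC m (ht (a + b)) ?_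
    rw [map_add]
    exact (Gam m).add_mem (ht a) (ht b)
  have hmul : ∀ a b, t (a * b) = t a * t b := by
    intro a b
    refine Gam_unique hC m (ht (a * b)) ?_
    rw [map_mul]
    exact (Gam m).mul_mem (ht a) (ht b)
  have hone : t 1 = 1 := by
    refine Gam_unique hC m (ht 1) ?_
    rw [map_one]
    exact (Gam m).one_mem
  have hzero : t 0 = 0 := by
    refine Gam_unique hC m (ht 0) ?_
    rw [map_zero]
    exact (Gam m).zero_mem
  refine ⟨⟨⟨⟨t, hone⟩, hmul⟩, hzero, hadd⟩, ?_, ht⟩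
  intro a
  change t (toRed G a) = LL m a
  refine MonoidAlgebra.induction_linear a ?_ ?_ ?_
  · rw [map_zero, map_zero, hzero]
  · intro x y hx hy
    rw [map_add, map_add, hadd, hx, hy]
  · intro g r
    refine Gam_unique hC m (ht _) ?_
    rw [LL_single, Pool.Agent.H919R4.ZS.coe_toRed, Pool.Agent.H919R4.ZS.L_single]
    exact zsmul_mem (Gam_group m g) r

lemma Gam_snd (m : Mult G (G ⧸ C))
    {p : (Ell G →L[ℂ] Ell G) × (Ell (G ⧸ C) →L[ℂ] Ell (G ⧸ C))} (hp : p ∈ Gam m) :
    p.2 ∈ closure (Set.range m.integ) := by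
  have h1 : p ∈ closure (((integ G G).prod m.integ).range : Set
      ((Ell G →L[ℂ] Ell G) × (Ell (G ⧸ C) →L[ℂ] Ell (G ⧸ C)))) := by
    rw [← Subalgebra.topologicalClosure_coe]; exact hp
  have h2 : Continuous (fun p : (Ell G →L[ℂ] Ell G) × (Ell (G ⧸ C) →L[ℂ] Ell (G ⧸ C)) => p.2) :=
    continuous_snd
  refine closure_mono ?_ (h2.closure_preimage_subset (Set.range m.integ) (closure_mono ?_ h1))
  · exact subset_rfl
  · rintro _ ⟨x, rfl⟩
    exact ⟨x, rfl⟩

/-- the multiplier of a character with values `±1` -/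
def chm (s : G → ℤ) (h1 : ∀ g, s g * s g = 1) (hmul : ∀ g h, s (g * h) = s g * s h) :
    Mult G (G ⧸ C) where
  φ g _ := (s g : ℂ)
  norm_one g _ := by
    rcases mul_self_eq_one_iff.1 (h1 g) with h | h
    · rw [h]; simp
    · rw [h]; simp
  mul g h _ := by rw [hmul]; push_cast; ring

variable [C.Normal]

lemma rep_chm (s : G → ℤ) (h1 : ∀ g, s g * s g = 1) (hmul : ∀ g h, s (g * h) = s g * s h) (g : G) :
    (chm s h1 hmul : Mult G (G ⧸ C)).rep g =
      (show Ell (G ⧸ C) →L[ℂ] Ell (G ⧸ C) from s g • lreg (QuotientGroup.mk g : G ⧸ C)) := by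
  refine ContinuousLinearMap.ext fun f => ?_
  ext q
  have h2 : (s g • lreg (QuotientGroup.mk g : G ⧸ C) : Hil (G ⧸ C) →L[ℂ] Hil (G ⧸ C)) =
      ((s g : ℤ) : ℂ) • lreg (QuotientGroup.mk g : G ⧸ C) := by
    rw [Int.cast_smul_eq_zsmul]
  rw [h2]
  rfl

/-- `C*_r(G) → C*_r(G/C)` twisted by `s` -/
theorem exists_red (hC : IsAmenable C) (s : G → ℤ) (h1 : ∀ g, s g * s g = 1)
    (hmul : ∀ g h, s (g * h) = s g * s h) :
    ∃ T : RedC G →+* RedC (G ⧸ C), ∀ g,
      T (toRed G (single g 1)) = s g • toRed (G ⧸ C) (single (QuotientGroup.mk g) 1) := by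
  obtain ⟨t, ht, hG⟩ := exists_ext' hC (chm s h1 hmul : Mult G (G ⧸ C))
  have hrange : ∀ x, (show Op (G ⧸ C) from t x) ∈ redCstar (G ⧸ C) := by
    intro x
    have h2 := Gam_snd _ (hG x)
    have h3 : Set.range (chm s h1 hmul : Mult G (G ⧸ C)).integ ⊆
        (show Set (Ell (G ⧸ C) →L[ℂ] Ell (G ⧸ C)) from ((groupRing (G ⧸ C) : Subring (Op (G ⧸ C))) :
          Set (Op (G ⧸ C)))) := by
      rintro _ ⟨y, rfl⟩
      refine MonoidAlgebra.induction_linear y ?_ ?_ ?_
      · rw [map_zero]; exact Subring.zero_mem (groupRing (G ⧸ C))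
      · intro a b ha hb
        rw [map_add]; exact Subring.add_mem (groupRing (G ⧸ C)) ha hb
      · intro g c
        have h4 : (chm s h1 hmul : Mult G (G ⧸ C)).integ (single g c) =
            c • (chm s h1 hmul : Mult G (G ⧸ C)).rep g := by
          rw [Mult.integ, MonoidAlgebra.lift_single]
        rw [h4, rep_chm]
        refine Subring.subset_closure ⟨c * (s g : ℂ), QuotientGroup.mk g, ?_⟩
        rw [mul_smul, Int.cast_smul_eq_zsmul]
        rfl
    exact closure_mono h3 h2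
  refine ⟨(show RedC G →+* Op (G ⧸ C) from t).codRestrict (redCstar (G ⧸ C)) hrange, fun g => ?_⟩
  refine Subtype.ext ?_
  change t (toRed G (single g 1)) = _
  rw [ht, LL_single, one_smul, rep_chm]
  have h5 : ∀ n : ℤ, ((n • toRed (G ⧸ C) (single (QuotientGroup.mk g) 1) : RedC (G ⧸ C)) :
      redCstar (G ⧸ C)).1 = n • (toOp (G ⧸ C) (single (QuotientGroup.mk g) 1) : Op (G ⧸ C)) :=
    fun n => rfl
  refine Eq.trans ?_ (h5 (s g)).symm
  have h6 : (toOp (G ⧸ C) (single (QuotientGroup.mk g) 1) : Op (G ⧸ C)) =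
      lreg (QuotientGroup.mk g : G ⧸ C) := by
    have := L_single (G := G ⧸ C) (QuotientGroup.mk g) 1
    rw [one_smul] at this
    exact this
  rw [h6]

end

end Pool.Agent.TH38.ZT
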