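import Mathlib

/-!
The integral group ring of a group `G` with a normal infinite cyclic subgroup generated by `z`:
the element `z - 1` and the quotient ring `ℤ[G/⟨z⟩]`.
-/

set_option autoImplicit false
set_option linter.unusedSectionVars false

open scoped Matrix

namespace Pool.Agent.TH38.ZT

open MonoidAlgebra

noncomputable section

variable {G : Type} [Group G] (z : G)

/-- the element `z - 1` -/
def tt : MonoidAlgebra ℤ G := single z 1 - 1

lemma one_eq : (1 : MonoidAlgebra ℤ G) = single 1 1 := rfl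

lemma mul_tt_eq_zero (hz : ¬ IsOfFinOrder z) {x : MonoidAlgebra ℤ G} (h : x * tt z = 0) :
    x = 0 := by
  have h1 : x * single z 1 = x := by
    rw [tt, mul_sub, mul_one, sub_eq_zero] at h
    exact h
  have h2 : ∀ g, x.coeff (g * z⁻¹) = x.coeff g := by
    intro g
    have := congrArg (fun y : MonoidAlgebra ℤ G => y.coeff g) h1
    simp only [coeff_mul_single_apply, mul_one] at this
    exact this
  have h2' : ∀ g, x.coeff (g * z) = x.coeff g := by
    intro g
    rw [← h2 (g * z), mul_inv_cancel_right]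
  by_contra hx
  obtain ⟨g, hg⟩ : ∃ g, x.coeff g ≠ 0 := by
    by_contra hcon
    push Not at hcon
    apply hx
    have h3 : x.coeff = 0 := Finsupp.ext hcon
    cases x with
    | ofCoeff c => change c = 0 at h3; subst h3; rfl
  have h3 : ∀ k : ℕ, x.coeff (g * z ^ k) = x.coeff g := by
    intro k
    induction k with
    | zero => rw [pow_zero, mul_one]
    | succ k ih => rw [pow_succ, ← mul_assoc, h2', ih]
  have hinj : Function.Injective fun k : ℕ => g * z ^ k := fun a b hab =>
    injective_pow_iff_not_isOfFinOrder.2 hz (mul_left_cancel hab)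
  refine Set.infinite_of_injective_forall_mem hinj (s := (x.coeff.support : Set G)) (fun k => ?_)
    (Finset.finite_toSet _)
  rw [Finset.mem_coe, Finsupp.mem_support_iff, h3]
  exact hg

lemma zpow_sub (k : ℤ) : ∃ r, (single (z ^ k) 1 : MonoidAlgebra ℤ G) - 1 = r * tt z := by
  induction k using Int.induction_on with
  | zero => exact ⟨0, by rw [zpow_zero, zero_mul, one_eq, sub_self]⟩
  | succ k ih =>
    obtain ⟨r, hr⟩ := ih
    refine ⟨single (z ^ (k : ℤ)) 1 + r, ?_⟩
    rw [add_mul, ← hr, tt, mul_sub, mul_one, single_mul_single, ← zpow_add_one, one_mul]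
    abel
  | pred k ih =>
    obtain ⟨r, hr⟩ := ih
    refine ⟨r - single (z ^ (-(k : ℤ) - 1)) 1, ?_⟩
    rw [sub_mul, ← hr, tt, mul_sub, mul_one, single_mul_single, ← zpow_add_one, one_mul,
      sub_add_cancel]
    abel

variable [(Subgroup.zpowers z).Normal]

/-- the projection `ℤ[G] → ℤ[G/⟨z⟩]` -/
def pr : MonoidAlgebra ℤ G →+* MonoidAlgebra ℤ (G ⧸ Subgroup.zpowers z) :=
  mapDomainRingHom ℤ (QuotientGroup.mk' (Subgroup.zpowers z))

lemma pr_single (g : G) (c : ℤ) : pr z (single g c) = single (QuotientGroup.mk g) c := by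
  rw [pr, mapDomainRingHom_apply, mapDomain_single]; rfl

lemma mk_z : (QuotientGroup.mk z : G ⧸ Subgroup.zpowers z) = 1 :=
  (QuotientGroup.eq_one_iff z).2 (Subgroup.mem_zpowers z)

lemma pr_tt : pr z (tt z) = 0 := by
  rw [tt, map_sub, map_one, pr_single, mk_z, one_eq, sub_self]

lemma ker_pr {r : MonoidAlgebra ℤ G} (h : pr z r = 0) : ∃ r', r = r' * tt z := by
  have key : ∀ r : MonoidAlgebra ℤ G, ∃ r', r - mapDomain Quotient.out (pr z r) = r' * tt z := by
    intro r
    refine induction_linear r ?_ ?_ ?_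
    · exact ⟨0, by rw [map_zero, mapDomain_zero, sub_zero, zero_mul]⟩
    · rintro x y ⟨r1, h1⟩ ⟨r2, h2⟩
      refine ⟨r1 + r2, ?_⟩
      rw [map_add, mapDomain_add, add_mul, ← h1, ← h2]
      abel
    · intro g c
      obtain ⟨⟨n, hn⟩, hout⟩ := QuotientGroup.mk_out_eq_mul (Subgroup.zpowers z) g
      obtain ⟨k, rfl⟩ := hn
      obtain ⟨s, hs⟩ := zpow_sub z k
      refine ⟨- (single g c * s), ?_⟩
      rw [neg_mul, mul_assoc, ← hs, mul_sub, mul_one, single_mul_single, mul_one, pr_single,
        mapDomain_single, neg_sub]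
      congr 2
  obtain ⟨r', hr'⟩ := key r
  refine ⟨r', ?_⟩
  rw [← hr', h, mapDomain_zero, sub_zero]

lemma pr_surj : Function.Surjective (pr z) := by
  intro r
  refine induction_linear r ?_ ?_ ?_
  · exact ⟨0, map_zero _⟩
  · rintro x y ⟨a, ha⟩ ⟨b, hb⟩
    exact ⟨a + b, by rw [map_add, ha, hb]⟩
  · intro q c
    refine ⟨single q.out c, ?_⟩
    rw [pr_single]
    congr 1
    exact Quotient.out_eq q

lemma exists_tw (r : MonoidAlgebra ℤ G) : ∃ r', tt z * r = r' * tt z :=
  ker_pr z (by rw [map_mul, pr_tt, zero_mul])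

lemma conj_cases (hz : ¬ IsOfFinOrder z) (g : G) : g⁻¹ * z * g = z ∨ g⁻¹ * z * g = z⁻¹ := by
  have hinj : Function.Injective fun k : ℤ => z ^ k := injective_zpow_iff_not_isOfFinOrder.2 hz
  have hN : (Subgroup.zpowers z).Normal := inferInstance
  obtain ⟨k, hk⟩ := hN.conj_mem z (Subgroup.mem_zpowers z) g⁻¹
  obtain ⟨l, hl⟩ := hN.conj_mem z (Subgroup.mem_zpowers z) g
  rw [inv_inv] at hk
  change z ^ k = _ at hk
  change z ^ l = _ at hl
  have h1 : z ^ (l * k) = z ^ (1 : ℤ) := by
    rw [zpow_mul, hl, conj_zpow, hk, zpow_one]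
    group
  have h2 : l * k = 1 := hinj h1
  rcases Int.isUnit_iff.1 (IsUnit.of_mul_eq_one l (by rw [mul_comm]; exact h2)) with h | h
  · left; rw [← hk, h, zpow_one]
  · right; rw [← hk, h, zpow_neg, zpow_one]

lemma z_ne_inv (hz : ¬ IsOfFinOrder z) : z ≠ z⁻¹ := by
  intro h
  apply hz
  rw [isOfFinOrder_iff_pow_eq_one]
  refine ⟨2, by norm_num, ?_⟩
  rw [pow_two]
  nth_rewrite 2 [h]
  exact mul_inv_cancel z

open scoped Classical in
/-- the orientation character of the normal subgroup `⟨z⟩` -/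
def sgn (g : G) : ℤ := if g⁻¹ * z * g = z then 1 else -1

lemma sgn_of_eq {g : G} (h : g⁻¹ * z * g = z) : sgn z g = 1 := if_pos h

lemma sgn_of_inv (hz : ¬ IsOfFinOrder z) {g : G} (h : g⁻¹ * z * g = z⁻¹) : sgn z g = -1 :=
  if_neg (by rw [h]; exact fun e => z_ne_inv z hz e.symm)

lemma sgn_mul (hz : ¬ IsOfFinOrder z) (g h : G) : sgn z (g * h) = sgn z g * sgn z h := by
  have key : (g * h)⁻¹ * z * (g * h) = h⁻¹ * (g⁻¹ * z * g) * h := by group
  have inv : h⁻¹ * z⁻¹ * h = (h⁻¹ * z * h)⁻¹ := by group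
  rcases conj_cases z hz g with hg | hg <;> rcases conj_cases z hz h with hh | hh
  · rw [sgn_of_eq z (by rw [key, hg, hh]), sgn_of_eq z hg, sgn_of_eq z hh]; norm_num
  · rw [sgn_of_inv z hz (by rw [key, hg, hh]), sgn_of_eq z hg, sgn_of_inv z hz hh]; norm_num
  · rw [sgn_of_inv z hz (by rw [key, hg, inv, hh]), sgn_of_inv z hz hg, sgn_of_eq z hh]; norm_num
  · rw [sgn_of_eq z (by rw [key, hg, inv, hh, inv_inv]), sgn_of_inv z hz hg, sgn_of_inv z hz hh]
    norm_num

lemma sgn_sq (hz : ¬ IsOfFinOrder z) (g : G) : sgn z g * sgn z g = 1 := by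
  rcases conj_cases z hz g with hg | hg
  · rw [sgn_of_eq z hg]; norm_num
  · rw [sgn_of_inv z hz hg]; norm_num

lemma sgn_z : sgn z z = 1 := sgn_of_eq z (by group)

/-- the twisted value of a ring homomorphism -/
theorem tw_val {A : Type*} [Ring A] (hz : ¬ IsOfFinOrder z) (ψ ψ' : MonoidAlgebra ℤ G →+* A)
    (h1 : ψ (single z 1) = 1) (htw : ∀ g, ψ' (single g 1) = sgn z g • ψ (single g 1))
    {r r' : MonoidAlgebra ℤ G} (h : tt z * r = r' * tt z) : ψ r' = ψ' r := by
  have hinv : ψ (single z⁻¹ 1) = 1 := by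
    have h2 : ψ (single z 1) * ψ (single z⁻¹ 1) = 1 := by
      rw [← map_mul, single_mul_single, mul_inv_cancel, mul_one, ← one_eq, map_one]
    rwa [h1, one_mul] at h2
  have hc : ∀ (φ : MonoidAlgebra ℤ G →+* A) (g : G) (c : ℤ),
      φ (single g c) = c • φ (single g 1) := by
    intro φ g c
    rw [← map_zsmul]
    congr 1
    rw [smul_single, smul_eq_mul, mul_one]
  have key : ∀ r : MonoidAlgebra ℤ G, ∃ r'', tt z * r = r'' * tt z ∧ ψ r'' = ψ' r := by
    intro r
    refine induction_linear r ?_ ?_ ?_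
    · exact ⟨0, by rw [mul_zero, zero_mul], by rw [map_zero, map_zero]⟩
    · rintro x y ⟨a, ha, ha'⟩ ⟨b, hb, hb'⟩
      exact ⟨a + b, by rw [mul_add, add_mul, ha, hb], by rw [map_add, map_add, ha', hb']⟩
    · intro g c
      rcases conj_cases z hz g with hg | hg
      · refine ⟨single g c, ?_, ?_⟩
        · rw [tt, sub_mul, mul_sub, one_mul, mul_one, single_mul_single, single_mul_single,
            one_mul, mul_one]
          congr 2
          calc z * g = g * (g⁻¹ * z * g) := by group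
            _ = g * z := by rw [hg]
        · rw [hc ψ, hc ψ', htw, sgn_of_eq z hg, one_smul]
      · refine ⟨- single (g * z⁻¹) c, ?_, ?_⟩
        · rw [tt, sub_mul, mul_sub, one_mul, mul_one, neg_mul, single_mul_single,
            single_mul_single, one_mul, mul_one, inv_mul_cancel_right]
          have : z * g = g * z⁻¹ := by
            calc z * g = g * (g⁻¹ * z * g) := by group
              _ = g * z⁻¹ := by rw [hg]
          rw [this]
          abel
        · have h3 : ψ (single (g * z⁻¹) c) = c • ψ (single g 1) := by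
            rw [hc ψ, ← mul_one (1 : ℤ), ← single_mul_single, map_mul, mul_one, hinv, mul_one]
          rw [map_neg, h3, hc ψ', htw, sgn_of_inv z hz hg]
          simp
  obtain ⟨r'', h2, h3⟩ := key r
  have h4 : (r' - r'') * tt z = 0 := by rw [sub_mul, ← h, ← h2, sub_self]
  have h5 := mul_tt_eq_zero z hz h4
  rw [sub_eq_zero] at h5
  rw [h5, h3]

end

end Pool.Agent.TH38.ZT
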