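import Pool.Agent.H79.LZ.TH38_ZT_Gen
import Pool.Agent.H79.LZ.H496R3_ZS_Weak

/-!
The canonical trace of the reduced group C*-algebra, and the vanishing of the Euler characteristic
of a finite free resolution which becomes acyclic over `C*_r(G)`.
-/

set_option autoImplicit false
set_option linter.unusedSectionVars false

open scoped Matrix ENNReal
open Filter Topology

namespace Pool.Agent.TH38.ZT

open Pool.Agent.H496R3.ZS (Ell dl dl_apply permIso)
open Pool.Agent.H919R4.ZS

noncomputable section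

variable {G : Type} [Group G]

/-- right translation `(R k f)(h) = f (h k)` -/
def Rt (k : G) : L2 G →L[ℂ] L2 G := (permIso (Equiv.mulRight k)).toContinuousLinearMap

lemma Rt_apply (k : G) (f : L2 G) (h : G) : Rt k f h = f (h * k) := rfl

/-- the bounded operators commuting with the right translations -/
def comm : Subring (L2 G →L[ℂ] L2 G) := Subring.centralizer (Set.range (Rt (G := G)))

lemma isClosed_comm : IsClosed ((comm : Subring (L2 G →L[ℂ] L2 G)) : Set (L2 G →L[ℂ] L2 G)) := by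
  have h : ((comm : Subring (L2 G →L[ℂ] L2 G)) : Set (L2 G →L[ℂ] L2 G)) =
      ⋂ k : G, {T | Rt k * T = T * Rt k} := by
    ext T
    simp only [comm, Subring.coe_centralizer, Set.mem_iInter, Set.mem_ofPred_eq,
      Set.mem_centralizer_iff, Set.forall_mem_range]
  rw [h]
  exact isClosed_iInter fun k => isClosed_eq (continuous_const.mul continuous_id)
    (continuous_id.mul continuous_const)

lemma valR_comm (x : RedC G) : valR x ∈ (comm : Subring (L2 G →L[ℂ] L2 G)) := by
  have h : (Subtype.val (p := fun y => y ∈ redCstar G) x : Op G) ∈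
    closure ((groupRing G : Subring (Op G)) : Set (Op G)) := Subtype.property x
  have h3 : groupRing G ≤ (show Subring (Op G) from comm) := by
    refine Subring.closure_le.2 ?_
    rintro _ ⟨c, g, rfl⟩
    change (c • lregL g : L2 G →L[ℂ] L2 G) ∈ comm
    rw [comm, Subring.mem_centralizer_iff]
    rintro _ ⟨k, rfl⟩
    refine ContinuousLinearMap.ext fun f => ?_
    ext h
    change (c • lregL g f) (h * k) = c • (lregL g (Rt k f)) h
    change c * f (g⁻¹ * (h * k)) = c * f (g⁻¹ * h * k)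
    rw [mul_assoc]
  have h2 : ((groupRing G : Subring (Op G)) : Set (Op G)) ⊆
    (show Set (Op G) from ((comm : Subring (L2 G →L[ℂ] L2 G)) : Set (L2 G →L[ℂ] L2 G))) :=
    fun y hy => h3 hy
  have h4 := closure_mono h2 h
  have h5 : IsClosed (show Set (Op G) from
    ((comm : Subring (L2 G →L[ℂ] L2 G)) : Set (L2 G →L[ℂ] L2 G))) := isClosed_comm
  rw [h5.closure_eq] at h4
  exact h4

/-- evaluation at `g` -/
def ev (g : G) : L2 G →L[ℂ] ℂ :=
  LinearMap.mkContinuous
    { toFun := fun f => f g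
      map_add' := fun _ _ => rfl
      map_smul' := fun _ _ => rfl } 1 (fun f => by
        rw [one_mul]
        exact lp.norm_apply_le_norm (by norm_num) f g)

lemma ev_apply (g : G) (f : L2 G) : ev g f = f g := rfl

lemma comm_dl {T : L2 G →L[ℂ] L2 G} (hT : T ∈ (comm : Subring (L2 G →L[ℂ] L2 G))) (g h : G) :
    (T (dl g : L2 G)) h = (T (dl 1 : L2 G)) (h * g⁻¹) := by
  rw [comm, Subring.mem_centralizer_iff] at hT
  have h1 := hT (Rt g⁻¹) ⟨g⁻¹, rfl⟩
  have h2 : Rt g⁻¹ (dl 1 : L2 G) = (dl g : L2 G) := by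
    ext k
    rw [Rt_apply, dl_apply, dl_apply]
    by_cases hk : k = g
    · subst hk; rw [if_pos (by group), if_pos rfl]
    · rw [if_neg (fun e => hk (mul_inv_eq_one.1 e)), if_neg hk]
  have h3 : (Rt g⁻¹ * T) (dl 1 : L2 G) h = (T * Rt g⁻¹) (dl 1 : L2 G) h := by rw [h1]
  change (T (dl 1 : L2 G)) (h * g⁻¹) = (T (Rt g⁻¹ (dl 1 : L2 G))) h at h3
  rw [h2] at h3
  exact h3.symm

lemma hasSum_dl (v : L2 G) : HasSum (fun g : G => v g • (dl g : L2 G)) v := by
  classical
  have h := lp.hasSum_single (p := 2) (by norm_num) v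
  have h5 : (fun z : G => v z • (dl z : L2 G)) = fun z => lp.single 2 z (v z) := by
    funext z
    ext w
    rw [lp.coeFn_smul, Pi.smul_apply, dl_apply, smul_eq_mul]
    by_cases h : w = z
    · subst h; simp
    · rw [if_neg h, lp.single_apply_ne _ _ _ h, mul_zero]
  rw [h5]
  exact h

lemma hasSum_mul {S T : L2 G →L[ℂ] L2 G} (hS : S ∈ (comm : Subring (L2 G →L[ℂ] L2 G))) :
    HasSum (fun g : G => (T (dl 1 : L2 G)) g * (S (dl 1 : L2 G)) g⁻¹)
      (((S * T) (dl 1 : L2 G)) 1) := by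
  have h1 := (hasSum_dl (T (dl 1 : L2 G))).mapL ((ev 1).comp S)
  have h2 : ((ev 1).comp S) (T (dl 1 : L2 G)) = ((S * T) (dl 1 : L2 G)) 1 := rfl
  rw [h2] at h1
  have h3 : (fun g : G => (T (dl 1 : L2 G)) g * (S (dl 1 : L2 G)) g⁻¹) =
      fun g : G => ((ev 1).comp S) ((T (dl 1 : L2 G)) g • (dl g : L2 G)) := by
    funext g
    rw [map_smul, smul_eq_mul]
    change _ = _ * (S (dl g : L2 G)) 1
    rw [comm_dl hS g 1, one_mul]
  rw [h3]
  exact h1

lemma trace_comm {S T : L2 G →L[ℂ] L2 G} (hS : S ∈ (comm : Subring (L2 G →L[ℂ] L2 G)))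
    (hT : T ∈ (comm : Subring (L2 G →L[ℂ] L2 G))) :
    ((S * T) (dl 1 : L2 G)) 1 = ((T * S) (dl 1 : L2 G)) 1 := by
  have h1 := hasSum_mul (T := T) hS
  have h2 := hasSum_mul (T := S) hT
  have h3 : (fun g : G => (T (dl 1 : L2 G)) g * (S (dl 1 : L2 G)) g⁻¹) =
      (fun g : G => (S (dl 1 : L2 G)) g * (T (dl 1 : L2 G)) g⁻¹) ∘ (Equiv.inv G) := by
    funext g
    change _ = (S (dl 1 : L2 G)) g⁻¹ * (T (dl 1 : L2 G)) (g⁻¹)⁻¹
    rw [inv_inv, mul_comm]
  rw [h3] at h1
  exact ((Equiv.inv G).hasSum_iff.1 h1).unique h2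

/-- the canonical trace -/
theorem exists_trace (G : Type) [Group G] :
    ∃ τ : RedC G →+ ℂ, τ 1 = 1 ∧ ∀ x y, τ (x * y) = τ (y * x) := by
  refine ⟨{ toFun := fun x => (valR x (dl 1 : L2 G)) 1, map_zero' := ?_, map_add' := ?_ }, ?_, ?_⟩
  · rw [map_zero]; rfl
  · intro x y; rw [map_add]; rfl
  · change (valR (1 : RedC G) (dl 1 : L2 G)) 1 = 1
    rw [map_one]
    change (dl 1 : L2 G) 1 = 1
    rw [dl_apply, if_pos rfl]
  · intro x y
    change (valR (x * y) (dl 1 : L2 G)) 1 = (valR (y * x) (dl 1 : L2 G)) 1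
    rw [map_mul, map_mul]
    exact trace_comm (valR_comm x) (valR_comm y)

lemma tr_comm {A : Type*} [Ring A] (τ : A →+ ℂ) (hτ : ∀ x y, τ (x * y) = τ (y * x)) {a b : ℕ}
    (M : Matrix (Fin a) (Fin b) A) (N : Matrix (Fin b) (Fin a) A) :
    τ (M * N).trace = τ (N * M).trace := by
  simp only [Matrix.trace, Matrix.diag_apply, Matrix.mul_apply, map_sum]
  rw [Finset.sum_comm]
  exact Finset.sum_congr rfl fun i _ => Finset.sum_congr rfl fun j _ => hτ _ _

lemma tr_one {A : Type*} [Ring A] (τ : A →+ ℂ) (h1 : τ 1 = 1) (a : ℕ) :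
    τ (1 : Matrix (Fin a) (Fin a) A).trace = a := by
  rw [Matrix.trace_one, Fintype.card_fin]
  have : ((a : ℕ) : A) = a • (1 : A) := by rw [nsmul_eq_mul, mul_one]
  rw [this, map_nsmul, h1, nsmul_eq_mul, mul_one]

/-- the Euler characteristic -/
def euler {G : Type} [Group G] (X : FinRes G) : ℤ :=
  ∑ i ∈ Finset.range (X.len + 1), (-1) ^ i * (X.n i : ℤ)

/-- a finite free resolution with nonzero Euler characteristic does not become acyclic -/
theorem exists_of_euler {G : Type} [Group G] (X : FinRes G) (h : euler X ≠ 0) :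
    ∃ i ≤ X.len, Nontrivial (X.homology (toRed G) i) := by
  by_contra hcon
  push Not at hcon
  have hex : ∀ i ≤ X.len, ExAt X (toRed G) i := fun i hi =>
    (exAt_iff X _ i).2 (hcon i hi)
  obtain ⟨s, hs0, hs⟩ := contraction' X (toRed G) X.len hex
  obtain ⟨τ, h1, hτ⟩ := exists_trace G
  set a : ℕ → ℂ := fun i => τ (s i * (X.d i).map (toRed G)).trace with ha
  have h0 : (X.n 0 : ℂ) = a 0 := by
    rw [ha]
    change _ = τ (s 0 * (X.d 0).map (toRed G)).trace
    rw [hs0, tr_one τ h1]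
  have hsucc : ∀ i, i + 1 ≤ X.len → (X.n (i + 1) : ℂ) = a i + a (i + 1) := by
    intro i hi
    have h2 := congrArg (fun M => τ (Matrix.trace M)) (hs i hi)
    change τ ((X.d i).map (toRed G) * s i + s (i + 1) * (X.d (i + 1)).map (toRed G)).trace =
      τ (1 : Matrix (Fin (X.n (i + 1))) (Fin (X.n (i + 1))) (RedC G)).trace at h2
    rw [tr_one τ h1, Matrix.trace_add, map_add, tr_comm τ hτ] at h2
    exact h2.symm
  have hlast : a X.len = 0 := by
    rw [ha]
    change τ (s X.len * (X.d X.len).map (toRed G)).trace = 0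
    rw [tr_comm τ hτ]
    have h3 : X.n (X.len + 1) = 0 := X.n_eq_zero _ (Nat.lt_succ_self _)
    rw [Matrix.trace, Finset.sum_eq_zero, map_zero]
    intro j _
    have := j.2
    omega
  have key : ∀ k ≤ X.len, (∑ i ∈ Finset.range (k + 1), (-1 : ℂ) ^ i * (X.n i : ℂ)) =
      (-1) ^ k * a k := by
    intro k
    induction k with
    | zero => intro _; simp [h0]
    | succ k ih =>
      intro hk
      rw [Finset.sum_range_succ, ih (by omega), hsucc k hk]
      ring
  apply h
  have h4 := key X.len le_rfl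
  rw [hlast, mul_zero] at h4
  have h5 : ((euler X : ℤ) : ℂ) = 0 := by
    rw [euler]
    push_cast
    exact h4
  exact_mod_cast h5

end

end Pool.Agent.TH38.ZT
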