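import Pool.Agent.H79.LZ.TH38_ZT_Gen
import Pool.Agent.H79.LZ.TH38_ZT_Ring

/-!
A finite free resolution for a group `G` with an infinite cyclic normal subgroup `⟨z⟩` from one
for `G/⟨z⟩` (C. T. C. Wall's resolution for an extension), and its consequences for exactness
after a change of rings.
-/

set_option autoImplicit false
set_option linter.unusedSectionVars false

open scoped Matrix

namespace Pool.Agent.TH38.ZT

open Pool.Agent.H919R4.ZS MonoidAlgebra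

noncomputable section

variable {G : Type} [Group G] (z : G)


/-- the scalar matrix `z - 1` -/
def DD (a : ℕ) : Matrix (Fin a) (Fin a) (MonoidAlgebra ℤ G) := Matrix.diagonal fun _ => tt z

lemma mul_DD_cancel (hz : ¬ IsOfFinOrder z) {a b : ℕ}
    {M N : Matrix (Fin a) (Fin b) (MonoidAlgebra ℤ G)} (h : M * DD z b = N * DD z b) : M = N := by
  refine funext fun i => funext fun j => ?_
  have h1 : (M i j - N i j) * tt z = 0 := by
    have := congrFun (congrFun h i) j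
    rw [DD, Matrix.mul_diagonal, Matrix.mul_diagonal] at this
    rw [sub_mul, this, sub_self]
  exact sub_eq_zero.1 (mul_tt_eq_zero z hz h1)

lemma vec_DD_cancel (hz : ¬ IsOfFinOrder z) {b : ℕ} {x y : Fin b → MonoidAlgebra ℤ G}
    (h : x ᵥ* DD z b = y ᵥ* DD z b) : x = y := by
  funext j
  have h1 : (x j - y j) * tt z = 0 := by
    have := congrFun h j
    rw [DD, Matrix.vecMul_diagonal, Matrix.vecMul_diagonal] at this
    rw [sub_mul, this, sub_self]
  exact sub_eq_zero.1 (mul_tt_eq_zero z hz h1)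

variable [(Subgroup.zpowers z).Normal]

/-- the lifted data of the resolution `Y` -/
structure Lift (Y : FinRes (G ⧸ Subgroup.zpowers z)) where
  E : ∀ i, Matrix (Fin (Y.n (i + 1))) (Fin (Y.n i)) (MonoidAlgebra ℤ G)
  E' : ∀ i, Matrix (Fin (Y.n (i + 1))) (Fin (Y.n i)) (MonoidAlgebra ℤ G)
  h : ∀ i, Matrix (Fin (Y.n (i + 1 + 1))) (Fin (Y.n i)) (MonoidAlgebra ℤ G)
  hE : ∀ i, (E i).map (pr z) = Y.d i
  hh : ∀ i, E (i + 1) * E i = h i * DD z (Y.n i)
  hE' : ∀ i, DD z (Y.n (i + 1)) * E i = E' i * DD z (Y.n i)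

variable {z}

lemma ker_pr_mat {a b : ℕ} (M : Matrix (Fin a) (Fin b) (MonoidAlgebra ℤ G))
    (hM : M.map (pr z) = 0) :
    ∃ N : Matrix (Fin a) (Fin b) (MonoidAlgebra ℤ G), M = N * DD z b := by
  have h1 : ∀ i j, ∃ r', M i j = r' * tt z := fun i j =>
    ker_pr z (by have := congrFun (congrFun hM i) j; exact this)
  choose N hN using h1
  refine ⟨Matrix.of N, ?_⟩
  ext i j
  rw [DD, Matrix.mul_diagonal, hN i j]
  rfl

lemma ker_pr_vec {b : ℕ} (x : Fin b → MonoidAlgebra ℤ G)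
    (hx : ∀ j, pr z (x j) = 0) : ∃ y, x = y ᵥ* DD z b := by
  choose N hN using fun j => ker_pr z (hx j)
  refine ⟨N, funext fun j => ?_⟩
  rw [DD, Matrix.vecMul_diagonal]
  exact hN j

theorem exists_lift_data (Y : FinRes (G ⧸ Subgroup.zpowers z)) : Nonempty (Lift z Y) := by
  have hE0 : ∀ i, ∃ E : Matrix (Fin (Y.n (i + 1))) (Fin (Y.n i)) (MonoidAlgebra ℤ G),
      E.map (pr z) = Y.d i := by
    intro i
    choose E hE using fun k j => pr_surj z (Y.d i k j)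
    exact ⟨Matrix.of E, Matrix.ext fun k j => hE k j⟩
  choose E hE using hE0
  have hh0 : ∀ i, ∃ h : Matrix (Fin (Y.n (i + 1 + 1))) (Fin (Y.n i)) (MonoidAlgebra ℤ G),
      E (i + 1) * E i = h * DD z (Y.n i) := fun i => ker_pr_mat (z := z) _ (by
    rw [Matrix.map_mul, hE, hE, d_mul_d])
  choose h hh using hh0
  have hE0' : ∀ i, ∃ E' : Matrix (Fin (Y.n (i + 1))) (Fin (Y.n i)) (MonoidAlgebra ℤ G),
      DD z (Y.n (i + 1)) * E i = E' * DD z (Y.n i) := fun i => ker_pr_mat (z := z) _ (by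
    rw [Matrix.map_mul]
    have : (DD z (Y.n (i + 1))).map (pr z) = 0 := by
      ext1 k j
      change pr z (Matrix.diagonal (fun _ => tt z) k j) = 0
      by_cases hkj : k = j
      · subst hkj; rw [Matrix.diagonal_apply_eq, pr_tt]
      · rw [Matrix.diagonal_apply_ne _ hkj, map_zero]
    rw [this, Matrix.zero_mul])
  choose E' hE' using hE0'
  exact ⟨⟨E, E', h, hE, hh, hE'⟩⟩

namespace Lift

variable {Y : FinRes (G ⧸ Subgroup.zpowers z)} (L : Lift z Y)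

lemma comm_h (hz : ¬ IsOfFinOrder z) (i : ℕ) :
    L.E (i + 1 + 1) * L.h i = L.h (i + 1) * L.E' i := by
  apply mul_DD_cancel z hz
  rw [Matrix.mul_assoc, ← L.hh i, Matrix.mul_assoc, ← L.hE' i, ← Matrix.mul_assoc,
    ← Matrix.mul_assoc, L.hh (i + 1)]

lemma DD_h (hz : ¬ IsOfFinOrder z) (i : ℕ) :
    L.E' (i + 1) * L.E' i = DD z (Y.n (i + 1 + 1)) * L.h i := by
  apply mul_DD_cancel z hz
  rw [Matrix.mul_assoc, ← L.hE' i, ← Matrix.mul_assoc, ← L.hE' (i + 1), Matrix.mul_assoc, L.hh i,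
    Matrix.mul_assoc]

/-- the core of the exactness -/
lemma core (hz : ¬ IsOfFinOrder z) (i : ℕ) (a : Fin (Y.n (i + 1)) → MonoidAlgebra ℤ G)
    (b : Fin (Y.n i) → MonoidAlgebra ℤ G) (hab : a ᵥ* L.E i + b ᵥ* DD z (Y.n i) = 0) :
    ∃ c a', c ᵥ* L.E (i + 1) + a' ᵥ* DD z (Y.n (i + 1)) = a ∧ -(c ᵥ* L.h i) - a' ᵥ* L.E' i = b := by
  have hπ : ∀ {p q : ℕ} (x : Fin p → MonoidAlgebra ℤ G)
      (M : Matrix (Fin p) (Fin q) (MonoidAlgebra ℤ G)) j,
      pr z ((x ᵥ* M) j) = ((fun k => pr z (x k)) ᵥ* M.map (pr z)) j := by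
    intro p q x M j
    simp [Matrix.vecMul, dotProduct, map_sum]
  have h1 : (fun k => pr z (a k)) ᵥ* Y.d i = 0 := by
    funext j
    rw [← L.hE i, ← hπ]
    have h2 := congrArg (pr z) (congrFun hab j)
    rw [Pi.add_apply, map_add, DD, Matrix.vecMul_diagonal, map_mul, pr_tt, mul_zero, add_zero,
      Pi.zero_apply, map_zero] at h2
    exact h2
  obtain ⟨c0, hc0⟩ := (Y.exact_succ i _).1 h1
  choose c hc using fun k => pr_surj z (c0 k)
  obtain ⟨a', ha'⟩ := ker_pr_vec (z := z) (a - c ᵥ* L.E (i + 1)) (by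
    intro j
    rw [Pi.sub_apply, map_sub, hπ, L.hE, sub_eq_zero]
    have : (fun k => pr z (c k)) = c0 := funext hc
    rw [this, hc0])
  have e1 : c ᵥ* L.E (i + 1) + a' ᵥ* DD z (Y.n (i + 1)) = a := by rw [← ha']; abel
  refine ⟨c, a', e1, ?_⟩
  apply vec_DD_cancel z hz
  have e2 : b ᵥ* DD z (Y.n i) = -(a ᵥ* L.E i) := by
    rw [eq_neg_iff_add_eq_zero, add_comm]; exact hab
  rw [e2, ← e1, Matrix.sub_vecMul, Matrix.neg_vecMul, Matrix.add_vecMul, Matrix.vecMul_vecMul,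
    Matrix.vecMul_vecMul, Matrix.vecMul_vecMul, Matrix.vecMul_vecMul, ← L.hh i, ← L.hE' i]
  abel

end Lift

/-! ### the resolution -/

section vec

variable {S : Type*} [Ring S]

lemma split_vec {a b : ℕ} (x : Fin (a + b) → S) :
    x = Sum.elim (fun i => x (Fin.castAdd b i)) (fun i => x (Fin.natAdd a i)) ∘
      finSumFinEquiv.symm := by
  funext j
  obtain ⟨s, rfl⟩ := finSumFinEquiv.surjective j
  rw [Function.comp_apply, Equiv.symm_apply_apply]
  cases s with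
  | inl i => rw [finSumFinEquiv_apply_left]; rfl
  | inr i => rw [finSumFinEquiv_apply_right]; rfl

/-- joining two tuples -/
def jn {a b : ℕ} (x : Fin a → S) (y : Fin b → S) : Fin (a + b) → S :=
  Sum.elim x y ∘ finSumFinEquiv.symm

lemma jn_surj {a b : ℕ} (x : Fin (a + b) → S) : ∃ u v, x = jn u v := ⟨_, _, split_vec x⟩

lemma jn_inj {a b : ℕ} {x x' : Fin a → S} {y y' : Fin b → S} (h : jn x y = jn x' y') :
    x = x' ∧ y = y' := by
  constructor
  · funext i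
    have := congrFun h (finSumFinEquiv (Sum.inl i))
    simpa [jn] using this
  · funext i
    have := congrFun h (finSumFinEquiv (Sum.inr i))
    simpa [jn] using this

lemma jn_zero {a b : ℕ} : jn (0 : Fin a → S) (0 : Fin b → S) = 0 := by
  funext j
  obtain ⟨s, rfl⟩ := finSumFinEquiv.surjective j
  cases s <;> simp [jn]

lemma jn_rows {a b c : ℕ} (x : Fin a → S) (y : Fin b → S) (M : Matrix (Fin a) (Fin c) S)
    (N : Matrix (Fin b) (Fin c) S) :
    jn x y ᵥ* (Matrix.fromRows M N).submatrix finSumFinEquiv.symm id = x ᵥ* M + y ᵥ* N := by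
  rw [Matrix.submatrix_vecMul_equiv, Matrix.vecMul_fromRows]
  funext j
  simp [jn, Function.comp_def]

lemma jn_blocks {a b c d : ℕ} (x : Fin a → S) (y : Fin b → S) (A : Matrix (Fin a) (Fin c) S)
    (B : Matrix (Fin a) (Fin d) S) (C : Matrix (Fin b) (Fin c) S) (D : Matrix (Fin b) (Fin d) S) :
    jn x y ᵥ* (Matrix.fromBlocks A B C D).submatrix finSumFinEquiv.symm finSumFinEquiv.symm =
      jn (x ᵥ* A + y ᵥ* C) (x ᵥ* B + y ᵥ* D) := by
  rw [Matrix.submatrix_vecMul_equiv, Matrix.vecMul_fromBlocks]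
  funext j
  simp [jn, Function.comp_def]

end vec

section mats

variable {Y : FinRes (G ⧸ Subgroup.zpowers z)} (L : Lift z Y)

/-- the first differential -/
def dm0 : Matrix (Fin (Y.n 1 + Y.n 0)) (Fin (Y.n 0)) (MonoidAlgebra ℤ G) :=
  (Matrix.fromRows (L.E 0) (DD z (Y.n 0))).submatrix finSumFinEquiv.symm id

/-- the higher differentials -/
def dms (i : ℕ) : Matrix (Fin (Y.n (i + 1 + 1) + Y.n (i + 1))) (Fin (Y.n (i + 1) + Y.n i))
    (MonoidAlgebra ℤ G) :=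
  (Matrix.fromBlocks (L.E (i + 1)) (-(L.h i)) (DD z (Y.n (i + 1))) (-(L.E' i))).submatrix
      finSumFinEquiv.symm finSumFinEquiv.symm

lemma vec_dm0 (x : Fin (Y.n 1) → MonoidAlgebra ℤ G) (y : Fin (Y.n 0) → MonoidAlgebra ℤ G) :
    jn x y ᵥ* dm0 L = x ᵥ* L.E 0 + y ᵥ* DD z (Y.n 0) := jn_rows _ _ _ _

lemma vec_dms (i : ℕ) (x : Fin (Y.n (i + 1 + 1)) → MonoidAlgebra ℤ G)
    (y : Fin (Y.n (i + 1)) → MonoidAlgebra ℤ G) :
    jn x y ᵥ* dms L i = jn (x ᵥ* L.E (i + 1) + y ᵥ* DD z (Y.n (i + 1)))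
      (-(x ᵥ* L.h i) - y ᵥ* L.E' i) := by
  refine (jn_blocks _ _ _ _ _ _).trans ?_
  rw [Matrix.vecMul_neg, Matrix.vecMul_neg, sub_eq_add_neg]

variable {S : Type*} [Ring S] (φ : MonoidAlgebra ℤ G →+* S)

lemma dm0_map : (dm0 L).map φ = (Matrix.fromRows ((L.E 0).map φ)
    ((DD z (Y.n 0)).map φ)).submatrix finSumFinEquiv.symm id := by
  ext i j
  change φ (Matrix.fromRows (L.E 0) (DD z (Y.n 0)) (finSumFinEquiv.symm i) j) =
    Matrix.fromRows ((L.E 0).map φ) ((DD z (Y.n 0)).map φ) (finSumFinEquiv.symm i) j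
  cases finSumFinEquiv.symm i <;> rfl

lemma dms_map (i : ℕ) : (dms L i).map φ = (Matrix.fromBlocks ((L.E (i + 1)).map φ)
    (-((L.h i).map φ)) ((DD z (Y.n (i + 1))).map φ) (-((L.E' i).map φ))).submatrix
      finSumFinEquiv.symm finSumFinEquiv.symm := by
  ext k j
  change φ (Matrix.fromBlocks (L.E (i + 1)) (-(L.h i)) (DD z (Y.n (i + 1))) (-(L.E' i))
    (finSumFinEquiv.symm k) (finSumFinEquiv.symm j)) =
    Matrix.fromBlocks ((L.E (i + 1)).map φ) (-((L.h i).map φ)) ((DD z (Y.n (i + 1))).map φ)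
      (-((L.E' i).map φ)) (finSumFinEquiv.symm k) (finSumFinEquiv.symm j)
  rcases finSumFinEquiv.symm k with k | k <;> rcases finSumFinEquiv.symm j with j | j <;>
    simp [Matrix.fromBlocks_apply₁₁, Matrix.fromBlocks_apply₁₂, Matrix.fromBlocks_apply₂₁,
      Matrix.fromBlocks_apply₂₂, Matrix.neg_apply, map_neg]

lemma vec_dm0_map (x : Fin (Y.n 1) → S) (y : Fin (Y.n 0) → S) :
    jn x y ᵥ* (dm0 L).map φ = x ᵥ* (L.E 0).map φ + y ᵥ* (DD z (Y.n 0)).map φ := by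
  rw [dm0_map]
  exact jn_rows _ _ _ _

lemma vec_dms_map (i : ℕ) (x : Fin (Y.n (i + 1 + 1)) → S) (y : Fin (Y.n (i + 1)) → S) :
    jn x y ᵥ* (dms L i).map φ =
      jn (x ᵥ* (L.E (i + 1)).map φ + y ᵥ* (DD z (Y.n (i + 1))).map φ)
        (-(x ᵥ* (L.h i).map φ) - y ᵥ* (L.E' i).map φ) := by
  rw [dms_map]
  refine (jn_blocks _ _ _ _ _ _).trans ?_
  rw [Matrix.vecMul_neg, Matrix.vecMul_neg, sub_eq_add_neg]

lemma pr_vecMul {p q : ℕ} (x : Fin p → MonoidAlgebra ℤ G)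
    (M : Matrix (Fin p) (Fin q) (MonoidAlgebra ℤ G)) (j : Fin q) :
    pr z ((x ᵥ* M) j) = ((fun k => pr z (x k)) ᵥ* M.map (pr z)) j := by
  simp [Matrix.vecMul, dotProduct, map_sum]

lemma augm_pr (r : MonoidAlgebra ℤ G) : augm (G ⧸ Subgroup.zpowers z) (pr z r) = augm G r := by
  refine induction_linear r ?_ ?_ ?_
  · rw [map_zero, map_zero, map_zero]
  · intro x y hx hy
    rw [map_add, map_add, map_add, hx, hy]
  · intro g c
    rw [pr_single, augm_single, augm_single]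

lemma eps_pr (x : Fin (Y.n 0) → MonoidAlgebra ℤ G) :
    ∑ j, augm G (x j) * Y.aug j = eps Y (fun j => pr z (x j)) := by
  rw [eps]
  exact Finset.sum_congr rfl fun j _ => by rw [augm_pr]

lemma wall_surj : ∃ x : Fin (Y.n 0) → MonoidAlgebra ℤ G, ∑ j, augm G (x j) * Y.aug j = 1 := by
  obtain ⟨x, hx⟩ := Y.surj
  choose x' hx' using fun j => pr_surj z (x j)
  refine ⟨x', ?_⟩
  rw [eps_pr, funext hx']
  exact hx

lemma wall_zero (x : Fin (Y.n 0) → MonoidAlgebra ℤ G) :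
    ∑ j, augm G (x j) * Y.aug j = 0 ↔ ∃ y, y ᵥ* dm0 L = x := by
  constructor
  · intro h
    rw [eps_pr] at h
    obtain ⟨c0, hc0⟩ := (Y.exact_zero _).1 h
    choose c hc using fun k => pr_surj z (c0 k)
    obtain ⟨b, hb⟩ := ker_pr_vec (z := z) (x - c ᵥ* L.E 0) (by
      intro j
      rw [Pi.sub_apply, map_sub, pr_vecMul, L.hE, funext hc, hc0, sub_self])
    refine ⟨jn c b, ?_⟩
    rw [vec_dm0, ← hb]
    exact add_sub_cancel _ _
  · rintro ⟨y, rfl⟩
    obtain ⟨c, b, rfl⟩ := jn_surj y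
    have h4 : (fun j => pr z ((jn c b ᵥ* dm0 L) j)) = (fun k => pr z (c k)) ᵥ* Y.d 0 := by
      funext j
      rw [vec_dm0, Pi.add_apply, map_add, DD, Matrix.vecMul_diagonal, map_mul, pr_tt, mul_zero,
        add_zero, pr_vecMul, L.hE]
    rw [eps_pr, h4, eps_d]

lemma wall_one (hz : ¬ IsOfFinOrder z) (x : Fin (Y.n 1 + Y.n 0) → MonoidAlgebra ℤ G) :
    x ᵥ* dm0 L = 0 ↔ ∃ y, y ᵥ* dms L 0 = x := by
  constructor
  · intro hx
    obtain ⟨a, b, rfl⟩ := jn_surj x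
    rw [vec_dm0] at hx
    obtain ⟨c, a', h2, h3⟩ := L.core hz 0 a b hx
    exact ⟨jn c a', by rw [vec_dms, h2, h3]⟩
  · rintro ⟨y, rfl⟩
    obtain ⟨c, a', rfl⟩ := jn_surj y
    rw [vec_dms, vec_dm0, Matrix.sub_vecMul, Matrix.neg_vecMul, Matrix.add_vecMul,
      Matrix.vecMul_vecMul, Matrix.vecMul_vecMul, Matrix.vecMul_vecMul, Matrix.vecMul_vecMul,
      ← L.hh 0, ← L.hE' 0]
    abel

lemma wall_succ (hz : ¬ IsOfFinOrder z) (i : ℕ)
    (x : Fin (Y.n (i + 1 + 1) + Y.n (i + 1)) → MonoidAlgebra ℤ G) :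
    x ᵥ* dms L i = 0 ↔ ∃ y, y ᵥ* dms L (i + 1) = x := by
  constructor
  · intro hx
    obtain ⟨a, b, rfl⟩ := jn_surj x
    rw [vec_dms, ← jn_zero] at hx
    obtain ⟨c, a', h2, h3⟩ := L.core hz (i + 1) a b (jn_inj hx).1
    exact ⟨jn c a', by rw [vec_dms, h2, h3]⟩
  · rintro ⟨y, rfl⟩
    obtain ⟨c, a', rfl⟩ := jn_surj y
    rw [vec_dms, vec_dms, ← jn_zero]
    congr 1
    · rw [Matrix.sub_vecMul, Matrix.neg_vecMul, Matrix.add_vecMul, Matrix.vecMul_vecMul,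
        Matrix.vecMul_vecMul, Matrix.vecMul_vecMul, Matrix.vecMul_vecMul, ← L.hh (i + 1),
        ← L.hE' (i + 1)]
      abel
    · rw [Matrix.sub_vecMul, Matrix.neg_vecMul, Matrix.add_vecMul, Matrix.vecMul_vecMul,
        Matrix.vecMul_vecMul, Matrix.vecMul_vecMul, Matrix.vecMul_vecMul, L.comm_h hz,
        L.DD_h hz]
      abel

end mats

/-- the ranks -/
def nn (m : ℕ → ℕ) : ℕ → ℕ
  | 0 => m 0
  | i + 1 => m (i + 1) + m i

/-- the differentials -/
def dm {Y : FinRes (G ⧸ Subgroup.zpowers z)} (L : Lift z Y) :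
    ∀ i, Matrix (Fin (nn Y.n (i + 1))) (Fin (nn Y.n i)) (MonoidAlgebra ℤ G)
  | 0 => dm0 L
  | i + 1 => dms L i

/-- Wall's resolution -/
def wall (hz : ¬ IsOfFinOrder z) (Y : FinRes (G ⧸ Subgroup.zpowers z)) (L : Lift z Y) :
    FinRes G where
  len := Y.len + 1
  n := nn Y.n
  d := dm L
  aug := Y.aug
  n_eq_zero := by
    intro i hi
    cases i with
    | zero => omega
    | succ i =>
      change Y.n (i + 1) + Y.n i = 0
      rw [Y.n_eq_zero (i + 1) (by omega), Y.n_eq_zero i (by omega)]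
  surj := wall_surj
  exact_zero := wall_zero L
  exact_succ := fun i => match i with
    | 0 => wall_one L hz
    | i + 1 => wall_succ L hz i

end

end Pool.Agent.TH38.ZT
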