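import Pool.Agent.H79.LZ.W5h52_ZP_PD

/-!
Zero in the spectrum for extensions with amenable kernel: conclusion.
-/

set_option autoImplicit false
set_option linter.unusedSectionVars false

open scoped Matrix

namespace Pool.Agent.W5h52.ZP

open Pool.Agent.H919R4.ZS MonoidAlgebra
open Pool.Agent.TH38.ZT (ExAt exAt_iff euler exists_of_euler)
open Pool.Agent.R807.ZK (gmap rat rat_inj clear toRat toQuot coeff quot Back back_acyclic tor_of_rat
  augm_gmap gmap_surj)
open Pool.Agent.H496R3.ZS (IsAmenable)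

noncomputable section

section

variable {G Q : Type} [Group G] [Group Q]

lemma exists_denom {r : ℕ} (q : Fin r → ℚ) :
    ∃ M : ℤ, M ≠ 0 ∧ ∃ a : Fin r → ℤ, ∀ i, (M : ℚ) * q i = a i := by
  classical
  refine ⟨∏ i, ((q i).den : ℤ), Finset.prod_ne_zero_iff.2 fun i _ => by
    exact_mod_cast (q i).den_ne_zero,
    fun i => (∏ l ∈ Finset.univ.erase i, ((q l).den : ℤ)) * (q i).num, fun i => ?_⟩
  rw [← Finset.prod_erase_mul _ _ (Finset.mem_univ i)]
  push_cast
  rw [mul_assoc]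
  congr 1
  rw [mul_comm]
  exact_mod_cast Rat.mul_den_eq_num (q i)

/-- the rational homology in degree `k + 1` is spanned by finitely many cycles -/
def SpanAt {S : Type*} [Ring S] [Module ℚ S] (X : FinRes G) (φ : MonoidAlgebra ℤ G →+* S)
    (q : ℕ) : Prop :=
  ∃ (r : ℕ) (c : Fin r → Fin (X.n q) → S), (∀ i, c i ∈ X.cyc φ q) ∧
    ∀ x ∈ X.cyc φ q, ∃ (a : Fin r → ℚ) (y : Fin (X.n (q + 1)) → S),
      x = ∑ i, a i • c i + X.del φ q y

theorem finAt_of_span (X : FinRes G) (π : MonoidAlgebra ℤ G →+* MonoidAlgebra ℤ Q) (k : ℕ)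
    (h : SpanAt X ((rat Q).comp π) (k + 1)) : FinAt X π k := by
  have mm : ∀ {a b : ℕ} (M : Matrix (Fin a) (Fin b) (MonoidAlgebra ℤ G)),
      M.map ((rat Q).comp π) = (M.map π).map (rat Q) := fun M => rfl
  have vv : ∀ {a b : ℕ} (z : Fin a → MonoidAlgebra ℤ Q)
      (M : Matrix (Fin a) (Fin b) (MonoidAlgebra ℤ Q)),
      (fun j => rat Q ((z ᵥ* M) j)) = (fun k => rat Q (z k)) ᵥ* M.map (rat Q) := by
    intro a b z M
    funext j
    simp [Matrix.vecMul, dotProduct, map_sum]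
  obtain ⟨r, z, hzc, hspan⟩ := h
  replace hzc : ∀ i, z i ᵥ* (X.d k).map ((rat Q).comp π) = 0 := hzc
  replace hspan : ∀ x, x ᵥ* (X.d k).map ((rat Q).comp π) = 0 →
    ∃ (a : Fin r → ℚ) (y : Fin (X.n (k + 1 + 1)) → MonoidAlgebra ℚ Q),
      x = ∑ i, a i • z i + y ᵥ* (X.d (k + 1)).map ((rat Q).comp π) := hspan
  choose c hc c' hc' using fun i => clear (z i)
  refine ⟨r, c', fun i => ?_, fun x hx => ?_⟩
  · funext j
    refine rat_inj ?_
    have h1 := congrFun (vv (c' i) ((X.d k).map π)) j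
    rw [h1, funext (hc' i)]
    have h2 : (fun j => c i • z i j) = c i • z i := rfl
    rw [h2, Matrix.smul_vecMul]
    have h3 := hzc i
    rw [mm] at h3
    rw [h3, smul_zero]
    change 0 = rat Q 0
    rw [map_zero]
  · -- the class of x
    have hxc : (fun j => rat Q (x j)) ᵥ* (X.d k).map ((rat Q).comp π) = 0 := by
      rw [mm, ← vv, hx]
      funext j
      exact map_zero _
    obtain ⟨q, y, hy⟩ := hspan _ hxc
    obtain ⟨M, hM, a, ha⟩ := exists_denom (fun i => q i / (c i : ℚ))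
    obtain ⟨M', hM', y', hy'⟩ := clear y
    refine ⟨M' * M, mul_ne_zero hM' hM, fun i => M' * a i, M • y', ?_⟩
    funext j
    refine rat_inj ?_
    have h3 : rat Q (x j) = ∑ i, q i • z i j + (y ᵥ* (X.d (k + 1)).map ((rat Q).comp π)) j := by
      have h4 := congrFun hy j
      rw [Pi.add_apply, Finset.sum_apply] at h4
      exact h4
    have h5 : ∀ i, rat Q ((M' * a i) • c' i j) = ((M' * M : ℤ) : ℚ) • q i • z i j := by
      intro i
      rw [map_zsmul, hc' i j, ← Int.cast_smul_eq_zsmul ℚ, ← Int.cast_smul_eq_zsmul ℚ (c i),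
        smul_smul, smul_smul]
      congr 1
      have h6 := ha i
      have h7 : (c i : ℚ) ≠ 0 := by exact_mod_cast hc i
      push_cast
      rw [← h6]
      field_simp
    have h8 : rat Q (((M • y') ᵥ* (X.d (k + 1)).map π) j) =
        ((M' * M : ℤ) : ℚ) • (y ᵥ* (X.d (k + 1)).map ((rat Q).comp π)) j := by
      have h9 := congrFun (vv (M • y') ((X.d (k + 1)).map π)) j
      rw [h9]
      have h10 : (fun k => rat Q ((M • y') k)) = (M' * M) • y := by
        funext l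
        change rat Q (M • y' l) = (M' * M) • y l
        rw [map_zsmul, hy', smul_smul, mul_comm M]
      rw [h10, Matrix.smul_vecMul, Pi.smul_apply, mm, Int.cast_smul_eq_zsmul]
    change rat Q ((M' * M) • x j) = rat Q ((∑ i, (M' * a i) • c' i) j +
      ((M • y') ᵥ* (X.d (k + 1)).map π) j)
    rw [map_add, h8, map_zsmul, h3, Finset.sum_apply, map_sum, smul_add, Int.cast_smul_eq_zsmul]
    congr 1
    rw [Finset.smul_sum]
    refine Finset.sum_congr rfl fun i _ => ?_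
    have h11 := h5 i
    rw [Int.cast_smul_eq_zsmul] at h11
    exact h11.symm

end

/-- a group with `H^0(Q; ℓ²(Q)) = 0` is infinite -/
theorem infinite_of_van0 {Q : Type} [Group Q] (X : FinRes Q) (hV : Van2 X 0) : Infinite Q := by
  rcases finite_or_infinite Q with hfin | hinf
  swap
  · exact hinf
  exfalso
  have h1 : A (X.d 0) (fun j => (cst ((X.aug j : ℤ) : ℂ) : L2 Q)) = 0 := by
    funext i
    have e0 : (Pi.single i 1 : Fin (X.n 1) → MonoidAlgebra ℤ Q) ᵥ* X.d 0 = X.d 0 i := by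
      funext j; simp [Matrix.vecMul, dotProduct, Pi.single_apply]
    have e1 : eps X (X.d 0 i) = 0 := by rw [← e0, eps_d]
    simp only [A, act, Matrix.map_apply, L_cst]
    have e2 : ∀ j, ((augm Q (X.d 0 i j) : ℤ) : ℂ) • (cst ((X.aug j : ℤ) : ℂ) : L2 Q) =
        ((augm Q (X.d 0 i j) * X.aug j : ℤ) : ℂ) • (cst 1 : L2 Q) := by
      intro j
      ext h
      rw [lp.coeFn_smul, Pi.smul_apply, lp.coeFn_smul, Pi.smul_apply]
      change _ * _ = _ * (1 : ℂ)
      change _ * ((X.aug j : ℤ) : ℂ) = _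
      push_cast
      ring
    rw [Finset.sum_congr rfl (fun j _ => e2 j), ← Finset.sum_smul, ← Int.cast_sum]
    change ((eps X (X.d 0 i) : ℤ) : ℂ) • (cst 1 : L2 Q) = 0
    rw [e1]; simp
  have h2 := hV _ h1
  obtain ⟨x0, hx0⟩ := X.surj
  have h3 : ∀ j, X.aug j = 0 := by
    intro j
    have e := congrArg (fun v : L2 Q => v 1) (congrFun h2 j)
    change ((X.aug j : ℤ) : ℂ) = 0 at e
    exact_mod_cast e
  simp [h3] at hx0

section

variable {G : Type} [Group G] (N : Subgroup G) [N.Normal]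

/-- the consequences for the quotient -/
theorem conseq (hN : IsAmenable N) (X : FinRes G) (Y : FinRes (G ⧸ N)) (k : ℕ)
    (h1 : ∀ q, 1 ≤ q → q < k + 1 → Subsingleton (X.homology (toRat N) q))
    (h2 : SpanAt X (toRat N) (k + 1))
    (h : ∀ i ≤ k + 2, Subsingleton (X.homology (toRed G) i)) :
    (∀ i ≤ k + 2, Van2 Y i) ∧ ∀ i ≤ k + 1, ExAt Y (toRed (G ⧸ N)) i := by
  have hB : ∀ p ≤ k + 1, Back X Y (gmap (QuotientGroup.mk' N)) p := by
    intro p hp
    refine back_acyclic X Y _ (QuotientGroup.mk'_surjective N) p fun q hq => ?_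
    exact tor_of_rat X _ q ((exAt_iff X _ (q + 1)).2 (h1 (q + 1) (by omega) (by omega)))
  have hex : ∀ i ≤ k + 2, ExAt X (toRed G) i := fun i hi => (exAt_iff X _ i).2 (h i hi)
  have hq := coeff N hN X (k + 2) hex
  have hA := vanA_of_ex X (gmap (QuotientGroup.mk' N)) (k + 2) hq
  have hinf : Infinite (G ⧸ N) :=
    infinite_of_van0 Y (van_low (augm_gmap _) (hB 0 (by omega)) (hA 0 (by omega)))
  refine ⟨fun i hi => ?_, fun i hi => ?_⟩
  · rcases Nat.lt_or_ge i (k + 2) with h3 | h3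
    · exact van_low (augm_gmap _) (hB i (by omega)) (hA i hi)
    · obtain rfl : i = k + 2 := by omega
      exact van_top (augm_gmap _) (hB (k + 1) le_rfl) (finAt_of_span X _ k h2) (hA (k + 2) le_rfl)
  · exact quot N hN X Y i (hB i hi) fun j hj => hex j (by omega)

end

/-- acyclicity in all degrees -/
theorem all_of {Q : Type} [Group Q] (Y : FinRes Q) (m : ℕ) (hex : ∀ i ≤ m, ExAt Y (toRed Q) i)
    (hvan : Van2 Y (m + 1))
    (hY : Y.len ≤ m + 1 ∨ (Y.len ≤ 2 * m + 2 ∧ (∀ k < Y.len, Subsingleton (Y.cohomology k)) ∧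
      Nonempty (Y.cohomology Y.len ≃+ ℤ))) : ∀ i, ExAt Y (toRed Q) i := by
  by_cases hlen : Y.len ≤ m + 1
  · refine ex_all Y m hex (fun _ => 0) (fun i hi => ?_) hvan
    refine Matrix.ext fun r => ?_
    exact (Fin.cast (Y.n_eq_zero (i + 1) (by omega)) r).elim0
  · obtain ⟨h1, h2, ⟨θ⟩⟩ := hY.resolve_left hlen
    obtain ⟨N, hN⟩ : ∃ N, Y.len = N + 1 := ⟨Y.len - 1, by omega⟩
    rw [hN] at h2
    have θ' : Y.cohomology (N + 1) ≃+ ℤ := hN ▸ θ
    obtain ⟨w, hw, ⟨D⟩⟩ := exists_dualRes Y N hN h2 θ'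
    obtain ⟨t, ht⟩ := dual_contr D hN (toRed Q) (sharp w hw) (sharp_toRed w hw) m hex
    exact ex_all Y m hex t (fun i hi => ht i (by omega)) hvan

/-- the main theorem -/
theorem main' {G : Type} [Group G] (N : Subgroup G) [N.Normal] (hN : IsAmenable N)
    (X : FinRes G) (Y : FinRes (G ⧸ N)) (m : ℕ) (hm : 1 ≤ m)
    (h1 : ∀ q, 1 ≤ q → q < m → Subsingleton (X.homology (toRat N) q))
    (h2 : SpanAt X (toRat N) m)
    (hY : (∃ i ≤ m + 1, ¬ Van2 Y i) ∨
      ((Y.len ≤ m + 1 ∨ (Y.len ≤ 2 * m + 2 ∧ (∀ k < Y.len, Subsingleton (Y.cohomology k)) ∧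
        Nonempty (Y.cohomology Y.len ≃+ ℤ))) ∧
        (euler Y ≠ 0 ∨ ∃ i, Nontrivial (Y.homology (toRed (G ⧸ N)) i)))) :
    ∃ j ≤ m + 1, Nontrivial (X.homology (toRed G) j) := by
  obtain ⟨k, rfl⟩ : ∃ k, m = k + 1 := ⟨m - 1, by omega⟩
  by_contra hcon
  push Not at hcon
  obtain ⟨h3, h4⟩ := conseq N hN X Y k h1 h2 fun i hi => hcon i hi
  rcases hY with ⟨i, hi, h5⟩ | ⟨h5, h6⟩
  · exact h5 (h3 i hi)
  · have h7 := all_of Y (k + 1) h4 (h3 (k + 2) le_rfl) h5
    rcases h6 with h6 | ⟨i, h6⟩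
    · obtain ⟨i, _, hi⟩ := exists_of_euler Y h6
      exact not_nontrivial_iff_subsingleton.2 ((exAt_iff Y _ i).1 (h7 i)) hi
    · exact not_nontrivial_iff_subsingleton.2 ((exAt_iff Y _ i).1 (h7 i)) h6

end

end Pool.Agent.W5h52.ZP
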