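import Pool.Agent.H79.LZ.W5h52_ZP_ExtV

/-!
Complexes of free modules of finite rank, given by matrices, their cohomology with coefficients in a
module, and `Ext` groups of the cokernels.
-/

set_option autoImplicit false
set_option linter.unusedSectionVars false

open scoped Matrix

namespace Pool.Agent.W5h52.ZP

/-! ### matrices acting on columns with entries in a module -/

section

variable {R : Type} [Ring R] {A : Type} [AddCommGroup A] [Module R A] {a b c : ℕ}

/-- the action of a matrix on a column with entries in a module -/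
def mv (M : Matrix (Fin a) (Fin b) R) (v : Fin b → A) : Fin a → A := fun i => ∑ j, M i j • v j

lemma mv_mul (M : Matrix (Fin a) (Fin b) R) (N : Matrix (Fin b) (Fin c) R) (v : Fin c → A) :
    mv (M * N) v = mv M (mv N v) := by
  funext i
  simp only [mv, Matrix.mul_apply, Finset.sum_smul, Finset.smul_sum, mul_smul]
  exact Finset.sum_comm

lemma mv_add (M N : Matrix (Fin a) (Fin b) R) (v : Fin b → A) :
    mv (M + N) v = mv M v + mv N v := by
  funext i
  simp [mv, add_smul, Finset.sum_add_distrib]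

lemma mv_one (v : Fin a → A) : mv (1 : Matrix (Fin a) (Fin a) R) v = v := by
  funext i
  simp [mv, Matrix.one_apply, ite_smul]

lemma mv_zero (M : Matrix (Fin a) (Fin b) R) : mv M (0 : Fin b → A) = 0 := by
  funext i
  simp [mv]

/-- the homomorphism with given values on the standard basis -/
def lin (R : Type) [Ring R] {A : Type} [AddCommGroup A] [Module R A] {b : ℕ} (v : Fin b → A) :
    (Fin b → R) →ₗ[R] A where
  toFun x := ∑ j, x j • v j
  map_add' x y := by simp [add_smul, Finset.sum_add_distrib]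
  map_smul' r x := by simp [Finset.smul_sum, mul_smul]

lemma lin_apply (v : Fin b → A) (x : Fin b → R) : lin R v x = ∑ j, x j • v j := rfl

lemma lin_single (v : Fin b → A) (j : Fin b) : lin R v (Pi.single j 1) = v j := by
  rw [lin_apply, Finset.sum_eq_single j]
  · rw [Pi.single_eq_same, one_smul]
  · intro i _ hi
    rw [Pi.single_eq_of_ne hi, zero_smul]
  · intro h; exact absurd (Finset.mem_univ j) h

lemma lin_vecMul (v : Fin b → A) (x : Fin a → R) (M : Matrix (Fin a) (Fin b) R) :
    lin R v (x ᵥ* M) = lin R (mv M v) x := by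
  simp only [lin_apply, mv, Matrix.vecMul, dotProduct, Finset.sum_smul, Finset.smul_sum, mul_smul]
  exact Finset.sum_comm

lemma eq_lin (f : (Fin b → R) →ₗ[R] A) : f = lin R (fun j => f (Pi.single j 1)) := by
  refine LinearMap.ext fun x => ?_
  rw [lin_apply]
  have h : x = ∑ j, x j • (Pi.single j 1 : Fin b → R) := by
    funext i
    rw [Finset.sum_apply, Finset.sum_eq_single i]
    · rw [Pi.smul_apply, Pi.single_eq_same, smul_eq_mul, mul_one]
    · intro k _ hk
      rw [Pi.smul_apply, Pi.single_eq_of_ne (fun e => hk e.symm), smul_zero]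
    · intro h; exact absurd (Finset.mem_univ i) h
  conv_lhs => rw [h, map_sum]
  exact Finset.sum_congr rfl fun j _ => map_smul f _ _

lemma eq_of_lin {v w : Fin b → A} (h : lin R v = lin R w) : v = w := by
  funext j
  rw [← lin_single (R := R) v j, h, lin_single]

end

/-! ### complexes -/

/-- a complex of free modules of finite rank -/
structure MCx (R : Type) [Ring R] where
  n : ℕ → ℕ
  D : ∀ i, Matrix (Fin (n (i + 1))) (Fin (n i)) R
  dd : ∀ i, D (i + 1) * D i = 0

namespace MCx

variable {R : Type} [Ring R] (C : MCx R)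

/-- the modules -/
abbrev M (i : ℕ) : Type := Fin (C.n i) → R

/-- the differential -/
def d (i : ℕ) : C.M (i + 1) →ₗ[R] C.M i := (C.D i).vecMulLinear

lemma d_apply (i : ℕ) (x : C.M (i + 1)) : C.d i x = x ᵥ* C.D i := rfl

lemma d_d (i : ℕ) (x : C.M (i + 1 + 1)) : C.d i (C.d (i + 1) x) = 0 := by
  rw [d_apply, d_apply, Matrix.vecMul_vecMul, C.dd, Matrix.vecMul_zero]

/-- the boundaries -/
abbrev B (i : ℕ) : Submodule R (C.M i) := LinearMap.range (C.d i)

/-- the chains modulo the boundaries -/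
abbrev Q (i : ℕ) : Type := C.M i ⧸ C.B i

/-- the map induced by the differential -/
def dbar (i : ℕ) : C.Q (i + 1) →ₗ[R] C.M i :=
  (C.B (i + 1)).liftQ (C.d i) (by
    rintro _ ⟨x, rfl⟩
    exact C.d_d i x)

lemma dbar_mk (i : ℕ) (x : C.M (i + 1)) : C.dbar i (Submodule.Quotient.mk x) = C.d i x := rfl

/-- the homology in degree `i + 1` -/
abbrev H (i : ℕ) : Submodule R (C.Q (i + 1)) := LinearMap.ker (C.dbar i)

/-- the map from the chains modulo boundaries to the boundaries -/
def g (i : ℕ) : C.Q (i + 1) →ₗ[R] C.B i := (C.dbar i).codRestrict (C.B i) (by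
  intro q
  obtain ⟨x, rfl⟩ := Submodule.Quotient.mk_surjective _ q
  exact ⟨x, rfl⟩)

lemma g_coe (i : ℕ) (q : C.Q (i + 1)) : (C.g i q : C.M i) = C.dbar i q := rfl

lemma g_surj (i : ℕ) : Function.Surjective (C.g i) := by
  rintro ⟨y, x, rfl⟩
  exact ⟨Submodule.Quotient.mk x, Subtype.ext rfl⟩

lemma exact1 (i : ℕ) : Function.Exact (C.B i).subtype (C.B i).mkQ := by
  intro x
  rw [Submodule.mkQ_apply, Submodule.Quotient.mk_eq_zero]
  constructor
  · intro h; exact ⟨⟨x, h⟩, rfl⟩
  · rintro ⟨y, rfl⟩; exact y.2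

lemma exact2 (i : ℕ) : Function.Exact (C.H i).subtype (C.g i) := by
  intro x
  constructor
  · intro h
    have h1 : C.dbar i x = 0 := by rw [← C.g_coe, h]; rfl
    exact ⟨⟨x, h1⟩, rfl⟩
  · rintro ⟨y, rfl⟩
    exact Subtype.ext y.2

variable (A : Type) [AddCommGroup A] [Module R A]

/-- the cohomology in degree `j` with coefficients in `A` vanishes -/
def HV : ℕ → Prop
  | 0 => ∀ v : Fin (C.n 0) → A, mv (C.D 0) v = 0 → v = 0
  | j + 1 => ∀ v : Fin (C.n (j + 1)) → A, mv (C.D (j + 1)) v = 0 → ∃ w, mv (C.D j) w = v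

variable {A} {C}

lemma base0 (h : C.HV A 0) : EV (R := R) A 0 (C.Q 0) := by
  refine EV_zero_iff.2 fun f => ?_
  obtain ⟨v, hv⟩ : ∃ v, f.comp (C.B 0).mkQ = lin R v := ⟨_, eq_lin _⟩
  have h1 : mv (C.D 0) v = 0 := by
    refine eq_of_lin (R := R) (LinearMap.ext fun x => ?_)
    rw [← lin_vecMul, ← hv]
    have h2 : (C.B 0).mkQ (x ᵥ* C.D 0) = 0 :=
      (Submodule.Quotient.mk_eq_zero _).2 ⟨x, rfl⟩
    rw [LinearMap.comp_apply, h2, map_zero, lin_apply]
    simp
  have h2 : v = 0 := h v h1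
  refine LinearMap.ext fun q => ?_
  obtain ⟨x, rfl⟩ := Submodule.Quotient.mk_surjective _ q
  have h3 := congrArg (fun l => l x) hv
  rw [h2] at h3
  refine h3.trans ?_
  change lin R (0 : Fin (C.n 0) → A) x = 0
  rw [lin_apply]
  simp

lemma base1 (j : ℕ) (h : C.HV A (j + 1)) : EV (R := R) A 1 (C.Q j) := by
  refine EV_of_extend (C.B j).subtype (C.B j).mkQ (Submodule.subtype_injective _)
    (Submodule.mkQ_surjective _) (C.exact1 j) fun φ => ?_
  obtain ⟨v, hv⟩ : ∃ v, φ.comp (C.d j).rangeRestrict = lin R v := ⟨_, eq_lin _⟩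
  obtain ⟨w, hw⟩ := h v (by
    refine eq_of_lin (R := R) (LinearMap.ext fun x => ?_)
    rw [← lin_vecMul, ← hv]
    have h2 : (C.d j).rangeRestrict (x ᵥ* C.D (j + 1)) = 0 := Subtype.ext (C.d_d j x)
    rw [LinearMap.comp_apply, h2, map_zero, lin_apply]
    simp)
  refine ⟨lin R w, LinearMap.ext ?_⟩
  rintro ⟨y, x, rfl⟩
  change lin R w (x ᵥ* C.D j) = φ _
  rw [lin_vecMul, hw, ← hv]
  rfl

lemma step_down {n k : ℕ} (h1 : EV (R := R) A n (C.H k)) (h2 : EV (R := R) A (n + 1) (C.Q (k + 1))) :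
    EV (R := R) A (n + 2) (C.Q k) := by
  have h3 : EV (R := R) A (n + 1) (C.B k) := EV_right (C.H k).subtype (C.g k)
    (Submodule.subtype_injective _) (C.g_surj k) (C.exact2 k) h1 h2
  exact EV_right (C.B k).subtype (C.B k).mkQ (Submodule.subtype_injective _)
    (Submodule.mkQ_surjective _) (C.exact1 k) h3 (EV_proj (n + 1))

lemma step_up {n k : ℕ} (h1 : Subsingleton (C.H k)) (h2 : EV (R := R) A (n + 2) (C.Q k)) :
    EV (R := R) A (n + 1) (C.Q (k + 1)) := by
  have h3 : EV (R := R) A (n + 1) (C.B k) := EV_left (C.B k).subtype (C.B k).mkQ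
    (Submodule.subtype_injective _) (Submodule.mkQ_surjective _) (C.exact1 k) (EV_proj n) h2
  exact EV_mid (C.H k).subtype (C.g k)
    (Submodule.subtype_injective _) (C.g_surj k) (C.exact2 k) (EV_of_subsingleton _) h3

/-- from cohomology to `Ext` -/
theorem core (J : ℕ) (h : C.HV A (J + 1)) (hH : ∀ t k, t + (k + 1) = J → EV (R := R) A t (C.H k)) :
    EV (R := R) A (J + 1) (C.Q 0) := by
  have key : ∀ t k, t + k = J → EV (R := R) A (t + 1) (C.Q k) := by
    intro t
    induction t with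
    | zero =>
      intro k hk
      obtain rfl : k = J := by omega
      exact base1 k h
    | succ t ih =>
      intro k hk
      exact step_down (hH t k (by omega)) (ih (k + 1) (by omega))
  exact key J 0 (by omega)

lemma conv0 (h : EV (R := R) A 0 (C.Q 0)) : C.HV A 0 := by
  intro v hv
  have h1 : C.B 0 ≤ LinearMap.ker (lin R v) := by
    rintro _ ⟨x, rfl⟩
    change lin R v (x ᵥ* C.D 0) = 0
    rw [lin_vecMul, hv, lin_apply]
    simp
  have h2 := EV_zero_iff.1 h ((C.B 0).liftQ (lin R v) h1)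
  funext j
  rw [← lin_single (R := R) v j]
  exact congrArg (fun l => l (Submodule.Quotient.mk (Pi.single j 1))) h2

/-- from `Ext` to cohomology, for a resolution -/
theorem conv (hex : ∀ k, Subsingleton (C.H k)) (J : ℕ) (h : EV (R := R) A (J + 1) (C.Q 0)) :
    C.HV A (J + 1) := by
  have key : ∀ k t, t + k = J → EV (R := R) A (t + 1) (C.Q k) := by
    intro k
    induction k with
    | zero =>
      intro t ht
      obtain rfl : t = J := by omega
      exact h
    | succ k ih =>
      intro t ht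
      exact step_up (hex k) (ih (t + 1) (by omega))
  have h1 := key J 0 (by omega)
  intro v hv
  have h2 : C.B (J + 1) ≤ LinearMap.ker (lin R v) := by
    rintro _ ⟨x, rfl⟩
    change lin R v (x ᵥ* C.D (J + 1)) = 0
    rw [lin_vecMul, hv, lin_apply]
    simp
  have hinj : Function.Injective (C.g J) := by
    rw [injective_iff_map_eq_zero]
    intro q hq
    have h3 : C.dbar J q = 0 := by rw [← C.g_coe, hq]; rfl
    have := hex J
    exact congrArg Subtype.val (Subsingleton.elim (⟨q, h3⟩ : C.H J) 0)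
  set e := LinearEquiv.ofBijective (C.g J) ⟨hinj, C.g_surj J⟩ with he
  obtain ⟨ψ, hψ⟩ := extend_of_EV (C.B J).subtype (C.B J).mkQ (Submodule.subtype_injective _)
    (Submodule.mkQ_surjective _) (C.exact1 J) h1
    (((C.B (J + 1)).liftQ (lin R v) h2).comp (e.symm : C.B J →ₗ[R] C.Q (J + 1)))
  refine ⟨fun j => ψ (Pi.single j 1), ?_⟩
  refine eq_of_lin (R := R) (LinearMap.ext fun x => ?_)
  rw [← lin_vecMul, ← eq_lin ψ]
  have h4 := congrArg (fun l => l (⟨C.d J x, x, rfl⟩ : C.B J)) hψ
  refine h4.trans ?_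
  have h5 : e.symm (⟨C.d J x, x, rfl⟩ : C.B J) = Submodule.Quotient.mk x := by
    rw [LinearEquiv.symm_apply_eq]
    exact Subtype.ext rfl
  change (C.B (J + 1)).liftQ (lin R v) h2 (e.symm _) = _
  rw [h5]
  rfl

end MCx

/-! ### change of rings -/

/-- an `S`-module regarded as an `R`-module -/
def Res {R S : Type} [Ring R] [Ring S] (_ : R →+* S) (A : Type) : Type := A

section

variable {R S : Type} [Ring R] [Ring S] (ψ : R →+* S) (A : Type) [AddCommGroup A]

instance : AddCommGroup (Res ψ A) := inferInstanceAs (AddCommGroup A)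

instance [Module S A] : Module R (Res ψ A) := Module.compHom A ψ

variable {A} [Module S A]

lemma mv_res {a b : ℕ} (M : Matrix (Fin a) (Fin b) R) (v : Fin b → A) :
    mv M (A := Res ψ A) v = mv (M.map ψ) v := rfl

/-- the complex `S ⊗ C` is exact in a degree -/
def MCx.Ex (C : MCx R) (ψ : R →+* S) : ℕ → Prop
  | 0 => ∀ x : Fin (C.n 0) → S, ∃ y, y ᵥ* (C.D 0).map ψ = x
  | i + 1 => ∀ x : Fin (C.n (i + 1)) → S, x ᵥ* (C.D i).map ψ = 0 →
      ∃ y, y ᵥ* (C.D (i + 1)).map ψ = x

lemma aux0 {a b : ℕ} (s : Matrix (Fin a) (Fin b) S) (D : Matrix (Fin b) (Fin a) S)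
    (hs : s * D = 1) (v : Fin a → A) (hv : mv D v = 0) : v = 0 := by
  have h1 : mv (s * D) v = 0 := by rw [mv_mul, hv, mv_zero]
  rwa [hs, mv_one] at h1

lemma aux1 {a b c : ℕ} (D : Matrix (Fin b) (Fin a) S) (s : Matrix (Fin a) (Fin b) S)
    (s' : Matrix (Fin b) (Fin c) S) (D' : Matrix (Fin c) (Fin b) S)
    (hs : D * s + s' * D' = 1) (v : Fin b → A) (hv : mv D' v = 0) : ∃ w, mv D w = v := by
  have h1 : mv (D * s + s' * D') v = v := by rw [hs, mv_one]
  rw [mv_add, mv_mul, mv_mul, hv, mv_zero, add_zero] at h1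
  exact ⟨mv s v, h1⟩

/-- a contraction gives the vanishing of the cohomology -/
lemma HV_of_contr0 (C : MCx R) (s : Matrix (Fin (C.n 0)) (Fin (C.n 1)) S)
    (hs : s * (C.D 0).map ψ = 1) : C.HV (Res ψ A) 0 :=
  fun v hv => aux0 (A := A) s _ hs v hv

lemma HV_of_contr (C : MCx R) (j : ℕ) (s : Matrix (Fin (C.n j)) (Fin (C.n (j + 1))) S)
    (s' : Matrix (Fin (C.n (j + 1))) (Fin (C.n (j + 1 + 1))) S)
    (hs : (C.D j).map ψ * s + s' * (C.D (j + 1)).map ψ = 1) : C.HV (Res ψ A) (j + 1) :=
  fun v hv => aux1 (A := A) _ s s' _ hs v hv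

/-- the vanishing of the cohomology with coefficients in all `S`-modules gives exactness -/
theorem ex_of_HV (C : MCx R) (j : ℕ)
    (h : ∀ (A : Type) [AddCommGroup A] [Module S A], C.HV (Res ψ A) j) : C.Ex ψ j := by
  set T : Submodule S (Fin (C.n j) → S) := LinearMap.range ((C.D j).map ψ).vecMulLinear with hT
  set v : Fin (C.n j) → ((Fin (C.n j) → S) ⧸ T) := fun l => T.mkQ (Pi.single l 1) with hv
  have hlin : ∀ x : Fin (C.n j) → S, lin S v x = T.mkQ x := by
    intro x
    have h1 := eq_lin (R := S) T.mkQ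
    exact (congrArg (fun l => l x) h1).symm
  have hcoc : mv ((C.D j).map ψ) v = 0 := by
    refine eq_of_lin (R := S) (LinearMap.ext fun x => ?_)
    rw [← lin_vecMul, hlin]
    have h2 : T.mkQ (x ᵥ* (C.D j).map ψ) = 0 := (Submodule.Quotient.mk_eq_zero _).2 ⟨x, rfl⟩
    rw [h2, lin_apply]
    simp
  cases j with
  | zero =>
    intro x
    have h1 : v = 0 := h _ v hcoc
    have h2 : T.mkQ x = 0 := by
      rw [← hlin, h1, lin_apply]
      simp
    exact (Submodule.Quotient.mk_eq_zero _).1 h2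
  | succ j =>
    intro x hx
    obtain ⟨w, hw⟩ : ∃ w : Fin (C.n j) → ((Fin (C.n (j + 1)) → S) ⧸ T),
      mv ((C.D j).map ψ) w = v := h _ v hcoc
    have h2 : T.mkQ x = 0 := by
      rw [← hlin, ← hw, ← lin_vecMul, hx, map_zero]
    exact (Submodule.Quotient.mk_eq_zero _).1 h2

end

end Pool.Agent.W5h52.ZP
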