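import Pool.Agent.H79.LZ.W5h52_ZP_Top

/-!
Duality: a resolution whose dual complex is again a resolution, and the transfer of contractions
from low to high degrees.
-/

set_option autoImplicit false
set_option linter.unusedSectionVars false

open scoped Matrix
open MulOpposite

namespace Pool.Agent.W5h52.ZP

open Pool.Agent.H919R4.ZS MonoidAlgebra
open Pool.Agent.TH38.ZT (ExAt exAt_iff contraction' dep_seq zrows_zero zrows_succ eps_vecMul
  exists_homotopy)

section

variable {S : Type*} [Ring S] (J : S →+* Sᵐᵒᵖ) {a b c : ℕ}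

/-- the conjugate transpose with respect to an antihomomorphism -/
def dag (M : Matrix (Fin a) (Fin b) S) : Matrix (Fin b) (Fin a) S :=
  Matrix.of fun i j => unop (J (M j i))

lemma dag_apply (M : Matrix (Fin a) (Fin b) S) (i : Fin b) (j : Fin a) :
    dag J M i j = unop (J (M j i)) := rfl

lemma dag_mul (M : Matrix (Fin a) (Fin b) S) (N : Matrix (Fin b) (Fin c) S) :
    dag J (M * N) = dag J N * dag J M := by
  refine Matrix.ext fun i j => ?_
  rw [dag_apply, Matrix.mul_apply, Matrix.mul_apply, map_sum, Finset.unop_sum]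
  refine Finset.sum_congr rfl fun k _ => ?_
  rw [map_mul, unop_mul, dag_apply, dag_apply]

lemma dag_add (M N : Matrix (Fin a) (Fin b) S) : dag J (M + N) = dag J M + dag J N := by
  refine Matrix.ext fun i j => ?_
  rw [dag_apply, Matrix.add_apply, Matrix.add_apply, map_add, unop_add, dag_apply, dag_apply]

lemma dag_one : dag J (1 : Matrix (Fin a) (Fin a) S) = 1 := by
  refine Matrix.ext fun i j => ?_
  rw [dag_apply]
  by_cases h : i = j
  · subst h; rw [Matrix.one_apply_eq, map_one, unop_one]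
  · rw [Matrix.one_apply_ne h, Matrix.one_apply_ne (fun e => h e.symm), map_zero, unop_zero]

lemma dag_map {R : Type*} [Ring R] (JR : R →+* Rᵐᵒᵖ) (ψ : R →+* S)
    (h : ∀ r, J (ψ r) = op (ψ (unop (JR r)))) (M : Matrix (Fin a) (Fin b) R) :
    dag J (M.map ψ) = (dag JR M).map ψ := by
  refine Matrix.ext fun i j => ?_
  rw [dag_apply, Matrix.map_apply, h, unop_op]
  rfl

end

variable {Q : Type} [Group Q]

/-- the augmentation with given values on the basis -/
noncomputable def epsa {n : ℕ} (a : Fin n → ℤ) (u : Fin n → MonoidAlgebra ℤ Q) : ℤ :=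
  ∑ j, augm Q (u j) * a j

lemma epsa_vecMul {m n : ℕ} (a : Fin n → ℤ) (x : Fin m → MonoidAlgebra ℤ Q)
    (M : Matrix (Fin m) (Fin n) (MonoidAlgebra ℤ Q)) :
    epsa a (x ᵥ* M) = ∑ k, augm Q (x k) * epsa a (M k) := by
  simp only [epsa, Matrix.vecMul, dotProduct, map_sum, map_mul, Finset.sum_mul, Finset.mul_sum]
  rw [Finset.sum_comm]
  exact Finset.sum_congr rfl fun k _ => Finset.sum_congr rfl fun j _ => mul_assoc _ _ _

/-- the dual complex of a resolution of length `N + 1` is a resolution of the trivial module -/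
structure DualRes (Y : FinRes Q) (J : MonoidAlgebra ℤ Q →+* (MonoidAlgebra ℤ Q)ᵐᵒᵖ) (N : ℕ) where
  a : Fin (Y.n (N + 1)) → ℤ
  u0 : Fin (Y.n (N + 1)) → MonoidAlgebra ℤ Q
  hu0 : epsa a u0 = 1
  ker : ∀ u : Fin (Y.n (N + 1)) → MonoidAlgebra ℤ Q,
    epsa a u = 0 ↔ ∃ v, v ᵥ* dag J (Y.d N) = u
  ex : ∀ k, k + 1 ≤ N → ∀ u : Fin (Y.n (k + 1)) → MonoidAlgebra ℤ Q,
    u ᵥ* dag J (Y.d (k + 1)) = 0 → ∃ v, v ᵥ* dag J (Y.d k) = u

section

variable {Y : FinRes Q} {J : MonoidAlgebra ℤ Q →+* (MonoidAlgebra ℤ Q)ᵐᵒᵖ} {N : ℕ}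
  (D : DualRes Y J N)

/-- the condition used to continue the chain map to the dual complex -/
def G1 : ∀ j, (∀ k, j + k = N + 1 → Matrix (Fin (Y.n j)) (Fin (Y.n k)) (MonoidAlgebra ℤ Q)) → Prop
  | 0 => fun F => ∀ r, epsa D.a (F (N + 1) (Nat.zero_add _) r) = Y.aug r
  | j + 1 => fun F => ∀ k (h : j + 1 + k = N + 1), Y.d (j + 1) * F k h * dag J (Y.d k) = 0

/-- the chain map to the dual complex -/
theorem dualE : ∃ E : ∀ j k, j + k = N + 1 →
      Matrix (Fin (Y.n j)) (Fin (Y.n k)) (MonoidAlgebra ℤ Q),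
    (∀ r, epsa D.a (E 0 (N + 1) (Nat.zero_add _) r) = Y.aug r) ∧
      ∀ j k (h : j + k + 1 = N + 1), Y.d j * E j (k + 1) (by omega) =
        E (j + 1) k (by omega) * dag J (Y.d k) := by
  obtain ⟨f, hf0, hf⟩ := dep_seq
    (α := fun j => {F : ∀ k, j + k = N + 1 →
      Matrix (Fin (Y.n j)) (Fin (Y.n k)) (MonoidAlgebra ℤ Q) // G1 D j F})
    (fun j F F' => ∀ k (h : j + k + 1 = N + 1), Y.d j * F.1 (k + 1) (by omega) =
      F'.1 k (by omega) * dag J (Y.d k))
    ⟨fun k hk => (show N + 1 = k by omega) ▸ (Matrix.of fun r l => Y.aug r • D.u0 l), by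
      intro r
      change epsa D.a (fun l => Y.aug r • D.u0 l) = Y.aug r
      have h1 : ∀ l, augm Q (Y.aug r • D.u0 l) * D.a l = Y.aug r * (augm Q (D.u0 l) * D.a l) := by
        intro l
        rw [map_zsmul, smul_eq_mul, mul_assoc]
      rw [epsa, Finset.sum_congr rfl fun l _ => h1 l, ← Finset.mul_sum]
      change Y.aug r * epsa D.a D.u0 = Y.aug r
      rw [D.hu0, mul_one]⟩ (by
      rintro j ⟨F, hF⟩
      by_cases hj : j ≤ N
      · obtain ⟨k, hk⟩ : ∃ k, j + k + 1 = N + 1 := ⟨N - j, by omega⟩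
        obtain ⟨M', hM'⟩ : ∃ s : Matrix (Fin (Y.n (j + 1))) (Fin (Y.n k)) (MonoidAlgebra ℤ Q),
            s * dag J (Y.d k) = Y.d j * F (k + 1) (by omega) := by
          cases j with
          | zero =>
            obtain rfl : k = N := by omega
            refine exists_rows _ _ fun r => (D.ker _).1 ?_
            rw [Matrix.mul_apply_eq_vecMul, epsa_vecMul]
            have h1 := Pool.Agent.R807.ZK.eps_row Y r
            rw [← h1]
            exact Finset.sum_congr rfl fun l _ => by rw [hF l]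
          | succ j =>
            refine exists_rows _ _ fun r => D.ex k (by omega) _ ?_
            rw [← Matrix.mul_apply_eq_vecMul, hF (k + 1) (by omega)]
            rfl
        refine ⟨⟨fun k' h' => (show k = k' by omega) ▸ M', ?_⟩, ?_⟩
        · intro k' h'
          obtain rfl : k = k' := by omega
          change Y.d (j + 1) * M' * dag J (Y.d k) = 0
          rw [Matrix.mul_assoc, hM', ← Matrix.mul_assoc, d_mul_d, Matrix.zero_mul]
        · intro k' h'
          obtain rfl : k = k' := by omega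
          exact hM'.symm
      · refine ⟨⟨fun k' h' => absurd h' (by omega), ?_⟩, ?_⟩
        · intro k' h'; exact absurd h' (by omega)
        · intro k' h'; exact absurd h' (by omega))
  refine ⟨fun j => (f j).1, ?_, hf⟩
  exact (f 0).2

/-- the condition used to continue the chain map from the dual complex -/
def G2 : ∀ j, (∀ k, j + k = N + 1 → Matrix (Fin (Y.n k)) (Fin (Y.n j)) (MonoidAlgebra ℤ Q)) → Prop
  | 0 => fun F => ∀ l, eps Y (F (N + 1) (Nat.zero_add _) l) = D.a l
  | j + 1 => fun F => ∀ k (h : j + 1 + (k + 1) = N + 1), dag J (Y.d k) * F (k + 1) h * Y.d j = 0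

/-- the chain map from the dual complex -/
theorem dualE' : ∃ E : ∀ j k, j + k = N + 1 →
      Matrix (Fin (Y.n k)) (Fin (Y.n j)) (MonoidAlgebra ℤ Q),
    (∀ l, eps Y (E 0 (N + 1) (Nat.zero_add _) l) = D.a l) ∧
      ∀ j k (h : j + k + 1 = N + 1), dag J (Y.d k) * E j (k + 1) (by omega) =
        E (j + 1) k (by omega) * Y.d j := by
  obtain ⟨x0, hx0⟩ := Y.surj
  change eps Y x0 = 1 at hx0
  obtain ⟨f, hf0, hf⟩ := dep_seq
    (α := fun j => {F : ∀ k, j + k = N + 1 →
      Matrix (Fin (Y.n k)) (Fin (Y.n j)) (MonoidAlgebra ℤ Q) // G2 D j F})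
    (fun j F F' => ∀ k (h : j + k + 1 = N + 1), dag J (Y.d k) * F.1 (k + 1) (by omega) =
      F'.1 k (by omega) * Y.d j)
    ⟨fun k hk => (show N + 1 = k by omega) ▸ (fun l => D.a l • x0), by
      intro l
      change eps Y (D.a l • x0) = D.a l
      rw [eps_zsmul, hx0, mul_one]⟩ (by
      rintro j ⟨F, hF⟩
      by_cases hj : j ≤ N
      · obtain ⟨k, hk⟩ : ∃ k, j + k + 1 = N + 1 := ⟨N - j, by omega⟩
        obtain ⟨M', hM'⟩ : ∃ s : Matrix (Fin (Y.n k)) (Fin (Y.n (j + 1))) (MonoidAlgebra ℤ Q),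
            s * Y.d j = dag J (Y.d k) * F (k + 1) (by omega) := by
          cases j with
          | zero =>
            obtain rfl : k = N := by omega
            refine zrows_zero Y _ fun r => ?_
            rw [Matrix.mul_apply_eq_vecMul, eps_vecMul]
            have h1 : epsa D.a (dag J (Y.d k) r) = 0 :=
              (D.ker _).2 ⟨Pi.single r 1, Matrix.single_one_vecMul _ _⟩
            rw [← h1, epsa]
            exact Finset.sum_congr rfl fun l _ => by rw [hF l]
          | succ j =>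
            exact zrows_succ Y j _ (hF k (by omega))
        refine ⟨⟨fun k' h' => (show k = k' by omega) ▸ M', ?_⟩, ?_⟩
        · intro k' h'
          obtain rfl : k = k' + 1 := by omega
          change dag J (Y.d k') * M' * Y.d j = 0
          rw [Matrix.mul_assoc, hM', ← Matrix.mul_assoc, ← dag_mul, d_mul_d]
          have h0 : dag J (0 : Matrix (Fin (Y.n (k' + 1 + 1))) (Fin (Y.n k'))
              (MonoidAlgebra ℤ Q)) = 0 := by
            refine Matrix.ext fun i j => ?_
            rw [dag_apply, Matrix.zero_apply, map_zero, unop_zero]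
            rfl
          rw [h0, Matrix.zero_mul]
        · intro k' h'
          obtain rfl : k = k' := by omega
          exact hM'.symm
      · refine ⟨⟨fun k' h' => absurd h' (by omega), ?_⟩, ?_⟩
        · intro k' h'; exact absurd h' (by omega)
        · intro k' h'; exact absurd h' (by omega))
  refine ⟨fun j => (f j).1, ?_, hf⟩
  exact (f 0).2

/-- contractions in low degrees give contractions in high degrees -/
theorem dual_contr (D : DualRes Y J N) (hlen : Y.len = N + 1) {S : Type*} [Ring S] (ψ : MonoidAlgebra ℤ Q →+* S)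
    (JS : S →+* Sᵐᵒᵖ) (hJ : ∀ r, JS (ψ r) = op (ψ (unop (J r)))) (p : ℕ)
    (hex : ∀ i ≤ p, ExAt Y ψ i) :
    ∃ t : ∀ j, Matrix (Fin (Y.n j)) (Fin (Y.n (j + 1))) S, ∀ j, N + 1 ≤ j + 1 + p →
      (Y.d j).map ψ * t j + t (j + 1) * (Y.d (j + 1)).map ψ = 1 := by
  obtain ⟨s, hs0, hs⟩ := contraction' Y ψ p hex
  obtain ⟨E, hE0, hE⟩ := dualE D
  obtain ⟨E', hE0', hE'⟩ := dualE' D
  have hempty : ∀ j, N + 1 < j → Y.n j = 0 := fun j hj => Y.n_eq_zero j (by omega)
  have hP : ∀ j, ∃ P : Matrix (Fin (Y.n j)) (Fin (Y.n j)) (MonoidAlgebra ℤ Q),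
      ∀ k (h : j + k = N + 1), P = E j k h * E' j k h := by
    intro j
    by_cases hj : j ≤ N + 1
    · refine ⟨E j (N + 1 - j) (by omega) * E' j (N + 1 - j) (by omega), ?_⟩
      intro k h
      obtain rfl : k = N + 1 - j := by omega
      rfl
    · exact ⟨0, fun k h => absurd h (by omega)⟩
  choose P hP using hP
  obtain ⟨H, hH0, hH⟩ := exists_homotopy Y P (by
      intro r
      rw [hP 0 (N + 1) (Nat.zero_add _), Matrix.mul_apply_eq_vecMul, eps_vecMul, ← hE0 r, epsa]
      exact Finset.sum_congr rfl fun l _ => by rw [hE0' l]) (by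
      intro j
      by_cases hj : j ≤ N
      · obtain ⟨k, hk⟩ : ∃ k, j + k + 1 = N + 1 := ⟨N - j, by omega⟩
        rw [hP j (k + 1) (by omega), hP (j + 1) k (by omega), ← Matrix.mul_assoc, hE j k hk,
          Matrix.mul_assoc, hE' j k hk, ← Matrix.mul_assoc]
      · refine Matrix.ext fun r => ?_
        exact (Fin.cast (hempty (j + 1) (by omega)) r).elim0)
  have ht : ∀ j, ∃ T : Matrix (Fin (Y.n j)) (Fin (Y.n (j + 1))) S, ∀ k (h : j + k + 1 = N + 1),
      T = (E j (k + 1) (by omega)).map ψ * dag JS (s k) * (E' (j + 1) k (by omega)).map ψ -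
        (H j).map ψ := by
    intro j
    by_cases hj : j ≤ N
    · obtain ⟨k, hk⟩ : ∃ k, j + k + 1 = N + 1 := ⟨N - j, by omega⟩
      refine ⟨(E j (k + 1) (by omega)).map ψ * dag JS (s k) * (E' (j + 1) k (by omega)).map ψ -
        (H j).map ψ, ?_⟩
      intro k' hk'
      obtain rfl : k = k' := by omega
      rfl
    · exact ⟨0, fun k h => absurd h (by omega)⟩
  choose t ht using ht
  have m : ∀ {a b c : ℕ} (M : Matrix (Fin a) (Fin b) (MonoidAlgebra ℤ Q))
      (N : Matrix (Fin b) (Fin c) (MonoidAlgebra ℤ Q)), (M * N).map ψ = M.map ψ * N.map ψ :=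
    fun M N => Matrix.map_mul
  refine ⟨t, fun j hj => ?_⟩
  rcases Nat.lt_trichotomy j N with hjN | rfl | hjN
  · obtain ⟨k, hk⟩ : ∃ k, j + 1 + k + 1 = N + 1 := ⟨N - j - 1, by omega⟩
    rw [ht j (k + 1) (by omega), ht (j + 1) k (by omega)]
    have r1 : (Y.d j).map ψ * (E j (k + 1 + 1) (by omega)).map ψ =
        (E (j + 1) (k + 1) (by omega)).map ψ * dag JS ((Y.d (k + 1)).map ψ) := by
      rw [dag_map JS J ψ hJ, ← m, ← m, hE j (k + 1) (by omega)]
    have r2 : dag JS ((Y.d k).map ψ) * (E' (j + 1) (k + 1) (by omega)).map ψ =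
        (E' (j + 1 + 1) k (by omega)).map ψ * (Y.d (j + 1)).map ψ := by
      rw [dag_map JS J ψ hJ, ← m, ← m, hE' (j + 1) k (by omega)]
    have r3 : (E (j + 1) (k + 1) (by omega)).map ψ * (E' (j + 1) (k + 1) (by omega)).map ψ - 1 =
        (Y.d j).map ψ * (H j).map ψ + (H (j + 1)).map ψ * (Y.d (j + 1)).map ψ := by
      have := congrArg (fun M => Matrix.map M ψ) (hH j)
      rw [hP (j + 1) (k + 1) (by omega), Matrix.map_sub _ (map_sub ψ),
        Pool.Agent.TH38.ZT.map_one_mat, Matrix.map_add _ (map_add ψ), m, m, m] at this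
      exact this
    have r4 : dag JS (s k) * dag JS ((Y.d k).map ψ) +
        dag JS ((Y.d (k + 1)).map ψ) * dag JS (s (k + 1)) = 1 := by
      rw [← dag_mul, ← dag_mul, ← dag_add, hs k (by omega), dag_one]
    rw [Matrix.mul_sub, Matrix.sub_mul, ← Matrix.mul_assoc, ← Matrix.mul_assoc, r1,
      Matrix.mul_assoc _ (E' (j + 1 + 1) k _ |>.map ψ), ← r2]
    have r5 : (E (j + 1) (k + 1) (by omega)).map ψ * dag JS ((Y.d (k + 1)).map ψ) *
        dag JS (s (k + 1)) * (E' (j + 1) (k + 1) (by omega)).map ψ +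
        (E (j + 1) (k + 1) (by omega)).map ψ * dag JS (s k) *
          (dag JS ((Y.d k).map ψ) * (E' (j + 1) (k + 1) (by omega)).map ψ) =
        (E (j + 1) (k + 1) (by omega)).map ψ * (E' (j + 1) (k + 1) (by omega)).map ψ := by
      have r6 := congrArg (fun M => (E (j + 1) (k + 1) (by omega)).map ψ * M *
        (E' (j + 1) (k + 1) (by omega)).map ψ) r4
      simp only [Matrix.mul_one, Matrix.mul_add, Matrix.add_mul] at r6
      rw [← r6]
      simp only [Matrix.mul_assoc]
      exact add_comm _ _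
    have r7 : (E (j + 1) (k + 1) (by omega)).map ψ * (E' (j + 1) (k + 1) (by omega)).map ψ =
        ((Y.d j).map ψ * (H j).map ψ + (H (j + 1)).map ψ * (Y.d (j + 1)).map ψ) + 1 := by
      rw [← r3, sub_add_cancel]
    rw [sub_add_sub_comm, r5, r7, add_sub_cancel_left]
  · have hz : ∀ {a : ℕ} (M : Matrix (Fin a) (Fin (Y.n (j + 1 + 1))) S)
        (M' : Matrix (Fin (Y.n (j + 1 + 1))) (Fin a) S), M * M' = 0 := by
      intro a M M'
      refine Matrix.ext fun r l => ?_
      rw [Matrix.mul_apply]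
      refine Finset.sum_eq_zero fun x _ => ?_
      exact (Fin.cast (hempty (j + 1 + 1) (by omega)) x).elim0
    rw [hz (t (j + 1)), add_zero, ht j 0 (by omega)]
    have r1 : (Y.d j).map ψ * (E j (0 + 1) (by omega)).map ψ =
        (E (j + 1) 0 (by omega)).map ψ * dag JS ((Y.d 0).map ψ) := by
      rw [dag_map JS J ψ hJ, ← m, ← m, hE j 0 (by omega)]
    have r3 : (E (j + 1) 0 (by omega)).map ψ * (E' (j + 1) 0 (by omega)).map ψ - 1 =
        (Y.d j).map ψ * (H j).map ψ := by
      have := congrArg (fun M => Matrix.map M ψ) (hH j)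
      rw [hP (j + 1) 0 (by omega), Matrix.map_sub _ (map_sub ψ),
        Pool.Agent.TH38.ZT.map_one_mat, Matrix.map_add _ (map_add ψ), m, m, m, hz] at this
      exact this.trans (add_zero _)
    have r4 : dag JS ((Y.d 0).map ψ) * dag JS (s 0) = 1 := by
      rw [← dag_mul, hs0, dag_one]
    rw [Matrix.mul_sub, ← Matrix.mul_assoc, ← Matrix.mul_assoc, r1,
      Matrix.mul_assoc (E (j + 1) 0 _ |>.map ψ), r4, Matrix.mul_one, ← r3, sub_sub_cancel]
  · refine Matrix.ext fun r => ?_
    exact (Fin.cast (hempty (j + 1) (by omega)) r).elim0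

end

end Pool.Agent.W5h52.ZP
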