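import Mathlib

/-!
Vanishing of `Ext` groups of modules, and matrix complexes.
-/

set_option autoImplicit false
set_option linter.unusedSectionVars false

open CategoryTheory CategoryTheory.Abelian
open scoped Matrix

namespace Pool.Agent.W5h52.ZP

section

variable {R : Type} [Ring R] (A : Type) [AddCommGroup A] [Module R A]

/-- `Ext^n(M, A) = 0` -/
def EV (n : ℕ) (M : Type) [AddCommGroup M] [Module R M] : Prop :=
  Subsingleton (Ext.{0} (ModuleCat.of R M) (ModuleCat.of R A) n)

variable {A} {M M' M'' : Type} [AddCommGroup M] [Module R M] [AddCommGroup M'] [Module R M']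
  [AddCommGroup M''] [Module R M'']

lemma ses (f : M' →ₗ[R] M) (g : M →ₗ[R] M'') (hf : Function.Injective f)
    (hg : Function.Surjective g) (h : Function.Exact f g) :
    (ModuleCat.shortComplexOfCompEqZero f g h.linearMap_comp_eq_zero).ShortExact :=
  ModuleCat.shortComplex_shortExact _ h hf hg

lemma EV_mid {n : ℕ} (f : M' →ₗ[R] M) (g : M →ₗ[R] M'') (hf : Function.Injective f)
    (hg : Function.Surjective g) (h : Function.Exact f g) (h' : EV (R := R) A n M')
    (h'' : EV (R := R) A n M'') : EV (R := R) A n M := by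
  unfold EV at *
  refine subsingleton_of_forall_eq 0 fun x => ?_
  obtain ⟨y, hy⟩ := Ext.contravariant_sequence_exact₂ (ses f g hf hg h) (ModuleCat.of R A) x
    (Subsingleton.elim _ _)
  have h0 : y = 0 := Subsingleton.elim _ _
  rw [← hy, h0, Ext.comp_zero]

lemma EV_right {n : ℕ} (f : M' →ₗ[R] M) (g : M →ₗ[R] M'') (hf : Function.Injective f)
    (hg : Function.Surjective g) (h : Function.Exact f g) (h' : EV (R := R) A n M')
    (h'' : EV (R := R) A (n + 1) M) : EV (R := R) A (n + 1) M'' := by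
  unfold EV at *
  refine subsingleton_of_forall_eq 0 fun x => ?_
  obtain ⟨y, hy⟩ := Ext.contravariant_sequence_exact₃ (ses f g hf hg h) (ModuleCat.of R A) x
    (Subsingleton.elim _ _) (n₀ := n) (add_comm 1 n)
  have h0 : y = 0 := Subsingleton.elim _ _
  rw [← hy, h0, Ext.comp_zero]

lemma EV_left {n : ℕ} (f : M' →ₗ[R] M) (g : M →ₗ[R] M'') (hf : Function.Injective f)
    (hg : Function.Surjective g) (h : Function.Exact f g) (h' : EV (R := R) A n M)
    (h'' : EV (R := R) A (n + 1) M'') : EV (R := R) A n M' := by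
  unfold EV at *
  refine subsingleton_of_forall_eq 0 fun x => ?_
  obtain ⟨y, hy⟩ := Ext.contravariant_sequence_exact₁ (ses f g hf hg h) (ModuleCat.of R A) x
    (add_comm 1 n) (Subsingleton.elim _ _)
  have h0 : y = 0 := Subsingleton.elim _ _
  rw [← hy, h0, Ext.comp_zero]

lemma EV_proj [Module.Projective R M] (n : ℕ) : EV (R := R) A (n + 1) M :=
  Ext.subsingleton_of_projective (ModuleCat.of R M) (ModuleCat.of R A) n

lemma EV_zero_iff : EV (R := R) A 0 M ↔ ∀ f : M →ₗ[R] A, f = 0 := by
  constructor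
  · intro h f
    have h1 : Subsingleton (Ext.{0} (ModuleCat.of R M) (ModuleCat.of R A) 0) := h
    have h2 : ModuleCat.ofHom f = 0 :=
      (Ext.addEquiv₀ (X := ModuleCat.of R M) (Y := ModuleCat.of R A)).symm.injective
        (Subsingleton.elim _ _)
    have h3 := congrArg ModuleCat.Hom.hom h2
    exact h3
  · intro h
    refine subsingleton_of_forall_eq 0 fun x => ?_
    rw [← Ext.mk₀_addEquiv₀_apply x]
    have h1 : (Ext.addEquiv₀ x : ModuleCat.of R M ⟶ ModuleCat.of R A) = 0 :=
      ModuleCat.hom_ext (h _)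
    rw [h1, Ext.mk₀_zero]

lemma EV_of_subsingleton [Subsingleton M] (n : ℕ) : EV (R := R) A n M := by
  cases n with
  | zero =>
    exact EV_zero_iff.2 fun f => LinearMap.ext fun x => by
      rw [Subsingleton.elim x 0, map_zero, map_zero]
  | succ n =>
    have : Module.Projective R M := Module.Projective.of_free
    exact EV_proj n

lemma EV_congr (e : M ≃ₗ[R] M') {n : ℕ} (h : EV (R := R) A n M') : EV (R := R) A n M :=
  EV_mid (M' := PUnit) (0 : PUnit →ₗ[R] M) (e : M →ₗ[R] M')
    (fun _ _ _ => rfl) e.surjective (fun x => by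
      constructor
      · intro hx
        refine ⟨PUnit.unit, ?_⟩
        rw [LinearMap.zero_apply]
        exact (e.map_eq_zero_iff.1 hx).symm
      · rintro ⟨y, rfl⟩
        rw [LinearMap.zero_apply, map_zero]) (EV_of_subsingleton n) h

/-- vanishing of `Ext^1` gives extensions of homomorphisms -/
lemma extend_of_EV (f : M' →ₗ[R] M) (g : M →ₗ[R] M'') (hf : Function.Injective f)
    (hg : Function.Surjective g) (h : Function.Exact f g) (h1 : EV (R := R) A 1 M'')
    (φ : M' →ₗ[R] A) : ∃ ψ : M →ₗ[R] A, ψ.comp f = φ := by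
  unfold EV at h1
  obtain ⟨y, hy⟩ := Ext.contravariant_sequence_exact₁ (ses f g hf hg h) (ModuleCat.of R A)
    (Ext.mk₀ (ModuleCat.ofHom φ)) (n₁ := 1) rfl (Subsingleton.elim _ _)
  refine ⟨(Ext.addEquiv₀ y).hom, ?_⟩
  rw [← Ext.mk₀_addEquiv₀_apply y, Ext.mk₀_comp_mk₀] at hy
  have h2 := (Ext.addEquiv₀ (X := ModuleCat.of R M') (Y := ModuleCat.of R A)).symm.injective hy
  have h3 := congrArg ModuleCat.Hom.hom h2
  exact h3

/-- extensions of homomorphisms give the vanishing of `Ext^1` -/
lemma EV_of_extend [Module.Projective R M] (f : M' →ₗ[R] M) (g : M →ₗ[R] M'')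
    (hf : Function.Injective f) (hg : Function.Surjective g) (h : Function.Exact f g)
    (hext : ∀ φ : M' →ₗ[R] A, ∃ ψ : M →ₗ[R] A, ψ.comp f = φ) : EV (R := R) A 1 M'' := by
  refine subsingleton_of_forall_eq 0 fun x => ?_
  obtain ⟨y, hy⟩ := Ext.contravariant_sequence_exact₃ (ses f g hf hg h) (ModuleCat.of R A) x
    ((EV_proj (R := R) (M := M) (A := A) 0).elim _ _) (n₀ := 0) rfl
  obtain ⟨ψ, hψ⟩ := hext (Ext.addEquiv₀ y).hom
  have h1 : y = (Ext.mk₀ (ModuleCat.ofHom f)).comp (Ext.mk₀ (ModuleCat.ofHom ψ)) (zero_add 0) := by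
    rw [Ext.mk₀_comp_mk₀, ← Ext.mk₀_addEquiv₀_apply y]
    congr 1
    exact ModuleCat.hom_ext hψ.symm
  rw [← hy, h1]
  exact (ses f g hf hg h).extClass_comp_assoc _

end

end Pool.Agent.W5h52.ZP
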