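import Pool.Agent.H79.LZ.W5h52_ZP_Dual

/-!
The antiinvolutions of the integral group ring and of the reduced group C*-algebra attached to a
character with values `±1`.
-/

set_option autoImplicit false
set_option linter.unusedSectionVars false

open scoped Matrix ENNReal
open MulOpposite

namespace Pool.Agent.W5h52.ZP

open Pool.Agent.H919R4.ZS MonoidAlgebra
open Pool.Agent.H496R3.ZS (Ell permIso)
open Pool.Agent.H919R4.AS (Mult)

noncomputable section

variable {Q : Type} [Group Q] (w : Q →* ℤ)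

/-- `g ↦ w(g) g⁻¹` -/
def antiHom : Q →* (MonoidAlgebra ℤ Q)ᵐᵒᵖ where
  toFun g := op (single g⁻¹ (w g))
  map_one' := by rw [inv_one, map_one]; rfl
  map_mul' g h := by
    rw [← op_mul, single_mul_single, mul_inv_rev, map_mul, mul_comm (w g)]

/-- the antiinvolution `g ↦ w(g) g⁻¹` of the integral group ring -/
def anti : MonoidAlgebra ℤ Q →+* (MonoidAlgebra ℤ Q)ᵐᵒᵖ :=
  MonoidAlgebra.liftNCRingHom (Int.castRingHom _) (antiHom w)
    (fun x y => Int.cast_commute x (antiHom w y))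

lemma anti_single (g : Q) (c : ℤ) : unop (anti w (single g c)) = single g⁻¹ (c * w g) := by
  rw [anti, liftNCRingHom_single]
  change unop (((c : ℤ) : (MonoidAlgebra ℤ Q)ᵐᵒᵖ) * op (single g⁻¹ (w g))) = _
  rw [← zsmul_eq_mul, unop_smul, unop_op, smul_single, smul_eq_mul]

lemma anti_anti (r : MonoidAlgebra ℤ Q) : unop (anti w (unop (anti w r))) = r := by
  refine induction_linear r ?_ ?_ ?_
  · rw [map_zero, unop_zero, map_zero, unop_zero]
  · intro x y hx hy
    rw [map_add, unop_add, map_add, unop_add, hx, hy]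
  · intro g c
    rw [anti_single, anti_single, inv_inv, mul_assoc, ← map_mul, mul_inv_cancel, map_one, mul_one]

variable (hw : ∀ g, w g * w g = 1)

lemma norm_w (hw : ∀ g, w g * w g = 1) (g : Q) : ‖((w g : ℤ) : ℂ)‖ = 1 := by
  rcases mul_self_eq_one_iff.1 (hw g) with h | h
  · rw [h]; simp
  · rw [h]; simp

/-- multiplication by `w` -/
def U : L2 Q →L[ℂ] L2 Q := (Mult.mulIso (fun g => ((w g : ℤ) : ℂ)) (norm_w w hw)).toContinuousLinearMap

lemma U_apply (f : L2 Q) (g : Q) : U w hw f g = ((w g : ℤ) : ℂ) * f g := rfl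

lemma U_U : U w hw * U w hw = 1 := by
  refine ContinuousLinearMap.ext fun f => ?_
  ext g
  change ((w g : ℤ) : ℂ) * (((w g : ℤ) : ℂ) * f g) = f g
  rw [← mul_assoc, ← Int.cast_mul, hw, Int.cast_one, one_mul]

/-- the twisted adjoint -/
def Ph (T : L2 Q →L[ℂ] L2 Q) : L2 Q →L[ℂ] L2 Q := U w hw * star T * U w hw

lemma Ph_mul (S T : L2 Q →L[ℂ] L2 Q) : Ph w hw (S * T) = Ph w hw T * Ph w hw S := by
  have h : Ph w hw T * Ph w hw S = U w hw * star T * (U w hw * U w hw) * star S * U w hw := by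
    simp only [Ph, mul_assoc]
  rw [h, U_U, mul_one, Ph, star_mul]
  simp only [mul_assoc]

lemma Ph_one : Ph w hw 1 = 1 := by rw [Ph, star_one, mul_one, U_U]

lemma Ph_add (S T : L2 Q →L[ℂ] L2 Q) : Ph w hw (S + T) = Ph w hw S + Ph w hw T := by
  rw [Ph, star_add, mul_add, add_mul]; rfl

lemma Ph_zero : Ph w hw 0 = 0 := by rw [Ph, star_zero, mul_zero, zero_mul]

lemma Ph_neg (S : L2 Q →L[ℂ] L2 Q) : Ph w hw (-S) = - Ph w hw S := by
  rw [Ph, star_neg, mul_neg, neg_mul]; rfl

lemma star_lregL (g : Q) : star (lregL g : L2 Q →L[ℂ] L2 Q) = lregL g⁻¹ := by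
  rw [ContinuousLinearMap.star_eq_adjoint]
  refine ((ContinuousLinearMap.eq_adjoint_iff _ _).2 fun x y => ?_).symm
  have h1 := (permIso (Equiv.mulLeft g⁻¹) : Ell Q →ₗᵢ[ℂ] Ell Q).inner_map_map
    (lregL g⁻¹ x : L2 Q) y
  have h2 : (permIso (Equiv.mulLeft g⁻¹) : Ell Q →ₗᵢ[ℂ] Ell Q) (lregL g⁻¹ x : L2 Q) = x := by
    ext h
    change x (g⁻¹⁻¹ * (g⁻¹ * h)) = x h
    rw [inv_inv, mul_inv_cancel_left]
  rw [h2] at h1
  exact h1.symm

lemma Ph_smul (c : ℂ) (g : Q) :
    Ph w hw (c • lregL g) = (starRingEnd ℂ c * ((w g : ℤ) : ℂ)) • lregL g⁻¹ := by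
  rw [Ph, star_smul, star_lregL]
  refine ContinuousLinearMap.ext fun f => ?_
  ext h
  change ((w h : ℤ) : ℂ) * ((starRingEnd ℂ c) * (((w (g⁻¹⁻¹ * h) : ℤ) : ℂ) * f (g⁻¹⁻¹ * h))) =
    (starRingEnd ℂ c * ((w g : ℤ) : ℂ)) * f (g⁻¹⁻¹ * h)
  have h1 : ((w h : ℤ) : ℂ) * ((w h : ℤ) : ℂ) = 1 := by rw [← Int.cast_mul, hw, Int.cast_one]
  rw [inv_inv, map_mul, Int.cast_mul]
  linear_combination (starRingEnd ℂ c * ((w g : ℤ) : ℂ) * f (g * h)) * h1

lemma Ph_cont : Continuous (Ph w hw) :=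
  (continuous_const.mul continuous_star).mul continuous_const

lemma Ph_mem (x : RedC Q) : (show Op Q from Ph w hw (valR x)) ∈ redCstar Q := by
  have h : (Subtype.val (p := fun y => y ∈ redCstar Q) x : Op Q) ∈
    closure ((groupRing Q : Subring (Op Q)) : Set (Op Q)) := Subtype.property x
  have h3 : ∀ y ∈ groupRing Q, (show Op Q from Ph w hw y) ∈ groupRing Q := by
    intro y hy
    refine Subring.closure_induction (p := fun y _ => (show Op Q from Ph w hw y) ∈ groupRing Q)
      ?_ ?_ ?_ ?_ ?_ ?_ hy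
    · rintro _ ⟨c, g, rfl⟩
      refine Subring.subset_closure ⟨starRingEnd ℂ c * ((w g : ℤ) : ℂ), g⁻¹, ?_⟩
      exact Ph_smul w hw c g
    · have h2 : (0 : Op Q) ∈ groupRing Q := Subring.zero_mem _
      have h1 : (show Op Q from Ph w hw 0) = (0 : Op Q) := Ph_zero w hw
      exact (congrArg (fun z : Op Q => z ∈ groupRing Q) h1).mpr h2
    · have h2 : (1 : Op Q) ∈ groupRing Q := Subring.one_mem _
      have h1 : (show Op Q from Ph w hw 1) = (1 : Op Q) := Ph_one w hw
      exact (congrArg (fun z : Op Q => z ∈ groupRing Q) h1).mpr h2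
    · intro a b _ _ ha hb
      have h1 : (show Op Q from Ph w hw (show L2 Q →L[ℂ] L2 Q from a + b)) =
        (show Op Q from Ph w hw a) + (show Op Q from Ph w hw b) := Ph_add w hw a b
      exact h1 ▸ Subring.add_mem _ ha hb
    · intro a _ ha
      have h1 : (show Op Q from Ph w hw (show L2 Q →L[ℂ] L2 Q from -a)) =
        - (show Op Q from Ph w hw a) := Ph_neg w hw a
      exact h1 ▸ Subring.neg_mem _ ha
    · intro a b _ _ ha hb
      have h1 : (show Op Q from Ph w hw (show L2 Q →L[ℂ] L2 Q from a * b)) =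
        (show Op Q from Ph w hw b) * (show Op Q from Ph w hw a) := Ph_mul w hw a b
      exact h1 ▸ Subring.mul_mem _ hb ha
  exact map_mem_closure (f := (show Op Q → Op Q from Ph w hw)) (Ph_cont w hw) h h3

/-- the antiinvolution of the reduced group C*-algebra -/
def sharp : RedC Q →+* (RedC Q)ᵐᵒᵖ where
  toFun x := op (⟨Ph w hw (valR x), Ph_mem w hw x⟩ : redCstar Q)
  map_one' := by
    refine congrArg op (Subtype.ext ?_)
    change Ph w hw (valR (1 : RedC Q)) = (1 : L2 Q →L[ℂ] L2 Q)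
    rw [map_one, Ph_one]
  map_mul' x y := by
    refine congrArg op (Subtype.ext ?_)
    change Ph w hw (valR (x * y)) = Ph w hw (valR y) * Ph w hw (valR x)
    rw [map_mul, Ph_mul]
  map_zero' := by
    refine congrArg op (Subtype.ext ?_)
    change Ph w hw (valR (0 : RedC Q)) = (0 : L2 Q →L[ℂ] L2 Q)
    rw [map_zero, Ph_zero]
  map_add' x y := by
    refine congrArg op (Subtype.ext ?_)
    change Ph w hw (valR (x + y)) = Ph w hw (valR x) + Ph w hw (valR y)
    rw [map_add, Ph_add]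

lemma sharp_toRed (r : MonoidAlgebra ℤ Q) :
    sharp w hw (toRed Q r) = op (toRed Q (unop (anti w r))) := by
  have h : (sharp w hw).comp (toRed Q) = (RingHom.op (toRed Q)).comp (anti w) := by
    refine Pool.Agent.TH38.ZT.hom_ext_single fun g => ?_
    rw [RingHom.comp_apply, RingHom.comp_apply]
    change op (⟨Ph w hw (valR (toRed Q (single g 1))), _⟩ : redCstar Q) =
      op (toRed Q (unop (anti w (single g 1))))
    refine congrArg op (Subtype.ext ?_)
    change Ph w hw (valR (toRed Q (single g 1))) = valR (toRed Q (unop (anti w (single g 1))))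
    rw [anti_single, coe_toRed, coe_toRed, L_single, L_single, one_smul, one_mul]
    have h1 := Ph_smul w hw 1 g
    rw [one_smul, map_one, one_mul, Int.cast_smul_eq_zsmul] at h1
    exact h1
  exact congrArg (fun f => f r) h

end

end Pool.Agent.W5h52.ZP
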