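import Pool.Agent.H79.LZ.W5h52_ZP_Desc

/-!
Acyclicity in all degrees from acyclicity (with contractions) below and above one degree and the
vanishing of the `ℓ²`-cohomology in that degree.
-/

set_option autoImplicit false
set_option linter.unusedSectionVars false

open scoped Matrix ENNReal

namespace Pool.Agent.W5h52.ZP

open Pool.Agent.H919R4.ZS MonoidAlgebra
open Pool.Agent.TH38.ZT (ExAt exAt_iff contraction')

section

variable {G : Type} [Group G] {S : Type*} [Ring S] (X : FinRes G) (φ : MonoidAlgebra ℤ G →+* S)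

lemma ex_of_rel (i : ℕ) (s : Matrix (Fin (X.n i)) (Fin (X.n (i + 1))) S)
    (s' : Matrix (Fin (X.n (i + 1))) (Fin (X.n (i + 1 + 1))) S)
    (h : (X.d i).map φ * s + s' * (X.d (i + 1)).map φ = 1) : ExAt X φ (i + 1) := by
  intro x hx
  refine ⟨x ᵥ* s', ?_⟩
  have h1 : x ᵥ* ((X.d i).map φ * s + s' * (X.d (i + 1)).map φ) = x := by
    rw [h, Matrix.vecMul_one]
  rw [Matrix.vecMul_add, ← Matrix.vecMul_vecMul, hx, Matrix.zero_vecMul, zero_add] at h1
  rw [Matrix.vecMul_vecMul]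
  exact h1

lemma ex_of_rel0 (s : Matrix (Fin (X.n 0)) (Fin (X.n 1)) S)
    (h : s * (X.d 0).map φ = 1) : ExAt X φ 0 := by
  intro x
  refine ⟨x ᵥ* s, ?_⟩
  rw [Matrix.vecMul_vecMul, h, Matrix.vecMul_one]

lemma dsd (m : ℕ) (hex : ∀ i ≤ m, ExAt X φ i) :
    ∃ s : Matrix (Fin (X.n m)) (Fin (X.n (m + 1))) S,
      (X.d m).map φ * s * (X.d m).map φ = (X.d m).map φ := by
  obtain ⟨s, hs0, hs⟩ := contraction' X φ m hex
  refine ⟨s m, ?_⟩
  cases m with
  | zero => rw [Matrix.mul_assoc, hs0, Matrix.mul_one]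
  | succ m =>
    have h2 : s (m + 1) * (X.d (m + 1)).map φ = 1 - (X.d m).map φ * s m := by
      rw [← hs m le_rfl, add_sub_cancel_left]
    rw [Matrix.mul_assoc, h2, Matrix.mul_sub, Matrix.mul_one, ← Matrix.mul_assoc,
      Pool.Agent.TH38.ZT.dd, Matrix.zero_mul, sub_zero]

lemma dtd (i : ℕ) (t : Matrix (Fin (X.n i)) (Fin (X.n (i + 1))) S)
    (t' : Matrix (Fin (X.n (i + 1))) (Fin (X.n (i + 1 + 1))) S)
    (h : (X.d i).map φ * t + t' * (X.d (i + 1)).map φ = 1) :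
    (X.d i).map φ * t * (X.d i).map φ = (X.d i).map φ := by
  have h2 : (X.d i).map φ * t = 1 - t' * (X.d (i + 1)).map φ := by
    rw [← h, add_sub_cancel_right]
  rw [h2, Matrix.sub_mul, Matrix.one_mul, Matrix.mul_assoc, Pool.Agent.TH38.ZT.dd,
    Matrix.mul_zero, sub_zero]

end

/-- the algebra of the idempotent argument -/
lemma idem {S : Type*} [Ring S] {T : Type*} [Ring T] (ψ : S →+* T) {a b c : ℕ}
    (D : Matrix (Fin b) (Fin a) S) (s : Matrix (Fin a) (Fin b) S)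
    (D' : Matrix (Fin c) (Fin b) S) (t : Matrix (Fin b) (Fin c) S)
    (h1 : D * s * D = D) (h2 : D' * t * D' = D') (h3 : D' * D = 0) :
    ∃ e u : Matrix (Fin b) (Fin b) S, D'.map ψ * e.map ψ = 0 ∧ u.map ψ * e.map ψ = e.map ψ ∧
      u.map ψ * D.map ψ = 0 ∧ (e = 0 → ∀ x, x ᵥ* D = 0 → (x ᵥ* t) ᵥ* D' = x) := by
  set p := D * s with hp
  set q := t * D' with hq
  have hDq : D' * q = D' := by rw [hq, ← Matrix.mul_assoc, h2]
  have hDp : D' * p = 0 := by rw [hp, ← Matrix.mul_assoc, h3, Matrix.zero_mul]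
  have hpp : p * p = p := by
    nth_rewrite 2 [hp]
    rw [← Matrix.mul_assoc, h1]
  have hD1p : D' * (1 - p) = D' := by rw [Matrix.mul_sub, Matrix.mul_one, hDp, sub_zero]
  have hDe : D' * ((1 - p) * (1 - q)) = 0 := by
    rw [← Matrix.mul_assoc, hD1p, Matrix.mul_sub, Matrix.mul_one, hDq, sub_self]
  have h1pe : (1 - p) * ((1 - p) * (1 - q)) = (1 - p) * (1 - q) := by
    have h3 : (1 - p) * (1 - p) = 1 - p := by
      rw [Matrix.mul_sub, Matrix.mul_one, Matrix.sub_mul, Matrix.one_mul, hpp, sub_self, sub_zero]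
    rw [← Matrix.mul_assoc, h3]
  have hpD' : (1 - p) * D = 0 := by rw [Matrix.sub_mul, Matrix.one_mul, h1, sub_self]
  refine ⟨(1 - p) * (1 - q), 1 - p, ?_, ?_, ?_, ?_⟩
  · rw [← Matrix.map_mul, hDe]; ext; simp
  · rw [← Matrix.map_mul, h1pe]
  · rw [← Matrix.map_mul, hpD']; ext; simp
  · intro he0 x hx
    have hx' : x ᵥ* p = 0 := by
      rw [hp, ← Matrix.vecMul_vecMul, hx, Matrix.zero_vecMul]
    rw [Matrix.vecMul_vecMul]
    change x ᵥ* q = x
    have hx1 : x ᵥ* (1 - p) = x := by rw [Matrix.vecMul_sub, Matrix.vecMul_one, hx', sub_zero]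
    have h5 : x ᵥ* ((1 - p) * (1 - q)) = x - x ᵥ* q := by
      rw [← Matrix.vecMul_vecMul, hx1, Matrix.vecMul_sub, Matrix.vecMul_one]
    rw [he0, Matrix.vecMul_zero] at h5
    exact (sub_eq_zero.1 h5.symm).symm

section

variable {Q : Type} [Group Q]

lemma act_eq_zero {a b : ℕ} (M : Matrix (Fin a) (Fin b) (L2 Q →L[ℂ] L2 Q))
    (h : ∀ v, act M v = 0) : M = 0 := by
  classical
  refine Matrix.ext fun i j => ContinuousLinearMap.ext fun v => ?_
  have h1 := congrFun (h (Pi.single j v)) i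
  rw [act, Finset.sum_eq_single j] at h1
  · rw [Pi.single_eq_same] at h1
    exact h1
  · intro k _ hk
    rw [Pi.single_eq_of_ne hk, map_zero]
  · intro hj; exact absurd (Finset.mem_univ j) hj

lemma zero_act {a b : ℕ} (v : Fin b → L2 Q) :
    act (0 : Matrix (Fin a) (Fin b) (L2 Q →L[ℂ] L2 Q)) v = 0 := by
  funext i
  simp [act]

lemma valR_inj : Function.Injective (valR (G := Q)) := fun _ _ h => Subtype.ext h

lemma map_valR_inj {a b : ℕ} {M : Matrix (Fin a) (Fin b) (RedC Q)}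
    (h : M.map (valR (G := Q)) = 0) : M = 0 := by
  refine Matrix.ext fun i j => valR_inj ?_
  exact (congrFun (congrFun h i) j).trans (map_zero (valR (G := Q))).symm

/-- the idempotent argument -/
theorem ex_all (Y : FinRes Q) (m : ℕ) (hex : ∀ i ≤ m, ExAt Y (toRed Q) i)
    (t : ∀ i, Matrix (Fin (Y.n i)) (Fin (Y.n (i + 1))) (RedC Q))
    (ht : ∀ i, m + 1 ≤ i → (Y.d i).map (toRed Q) * t i + t (i + 1) * (Y.d (i + 1)).map (toRed Q) = 1)
    (hvan : Van2 Y (m + 1)) : ∀ i, ExAt Y (toRed Q) i := by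
  obtain ⟨s, hs⟩ := dsd Y (toRed Q) m hex
  have hval : ∀ i, ((Y.d i).map (toRed Q)).map (valR (G := Q)) = (Y.d i).map (L (G := Q)) :=
    fun i => rfl
  obtain ⟨e, u, h1, h2, h3, h4⟩ := idem (valR (G := Q)) ((Y.d m).map (toRed Q)) s
    ((Y.d (m + 1)).map (toRed Q)) (t (m + 1)) hs
    (dtd Y (toRed Q) (m + 1) _ _ (ht (m + 1) le_rfl)) (Pool.Agent.TH38.ZT.dd Y (toRed Q) m)
  rw [hval] at h1 h3
  have he0 : e = 0 := by
    refine map_valR_inj (act_eq_zero _ fun f => ?_)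
    obtain ⟨w, hw⟩ := hvan (act (e.map (valR (G := Q))) f) (by
      change act ((Y.d (m + 1)).map L) _ = 0
      rw [← act_mul, h1, zero_act])
    rw [← h2, act_mul, ← hw]
    change act _ (act ((Y.d m).map L) w) = 0
    rw [← act_mul, h3, zero_act]
  intro i
  rcases lt_trichotomy i (m + 1) with hi | rfl | hi
  · exact hex i (by omega)
  · exact fun x hx => ⟨_, h4 he0 x hx⟩
  · obtain ⟨j, rfl⟩ : ∃ j, i = j + 1 := ⟨i - 1, by omega⟩
    exact ex_of_rel Y (toRed Q) j _ _ (ht j (by omega))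

end

end Pool.Agent.W5h52.ZP
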