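import Pool.Agent.H79.LZ.W5h52_ZP_Nil

/-!
Twisting modules over a rational group ring by a finite dimensional representation.
-/

set_option autoImplicit false
set_option linter.unusedSectionVars false

open MonoidAlgebra

namespace Pool.Agent.W5h52.ZP

noncomputable section

variable {Q : Type} [Group Q] {n : ℕ}

lemma single_sum' {ι : Type} (s : Finset ι) (g : Q) (c : ι → ℚ) :
    (single g (∑ i ∈ s, c i) : MonoidAlgebra ℚ Q) = ∑ i ∈ s, single g (c i) := by
  classical
  induction s using Finset.induction_on with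
  | empty => rw [Finset.sum_empty, Finset.sum_empty, single_zero]
  | insert i s hi ih => rw [Finset.sum_insert hi, Finset.sum_insert hi, single_add, ih]

/-- columns with entries in a module as a module over the ring of matrices -/
@[instance_reducible]
def mvMod (R : Type) [Ring R] (M : Type) [AddCommGroup M] [Module R M] (n : ℕ) :
    Module (Matrix (Fin n) (Fin n) R) (Fin n → M) where
  smul N m := mv N m
  one_smul m := mv_one m
  mul_smul N N' m := mv_mul N N' m
  smul_zero N := mv_zero N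
  smul_add N m m' := by
    change mv N (m + m') = mv N m + mv N m'
    funext i
    simp [mv, smul_add, Finset.sum_add_distrib]
  add_smul N N' m := mv_add N N' m
  zero_smul m := by
    change mv 0 m = 0
    funext i
    simp [mv]

/-- the group ring with coefficients in matrices -/
def dh (ρ : Q →* Matrix (Fin n) (Fin n) ℚ) : Q →* Matrix (Fin n) (Fin n) (MonoidAlgebra ℚ Q) where
  toFun g := Matrix.of fun i j => single g (ρ g i j)
  map_one' := by
    refine Matrix.ext fun i j => ?_
    rw [Matrix.of_apply, map_one]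
    by_cases h : i = j
    · subst h
      rw [Matrix.one_apply_eq, Matrix.one_apply_eq]
      rfl
    · rw [Matrix.one_apply_ne h, Matrix.one_apply_ne h, single_zero]
  map_mul' g h := by
    refine Matrix.ext fun i j => ?_
    rw [Matrix.of_apply, Matrix.mul_apply, map_mul, Matrix.mul_apply, single_sum']
    refine Finset.sum_congr rfl fun k _ => ?_
    rw [Matrix.of_apply, Matrix.of_apply, single_mul_single]

/-- the homomorphism from the group ring to matrices over it -/
def dl (ρ : Q →* Matrix (Fin n) (Fin n) ℚ) :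
    MonoidAlgebra ℚ Q →+* Matrix (Fin n) (Fin n) (MonoidAlgebra ℚ Q) :=
  (MonoidAlgebra.lift ℚ (Matrix (Fin n) (Fin n) (MonoidAlgebra ℚ Q)) Q (dh ρ)).toRingHom

lemma dl_single (ρ : Q →* Matrix (Fin n) (Fin n) ℚ) (g : Q) (c : ℚ) (i j : Fin n) :
    dl ρ (single g c) i j = single g (c * ρ g i j) := by
  have h : dl ρ (single g c) = c • dh ρ g := MonoidAlgebra.lift_single _ _ _
  rw [h, Matrix.smul_apply]
  change c • (single g (ρ g i j) : MonoidAlgebra ℚ Q) = _
  rw [smul_single, smul_eq_mul]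

/-- a module twisted by a representation -/
def Tw (_ : Q →* Matrix (Fin n) (Fin n) ℚ) (M : Type) : Type := Fin n → M

section

variable (ρ : Q →* Matrix (Fin n) (Fin n) ℚ) {M M' M'' : Type} [AddCommGroup M]
  [Module (MonoidAlgebra ℚ Q) M] [AddCommGroup M'] [Module (MonoidAlgebra ℚ Q) M']
  [AddCommGroup M''] [Module (MonoidAlgebra ℚ Q) M'']

instance : AddCommGroup (Tw ρ M) := inferInstanceAs (AddCommGroup (Fin n → M))

instance : Module (MonoidAlgebra ℚ Q) (Tw ρ M) :=
  letI := mvMod (MonoidAlgebra ℚ Q) M n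
  Module.compHom (Fin n → M) (dl ρ)

lemma tw_smul (g : Q) (c : ℚ) (m : Tw ρ M) (i : Fin n) :
    (single g c • m : Tw ρ M) i = ∑ j, (single g (c * ρ g i j) : MonoidAlgebra ℚ Q) • m j := by
  change ∑ j, dl ρ (single g c) i j • m j = _
  exact Finset.sum_congr rfl fun j _ => by rw [dl_single]

lemma tw_add (m m' : Tw ρ M) (i : Fin n) : (m + m') i = m i + m' i := rfl

/-- evaluation -/
def evT (i : Fin n) : Tw ρ M →+ M where
  toFun m := m i
  map_zero' := rfl
  map_add' _ _ := rfl

lemma tw_sum {ι : Type} (s : Finset ι) (x : ι → Tw ρ M) (i : Fin n) :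
    (∑ k ∈ s, x k) i = ∑ k ∈ s, x k i := map_sum (evT ρ i) x s

/-- the elements with one entry -/
def sg (i : Fin n) (m : M) : Tw ρ M := fun j => if j = i then m else 0

lemma sg_same (i : Fin n) (m : M) : sg ρ i m i = m := if_pos rfl

lemma sg_ne {i j : Fin n} (m : M) (h : j ≠ i) : sg ρ i m j = 0 := if_neg h

lemma sg_zero (i : Fin n) : sg ρ i (0 : M) = 0 := by
  funext j
  by_cases h : j = i
  · rw [h, sg_same]; rfl
  · rw [sg_ne ρ _ h]; rfl

lemma sg_add (i : Fin n) (m m' : M) : sg ρ i (m + m') = sg ρ i m + sg ρ i m' := by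
  funext j
  rw [tw_add]
  by_cases h : j = i
  · rw [h, sg_same, sg_same, sg_same]
  · rw [sg_ne ρ _ h, sg_ne ρ _ h, sg_ne ρ _ h, add_zero]

lemma sum_sg (m : Tw ρ M) : ∑ i, sg ρ i (m i) = m := by
  funext j
  rw [tw_sum, Finset.sum_eq_single j]
  · rw [sg_same]
  · intro i _ hi
    exact sg_ne ρ _ fun e => hi e.symm
  · intro h; exact absurd (Finset.mem_univ j) h

/-- homomorphisms of modules over a group ring -/
def mkLin (f : M →+ M') (h : ∀ (g : Q) (c : ℚ) (m : M),
    f ((single g c : MonoidAlgebra ℚ Q) • m) = (single g c : MonoidAlgebra ℚ Q) • f m) :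
    M →ₗ[MonoidAlgebra ℚ Q] M' where
  toFun := f
  map_add' := map_add f
  map_smul' r m := by
    refine induction_linear r ?_ ?_ ?_
    · rw [zero_smul, map_zero, RingHom.id_apply, zero_smul]
    · intro x y hx hy
      rw [RingHom.id_apply] at hx hy ⊢
      rw [add_smul, map_add, hx, hy, add_smul]
    · intro g c
      exact h g c m

lemma mkLin_apply (f : M →+ M') (h : ∀ (g : Q) (c : ℚ) (m : M),
    f ((single g c : MonoidAlgebra ℚ Q) • m) = (single g c : MonoidAlgebra ℚ Q) • f m) (m : M) :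
    mkLin f h m = f m := rfl

/-- the map of twisted modules -/
def twMap (f : M →ₗ[MonoidAlgebra ℚ Q] M') : Tw ρ M →ₗ[MonoidAlgebra ℚ Q] Tw ρ M' :=
  mkLin { toFun := fun m i => f (m i)
          map_zero' := funext fun i => map_zero f
          map_add' := fun m m' => funext fun i => map_add f (m i) (m' i) } (by
    intro g c m
    funext i
    rw [tw_smul]
    change f ((single g c • m : Tw ρ M) i) = _
    rw [tw_smul, map_sum]
    exact Finset.sum_congr rfl fun j _ => map_smul f _ _)

lemma twMap_apply (f : M →ₗ[MonoidAlgebra ℚ Q] M') (m : Tw ρ M) (i : Fin n) :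
    twMap ρ f m i = f (m i) := rfl

/-- the dual representation -/
def dual : Q →* Matrix (Fin n) (Fin n) ℚ where
  toFun g := (ρ g⁻¹).transpose
  map_one' := by rw [inv_one, map_one, Matrix.transpose_one]
  map_mul' g h := by rw [mul_inv_rev, map_mul, Matrix.transpose_mul]

lemma dual_apply (g : Q) (i j : Fin n) : dual ρ g i j = ρ g⁻¹ j i := rfl

lemma smul_single_sum {ι : Type} (s : Finset ι) (g : Q) (c : ι → ℚ) (m : M) :
    (single g (∑ i ∈ s, c i) : MonoidAlgebra ℚ Q) • m =
      ∑ i ∈ s, (single g (c i) : MonoidAlgebra ℚ Q) • m := by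
  rw [single_sum', Finset.sum_smul]

/-- the adjunction -/
def toL (f : M →ₗ[MonoidAlgebra ℚ Q] Tw (dual ρ) M') : Tw ρ M →ₗ[MonoidAlgebra ℚ Q] M' :=
  mkLin { toFun := fun m => ∑ j, f (m j) j
          map_zero' := by
            refine Finset.sum_eq_zero fun j _ => ?_
            change f 0 j = 0
            rw [map_zero]
            rfl
          map_add' := fun m m' => by
            rw [← Finset.sum_add_distrib]
            refine Finset.sum_congr rfl fun j _ => ?_
            rw [tw_add, map_add]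
            rfl } (by
    intro g c m
    change ∑ j, f ((single g c • m : Tw ρ M) j) j = (single g c : MonoidAlgebra ℚ Q) • ∑ j, f (m j) j
    have h1 : ∀ j, f ((single g c • m : Tw ρ M) j) j =
        ∑ k, ∑ i, (single g (c * ρ g j k * ρ g⁻¹ i j) : MonoidAlgebra ℚ Q) • f (m k) i := by
      intro j
      rw [tw_smul, map_sum, tw_sum]
      refine Finset.sum_congr rfl fun k _ => ?_
      rw [map_smul]
      exact tw_smul (dual ρ) g _ (f (m k)) j
    rw [Finset.sum_congr rfl fun j _ => h1 j, Finset.smul_sum, Finset.sum_comm]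
    refine Finset.sum_congr rfl fun k _ => ?_
    rw [Finset.sum_comm]
    have h2 : ∀ i, (∑ j, (single g (c * ρ g j k * ρ g⁻¹ i j) : MonoidAlgebra ℚ Q) • f (m k) i) =
        if i = k then (single g c : MonoidAlgebra ℚ Q) • f (m k) i else 0 := by
      intro i
      rw [← smul_single_sum]
      have h3 : ∑ j, c * ρ g j k * ρ g⁻¹ i j = c * (1 : Matrix (Fin n) (Fin n) ℚ) i k := by
        have h4 : (1 : Matrix (Fin n) (Fin n) ℚ) = ρ g⁻¹ * ρ g := by
          rw [← map_mul, inv_mul_cancel, map_one]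
        rw [h4, Matrix.mul_apply, Finset.mul_sum]
        exact Finset.sum_congr rfl fun j _ => by ring
      rw [h3]
      by_cases h : i = k
      · rw [h, Matrix.one_apply_eq, mul_one, if_pos rfl]
      · rw [Matrix.one_apply_ne h, mul_zero, single_zero, zero_smul, if_neg h]
    rw [Finset.sum_congr rfl fun i _ => h2 i, Finset.sum_ite_eq' Finset.univ k,
      if_pos (Finset.mem_univ k)])

lemma toL_apply (f : M →ₗ[MonoidAlgebra ℚ Q] Tw (dual ρ) M') (m : Tw ρ M) :
    toL ρ f m = ∑ j, f (m j) j := rfl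

/-- the adjunction -/
def toR (f : Tw ρ M →ₗ[MonoidAlgebra ℚ Q] M') : M →ₗ[MonoidAlgebra ℚ Q] Tw (dual ρ) M' :=
  mkLin { toFun := fun m j => f (sg ρ j m)
          map_zero' := by
            funext j
            rw [sg_zero]
            exact map_zero f
          map_add' := fun m m' => by
            funext j
            rw [sg_add]
            exact map_add f _ _ } (by
    intro g c m
    funext j
    rw [tw_smul]
    change f (sg ρ j ((single g c : MonoidAlgebra ℚ Q) • m)) =
      ∑ i, (single g (c * ρ g⁻¹ i j) : MonoidAlgebra ℚ Q) • f (sg ρ i m)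
    rw [Finset.sum_congr rfl fun i _ => (map_smul f _ _).symm, ← map_sum]
    congr 1
    funext k
    rw [tw_sum]
    have h1 : ∀ i, ((single g (c * ρ g⁻¹ i j) : MonoidAlgebra ℚ Q) • sg ρ i m) k =
          (single g (c * ρ g⁻¹ i j * ρ g k i) : MonoidAlgebra ℚ Q) • m := by
      intro i
      rw [tw_smul, Finset.sum_eq_single i]
      · rw [sg_same]
      · intro l _ hl
        rw [sg_ne ρ _ hl, smul_zero]
      · intro h; exact absurd (Finset.mem_univ i) h
    rw [Finset.sum_congr rfl fun i _ => h1 i, ← smul_single_sum]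
    have h3 : ∑ i, c * ρ g⁻¹ i j * ρ g k i = c * (1 : Matrix (Fin n) (Fin n) ℚ) k j := by
      have h4 : (1 : Matrix (Fin n) (Fin n) ℚ) = ρ g * ρ g⁻¹ := by
        rw [← map_mul, mul_inv_cancel, map_one]
      rw [h4, Matrix.mul_apply, Finset.mul_sum]
      exact Finset.sum_congr rfl fun j _ => by ring
    rw [h3]
    by_cases h : k = j
    · rw [h, Matrix.one_apply_eq, mul_one, sg_same]
    · rw [Matrix.one_apply_ne h, mul_zero, single_zero, zero_smul, sg_ne ρ _ h])

lemma toR_apply (f : Tw ρ M →ₗ[MonoidAlgebra ℚ Q] M') (m : M) (j : Fin n) :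
    toR ρ f m j = f (sg ρ j m) := rfl

lemma toL_toR (f : Tw ρ M →ₗ[MonoidAlgebra ℚ Q] M') : toL ρ (toR ρ f) = f := by
  refine LinearMap.ext fun m => ?_
  rw [toL_apply]
  conv_rhs => rw [← sum_sg ρ m, map_sum]
  rfl

lemma toL_comp (f : M →ₗ[MonoidAlgebra ℚ Q] Tw (dual ρ) M') (h : M'' →ₗ[MonoidAlgebra ℚ Q] M) :
    toL ρ (f.comp h) = (toL ρ f).comp (twMap ρ h) := rfl

lemma toL_map (f : M →ₗ[MonoidAlgebra ℚ Q] Tw (dual ρ) M') (h : M' →ₗ[MonoidAlgebra ℚ Q] M'') :
    toL ρ ((twMap (dual ρ) h).comp f) = h.comp (toL ρ f) := by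
  refine LinearMap.ext fun m => ?_
  rw [toL_apply, LinearMap.comp_apply, toL_apply, map_sum]
  rfl

lemma twMap_surj {f : M →ₗ[MonoidAlgebra ℚ Q] M'} (hf : Function.Surjective f) :
    Function.Surjective (twMap ρ f) := by
  intro m
  choose x hx using fun i => hf (m i)
  exact ⟨x, funext hx⟩

lemma twMap_inj {f : M →ₗ[MonoidAlgebra ℚ Q] M'} (hf : Function.Injective f) :
    Function.Injective (twMap ρ f) := by
  intro m m' h
  funext i
  exact hf (congrFun h i)

lemma twMap_exact {f : M →ₗ[MonoidAlgebra ℚ Q] M'} {g : M' →ₗ[MonoidAlgebra ℚ Q] M''}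
    (h : Function.Exact f g) : Function.Exact (twMap ρ f) (twMap ρ g) := by
  intro m
  constructor
  · intro hm
    choose x hx using fun i => (h (m i)).1 (congrFun hm i)
    exact ⟨x, funext hx⟩
  · rintro ⟨x, rfl⟩
    funext i
    exact (h (f (x i))).2 ⟨x i, rfl⟩

instance tw_proj [Module.Projective (MonoidAlgebra ℚ Q) M] :
    Module.Projective (MonoidAlgebra ℚ Q) (Tw ρ M) := by
  refine Module.Projective.of_lifting_property'' fun f hf => ?_
  obtain ⟨h, hh⟩ := Module.projective_lifting_property (twMap (dual ρ) f)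
    (toR ρ (LinearMap.id : Tw ρ M →ₗ[MonoidAlgebra ℚ Q] Tw ρ M)) (twMap_surj (dual ρ) hf)
  refine ⟨toL ρ h, ?_⟩
  rw [← toL_map, hh, toL_toR]

end

section

variable (ρ : Q →* Matrix (Fin n) (Fin n) ℚ) {A : Type} [AddCommGroup A]
    [Module (MonoidAlgebra ℚ Q) A] {K F M : Type} [AddCommGroup K] [Module (MonoidAlgebra ℚ Q) K]
    [AddCommGroup F] [Module (MonoidAlgebra ℚ Q) F] [Module.Projective (MonoidAlgebra ℚ Q) F]
    [AddCommGroup M] [Module (MonoidAlgebra ℚ Q) M] (f : K →ₗ[MonoidAlgebra ℚ Q] F)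
    (p : F →ₗ[MonoidAlgebra ℚ Q] M) (hf : Function.Injective f) (hp : Function.Surjective p)
    (hex : Function.Exact f p)

include hf hp hex

lemma tw_step0 (h : EV (R := MonoidAlgebra ℚ Q) (Tw (dual ρ) A) 1 M) :
    EV (R := MonoidAlgebra ℚ Q) A 1 (Tw ρ M) := by
  refine EV_of_extend (twMap ρ f) (twMap ρ p) (twMap_inj ρ hf) (twMap_surj ρ hp)
    (twMap_exact ρ hex) fun φ => ?_
  obtain ⟨ψ, hψ⟩ := extend_of_EV f p hf hp hex h (toR ρ φ)
  refine ⟨toL ρ ψ, ?_⟩
  rw [← toL_comp, hψ, toL_toR]

lemma tw_step1 (a : ℕ) (ih : EV (R := MonoidAlgebra ℚ Q) (Tw (dual ρ) A) (a + 1) K →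
      EV (R := MonoidAlgebra ℚ Q) A (a + 1) (Tw ρ K))
    (h : EV (R := MonoidAlgebra ℚ Q) (Tw (dual ρ) A) (a + 1 + 1) M) :
    EV (R := MonoidAlgebra ℚ Q) A (a + 1 + 1) (Tw ρ M) :=
  EV_right (twMap ρ f) (twMap ρ p) (twMap_inj ρ hf) (twMap_surj ρ hp) (twMap_exact ρ hex)
    (ih (EV_left f p hf hp hex (EV_proj a) h)) (EV_proj (a + 1))

end

/-- `Ext` groups of twisted modules -/
theorem EV_tw (ρ : Q →* Matrix (Fin n) (Fin n) ℚ) {A : Type} [AddCommGroup A]
    [Module (MonoidAlgebra ℚ Q) A] : ∀ (a : ℕ) (M : Type) [AddCommGroup M]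
    [Module (MonoidAlgebra ℚ Q) M], EV (R := MonoidAlgebra ℚ Q) (Tw (dual ρ) A) a M →
    EV (R := MonoidAlgebra ℚ Q) A a (Tw ρ M) := by
  have zero : ∀ (M : Type) [AddCommGroup M]
      [Module (MonoidAlgebra ℚ Q) M], EV (R := MonoidAlgebra ℚ Q) (Tw (dual ρ) A) 0 M →
      EV (R := MonoidAlgebra ℚ Q) A 0 (Tw ρ M) := by
    intro M _ _ h
    refine EV_zero_iff.2 fun f => ?_
    rw [← toL_toR ρ f, EV_zero_iff.1 h (toR ρ f)]
    refine LinearMap.ext fun m => ?_
    rw [toL_apply]
    exact Finset.sum_eq_zero fun j _ => rfl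
  have succ : ∀ (a : ℕ) (M : Type) [AddCommGroup M]
      [Module (MonoidAlgebra ℚ Q) M], EV (R := MonoidAlgebra ℚ Q) (Tw (dual ρ) A) (a + 1) M →
      EV (R := MonoidAlgebra ℚ Q) A (a + 1) (Tw ρ M) := by
    intro a
    induction a with
    | zero =>
      intro M _ _ h
      exact tw_step0 ρ (K := LinearMap.ker (Finsupp.linearCombination (MonoidAlgebra ℚ Q) (id : M → M)))
        (LinearMap.ker (Finsupp.linearCombination (MonoidAlgebra ℚ Q) (id : M → M))).subtype
        (Finsupp.linearCombination (MonoidAlgebra ℚ Q) (id : M → M))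
        (Submodule.subtype_injective _) (Finsupp.linearCombination_id_surjective _ _)
        (LinearMap.exact_subtype_ker_map _) h
    | succ a ih =>
      intro M _ _ h
      exact tw_step1 ρ (K := LinearMap.ker (Finsupp.linearCombination (MonoidAlgebra ℚ Q) (id : M → M)))
        (LinearMap.ker (Finsupp.linearCombination (MonoidAlgebra ℚ Q) (id : M → M))).subtype
        (Finsupp.linearCombination (MonoidAlgebra ℚ Q) (id : M → M))
        (Submodule.subtype_injective _) (Finsupp.linearCombination_id_surjective _ _)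
        (LinearMap.exact_subtype_ker_map _) a (ih _) h
  intro a
  cases a with
  | zero => exact zero
  | succ a => exact succ a

end

end Pool.Agent.W5h52.ZP
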