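import Pool.Agent.H79.LZ.W5h52_ZP_Fin

/-!
Finite dimensional modules on which a normal subgroup of finite index acts nilpotently are distal.
-/

set_option autoImplicit false
set_option linter.unusedSectionVars false

open MonoidAlgebra

namespace Pool.Agent.W5h52.ZP

noncomputable section

variable {Q : Type} [Group Q]

lemma pr_append (l l' : List Q) : pr (l ++ l') = pr l * pr l' := by
  rw [pr, pr, pr, List.map_append, List.prod_append]

lemma pr_conj (g : Q) (c : ℚ) (l : List Q) :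
    pr l * single g c = single g c * pr (l.map fun k => g⁻¹ * k * g) := by
  induction l with
  | nil => rw [List.map_nil, pr_nil, one_mul, mul_one]
  | cons k l ih =>
    rw [List.map_cons, pr_cons, pr_cons, mul_assoc, ih, ← mul_assoc, ← mul_assoc]
    congr 1
    rw [sub_mul, mul_sub, single_mul_single, single_mul_single, one_mul, mul_one, one_mul, mul_one]
    congr 2
    group

section

variable {W : Type} [AddCommGroup W] [Module (MonoidAlgebra ℚ Q) W]

lemma spn_sub {r : ℕ} (h : Spn Q W r) (F : Submodule (MonoidAlgebra ℚ Q) W) :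
    ∃ s, Spn Q F s := by
  have hfin := spn_fin h
  set U : Submodule ℚ (Rt Q W) :=
    { carrier := {x | (show W from x) ∈ F}
      add_mem' := fun {a b} ha hb => F.add_mem ha hb
      zero_mem' := F.zero_mem
      smul_mem' := fun c x hx => F.smul_mem (sc c) hx } with hU
  set b : Module.Basis (Fin (Module.finrank ℚ U)) ℚ U := Module.finBasis ℚ U with hb
  refine ⟨Module.finrank ℚ U, fun i => ⟨(b i : U).1, (b i : U).2⟩, fun x => ?_⟩
  have h1 := b.sum_repr (⟨x.1, x.2⟩ : U)
  refine ⟨fun i => b.repr (⟨x.1, x.2⟩ : U) i, Subtype.ext ?_⟩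
  have h2 := congrArg (fun u : U => (u : Rt Q W)) h1
  have h3 : ((∑ i, b.repr (⟨x.1, x.2⟩ : U) i • b i : U) : Rt Q W) =
      ∑ i, b.repr (⟨x.1, x.2⟩ : U) i • ((b i : U) : Rt Q W) := by
    rw [Submodule.coe_sum]
    rfl
  have h4 : ((∑ i, (sc (b.repr (⟨x.1, x.2⟩ : U) i) : MonoidAlgebra ℚ Q) •
      (⟨(b i : U).1, (b i : U).2⟩ : F) : F) : W) =
      ∑ i, (sc (b.repr (⟨x.1, x.2⟩ : U) i) : MonoidAlgebra ℚ Q) • (show W from (b i : U).1) := by
    rw [Submodule.coe_sum]
    rfl
  exact (h2.symm.trans h3).trans h4.symm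

lemma spn_quo {r : ℕ} (h : Spn Q W r) (F : Submodule (MonoidAlgebra ℚ Q) W) :
    Spn Q (W ⧸ F) r := by
  obtain ⟨v, hv⟩ := h
  refine ⟨fun i => Submodule.Quotient.mk (v i), fun q => ?_⟩
  obtain ⟨x, rfl⟩ := Submodule.Quotient.mk_surjective _ q
  obtain ⟨c, hc⟩ := hv x
  refine ⟨c, ?_⟩
  rw [← Submodule.mkQ_apply]
  conv_lhs => rw [hc, map_sum]
  exact Finset.sum_congr rfl fun i _ => map_smul _ _ _

/-- the elements killed by the products of a given number of elements `k - 1` -/
def vf (K : Subgroup Q) [hK : K.Normal] (W : Type) [AddCommGroup W]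
    [Module (MonoidAlgebra ℚ Q) W] (i : ℕ) : Submodule (MonoidAlgebra ℚ Q) W where
  carrier := {x | ∀ l : List Q, (∀ k ∈ l, k ∈ K) → l.length = i → pr l • x = 0}
  add_mem' := fun {a b} ha hb l h1 h2 => by rw [smul_add, ha l h1 h2, hb l h1 h2, add_zero]
  zero_mem' := fun l _ _ => smul_zero _
  smul_mem' := fun r x hx l h1 h2 => by
    have key : ∀ r : MonoidAlgebra ℚ Q, pr l • r • x = 0 := by
      intro r
      refine induction_linear r ?_ ?_ ?_
      · rw [zero_smul, smul_zero]
      · intro y z hy hz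
        rw [add_smul, smul_add, hy, hz, add_zero]
      · intro g c
        rw [smul_smul, pr_conj, mul_smul, hx, smul_zero]
        · intro k hk
          obtain ⟨k', hk', rfl⟩ := List.mem_map.1 hk
          have h3 := hK.conj_mem k' (h1 k' hk') g⁻¹
          rwa [inv_inv] at h3
        · rw [List.length_map, h2]
    exact key r

/-- the linear forms vanishing on the first submodule are bounded on the orbits in the second -/
def BForm (F F' : Submodule (MonoidAlgebra ℚ Q) W) : Prop :=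
  ∀ f : W →+ ℚ, (∀ x ∈ F, f x = 0) → ∀ w ∈ F', ∃ C : ℚ, ∀ g : Q,
    |f ((single g 1 : MonoidAlgebra ℚ Q) • w)| ≤ C

/-- a submodule as a subspace -/
def subR (F : Submodule (MonoidAlgebra ℚ Q) W) : Submodule ℚ (Rt Q W) where
  carrier := {x | (show W from x) ∈ F}
  add_mem' := fun ha hb => F.add_mem ha hb
  zero_mem' := F.zero_mem
  smul_mem' := fun c _ hx => F.smul_mem (sc c) hx

lemma bdd_of_form {F F' : Submodule (MonoidAlgebra ℚ Q) W} (hle : F ≤ F') (h : BForm F F') :
    BddAct Q (F' ⧸ F.submoduleOf F') := by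
  intro f w
  obtain ⟨x, rfl⟩ := Submodule.Quotient.mk_surjective _ w
  -- the form on the subspace
  obtain ⟨f1, hf1⟩ : ∃ f1 : (subR F' : Submodule ℚ (Rt Q W)) →+ ℚ, ∀ y,
      f1 y = f (Submodule.Quotient.mk (⟨y.1, y.2⟩ : F')) :=
    ⟨{ toFun := fun y => f (Submodule.Quotient.mk (⟨y.1, y.2⟩ : F'))
       map_zero' := map_zero f
       map_add' := fun y z => map_add f (Submodule.Quotient.mk (⟨y.1, y.2⟩ : F'))
         (Submodule.Quotient.mk (⟨z.1, z.2⟩ : F')) }, fun _ => rfl⟩
  obtain ⟨f2, hf2⟩ : ∃ f2 : (subR F' : Submodule ℚ (Rt Q W)) →ₗ[ℚ] ℚ, ∀ y, f2 y = f1 y :=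
    ⟨{ toFun := f1
       map_add' := fun y z => map_add f1 y z
       map_smul' := fun c y => map_rat_smul f1 c y }, fun _ => rfl⟩
  obtain ⟨φ, hφ⟩ := LinearMap.exists_extend f2
  have hφ' : ∀ y : F', φ (y.1 : W) = f (Submodule.Quotient.mk y) := by
    intro y
    have h1 := congrArg (fun l => l (⟨y.1, y.2⟩ : (subR F' : Submodule ℚ (Rt Q W)))) hφ
    exact h1.trans ((hf2 _).trans (hf1 _))
  obtain ⟨χ, hχ⟩ : ∃ χ : W →+ ℚ, ∀ y : W, χ y = φ y :=
    ⟨{ toFun := fun y => φ y, map_zero' := map_zero φ, map_add' := fun y z => map_add φ y z },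
      fun _ => rfl⟩
  obtain ⟨C, hC⟩ := h χ (by
    intro y hy
    have h1 := hφ' ⟨y, hle hy⟩
    have h2 : (Submodule.Quotient.mk (⟨y, hle hy⟩ : F') : F' ⧸ F.submoduleOf F') = 0 :=
      (Submodule.Quotient.mk_eq_zero _).2 hy
    rw [h2, map_zero] at h1
    exact (hχ y).trans h1) x.1 x.2
  refine ⟨C, fun g => ?_⟩
  have h1 := hφ' ((single g 1 : MonoidAlgebra ℚ Q) • x)
  have h2 := hC g
  rw [hχ] at h2
  rw [← Submodule.Quotient.mk_smul, ← h1]
  exact h2

/-- finite dimensional modules with a suitable filtration are distal -/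
theorem dis_of_form {r : ℕ} (h : Spn Q W r) (n : ℕ) (F : ℕ → Submodule (MonoidAlgebra ℚ Q) W)
    (h0 : F 0 = ⊥) (hr : F n = ⊤) (hF : ∀ i, F i ≤ F (i + 1) ∧ BForm (F i) (F (i + 1))) :
    Dis Q W := by
  refine ⟨n, F, h0, hr, fun i => ⟨(hF i).1, ?_, bdd_of_form (hF i).1 (hF i).2⟩⟩
  obtain ⟨s, hs⟩ := spn_sub h (F (i + 1))
  exact ⟨s, spn_quo hs _⟩

/-- finite dimensional modules on which a normal subgroup of finite index acts nilpotently -/
theorem form_of_virt (K : Subgroup Q) [hK : K.Normal] [K.FiniteIndex]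
    (n : ℕ) (hn : ∀ l : List Q, (∀ k ∈ l, k ∈ K) → l.length = n → ∀ x : W, pr l • x = 0) :
    vf K W 0 = ⊥ ∧ vf K W n = ⊤ ∧ ∀ i, vf K W i ≤ vf K W (i + 1) ∧
      BForm (vf K W i) (vf K W (i + 1)) := by
  refine ⟨?_, ?_, fun i => ⟨?_, ?_⟩⟩
  · refine (Submodule.eq_bot_iff _).2 fun x hx => ?_
    have h1 := hx [] (fun k hk => absurd hk List.not_mem_nil) rfl
    rwa [pr_nil, one_smul] at h1
  · refine (Submodule.eq_top_iff'.2) fun x l h1 h2 => hn l h1 h2 x
  · intro x hx l h1 h2
    cases l with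
    | nil => exact absurd h2 (by simp)
    | cons g l =>
      rw [pr_cons, mul_smul, hx l (fun k hk => h1 k (List.mem_cons_of_mem _ hk))
        (by simpa using h2), smul_zero]
  · intro f hf w hw
    have htriv : ∀ (g k : Q), k ∈ K →
        f ((single (g * k) 1 : MonoidAlgebra ℚ Q) • w) =
          f ((single g 1 : MonoidAlgebra ℚ Q) • w) := by
      intro g k hk
      have h1 : (single k 1 : MonoidAlgebra ℚ Q) • w - w ∈ vf K W i := by
        intro l h1 h2
        have h3 := hw (l ++ [k]) (by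
          intro k' hk'
          rcases List.mem_append.1 hk' with h | h
          · exact h1 k' h
          · rw [List.mem_singleton.1 h]; exact hk) (by simp [h2])
        rw [pr_append, mul_smul, pr_cons, pr_nil, mul_one, sub_smul, one_smul] at h3
        exact h3
      have h2 := hf _ ((vf K W i).smul_mem (single g 1 : MonoidAlgebra ℚ Q) h1)
      rw [smul_sub, smul_smul, single_mul_single, mul_one, map_sub, sub_eq_zero] at h2
      exact h2
    have hfact : ∀ g g' : Q, (QuotientGroup.mk g : Q ⧸ K) = QuotientGroup.mk g' →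
        f ((single g 1 : MonoidAlgebra ℚ Q) • w) = f ((single g' 1 : MonoidAlgebra ℚ Q) • w) := by
      intro g g' he
      have h1 : g⁻¹ * g' ∈ K := QuotientGroup.eq.1 he
      have h2 := htriv g _ h1
      rw [mul_inv_cancel_left] at h2
      exact h2.symm
    obtain ⟨C, hC⟩ := (Set.finite_range fun q : Q ⧸ K =>
      |f ((single (Quotient.out q) 1 : MonoidAlgebra ℚ Q) • w)|).bddAbove
    refine ⟨C, fun g => ?_⟩
    have h1 := hC ⟨(QuotientGroup.mk g : Q ⧸ K), rfl⟩
    rw [hfact g (Quotient.out (QuotientGroup.mk g : Q ⧸ K)) (QuotientGroup.out_eq' _).symm]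
    exact h1

end

end

end Pool.Agent.W5h52.ZP
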