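import Pool.Agent.H79.LZ.H919R4_AS_Defs

/-!
Integral cochains with finite support: square norm, isoperimetric inequality, flow bound.
-/

set_option autoImplicit false

namespace Pool.Agent.W5h87.ZInt

/-- The sum of the squares of the coefficients of a tuple of elements of `ℤ[Z]`. -/
noncomputable def nsq {Z : Type} {k : ℕ} (y : Fin k → (Z →₀ ℤ)) : ℤ :=
  ∑ j, (y j).sum fun _ c => c ^ 2

/-- The pairing of a tuple of elements of `ℤ[Z]` with a tuple of real functions on `Z`. -/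
noncomputable def pair {Z : Type} {k : ℕ} (y : Fin k → (Z →₀ ℤ)) (φ : Fin k → Z → ℝ) : ℝ :=
  ∑ j, (y j).sum fun q c => (c : ℝ) * φ j q

open Pool.Agent.H919R4.ZS (FinRes)
open Pool.Agent.H919R4.AS (cobdZ)

variable {G : Type} [Group G] (X : FinRes G) (Z : Type) [MulAction G Z] (N : ℕ)

/-- The coboundary of a cochain with values in `ℤ[Z]`. -/
noncomputable def dZ (i : ℕ) (y : Fin (X.n i) → (Z →₀ ℤ)) : Fin (X.n (i + 1)) → (Z →₀ ℤ) :=
  cobdZ X Z i y

/-- Cocycles with values in `ℤ[Z]`. -/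
def IsCocycle (i : ℕ) (y : Fin (X.n i) → (Z →₀ ℤ)) : Prop := ∀ k, dZ X Z i y k = 0

/-- The integral isoperimetric inequality with constant `N` in degree `k + 1`: each cocycle `z` of
degree `k + 1` with values in `ℤ[Z]` is the coboundary of some `y` with values in `ℤ[Z]` and
`nsq y ≤ N * nsq z`. -/
def IsoZ (k : ℕ) : Prop :=
  ∀ z : Fin (X.n (k + 1)) → (Z →₀ ℤ), IsCocycle X Z (k + 1) z →
    ∃ y : Fin (X.n k) → (Z →₀ ℤ), (∀ j, dZ X Z k y j = z j) ∧ nsq y ≤ N * nsq z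

/-- The flow bound with constant `N`: for all `1`-cochains `θ` with values in `ℤ[Z]` and all
functions `φ` on the `1`-cells, bounded by `1`, which annihilate the coboundaries of the
`0`-cochains with values in `ℤ[Z]`, one has `|⟨θ, φ⟩| ≤ N * nsq (δθ)`. -/
def FlowZ : Prop :=
  ∀ (θ : Fin (X.n 1) → (Z →₀ ℤ)) (φ : Fin (X.n 1) → Z → ℝ), (∀ j q, |φ j q| ≤ 1) →
    (∀ f : Fin (X.n 0) → (Z →₀ ℤ), pair (dZ X Z 0 f) φ = 0) → |pair θ φ| ≤ N * nsq (dZ X Z 1 θ)

end Pool.Agent.W5h87.ZInt
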