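import Pool.Agent.H79.LZ.W5h87_ZInt_Norm

/-!
# Derivations are inner, with estimates
-/

set_option autoImplicit false
set_option linter.unusedSectionVars false

open scoped Matrix ENNReal
open Filter Topology

namespace Pool.Agent.W5h87.ZInt

open Pool.Agent.H496R3.ZS (Ell dl dl_apply permRep IsAmenable integ)
open Pool.Agent.H919R4.ZS (RedC redCstar toRed FinRes valR contraction eps eps_add eps_neg eps_sub
  eps_smul eps_zsmul eps_single eps_d exists_lift Th Th_apply Th_smul augm_Th augm augm_single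
  d_mul_d)
open Pool.Agent.H919R4.AS

noncomputable section

variable {G : Type} [Group G] {Z : Type} [MulAction G Z]

lemma norm_LL_le (m : Mult G Z) (a : MonoidAlgebra ℤ G) : ‖LL m a‖ ≤ l1w (fun _ => 1) a := by
  rw [LL_eq_sum, l1w]
  refine (norm_sum_le _ _).trans (Finset.sum_le_sum fun k _ => ?_)
  refine (norm_zsmul_le' _ _).trans ?_
  exact mul_le_mul_of_nonneg_left (norm_rep_le m k) (abs_nonneg _)

/-- the `ℓ¹`-norm of a tuple -/
def l1t {n : ℕ} (x : Fin n → MonoidAlgebra ℤ G) : ℝ := ∑ j, l1w (fun _ => 1) (x j)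

lemma l1t_nonneg {n : ℕ} (x : Fin n → MonoidAlgebra ℤ G) : 0 ≤ l1t x :=
  Finset.sum_nonneg fun _ _ => l1w_nonneg (fun _ => zero_le_one) _

lemma norm_pV_le (m : Mult G Z) {n : ℕ} (x : Fin n → MonoidAlgebra ℤ G) (v : Fin n → Ell Z) :
    ‖pV m x v‖ ≤ l1t x * ‖v‖ := by
  rw [pV, l1t, Finset.sum_mul]
  refine (norm_sum_le _ _).trans (Finset.sum_le_sum fun j _ => ?_)
  refine ((LL m (x j)).le_opNorm _).trans ?_
  exact mul_le_mul (norm_LL_le m _) (norm_le_pi_norm v j) (norm_nonneg _)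
    (l1w_nonneg (fun _ => zero_le_one) _)

/-- every derivation is inner, with a bound -/
theorem deriv_innerK (X : FinRes G) {K : ℝ} (hK : 0 ≤ K) {c : G → ℝ} (hc : ∀ k, 0 ≤ c k) :
    ∃ D : ℝ, 0 ≤ D ∧ ∀ (Z : Type) [MulAction G Z] (m : Mult G Z), VanK K X m →
      ∀ (w : G → Ell Z) (B : ℝ), 0 ≤ B → (∀ k, ‖w k‖ ≤ c k * B) →
      (∀ g k, w (g * k) = LL m (MonoidAlgebra.single g 1) (w k) + w g) →
      ∃ v, (∀ k, w k = LL m (MonoidAlgebra.single k 1) v - v) ∧ ‖v‖ ≤ D * B := by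
  obtain ⟨x0, hx0⟩ := X.surj
  change eps X x0 = 1 at hx0
  set D1 : ℝ := ∑ i : Fin (X.n 1), l1w c (Th X (X.d 0 i)) with hD1
  have hD1n : 0 ≤ D1 := Finset.sum_nonneg fun _ _ => l1w_nonneg hc _
  refine ⟨l1t x0 * (K * D1) + l1w c (Th X x0), add_nonneg (mul_nonneg (l1t_nonneg _)
    (mul_nonneg hK hD1n)) (l1w_nonneg hc _), ?_⟩
  intro Z _ m hV w B hB hwn hw
  set b : Fin (X.n 1) → Ell Z := fun i => mm w (Th X (X.d 0 i)) with hb
  have hbn : ‖b‖ ≤ D1 * B := by
    refine (pi_norm_le_iff_of_nonneg (mul_nonneg hD1n hB)).2 fun i => ?_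
    refine (norm_mm_le w hwn _).trans (mul_le_mul_of_nonneg_right ?_ hB)
    exact Finset.single_le_sum (f := fun i => l1w c (Th X (X.d 0 i)))
      (fun i _ => l1w_nonneg hc _) (Finset.mem_univ i)
  have hrow : ∀ i, eps X (X.d 0 i) = 0 := by
    intro i
    have : (Pi.single i 1 : Fin (X.n 1) → MonoidAlgebra ℤ G) ᵥ* X.d 0 = X.d 0 i := by
      funext j; simp [Matrix.vecMul, dotProduct, Pi.single_apply]
    rw [← this, eps_d]
  have hp : ∀ x : Fin (X.n 1) → MonoidAlgebra ℤ G, pV m x b = mm w (Th X (x ᵥ* X.d 0)) := by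
    intro x
    have e1 : ∀ i, LL m (x i) (b i) = mm w (Th X (x i • X.d 0 i)) := by
      intro i
      rw [Th_smul, mm_mul m w hw, augm_Th, hrow, zero_smul, add_zero]
    rw [pV, Finset.sum_congr rfl (fun i _ => e1 i), ← map_sum, ← map_sum, Matrix.vecMul_eq_sum]
  have hcc : act ((X.d 1).map (LL m)) b = 0 := by
    funext l
    have : act ((X.d 1).map (LL m)) b l = pV m (X.d 1 l) b := rfl
    rw [this, hp, ← Matrix.mul_apply_eq_vecMul, d_mul_d]
    change mm w (Th X 0) = 0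
    simp
  obtain ⟨v', hv', hv'n⟩ := hV.h1 b hcc
  have hy : ∀ y, eps X y = 0 → pV m y v' = mm w (Th X y) := by
    intro y hy
    obtain ⟨x, rfl⟩ := exists_lift X y hy
    rw [pV_vecMul, hv', hp]
  have hw1 : w 1 = 0 := by
    have := hw 1 1
    have e : LL m (MonoidAlgebra.single (1 : G) 1) (w 1) = w 1 := by
      rw [← MonoidAlgebra.one_def, map_one]; rfl
    rw [mul_one, e] at this
    exact left_eq_add.1 this
  refine ⟨pV m x0 v' - mm w (Th X x0), ?_, ?_⟩
  · intro k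
    have e0 : eps X ((MonoidAlgebra.single k 1 - 1 : MonoidAlgebra ℤ G) • x0) = 0 := by
      rw [eps_smul, map_sub, augm_single, map_one, sub_self, zero_mul]
    have e1 := hy _ e0
    rw [pV_smul, Th_smul, mm_mul m w hw, augm_Th, hx0, one_smul, map_sub (mm w),
      MonoidAlgebra.one_def, mm_single, mm_single, hw1, smul_zero, sub_zero, one_smul] at e1
    have e2 : ∀ v : Ell Z, LL m (MonoidAlgebra.single k 1 - MonoidAlgebra.single 1 1) v =
        LL m (MonoidAlgebra.single k 1) v - v := by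
      intro v
      rw [map_sub, ← MonoidAlgebra.one_def, map_one]; rfl
    rw [e2, e2] at e1
    rw [map_sub]
    rw [← sub_eq_iff_eq_add'] at e1
    rw [← e1]
    abel
  · refine (norm_sub_le _ _).trans ?_
    rw [add_mul]
    refine add_le_add ?_ (norm_mm_le w hwn _)
    refine (norm_pV_le m x0 v').trans ?_
    rw [mul_assoc (l1t x0)]
    refine mul_le_mul_of_nonneg_left ?_ (l1t_nonneg _)
    refine hv'n.trans ?_
    rw [mul_assoc]
    exact mul_le_mul_of_nonneg_left hbn hK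

/-! ### norms of finitely supported integral functions -/

lemma norm_hat_sq (f : Z →₀ ℤ) : ‖hat f‖ ^ 2 = ((f.sum fun _ c => c ^ 2 : ℤ) : ℝ) := by
  have h2 : 0 < (2 : ℝ≥0∞).toReal := by norm_num
  have h := lp.norm_rpow_eq_tsum h2 (hat f)
  have h3 : (2 : ℝ≥0∞).toReal = ((2 : ℕ) : ℝ) := by norm_num
  simp only [h3, Real.rpow_natCast] at h
  rw [h, tsum_eq_sum (s := f.support)]
  · rw [Finsupp.sum, Int.cast_sum]
    refine Finset.sum_congr rfl fun q _ => ?_
    rw [hat_apply]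
    simp
  · intro q hq
    rw [hat_apply, Finsupp.notMem_support_iff.1 hq]
    simp

lemma norm_le_of_apply {v w : Ell Z} (h : ∀ z, ‖v z‖ ≤ ‖w z‖) : ‖v‖ ≤ ‖w‖ := by
  have h2 : 0 < (2 : ℝ≥0∞).toReal := by norm_num
  have h1 := lp.norm_rpow_eq_tsum h2 v
  have h1' := lp.norm_rpow_eq_tsum h2 w
  have hv := (lp.memℓp v).summable h2
  have hw := (lp.memℓp w).summable h2
  have h3 : ‖v‖ ^ (2 : ℝ≥0∞).toReal ≤ ‖w‖ ^ (2 : ℝ≥0∞).toReal := by
    rw [h1, h1']
    exact hv.tsum_le_tsum (fun z => Real.rpow_le_rpow (norm_nonneg _) (h z) h2.le) hw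
  exact (Real.rpow_le_rpow_iff (norm_nonneg _) (norm_nonneg _) h2).1 h3

lemma norm_reV_le (v : Ell Z) : ‖reV v‖ ≤ ‖v‖ := by
  refine norm_le_of_apply fun z => ?_
  rw [reV_apply, Complex.norm_real]
  exact Complex.abs_re_le_norm _

end

end Pool.Agent.W5h87.ZInt
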