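import Pool.Agent.H79.LZ.H919R4_AS_Final

/-!
# Norm estimates for the twisted cochains
-/

set_option autoImplicit false
set_option linter.unusedSectionVars false

open scoped Matrix ENNReal
open Filter Topology

namespace Pool.Agent.W5h87.ZInt

open Pool.Agent.H496R3.ZS (Ell dl dl_apply permRep IsAmenable integ)
open Pool.Agent.H919R4.ZS (RedC redCstar toRed FinRes valR contraction)
open Pool.Agent.H919R4.AS

noncomputable section

variable {G : Type} [Group G]

/-- the element of `C*_r(G)` as an operator -/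
def vl (a : RedC G) : Ell G →L[ℂ] Ell G := valR a

/-- the norm of an element of `C*_r(G)` -/
def nv (a : RedC G) : ℝ := ‖vl a‖

lemma nv_nonneg (a : RedC G) : 0 ≤ nv a := norm_nonneg _

lemma vl_add (a b : RedC G) : vl (a + b) = vl a + vl b := map_add valR a b
lemma vl_mul (a b : RedC G) : vl (a * b) = vl a * vl b := map_mul valR a b
lemma vl_one : vl (1 : RedC G) = 1 := map_one valR
lemma vl_zero : vl (0 : RedC G) = 0 := map_zero valR

lemma norm_le_nv {C : Subgroup G} (t : RedC G → (Ell (G ⧸ C) →L[ℂ] Ell (G ⧸ C)))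
    (m : Mult G (G ⧸ C)) (ht : ∀ a, (vl a, t a) ∈ Gam m) (hC : IsAmenable C) (a : RedC G) :
    ‖t a‖ ≤ nv a := by
  have := Gam_norm hC m (ht a)
  exact this

lemma vl_exists {C : Subgroup G} (hC : IsAmenable C) (m : Mult G (G ⧸ C)) (x : RedC G) :
    ∃ b, (vl x, b) ∈ Gam m :=
  Gam_exists hC m _ (valR_mem x)

lemma exists_fun {C : Subgroup G} (hC : IsAmenable C) (m : Mult G (G ⧸ C)) :
    ∃ t : RedC G → (Ell (G ⧸ C) →L[ℂ] Ell (G ⧸ C)), (∀ a : RedC G, (vl a, t a) ∈ Gam m) ∧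
      ∀ a : RedC G, ‖t a‖ ≤ nv a := by
  choose t ht using vl_exists hC m
  exact ⟨t, ht, norm_le_nv t m ht hC⟩

/-- the extension of the twisted representation to `C*_r(G)`, with the norm estimate -/
theorem exists_ext_norm {C : Subgroup G} (hC : IsAmenable C) (m : Mult G (G ⧸ C)) :
    ∃ t : RedC G →+* (Ell (G ⧸ C) →L[ℂ] Ell (G ⧸ C)), (∀ a, t (toRed G a) = LL m a) ∧
      ∀ a, ‖t a‖ ≤ nv a := by
  obtain ⟨t, ht, hn⟩ := exists_fun hC m
  have hadd : ∀ a b, t (a + b) = t a + t b := by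
    intro a b
    refine Gam_unique hC m (ht (a + b)) ?_
    rw [vl_add]
    exact (Gam m).add_mem (ht a) (ht b)
  have hmul : ∀ a b, t (a * b) = t a * t b := by
    intro a b
    refine Gam_unique hC m (ht (a * b)) ?_
    rw [vl_mul]
    exact (Gam m).mul_mem (ht a) (ht b)
  have hone : t 1 = 1 := by
    refine Gam_unique hC m (ht 1) ?_
    rw [vl_one]
    exact (Gam m).one_mem
  have hzero : t 0 = 0 := by
    refine Gam_unique hC m (ht 0) ?_
    rw [vl_zero]
    exact (Gam m).zero_mem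
  have hLL : ∀ a, t (toRed G a) = LL m a := by
    intro a
    refine MonoidAlgebra.induction_linear a ?_ ?_ ?_
    · rw [map_zero, map_zero, hzero]
    · intro x y hx hy
      rw [map_add, map_add, hadd, hx, hy]
    · intro g r
      refine Gam_unique hC m (ht _) ?_
      rw [LL_single]
      have e : vl (toRed G (MonoidAlgebra.single g r)) = r • permRep G G g := by
        change valR (toRed G (MonoidAlgebra.single g r)) = _
        rw [Pool.Agent.H919R4.ZS.coe_toRed, Pool.Agent.H919R4.ZS.L_single]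
        rfl
      rw [e]
      exact zsmul_mem (Gam_group m g) r
  exact ⟨⟨⟨⟨t, hone⟩, hmul⟩, hzero, hadd⟩, hLL, hn⟩

variable {Z : Type} [MulAction G Z]

lemma norm_act_le {a b : ℕ} (M : Matrix (Fin a) (Fin b) (Ell Z →L[ℂ] Ell Z))
    (v : Fin b → Ell Z) : ‖act M v‖ ≤ (∑ i, ∑ j, ‖M i j‖) * ‖v‖ := by
  have h0 : 0 ≤ (∑ i, ∑ j, ‖M i j‖) * ‖v‖ := by positivity
  refine (pi_norm_le_iff_of_nonneg h0).2 fun i => ?_
  change ‖∑ j, M i j (v j)‖ ≤ _
  refine (norm_sum_le _ _).trans ?_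
  have h1 : ∀ j ∈ (Finset.univ : Finset (Fin b)), ‖M i j (v j)‖ ≤ ‖M i j‖ * ‖v‖ := fun j _ =>
    ((M i j).le_opNorm _).trans (mul_le_mul_of_nonneg_left (norm_le_pi_norm v j) (norm_nonneg _))
  refine (Finset.sum_le_sum h1).trans ?_
  rw [← Finset.sum_mul]
  refine mul_le_mul_of_nonneg_right ?_ (norm_nonneg _)
  exact Finset.single_le_sum (f := fun i => ∑ j, ‖M i j‖)
    (fun i _ => Finset.sum_nonneg fun j _ => norm_nonneg _) (Finset.mem_univ i)

/-- the quantified vanishing statements for the twisted cochains -/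
structure VanK (K : ℝ) (X : FinRes G) (m : Mult G Z) : Prop where
  h0 : ∀ v : Fin (X.n 0) → Ell Z, act ((X.d 0).map (LL m)) v = 0 → v = 0
  h1 : ∀ v : Fin (X.n 1) → Ell Z, act ((X.d 1).map (LL m)) v = 0 →
    ∃ w, act ((X.d 0).map (LL m)) w = v ∧ ‖w‖ ≤ K * ‖v‖
  h2 : ∀ v : Fin (X.n 2) → Ell Z, act ((X.d 2).map (LL m)) v = 0 →
    ∃ w, act ((X.d 1).map (LL m)) w = v ∧ ‖w‖ ≤ K * ‖v‖

lemma VanK.van {K : ℝ} {X : FinRes G} {m : Mult G Z} (h : VanK K X m) : Van X m :=
  ⟨h.h0, fun v hv => (h.h1 v hv).imp fun _ hw => hw.1, fun v hv => (h.h2 v hv).imp fun _ hw => hw.1⟩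

theorem exists_vanK (X : FinRes G)
    (h0 : Subsingleton (X.homology (toRed G) 0)) (h1 : Subsingleton (X.homology (toRed G) 1))
    (h2 : Subsingleton (X.homology (toRed G) 2)) :
    ∃ K : ℝ, 0 ≤ K ∧ ∀ C : Subgroup G, IsAmenable C → ∀ m : Mult G (G ⧸ C), VanK K X m := by
  obtain ⟨s0, s1, s2, e0, e1, e2⟩ := contraction X (toRed G) h0 h1 h2
  set K0 : ℝ := ∑ i, ∑ j, nv (s0 i j) with hK0
  set K1 : ℝ := ∑ i, ∑ j, nv (s1 i j) with hK1
  have p0 : 0 ≤ K0 := Finset.sum_nonneg fun i _ => Finset.sum_nonneg fun j _ => nv_nonneg _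
  have p1 : 0 ≤ K1 := Finset.sum_nonneg fun i _ => Finset.sum_nonneg fun j _ => nv_nonneg _
  refine ⟨K0 + K1, add_nonneg p0 p1, fun C hC m => ?_⟩
  obtain ⟨t, ht, htn⟩ := exists_ext_norm hC m
  have key : ∀ i, ((X.d i).map (toRed G)).map t = (X.d i).map (LL m) := by
    intro i
    refine funext fun j => funext fun k => ?_
    exact ht (X.d i j k)
  have f0 : s0.map t * (X.d 0).map (LL m) = 1 := by
    have := Pool.Agent.H919R4.ZS.map_ident0 t _ _ e0
    rwa [key 0] at this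
  have f1 : (X.d 0).map (LL m) * s0.map t + s1.map t * (X.d 1).map (LL m) = 1 := by
    have := Pool.Agent.H919R4.ZS.map_ident t _ _ _ _ e1
    rwa [key 0, key 1] at this
  have f2 : (X.d 1).map (LL m) * s1.map t + s2.map t * (X.d 2).map (LL m) = 1 := by
    have := Pool.Agent.H919R4.ZS.map_ident t _ _ _ _ e2
    rwa [key 1, key 2] at this
  have n0 : ∀ v, ‖act (s0.map t) v‖ ≤ (K0 + K1) * ‖v‖ := by
    intro v
    refine (norm_act_le _ v).trans (mul_le_mul_of_nonneg_right ?_ (norm_nonneg _))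
    refine le_trans ?_ (le_add_of_nonneg_right p1)
    exact Finset.sum_le_sum fun i _ => Finset.sum_le_sum fun j _ => htn (s0 i j)
  have n1 : ∀ v, ‖act (s1.map t) v‖ ≤ (K0 + K1) * ‖v‖ := by
    intro v
    refine (norm_act_le _ v).trans (mul_le_mul_of_nonneg_right ?_ (norm_nonneg _))
    refine le_trans ?_ (le_add_of_nonneg_left p0)
    exact Finset.sum_le_sum fun i _ => Finset.sum_le_sum fun j _ => htn (s1 i j)
  refine ⟨?_, ?_, ?_⟩
  · intro v hv
    rw [← act_one v, ← f0, act_mul, hv, act_zero]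
  · intro v hv
    refine ⟨act (s0.map t) v, ?_, n0 v⟩
    conv_rhs => rw [← act_one v, ← f1, act_add, act_mul, act_mul, hv, act_zero, add_zero]
  · intro v hv
    refine ⟨act (s1.map t) v, ?_, n1 v⟩
    conv_rhs => rw [← act_one v, ← f2, act_add, act_mul, act_mul, hv, act_zero, add_zero]

/-! ### coefficient norms -/

/-- weighted `ℓ¹`-norm of the coefficients -/
def l1w (c : G → ℝ) (a : MonoidAlgebra ℤ G) : ℝ :=
  ∑ k ∈ a.coeff.support, |((a.coeff k : ℤ) : ℝ)| * c k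

lemma l1w_nonneg {c : G → ℝ} (hc : ∀ k, 0 ≤ c k) (a : MonoidAlgebra ℤ G) : 0 ≤ l1w c a :=
  Finset.sum_nonneg fun k _ => mul_nonneg (abs_nonneg _) (hc k)

lemma norm_zsmul_le' {V : Type*} [SeminormedAddCommGroup V] (n : ℤ) (v : V) :
    ‖n • v‖ ≤ |((n : ℤ) : ℝ)| * ‖v‖ := by
  have := norm_zsmul_le (n := n) (a := v)
  simpa [Int.norm_eq_abs] using this

lemma norm_mm_le {c : G → ℝ} {B : ℝ} (w : G → Ell Z) (hw : ∀ k, ‖w k‖ ≤ c k * B)
    (a : MonoidAlgebra ℤ G) : ‖mm w a‖ ≤ l1w c a * B := by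
  change ‖a.coeff.sum fun k c => c • w k‖ ≤ _
  rw [Finsupp.sum, l1w, Finset.sum_mul]
  refine (norm_sum_le _ _).trans (Finset.sum_le_sum fun k _ => ?_)
  refine (norm_zsmul_le' _ _).trans ?_
  rw [mul_assoc]
  exact mul_le_mul_of_nonneg_left (hw k) (abs_nonneg _)

lemma LL_eq_sum (m : Mult G Z) (a : MonoidAlgebra ℤ G) :
    LL m a = ∑ k ∈ a.coeff.support, a.coeff k • m.rep k := by
  have h : LL m a = a.coeff.sum fun k c => c • m.rep k := by
    refine MonoidAlgebra.induction_linear a ?_ ?_ ?_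
    · simp
    · intro x y hx hy
      rw [map_add, hx, hy, MonoidAlgebra.coeff_add]
      exact (Finsupp.sum_add_index' (by simp) (by intro a b c; rw [add_smul])).symm
    · intro g r
      rw [LL_single, MonoidAlgebra.coeff_single, Finsupp.sum_single_index (by simp)]
  exact h

lemma norm_rep_le (m : Mult G Z) (g : G) : ‖m.rep g‖ ≤ 1 := by
  refine ContinuousLinearMap.opNorm_le_bound _ zero_le_one fun v => ?_
  change ‖Mult.mulIso (m.φ g) (m.norm_one g) (permRep G Z g v)‖ ≤ _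
  rw [LinearIsometry.norm_map, one_mul]
  exact le_of_eq ((Pool.Agent.H496R3.ZS.permIso (MulAction.toPerm (g⁻¹ : G) : Z ≃ Z)).norm_map v)

end

end Pool.Agent.W5h87.ZInt
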