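import Pool.Agent.H79.LZ.X270_NT_Stmt
import Pool.Agent.H79.LZ.X270_NT_Final

set_option autoImplicit false
set_option linter.unusedSectionVars false

open scoped Matrix ENNReal Pointwise InnerProductSpace
open Filter Topology

namespace Pool.Agent.X270.NT.St

open Pool.Agent.H496R3.ZS (IsAmenable)
open Pool.Agent.H919R4.ZS (FinRes toRed)

noncomputable section

variable {G V : Type} [Group G] [NormedAddCommGroup V] [NormedSpace ℂ V]

/-- the homomorphism to the bounded operators -/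
def BRep.hom (π : BRep G V) : G →* (V →L[ℂ] V) where
  toFun g := LinearMap.mkContinuousOfExistsBound
    { toFun := π.op g, map_add' := π.map_add g, map_smul' := π.map_smul g } (π.bounded g)
  map_one' := ContinuousLinearMap.ext fun v => π.map_one v
  map_mul' g h := ContinuousLinearMap.ext fun v => π.map_mul g h v

lemma hom_apply (π : BRep G V) (g : G) (v : V) : π.hom g v = π.op g v := rfl

lemma cobd_eq (X : FinRes G) (π : BRep G V) (i : ℕ) (v : Fin (X.n i) → V) :
    cobd X π i v = cobdV X π.hom i v := rfl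

lemma bd_eq (X : FinRes G) (π : BRep G V) (i : ℕ) (v : Fin (X.n (i + 1)) → V) :
    bd X π i v = bdV X π.hom i v := rfl

lemma not_coh (X : FinRes G) (π : BRep G V) (i : ℕ)
    (h : Subsingleton (cohomologyV X π.hom i)) : ¬ CohNonzero X π i := by
  rw [QuotientAddGroup.subsingleton_iff, AddSubgroup.addSubgroupOf_eq_top] at h
  intro hc
  cases i with
  | zero =>
    obtain ⟨v, hv, hv0⟩ := hc
    exact hv0 (h (show v ∈ (cobdV X π.hom 0).ker from hv))
  | succ i =>
    obtain ⟨v, hv, hv0⟩ := hc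
    obtain ⟨w, hw⟩ := h (show v ∈ (cobdV X π.hom (i + 1)).ker from hv)
    exact hv0 w hw

lemma not_hom (X : FinRes G) (π : BRep G V) (i : ℕ)
    (h : Subsingleton (homologyV X π.hom i)) : ¬ HomNonzero X π i := by
  rw [QuotientAddGroup.subsingleton_iff, AddSubgroup.addSubgroupOf_eq_top] at h
  intro hc
  cases i with
  | zero =>
    obtain ⟨v, hv0⟩ := hc
    obtain ⟨w, hw⟩ := h (show v ∈ cyclesV X π.hom 0 from trivial)
    exact hv0 w hw
  | succ i =>
    obtain ⟨v, hv, hv0⟩ := hc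
    obtain ⟨w, hw⟩ := h (show v ∈ cyclesV X π.hom (i + 1) from hv)
    exact hv0 w hw

lemma act_eq (π : BRep G V) (x : MonoidAlgebra ℂ G) (v : V) :
    act π x v = (∑ g ∈ x.coeff.support, x.coeff g • π.hom g) v := by
  rw [sum_apply]
  rfl

lemma act_ell (Z : Type) [MulAction G Z] (q : ℝ≥0∞) [Fact (1 ≤ q)] (x : MonoidAlgebra ℂ G)
    (f : lp (fun _ : Z => ℂ) q) :
    (act (ellRep G Z q) x f : EllT Z q) =
      (∑ g ∈ x.coeff.support, x.coeff g • NT.ellRep G Z q g) f := by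
  rw [sum_apply]
  rfl

lemma redNorm_eq' (x : MonoidAlgebra ℂ G) : redNorm x = NT.redNorm x := by
  have h : NT.redNorm x = sInf {c : ℝ | 0 ≤ c ∧ ∀ f : lp (fun _ : G => ℂ) 2,
      ‖(∑ g ∈ x.coeff.support, x.coeff g • NT.ellRep G G 2 g) f‖ ≤ c * ‖f‖} :=
    ContinuousLinearMap.norm_def _
  rw [h, redNorm]
  congr 1
  ext c
  constructor
  · rintro ⟨h0, h1⟩
    refine ⟨h0, fun f => ?_⟩
    rw [← act_ell G 2 x f]
    exact h1 f
  · rintro ⟨h0, h1⟩
    refine ⟨h0, fun f => ?_⟩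
    have := h1 f
    rw [← act_ell G 2 x f] at this
    exact this

lemma l1Norm_eq' (x : MonoidAlgebra ℂ G) : l1Norm x = NT.l1Norm x := rfl

lemma nearTempered_hom (S : Set G) (ε : ℝ) (π : BRep G V) (h : NearTempered S ε π) :
    NT.NearTempered S ε π.hom := by
  obtain ⟨K, hK⟩ := h
  refine ⟨|K|, fun m x hx => ?_⟩
  have h1 : 0 ≤ NT.redNorm x := norm_nonneg _
  have h2 := NT.l1Norm_nonneg x
  refine ContinuousLinearMap.opNorm_le_bound _ (by positivity) fun v => ?_
  rw [← act_eq]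
  refine (hK m x hx v).trans ?_
  rw [redNorm_eq', l1Norm_eq']
  have := le_abs_self K
  gcongr

instance instCompleteEllT (Z : Type) (q : ℝ≥0∞) [Fact (1 ≤ q)] : CompleteSpace (EllT Z q) :=
  (inferInstance : CompleteSpace (lp (fun _ : Z => ℂ) q))

lemma nearTempered_ellRep (Z : Type) [MulAction G Z] (q : ℝ≥0∞) [Fact (1 ≤ q)] (S : Set G)
    (ε : ℝ) (h : NT.NearTempered S ε (NT.ellRep G Z q)) :
    NearTempered S ε (ellRep G Z q) := by
  obtain ⟨K, hK⟩ := h
  refine ⟨K, fun m x hx v => ?_⟩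
  rw [redNorm_eq', l1Norm_eq']
  have h1 := hK m x hx
  have h2 := ((∑ g ∈ x.coeff.support, x.coeff g • NT.ellRep G Z q g) :
    lp (fun _ : Z => ℂ) q →L[ℂ] lp (fun _ : Z => ℂ) q).le_opNorm v
  rw [← act_ell Z q x v] at h2
  exact h2.trans (mul_le_mul_of_nonneg_right h1 (norm_nonneg _))

theorem final (X : FinRes G) (p : ℕ)
    (h : (∀ (S : Set G) (ε : ℝ), S.Finite → 0 < ε → SeenByBanach X p S ε) ∨
      (∀ (S : Set G) (ε : ℝ), S.Finite → 0 < ε → SeenByEll X p S ε)) :
    ∃ i ≤ p, Nontrivial (X.homology (toRed G) i) := by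
  by_contra hcon
  push Not at hcon
  obtain ⟨S, ε, hSf, hS, hε, hε1, hrob⟩ := robust X p (fun j hj => hcon j hj)
  rcases h with h | h
  · obtain ⟨V, _, _, _, π, hπ, i, hi, hnt⟩ := h S ε hSf hε
    obtain ⟨h1, h2⟩ := hrob V π.hom (nearTempered_hom S ε π hπ) i hi
    rcases hnt with hnt | hnt
    · exact not_coh X π i h1 hnt
    · exact not_hom X π i h2 hnt
  · obtain ⟨Z, _, q, _, hq, hZ, i, hi, hnt⟩ := h S ε hSf hε
    have h3 := nearTempered_ellRep Z q S ε (nearTempered_of S hSf hS ε hε hε1 q hq hZ)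
    obtain ⟨h1, h2⟩ := hrob (EllT Z q) (ellRep G Z q).hom (nearTempered_hom S ε _ h3) i hi
    rcases hnt with hnt | hnt
    · exact not_coh X _ i h1 hnt
    · exact not_hom X _ i h2 hnt

end

end Pool.Agent.X270.NT.St
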