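import Pool.Agent.H79.LZ.X270_NT_Defs
import Pool.Agent.H79.LZ.H919R4_AS_Ext

set_option autoImplicit false
set_option linter.unusedSectionVars false

open scoped Matrix ENNReal Pointwise
open Filter Topology

namespace Pool.Agent.X270.NT

open Pool.Agent.H496R3.ZS (Ell permRep IsAmenable integ integ_apply)
open Pool.Agent.H919R4.ZS (RedC redCstar toRed FinRes valR d_mul_d exists_rows
  exact_of_subsingleton L coe_toRed)
open Pool.Agent.H919R4.AS (valR_mem)

section contraction

variable {G : Type} [Group G] (X : FinRes G) {S : Type} [Ring S] (φ : MonoidAlgebra ℤ G →+* S)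

lemma dd (i : ℕ) : (X.d (i + 1)).map φ * (X.d i).map φ = 0 := by
  rw [← Matrix.map_mul, d_mul_d]; ext; simp

/-- partial inverses of the differentials -/
lemma exists_partial_inverse (i : ℕ) (h : ∀ j ≤ i, Subsingleton (X.homology φ j)) :
    ∃ s : Matrix (Fin (X.n i)) (Fin (X.n (i + 1))) S,
      (X.d i).map φ * s * (X.d i).map φ = (X.d i).map φ ∧ (i = 0 → s * (X.d i).map φ = 1) := by
  induction i with
  | zero =>
    obtain ⟨s0, hs0⟩ := exists_rows ((X.d 0).map φ) (1 : Matrix (Fin (X.n 0)) (Fin (X.n 0)) S)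
      (fun i => exact_of_subsingleton X φ 0 (h 0 le_rfl) _ trivial)
    exact ⟨s0, by rw [Matrix.mul_assoc, hs0, Matrix.mul_one], fun _ => hs0⟩
  | succ i ih =>
    obtain ⟨s, hs, -⟩ := ih (fun j hj => h j (by omega))
    have e1 : (1 - (X.d i).map φ * s) * (X.d i).map φ = 0 := by
      rw [Matrix.sub_mul, Matrix.one_mul, hs, sub_self]
    obtain ⟨s1, hs1⟩ := exists_rows ((X.d (i + 1)).map φ) (1 - (X.d i).map φ * s)
      (fun k => exact_of_subsingleton X φ (i + 1) (h (i + 1) le_rfl) _ (by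
        change ((1 - (X.d i).map φ * s :
          Matrix (Fin (X.n (i + 1))) (Fin (X.n (i + 1))) S) k) ᵥ* (X.d i).map φ = 0
        rw [← Matrix.mul_apply_eq_vecMul, e1]; rfl))
    refine ⟨s1, ?_, fun h0 => by omega⟩
    rw [Matrix.mul_assoc, hs1, Matrix.mul_sub, Matrix.mul_one, ← Matrix.mul_assoc, dd,
      Matrix.zero_mul, sub_zero]

/-- the contraction in a positive degree -/
lemma contraction_succ (i : ℕ) (h : ∀ j ≤ i + 1, Subsingleton (X.homology φ j)) :
    ∃ (s : Matrix (Fin (X.n i)) (Fin (X.n (i + 1))) S)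
      (t : Matrix (Fin (X.n (i + 1))) (Fin (X.n (i + 2))) S),
      (X.d i).map φ * s + t * (X.d (i + 1)).map φ = 1 := by
  obtain ⟨s, hs, -⟩ := exists_partial_inverse X φ i (fun j hj => h j (by omega))
  have e1 : (1 - (X.d i).map φ * s) * (X.d i).map φ = 0 := by
    rw [Matrix.sub_mul, Matrix.one_mul, hs, sub_self]
  obtain ⟨s1, hs1⟩ := exists_rows ((X.d (i + 1)).map φ) (1 - (X.d i).map φ * s)
    (fun k => exact_of_subsingleton X φ (i + 1) (h (i + 1) le_rfl) _ (by
      change ((1 - (X.d i).map φ * s :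
        Matrix (Fin (X.n (i + 1))) (Fin (X.n (i + 1))) S) k) ᵥ* (X.d i).map φ = 0
      rw [← Matrix.mul_apply_eq_vecMul, e1]; rfl))
  exact ⟨s, s1, by rw [hs1]; abel⟩

/-- the contraction in degree zero -/
lemma contraction_zero (h : Subsingleton (X.homology φ 0)) :
    ∃ t : Matrix (Fin (X.n 0)) (Fin (X.n 1)) S, t * (X.d 0).map φ = 1 := by
  obtain ⟨t, -, ht⟩ := exists_partial_inverse X φ 0 (fun j hj => by
    obtain rfl : j = 0 := by omega
    exact h)
  exact ⟨t, ht rfl⟩

end contraction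

/-! ### approximation over the complex group ring -/

noncomputable section approx

variable {G : Type} [Group G]

/-- the inclusion of the integral in the complex group ring -/
def cz : MonoidAlgebra ℤ G →+* MonoidAlgebra ℂ G := MonoidAlgebra.mapRingHom G (Int.castRingHom ℂ)

lemma cz_coeff (a : MonoidAlgebra ℤ G) (g : G) : (cz a).coeff g = ((a.coeff g : ℤ) : ℂ) := by
  rw [cz, MonoidAlgebra.coeff_mapRingHom]; rfl

lemma cz_support (a : MonoidAlgebra ℤ G) : (cz a).coeff.support = a.coeff.support := by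
  ext g
  rw [Finsupp.mem_support_iff, Finsupp.mem_support_iff, cz_coeff, Int.cast_ne_zero]

lemma valR_toRed (a : MonoidAlgebra ℤ G) :
    (valR (toRed G a) : Ell G →L[ℂ] Ell G) = integ G G (cz a) := by
  refine MonoidAlgebra.induction_linear a ?_ ?_ ?_
  · rw [map_zero, map_zero, map_zero]; exact (map_zero (integ G G)).symm
  · intro x y hx hy
    rw [map_add, map_add, map_add, map_add, hx, hy]
  · intro g r
    rw [coe_toRed, Pool.Agent.H919R4.ZS.L_single, cz, MonoidAlgebra.mapRingHom_single, integ,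
      MonoidAlgebra.lift_single]
    rw [eq_intCast, Int.cast_smul_eq_zsmul]
    rfl

/-- the sum of the reduced norms of the entries -/
def nR {a b : ℕ} (M : Matrix (Fin a) (Fin b) (MonoidAlgebra ℂ G)) : ℝ :=
  ∑ i, ∑ j, ‖integ G G (M i j)‖

/-- the inclusion of `C*_r(G)` into the bounded operators -/
def valE : RedC G →+* (Ell G →L[ℂ] Ell G) := valR

lemma valE_toRed (a : MonoidAlgebra ℤ G) : valE (toRed G a) = integ G G (cz a) := valR_toRed a

lemma exists_seq {a b : ℕ} (s : Matrix (Fin a) (Fin b) (RedC G)) :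
    ∃ x : ℕ → Matrix (Fin a) (Fin b) (MonoidAlgebra ℂ G),
      ∀ i j, Tendsto (fun n => integ G G (x n i j)) atTop (𝓝 ((s.map valE) i j)) := by
  have h : ∀ i j, ∃ x : ℕ → MonoidAlgebra ℂ G, Tendsto (fun n => integ G G (x n)) atTop
      (𝓝 (valE (s i j))) := by
    intro i j
    obtain ⟨u, hu, hlim⟩ := mem_closure_iff_seq_limit.1 (valR_mem (s i j))
    choose x hx using hu
    refine ⟨x, ?_⟩
    have e : (fun n => integ G G (x n)) = u := funext hx
    rw [e]
    exact hlim
  choose x hx using h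
  exact ⟨fun n i j => x i j n, fun i j => hx i j⟩

lemma tendsto_mul_left {a b c : ℕ} (D : Matrix (Fin a) (Fin b) (MonoidAlgebra ℂ G))
    (x : ℕ → Matrix (Fin b) (Fin c) (MonoidAlgebra ℂ G))
    (y : Matrix (Fin b) (Fin c) (Ell G →L[ℂ] Ell G))
    (h : ∀ i j, Tendsto (fun n => integ G G (x n i j)) atTop (𝓝 (y i j))) (i : Fin a) (j : Fin c) :
    Tendsto (fun n => integ G G ((D * x n) i j)) atTop (𝓝 ((D.map (integ G G) * y) i j)) := by
  simp only [Matrix.mul_apply, map_sum, map_mul, Matrix.map_apply]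
  exact tendsto_finsetSum _ fun k _ => (h k j).const_mul _

lemma tendsto_mul_right {a b c : ℕ} (D : Matrix (Fin b) (Fin c) (MonoidAlgebra ℂ G))
    (x : ℕ → Matrix (Fin a) (Fin b) (MonoidAlgebra ℂ G))
    (y : Matrix (Fin a) (Fin b) (Ell G →L[ℂ] Ell G))
    (h : ∀ i j, Tendsto (fun n => integ G G (x n i j)) atTop (𝓝 (y i j))) (i : Fin a) (j : Fin c) :
    Tendsto (fun n => integ G G ((x n * D) i j)) atTop (𝓝 ((y * D.map (integ G G)) i j)) := by
  simp only [Matrix.mul_apply, map_sum, map_mul, Matrix.map_apply]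
  exact tendsto_finsetSum _ fun k _ => (h i k).mul_const _

lemma map_one_integ {n : ℕ} :
    (1 : Matrix (Fin n) (Fin n) (MonoidAlgebra ℂ G)).map (integ G G) = 1 := by
  refine funext fun i => funext fun j => ?_
  by_cases h : i = j
  · subst h
    rw [Matrix.map_apply, Matrix.one_apply_eq, Matrix.one_apply_eq, map_one]
  · rw [Matrix.map_apply, Matrix.one_apply_ne h, Matrix.one_apply_ne h, map_zero]

lemma key_map {a b : ℕ} (D : Matrix (Fin a) (Fin b) (MonoidAlgebra ℤ G)) :
    (D.map (toRed G)).map (valE (G := G)) = (D.map cz).map (integ G G) :=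
  funext fun i => funext fun j => valE_toRed (D i j)

lemma tendsto_nR {a b : ℕ} (x : ℕ → Matrix (Fin a) (Fin b) (MonoidAlgebra ℂ G))
    (h : ∀ i j, Tendsto (fun n => integ G G (x n i j)) atTop (𝓝 0)) :
    ∃ n, nR (x n) < 1 / 2 := by
  have h5 : Tendsto (fun n => ∑ k, ∑ l, ‖integ G G (x n k l)‖) atTop
      (𝓝 (∑ k : Fin a, ∑ l : Fin b, ‖(0 : Ell G →L[ℂ] Ell G)‖)) :=
    tendsto_finsetSum _ fun k _ => tendsto_finsetSum _ fun l _ => (h k l).norm
  have hsum : Tendsto (fun n => nR (x n)) atTop (𝓝 0) := by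
    have h6 : (∑ k : Fin a, ∑ l : Fin b, ‖(0 : Ell G →L[ℂ] Ell G)‖) = 0 := by simp
    rw [h6] at h5
    exact h5
  exact (hsum.eventually (gt_mem_nhds (show (0 : ℝ) < 1 / 2 by norm_num))).exists

/-- approximate contraction in positive degree -/
lemma approx_succ (X : FinRes G) (i : ℕ) (h : ∀ j ≤ i + 1, Subsingleton (X.homology (toRed G) j)) :
    ∃ (s : Matrix (Fin (X.n i)) (Fin (X.n (i + 1))) (MonoidAlgebra ℂ G))
      (t : Matrix (Fin (X.n (i + 1))) (Fin (X.n (i + 2))) (MonoidAlgebra ℂ G)),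
      nR (1 - ((X.d i).map cz * s + t * (X.d (i + 1)).map cz)) < 1 / 2 := by
  obtain ⟨s, t, hst⟩ := contraction_succ X (toRed G) i h
  obtain ⟨x, hx⟩ := exists_seq s
  obtain ⟨y, hy⟩ := exists_seq t
  have hst' : ((X.d i).map cz).map (integ G G) * s.map (valE (G := G)) +
      t.map (valE (G := G)) * ((X.d (i + 1)).map cz).map (integ G G) = 1 := by
    have := Pool.Agent.H919R4.ZS.map_ident (valE (G := G)) _ _ _ _ hst
    rwa [key_map, key_map] at this
  obtain ⟨n, hn⟩ := tendsto_nR (fun n => 1 - ((X.d i).map cz * x n + y n * (X.d (i + 1)).map cz))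
    (by
      intro k l
      have h1 := tendsto_mul_left ((X.d i).map cz) x (s.map (valE (G := G))) hx k l
      have h2 := tendsto_mul_right ((X.d (i + 1)).map cz) y (t.map (valE (G := G))) hy k l
      have h3 := (tendsto_const_nhds (x := integ G G
        ((1 : Matrix (Fin (X.n (i + 1))) (Fin (X.n (i + 1))) (MonoidAlgebra ℂ G)) k l))
        (f := (atTop : Filter ℕ))).sub (h1.add h2)
      have h4 := congrFun (congrFun hst' k) l
      rw [Matrix.add_apply] at h4
      have h6 := congrFun (congrFun (map_one_integ (G := G) (n := X.n (i + 1))) k) l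
      rw [Matrix.map_apply] at h6
      rw [h4, h6, sub_self] at h3
      refine h3.congr fun n => ?_
      rw [Matrix.sub_apply, Matrix.add_apply, map_sub, map_add, ← h6])
  exact ⟨x n, y n, hn⟩

/-- approximate contraction in degree zero -/
lemma approx_zero (X : FinRes G) (h : Subsingleton (X.homology (toRed G) 0)) :
    ∃ (t : Matrix (Fin (X.n 0)) (Fin (X.n 1)) (MonoidAlgebra ℂ G)),
      nR (1 - t * (X.d 0).map cz) < 1 / 2 := by
  obtain ⟨t, hst⟩ := contraction_zero X (toRed G) h
  obtain ⟨y, hy⟩ := exists_seq t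
  have hst' : t.map (valE (G := G)) * ((X.d 0).map cz).map (integ G G) = 1 := by
    have := Pool.Agent.H919R4.ZS.map_ident0 (valE (G := G)) _ _ hst
    rwa [key_map] at this
  obtain ⟨n, hn⟩ := tendsto_nR (fun n => 1 - y n * (X.d 0).map cz)
    (by
      intro k l
      have h2 := tendsto_mul_right ((X.d 0).map cz) y (t.map (valE (G := G))) hy k l
      have h3 := (tendsto_const_nhds (x := integ G G
        ((1 : Matrix (Fin (X.n 0)) (Fin (X.n 0)) (MonoidAlgebra ℂ G)) k l))
        (f := (atTop : Filter ℕ))).sub h2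
      have h4 := congrFun (congrFun hst' k) l
      have h6 := congrFun (congrFun (map_one_integ (G := G) (n := X.n 0)) k) l
      rw [Matrix.map_apply] at h6
      rw [h4, h6, sub_self] at h3
      refine h3.congr fun n => ?_
      rw [Matrix.sub_apply, map_sub, ← h6])
  exact ⟨y n, hn⟩

end approx

end Pool.Agent.X270.NT
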