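import Pool.Agent.H79.LZ.X270_NT_Contr

set_option autoImplicit false
set_option linter.unusedSectionVars false

open scoped Matrix ENNReal Pointwise
open Filter Topology

namespace Pool.Agent.X270.NT

open Pool.Agent.H496R3.ZS (Ell permRep IsAmenable integ integ_apply)
open Pool.Agent.H919R4.ZS (FinRes d_mul_d toRed)

noncomputable section

variable {G : Type} [Group G]

/-! ### the group ring -/

/-- the inverse map on the group ring -/
def inv (x : MonoidAlgebra ℂ G) : MonoidAlgebra ℂ G := MonoidAlgebra.mapDomain (fun g => g⁻¹) x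

lemma inv_single (g : G) (c : ℂ) :
    inv (MonoidAlgebra.single g c) = MonoidAlgebra.single g⁻¹ c := MonoidAlgebra.mapDomain_single

lemma inv_add (x y : MonoidAlgebra ℂ G) : inv (x + y) = inv x + inv y :=
  MonoidAlgebra.mapDomain_add _ _ _

lemma inv_zero : inv (0 : MonoidAlgebra ℂ G) = 0 := MonoidAlgebra.mapDomain_zero _

/-- coefficientwise conjugation -/
def cj (x : MonoidAlgebra ℂ G) : MonoidAlgebra ℂ G :=
  MonoidAlgebra.mapRingHom G (starRingEnd ℂ) x

lemma cj_single (g : G) (c : ℂ) :
    cj (MonoidAlgebra.single g c) = MonoidAlgebra.single g (starRingEnd ℂ c) := by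
  rw [cj, MonoidAlgebra.mapRingHom_single]

lemma cj_add (x y : MonoidAlgebra ℂ G) : cj (x + y) = cj x + cj y := map_add _ _ _

lemma cj_zero : cj (0 : MonoidAlgebra ℂ G) = 0 := map_zero _

lemma cj_cj (x : MonoidAlgebra ℂ G) : cj (cj x) = x := by
  refine MonoidAlgebra.induction_linear x ?_ ?_ ?_
  · rw [cj_zero, cj_zero]
  · intro x y hx hy
    rw [cj_add, cj_add, hx, hy]
  · intro g c
    rw [cj_single, cj_single, Complex.conj_conj]

lemma norm_integ_cj_le (x : MonoidAlgebra ℂ G) : ‖integ G G (cj x)‖ ≤ ‖integ G G x‖ := by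
  have key : ∀ (x : MonoidAlgebra ℂ G) (f : Ell G),
      integ G G (cj x) f = star (integ G G x (star f)) := by
    intro x f
    refine MonoidAlgebra.induction_linear x ?_ ?_ ?_
    · rw [cj_zero, map_zero]
      simp
    · intro x y hx hy
      rw [cj_add, map_add, map_add, add_apply, add_apply, hx, hy, star_add]
    · intro g c
      rw [cj_single, integ, MonoidAlgebra.lift_single, MonoidAlgebra.lift_single]
      ext z
      change (starRingEnd ℂ c) * f (g⁻¹ • z) = star (c * star (f (g⁻¹ • z)))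
      rw [star_mul', star_star]
      rfl
  refine ContinuousLinearMap.opNorm_le_bound _ (norm_nonneg _) fun f => ?_
  rw [key, norm_star]
  refine (ContinuousLinearMap.le_opNorm _ _).trans ?_
  rw [norm_star]

/-- the adjoint in the group ring -/
def st (x : MonoidAlgebra ℂ G) : MonoidAlgebra ℂ G := cj (inv x)

lemma st_single (g : G) (c : ℂ) :
    st (MonoidAlgebra.single g c) = MonoidAlgebra.single g⁻¹ (starRingEnd ℂ c) := by
  rw [st, inv_single, cj_single]

lemma st_add (x y : MonoidAlgebra ℂ G) : st (x + y) = st x + st y := by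
  rw [st, inv_add, cj_add]; rfl

lemma st_zero : st (0 : MonoidAlgebra ℂ G) = 0 := by rw [st, inv_zero, cj_zero]

lemma permRep_adjoint {Z : Type} [MulAction G Z] (g : G) :
    ContinuousLinearMap.adjoint (permRep G Z g) = permRep G Z g⁻¹ := by
  symm
  rw [ContinuousLinearMap.eq_adjoint_iff]
  intro x y
  have h1 : ∀ f : Ell Z, ‖permRep G Z g f‖ = ‖f‖ := fun f => LinearIsometry.norm_map _ f
  have h2 : @inner ℂ _ _ (permRep G Z g (permRep G Z g⁻¹ x)) (permRep G Z g y) =
      @inner ℂ _ _ (permRep G Z g⁻¹ x) y :=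
    LinearIsometry.inner_map_map (Pool.Agent.H496R3.ZS.permIso (MulAction.toPerm (g⁻¹ : G) : Z ≃ Z))
      _ _
  rw [← h2, ← mul_apply_eq_comp, ← map_mul, mul_inv_cancel, map_one]
  rfl

lemma integ_adjoint {Z : Type} [MulAction G Z] (x : MonoidAlgebra ℂ G) :
    ContinuousLinearMap.adjoint (integ G Z x) = integ G Z (st x) := by
  refine MonoidAlgebra.induction_linear x ?_ ?_ ?_
  · rw [st_zero, map_zero, map_zero]
  · intro x y hx hy
    rw [st_add, map_add, map_add, map_add, hx, hy]
  · intro g c
    rw [st_single, integ, MonoidAlgebra.lift_single, MonoidAlgebra.lift_single, map_smulₛₗ,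
      permRep_adjoint]

lemma norm_integ_inv_le (x : MonoidAlgebra ℂ G) : ‖integ G G (inv x)‖ ≤ ‖integ G G x‖ := by
  have h1 : inv x = cj (st x) := by rw [st, cj_cj]
  rw [h1]
  refine (norm_integ_cj_le _).trans ?_
  rw [← integ_adjoint, LinearIsometryEquiv.norm_map]

lemma ellRep_two (g : G) : ellRep G G 2 g = permRep G G g := rfl

lemma lift_eq_sum {V : Type} [NormedAddCommGroup V] [NormedSpace ℂ V] (π : G →* (V →L[ℂ] V))
    (x : MonoidAlgebra ℂ G) :
    MonoidAlgebra.lift ℂ _ G π x = ∑ g ∈ x.coeff.support, x.coeff g • π g := by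
  rw [MonoidAlgebra.lift_apply, Finsupp.sum]

lemma redNorm_eq (x : MonoidAlgebra ℂ G) : redNorm x = ‖integ G G x‖ := by
  rw [redNorm, integ, lift_eq_sum]
  rfl

lemma l1Norm_nonneg (x : MonoidAlgebra ℂ G) : 0 ≤ l1Norm x :=
  Finset.sum_nonneg fun _ _ => norm_nonneg _

lemma l1Norm_zero : l1Norm (0 : MonoidAlgebra ℂ G) = 0 := by
  simp [l1Norm]

lemma l1Norm_of_subset (x : MonoidAlgebra ℂ G) (T : Finset G) (h : x.coeff.support ⊆ T) :
    l1Norm x = ∑ g ∈ T, ‖x.coeff g‖ := by
  refine Finset.sum_subset h fun g _ hg => ?_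
  rw [Finsupp.notMem_support_iff.1 hg, norm_zero]

lemma l1Norm_add_le (x y : MonoidAlgebra ℂ G) : l1Norm (x + y) ≤ l1Norm x + l1Norm y := by
  classical
  rw [l1Norm_of_subset x (x.coeff.support ∪ y.coeff.support) Finset.subset_union_left,
    l1Norm_of_subset y (x.coeff.support ∪ y.coeff.support) Finset.subset_union_right,
    l1Norm_of_subset (x + y) (x.coeff.support ∪ y.coeff.support) Finsupp.support_add,
    ← Finset.sum_add_distrib]
  exact Finset.sum_le_sum fun g _ => norm_add_le _ _

lemma l1Norm_sum_le {ι : Type} (s : Finset ι) (f : ι → MonoidAlgebra ℂ G) :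
    l1Norm (∑ i ∈ s, f i) ≤ ∑ i ∈ s, l1Norm (f i) := by
  classical
  induction s using Finset.induction_on with
  | empty => rw [Finset.sum_empty, Finset.sum_empty, l1Norm_zero]
  | insert a s ha ih =>
    rw [Finset.sum_insert ha, Finset.sum_insert ha]
    exact (l1Norm_add_le _ _).trans (add_le_add le_rfl ih)

lemma l1Norm_single (g : G) (c : ℂ) : l1Norm (MonoidAlgebra.single g c) = ‖c‖ := by
  classical
  rw [l1Norm_of_subset (MonoidAlgebra.single g c) {g} Finsupp.support_single_subset,
    Finset.sum_singleton]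
  simp

lemma eq_sum_single (x : MonoidAlgebra ℂ G) :
    x = ∑ g ∈ x.coeff.support, MonoidAlgebra.single g (x.coeff g) := by
  classical
  ext h
  rw [MonoidAlgebra.coeff_sum, Finsupp.finsetSum_apply]
  by_cases hh : h ∈ x.coeff.support
  · rw [Finset.sum_eq_single h]
    · simp
    · intro b _ hb
      simp [hb]
    · intro h'; exact absurd hh h'
  · rw [Finset.sum_eq_zero, Finsupp.notMem_support_iff.1 hh]
    intro b hb
    have : b ≠ h := fun e => hh (e ▸ hb)
    simp [this]

lemma l1Norm_mul_le (x y : MonoidAlgebra ℂ G) : l1Norm (x * y) ≤ l1Norm x * l1Norm y := by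
  conv_lhs => rw [eq_sum_single x, eq_sum_single y, Finset.sum_mul_sum]
  refine (l1Norm_sum_le _ _).trans ?_
  rw [l1Norm, l1Norm, Finset.sum_mul_sum]
  refine Finset.sum_le_sum fun g _ => ?_
  refine (l1Norm_sum_le _ _).trans ?_
  refine Finset.sum_le_sum fun h _ => ?_
  rw [MonoidAlgebra.single_mul_single, l1Norm_single, norm_mul]

lemma l1Norm_inv_le (x : MonoidAlgebra ℂ G) : l1Norm (inv x) ≤ l1Norm x := by
  have h : inv x = ∑ g ∈ x.coeff.support, MonoidAlgebra.single g⁻¹ (x.coeff g) := by
    conv_lhs => rw [eq_sum_single x]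
    have h2 : ∀ (s : Finset G), inv (∑ g ∈ s, MonoidAlgebra.single g (x.coeff g)) =
        ∑ g ∈ s, MonoidAlgebra.single g⁻¹ (x.coeff g) := by
      classical
      intro s
      induction s using Finset.induction_on with
      | empty => simp [inv_zero]
      | insert a s ha ih => rw [Finset.sum_insert ha, Finset.sum_insert ha, inv_add, ih, inv_single]
    exact h2 _
  rw [h]
  refine (l1Norm_sum_le _ _).trans ?_
  refine Finset.sum_le_sum fun g _ => ?_
  rw [l1Norm_single]

lemma redNorm_le_l1Norm (x : MonoidAlgebra ℂ G) : redNorm x ≤ l1Norm x := by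
  rw [redNorm, l1Norm]
  refine (norm_sum_le _ _).trans (Finset.sum_le_sum fun g _ => ?_)
  rw [norm_smul]
  refine mul_le_of_le_one_right (norm_nonneg _) ?_
  refine ContinuousLinearMap.opNorm_le_bound _ zero_le_one fun f => ?_
  rw [one_mul]
  exact (norm_compLin 2 _ f).le

lemma support_inv (x : MonoidAlgebra ℂ G) :
    ((inv x).coeff.support : Set G) ⊆ (x.coeff.support : Set G)⁻¹ := by
  classical
  intro g hg
  have h := Finsupp.mapDomain_support (f := fun g : G => g⁻¹) (s := x.coeff) hg
  obtain ⟨k, hk, rfl⟩ := Finset.mem_image.1 h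
  simpa using hk

lemma support_mul' (x y : MonoidAlgebra ℂ G) :
    ((x * y).coeff.support : Set G) ⊆ (x.coeff.support : Set G) * (y.coeff.support : Set G) := by
  classical
  have := MonoidAlgebra.support_coeff_mul_subset x y
  rw [← Finset.coe_mul]
  exact_mod_cast this

end

end Pool.Agent.X270.NT
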