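import Pool.Agent.H79.LZ.H919R4_ZS_Defs
import Pool.Agent.H79.LZ.H496R3_ZS_Stmt

/-!
Homology and cohomology of a group with coefficients in a normed space on which the group acts by
bounded operators, computed from a finite free resolution; representations on Banach spaces which
are close to being weakly contained in the regular representation; the representations on
`ℓ^q(Z)` for a set `Z` with an action of the group.
-/

set_option autoImplicit false

open scoped Matrix ENNReal Pointwise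

namespace Pool.Agent.X270.NT

open Pool.Agent.H919R4.ZS (FinRes)

section coefficients

variable {G : Type} [Group G] {V : Type} [NormedAddCommGroup V] [NormedSpace ℂ V]

/-- The left action of `a = ∑ a_g g ∈ ℤ[G]` on `V`: `v ↦ ∑ a_g π(g) v`. -/
noncomputable def actL (π : G →* (V →L[ℂ] V)) (a : MonoidAlgebra ℤ G) (v : V) : V :=
  ∑ g ∈ a.coeff.support, a.coeff g • π g v

/-- The right action of `a = ∑ a_g g ∈ ℤ[G]` on `V`: `v ↦ ∑ a_g π(g⁻¹) v`. -/
noncomputable def actR (π : G →* (V →L[ℂ] V)) (a : MonoidAlgebra ℤ G) (v : V) : V :=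
  ∑ g ∈ a.coeff.support, a.coeff g • π g⁻¹ v

lemma actL_zero (π : G →* (V →L[ℂ] V)) (a : MonoidAlgebra ℤ G) : actL π a 0 = 0 := by
  simp [actL]

lemma actL_add (π : G →* (V →L[ℂ] V)) (a : MonoidAlgebra ℤ G) (v w : V) :
    actL π a (v + w) = actL π a v + actL π a w := by
  simp [actL, smul_add, Finset.sum_add_distrib]

lemma actR_zero (π : G →* (V →L[ℂ] V)) (a : MonoidAlgebra ℤ G) : actR π a 0 = 0 := by
  simp [actR]

lemma actR_add (π : G →* (V →L[ℂ] V)) (a : MonoidAlgebra ℤ G) (v w : V) :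
    actR π a (v + w) = actR π a v + actR π a w := by
  simp [actR, smul_add, Finset.sum_add_distrib]

variable (X : FinRes G) (π : G →* (V →L[ℂ] V))

/-- The coboundary `V^(n i) → V^(n (i+1))`, `(v_j) ↦ (∑_j d_kj · v_j)_k`, of the cochain complex
`Hom_{ℤ[G]}(C_*, V)`, where `C_*` is the resolution `X`. -/
noncomputable def cobdV (i : ℕ) : (Fin (X.n i) → V) →+ (Fin (X.n (i + 1)) → V) where
  toFun v := fun k => ∑ j, actL π (X.d i k j) (v j)
  map_zero' := by funext k; simp [actL_zero]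
  map_add' v w := by funext k; simp [actL_add, Finset.sum_add_distrib]

/-- The coboundaries of `Hom_{ℤ[G]}(C_*, V)`. -/
noncomputable def coboundariesV : ∀ i : ℕ, AddSubgroup (Fin (X.n i) → V)
  | 0 => ⊥
  | i + 1 => (cobdV X π i).range

/-- The cohomology `H^i(G; V)` (cocycles modulo coboundaries), computed from the resolution. -/
noncomputable abbrev cohomologyV (i : ℕ) : Type :=
  (cobdV X π i).ker ⧸ (coboundariesV X π i).addSubgroupOf (cobdV X π i).ker

/-- The boundary `V^(n (i+1)) → V^(n i)`, `(v_j) ↦ (∑_j v_j · d_jk)_k`, of the chain complex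
`V ⊗_{ℤ[G]} C_*`, where `C_*` is the resolution `X`. -/
noncomputable def bdV (i : ℕ) : (Fin (X.n (i + 1)) → V) →+ (Fin (X.n i) → V) where
  toFun v := fun k => ∑ j, actR π (X.d i j k) (v j)
  map_zero' := by funext k; simp [actR_zero]
  map_add' v w := by funext k; simp [actR_add, Finset.sum_add_distrib]

/-- The cycles of `V ⊗_{ℤ[G]} C_*`. -/
noncomputable def cyclesV : ∀ i : ℕ, AddSubgroup (Fin (X.n i) → V)
  | 0 => ⊤
  | i + 1 => (bdV X π i).ker

/-- The homology `H_i(G; V)` (cycles modulo boundaries), computed from the resolution. -/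
noncomputable abbrev homologyV (i : ℕ) : Type :=
  cyclesV X π i ⧸ (bdV X π i).range.addSubgroupOf (cyclesV X π i)

end coefficients

/-! ### The representations on `ℓ^q(Z)` -/

section ell

lemma memlp_comp {Z : Type} (q : ℝ≥0∞) (hq : q ≠ 0) (e : Z ≃ Z) {f : Z → ℂ} (hf : Memℓp f q) :
    Memℓp (fun z => f (e z)) q := by
  rcases eq_or_ne q ∞ with rfl | hq'
  · rw [memℓp_infty_iff] at hf ⊢
    refine hf.mono ?_
    rintro _ ⟨z, rfl⟩
    exact ⟨e z, rfl⟩
  · have h : 0 < q.toReal := ENNReal.toReal_pos hq hq'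
    rw [memℓp_gen_iff h] at hf ⊢
    exact (e.summable_iff (f := fun h => ‖f h‖ ^ q.toReal)).2 hf

/-- The linear map `f ↦ f ∘ e` of `ℓ^q(Z)` given by a bijection `e` of `Z`. -/
noncomputable def compLin {Z : Type} (q : ℝ≥0∞) [hq : Fact (1 ≤ q)] (e : Z ≃ Z) :
    lp (fun _ : Z => ℂ) q →ₗ[ℂ] lp (fun _ : Z => ℂ) q where
  toFun f := ⟨fun z => f (e z), memlp_comp q (one_pos.trans_le hq.out).ne' e (lp.memℓp f)⟩
  map_add' _ _ := rfl
  map_smul' _ _ := rfl

lemma norm_compLin {Z : Type} (q : ℝ≥0∞) [hq : Fact (1 ≤ q)] (e : Z ≃ Z)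
    (f : lp (fun _ : Z => ℂ) q) : ‖compLin q e f‖ = ‖f‖ := by
  rcases eq_or_ne q ∞ with rfl | hq'
  · rw [lp.norm_eq_ciSup, lp.norm_eq_ciSup]
    exact e.iSup_comp (g := fun h => ‖f h‖)
  · have h : 0 < q.toReal := ENNReal.toReal_pos (one_pos.trans_le hq.out).ne' hq'
    rw [lp.norm_eq_tsum_rpow h, lp.norm_eq_tsum_rpow h]
    congr 1
    exact e.tsum_eq (fun h => ‖f h‖ ^ q.toReal)

/-- The isometric representation of `G` on `ℓ^q(Z)` given by an action of `G` on a set `Z`:
`(g f)(z) = f(g⁻¹ z)`. For `Z = G` with left multiplication and `q = 2` it is the left regular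
representation. -/
noncomputable def ellRep (G Z : Type) [Group G] [MulAction G Z] (q : ℝ≥0∞) [Fact (1 ≤ q)] :
    G →* (lp (fun _ : Z => ℂ) q →L[ℂ] lp (fun _ : Z => ℂ) q) where
  toFun g := (compLin q (MulAction.toPerm (g⁻¹ : G) : Z ≃ Z)).mkContinuous 1
    (fun f => by rw [norm_compLin, one_mul])
  map_one' := by
    refine ContinuousLinearMap.ext fun f => ?_
    ext z
    change f ((1 : G)⁻¹ • z) = f z
    simp
  map_mul' g h := by
    refine ContinuousLinearMap.ext fun f => ?_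
    ext z
    change f ((g * h)⁻¹ • z) = f (h⁻¹ • (g⁻¹ • z))
    rw [mul_inv_rev, mul_smul]

/-- The norm of `∑ x_g λ(g)` as an operator on `ℓ²(G)`, `λ` the left regular representation: the
norm of `x = ∑ x_g g ∈ ℂ[G]` in `C*_r(G)`. -/
noncomputable def redNorm {G : Type} [Group G] (x : MonoidAlgebra ℂ G) : ℝ :=
  ‖∑ g ∈ x.coeff.support, x.coeff g • ellRep G G 2 g‖

/-- The norm `∑ |x_g|` of `x = ∑ x_g g ∈ ℂ[G]` in `ℓ¹(G)`. -/
noncomputable def l1Norm {G : Type} [Group G] (x : MonoidAlgebra ℂ G) : ℝ :=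
  ∑ g ∈ x.coeff.support, ‖x.coeff g‖

end ell

/-- The representation `π` of `G` on the normed space `V` is `ε`-tempered with respect to the
finite subset `S` of `G`: there is a constant `K` with
`‖∑ x_g π(g)‖ ≤ K e^(ε m) ‖x‖_r^(1-ε) ‖x‖_1^ε`
for all `m` and all `x = ∑ x_g g ∈ ℂ[G]` supported in `S^m = {s_1 ⋯ s_m | s_i ∈ S}`, where
`‖x‖_r` is the norm of `x` in `C*_r(G)` and `‖x‖_1` its norm in `ℓ¹(G)`. -/
def NearTempered {G : Type} [Group G] {V : Type} [NormedAddCommGroup V] [NormedSpace ℂ V]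
    (S : Set G) (ε : ℝ) (π : G →* (V →L[ℂ] V)) : Prop :=
  ∃ K : ℝ, ∀ (m : ℕ) (x : MonoidAlgebra ℂ G), (x.coeff.support : Set G) ⊆ S ^ m →
    ‖∑ g ∈ x.coeff.support, x.coeff g • π g‖ ≤
      K * Real.exp (ε * m) * redNorm x ^ (1 - ε) * l1Norm x ^ ε

/-- The action of `G` on `Z` has stabilisers of exponent at most `ε` with respect to the finite
subset `S` of `G`: for all `z, w ∈ Z` there is `K` such that at most `K e^(ε m)` elements `g` of
`S^m = {s_1 ⋯ s_m | s_i ∈ S}` satisfy `g z = w`, for all `m`. -/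
def Thin {G : Type} [Group G] (S : Set G) (ε : ℝ) (Z : Type) [MulAction G Z] : Prop :=
  ∀ z w : Z, ∃ K : ℝ, ∀ m : ℕ, (Set.ncard {g : G | g ∈ S ^ m ∧ g • z = w} : ℝ) ≤
    K * Real.exp (ε * m)

end Pool.Agent.X270.NT
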