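import Pool.Agent.H79.LZ.X270_NT_Core

set_option autoImplicit false
set_option linter.unusedSectionVars false

open scoped Matrix ENNReal Pointwise
open Filter Topology

namespace Pool.Agent.X270.NT

open Pool.Agent.H496R3.ZS (Ell permRep IsAmenable integ integ_apply)
open Pool.Agent.H919R4.ZS (FinRes d_mul_d toRed)

noncomputable section

/-! ### matrices of operators -/

section operators

variable {V : Type} [NormedAddCommGroup V] [NormedSpace ℂ V]

/-- matrices of bounded operators acting on tuples -/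
def actM {a b : ℕ} (M : Matrix (Fin a) (Fin b) (V →L[ℂ] V)) : (Fin b → V) →L[ℂ] (Fin a → V) :=
  ContinuousLinearMap.pi fun i => ∑ j, (M i j).comp (ContinuousLinearMap.proj j)

lemma actM_apply {a b : ℕ} (M : Matrix (Fin a) (Fin b) (V →L[ℂ] V)) (v : Fin b → V) (i : Fin a) :
    actM M v i = ∑ j, M i j (v j) := by
  simp [actM, sum_apply]

lemma actM_mul {a b c : ℕ} (M : Matrix (Fin a) (Fin b) (V →L[ℂ] V))
    (N : Matrix (Fin b) (Fin c) (V →L[ℂ] V)) (v : Fin c → V) :
    actM (M * N) v = actM M (actM N v) := by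
  funext i
  simp only [actM_apply, Matrix.mul_apply, sum_apply, map_sum]
  rw [Finset.sum_comm]
  rfl

lemma actM_add {a b : ℕ} (M N : Matrix (Fin a) (Fin b) (V →L[ℂ] V)) (v : Fin b → V) :
    actM (M + N) v = actM M v + actM N v := by
  funext i
  simp [actM_apply, Finset.sum_add_distrib]

lemma actM_one {a : ℕ} (v : Fin a → V) :
    actM (1 : Matrix (Fin a) (Fin a) (V →L[ℂ] V)) v = v := by
  funext i
  rw [actM_apply, Finset.sum_eq_single i]
  · simp
  · intro j _ hj; simp [hj.symm]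
  · simp

lemma actM_zero {a b : ℕ} (v : Fin b → V) :
    actM (0 : Matrix (Fin a) (Fin b) (V →L[ℂ] V)) v = 0 := by
  funext i
  simp [actM_apply]

lemma norm_actM_le {a b : ℕ} (M : Matrix (Fin a) (Fin b) (V →L[ℂ] V)) (c : ℝ) (hc : 0 ≤ c)
    (h : ∀ i j, ‖M i j‖ ≤ c) (v : Fin b → V) : ‖actM M v‖ ≤ b * c * ‖v‖ := by
  rw [pi_norm_le_iff_of_nonneg (by positivity)]
  intro i
  rw [actM_apply]
  refine (norm_sum_le _ _).trans ?_
  have h1 : ∀ j ∈ (Finset.univ : Finset (Fin b)), ‖M i j (v j)‖ ≤ c * ‖v‖ := fun j _ =>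
    ((M i j).le_opNorm _).trans (mul_le_mul (h i j) (norm_le_pi_norm v j) (norm_nonneg _) hc)
  refine (Finset.sum_le_sum h1).trans ?_
  rw [Finset.sum_const, Finset.card_univ, Fintype.card_fin, nsmul_eq_mul]
  exact le_of_eq (by ring)

/-- exactness from an approximate contraction whose error has geometrically small powers -/
lemma exact_of_approx [CompleteSpace V] {n a c : ℕ} (P : Matrix (Fin n) (Fin a) (V →L[ℂ] V))
    (Q : Matrix (Fin c) (Fin n) (V →L[ℂ] V)) (U : Matrix (Fin a) (Fin n) (V →L[ℂ] V))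
    (W : Matrix (Fin n) (Fin c) (V →L[ℂ] V)) (E : Matrix (Fin n) (Fin n) (V →L[ℂ] V))
    (hQP : Q * P = 0) (h : E + P * U + W * Q = 1) (K : ℝ) (hK : 0 ≤ K)
    (hE : ∀ m i j, ‖(E ^ (m + 1)) i j‖ ≤ K * (3 / 4) ^ (m + 1)) (z : Fin n → V)
    (hz : actM Q z = 0) : ∃ w : Fin a → V, actM P w = z := by
  have hQE : Q * E = (1 - Q * W) * Q := by
    have h1 : E = 1 - P * U - W * Q := by
      rw [← h]; abel
    rw [h1, Matrix.mul_sub, Matrix.mul_sub, Matrix.mul_one, ← Matrix.mul_assoc, hQP,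
      Matrix.zero_mul, sub_zero, Matrix.sub_mul, Matrix.one_mul, Matrix.mul_assoc]
  set y : ℕ → Fin n → V := fun m => actM (E ^ m) z with hy
  have hQ : ∀ m, actM Q (y m) = 0 := by
    intro m
    induction m with
    | zero => simp only [hy]; rw [pow_zero, actM_one]; exact hz
    | succ m ih =>
      simp only [hy] at ih ⊢
      rw [pow_succ', actM_mul, ← actM_mul, hQE, actM_mul, ih, map_zero]
  have hstep : ∀ m, actM P (actM U (y m)) = y m - y (m + 1) := by
    intro m
    have h1 := actM_one (y m)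
    rw [← h, actM_add, actM_add, actM_mul, actM_mul, hQ, map_zero, add_zero] at h1
    have h2 : y (m + 1) = actM E (y m) := by
      simp only [hy]
      rw [pow_succ', actM_mul]
    rw [h2]
    exact eq_sub_of_add_eq' h1
  have hnorm : ∀ m, ‖y (m + 1)‖ ≤ (n * K * ‖z‖ * (3 / 4)) * (3 / 4) ^ m := by
    intro m
    refine (norm_actM_le (E ^ (m + 1)) (K * (3 / 4) ^ (m + 1)) (by positivity) (hE m) z).trans ?_
    exact le_of_eq (by ring)
  have hgeo : Summable (fun m : ℕ => (n * K * ‖z‖ * (3 / 4)) * ((3 : ℝ) / 4) ^ m) :=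
    (summable_geometric_of_lt_one (by norm_num) (by norm_num)).mul_left _
  have hsumy : Summable y := by
    rw [← summable_nat_add_iff 1]
    exact Summable.of_norm_bounded hgeo hnorm
  have hsum : Summable (fun m => actM U (y m)) := (actM U).summable hsumy
  refine ⟨∑' m, actM U (y m), ?_⟩
  have h3 : HasSum (fun m => y m - y (m + 1)) (actM P (∑' m, actM U (y m))) := by
    have := (actM P).hasSum hsum.hasSum
    refine this.congr_fun ?_
    intro m
    exact (hstep m).symm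
  have h4 := h3.tendsto_sum_nat
  have h5 : ∀ N, ∑ m ∈ Finset.range N, (y m - y (m + 1)) = y 0 - y N := fun N =>
    Finset.sum_range_sub' y N
  simp only [h5] at h4
  have h6 : Tendsto (fun N => y 0 - y N) atTop (𝓝 (y 0 - 0)) :=
    tendsto_const_nhds.sub hsumy.tendsto_atTop_zero
  rw [sub_zero] at h6
  have h7 := tendsto_nhds_unique h4 h6
  rw [h7]
  simp only [hy]
  rw [pow_zero, actM_one]

end operators

/-! ### powers of matrices over the group ring -/

section powers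

variable {G : Type} [Group G]

lemma nR_nonneg {a b : ℕ} (M : Matrix (Fin a) (Fin b) (MonoidAlgebra ℂ G)) : 0 ≤ nR M :=
  Finset.sum_nonneg fun _ _ => Finset.sum_nonneg fun _ _ => norm_nonneg _

lemma entry_le_nR {a b : ℕ} (M : Matrix (Fin a) (Fin b) (MonoidAlgebra ℂ G)) (i : Fin a)
    (j : Fin b) : redNorm (M i j) ≤ nR M := by
  rw [redNorm_eq]
  refine le_trans ?_ (Finset.single_le_sum (f := fun i => ∑ j, ‖integ G G (M i j)‖)
    (fun i _ => Finset.sum_nonneg fun _ _ => norm_nonneg _) (Finset.mem_univ i))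
  exact Finset.single_le_sum (f := fun j => ‖integ G G (M i j)‖)
    (fun j _ => norm_nonneg _) (Finset.mem_univ j)

lemma nR_mul_le {a b c : ℕ} (M : Matrix (Fin a) (Fin b) (MonoidAlgebra ℂ G))
    (N : Matrix (Fin b) (Fin c) (MonoidAlgebra ℂ G)) : nR (M * N) ≤ nR M * nR N := by
  have h1 : nR (M * N) ≤ ∑ i, ∑ k, ∑ j, ‖integ G G (M i j)‖ * ‖integ G G (N j k)‖ := by
    refine Finset.sum_le_sum fun i _ => Finset.sum_le_sum fun k _ => ?_
    rw [Matrix.mul_apply, map_sum]
    refine (norm_sum_le _ _).trans (Finset.sum_le_sum fun j _ => ?_)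
    rw [map_mul]
    exact norm_mul_le _ _
  refine h1.trans ?_
  have h2 : ∀ i, ∑ k, ∑ j, ‖integ G G (M i j)‖ * ‖integ G G (N j k)‖ ≤
      (∑ j, ‖integ G G (M i j)‖) * nR N := by
    intro i
    rw [Finset.sum_comm, Finset.sum_mul]
    refine Finset.sum_le_sum fun j _ => ?_
    rw [← Finset.mul_sum]
    refine mul_le_mul_of_nonneg_left ?_ (norm_nonneg _)
    exact Finset.single_le_sum (f := fun j => ∑ k, ‖integ G G (N j k)‖)
      (fun j _ => Finset.sum_nonneg fun _ _ => norm_nonneg _) (Finset.mem_univ j)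
  refine (Finset.sum_le_sum fun i _ => h2 i).trans ?_
  rw [← Finset.sum_mul]
  exact le_rfl

lemma nR_pow_le {n : ℕ} (E : Matrix (Fin n) (Fin n) (MonoidAlgebra ℂ G)) (m : ℕ) :
    nR (E ^ (m + 1)) ≤ nR E ^ (m + 1) := by
  induction m with
  | zero => simp
  | succ m ih =>
    rw [pow_succ E, pow_succ (nR E)]
    exact (nR_mul_le _ _).trans (mul_le_mul_of_nonneg_right ih (nR_nonneg _))

/-- the sum of the `ℓ¹` norms of the entries -/
def nL {a b : ℕ} (M : Matrix (Fin a) (Fin b) (MonoidAlgebra ℂ G)) : ℝ :=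
  ∑ i, ∑ j, l1Norm (M i j)

lemma nL_nonneg {a b : ℕ} (M : Matrix (Fin a) (Fin b) (MonoidAlgebra ℂ G)) : 0 ≤ nL M :=
  Finset.sum_nonneg fun _ _ => Finset.sum_nonneg fun _ _ => l1Norm_nonneg _

lemma entry_le_nL {a b : ℕ} (M : Matrix (Fin a) (Fin b) (MonoidAlgebra ℂ G)) (i : Fin a)
    (j : Fin b) : l1Norm (M i j) ≤ nL M := by
  refine le_trans ?_ (Finset.single_le_sum (f := fun i => ∑ j, l1Norm (M i j))
    (fun i _ => Finset.sum_nonneg fun _ _ => l1Norm_nonneg _) (Finset.mem_univ i))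
  exact Finset.single_le_sum (f := fun j => l1Norm (M i j))
    (fun j _ => l1Norm_nonneg _) (Finset.mem_univ j)

lemma nL_mul_le {a b c : ℕ} (M : Matrix (Fin a) (Fin b) (MonoidAlgebra ℂ G))
    (N : Matrix (Fin b) (Fin c) (MonoidAlgebra ℂ G)) : nL (M * N) ≤ nL M * nL N := by
  have h1 : nL (M * N) ≤ ∑ i, ∑ k, ∑ j, l1Norm (M i j) * l1Norm (N j k) := by
    refine Finset.sum_le_sum fun i _ => Finset.sum_le_sum fun k _ => ?_
    rw [Matrix.mul_apply]
    exact (l1Norm_sum_le _ _).trans (Finset.sum_le_sum fun j _ => l1Norm_mul_le _ _)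
  refine h1.trans ?_
  have h2 : ∀ i, ∑ k, ∑ j, l1Norm (M i j) * l1Norm (N j k) ≤ (∑ j, l1Norm (M i j)) * nL N := by
    intro i
    rw [Finset.sum_comm, Finset.sum_mul]
    refine Finset.sum_le_sum fun j _ => ?_
    rw [← Finset.mul_sum]
    refine mul_le_mul_of_nonneg_left ?_ (l1Norm_nonneg _)
    exact Finset.single_le_sum (f := fun j => ∑ k, l1Norm (N j k))
      (fun j _ => Finset.sum_nonneg fun _ _ => l1Norm_nonneg _) (Finset.mem_univ j)
  refine (Finset.sum_le_sum fun i _ => h2 i).trans ?_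
  rw [← Finset.sum_mul]
  exact le_rfl

lemma nL_pow_le {n : ℕ} (E : Matrix (Fin n) (Fin n) (MonoidAlgebra ℂ G)) (m : ℕ) :
    nL (E ^ (m + 1)) ≤ nL E ^ (m + 1) := by
  induction m with
  | zero => simp
  | succ m ih =>
    rw [pow_succ E, pow_succ (nL E)]
    exact (nL_mul_le _ _).trans (mul_le_mul_of_nonneg_right ih (nL_nonneg _))

lemma support_sum' {ι : Type} (s : Finset ι) (f : ι → MonoidAlgebra ℂ G) (T : Set G)
    (h : ∀ i ∈ s, ((f i).coeff.support : Set G) ⊆ T) :
    ((∑ i ∈ s, f i).coeff.support : Set G) ⊆ T := by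
  classical
  induction s using Finset.induction_on with
  | empty => simp
  | insert a s ha ih =>
    rw [Finset.sum_insert ha]
    intro g hg
    have h1 : g ∈ (f a).coeff.support ∪ (∑ i ∈ s, f i).coeff.support := Finsupp.support_add hg
    rcases Finset.mem_union.1 h1 with h2 | h2
    · exact h a (Finset.mem_insert_self _ _) h2
    · exact ih (fun i hi => h i (Finset.mem_insert_of_mem hi)) h2

lemma support_pow' {n : ℕ} (E : Matrix (Fin n) (Fin n) (MonoidAlgebra ℂ G)) (S : Set G)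
    (hS : ∀ i j, ((E i j).coeff.support : Set G) ⊆ S) (m : ℕ) :
    ∀ i j, (((E ^ (m + 1)) i j).coeff.support : Set G) ⊆ S ^ (m + 1) := by
  induction m with
  | zero => intro i j; simpa using hS i j
  | succ m ih =>
    intro i j
    rw [pow_succ E, pow_succ S, Matrix.mul_apply]
    refine support_sum' _ _ _ fun k _ => ?_
    exact (support_mul' _ _).trans (Set.mul_subset_mul (ih i k) (hS k j))

end powers

/-! ### the two actions -/

section actions

variable {G : Type} [Group G]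

lemma inv_sum {ι : Type} (s : Finset ι) (f : ι → MonoidAlgebra ℂ G) :
    inv (∑ i ∈ s, f i) = ∑ i ∈ s, inv (f i) := by
  classical
  induction s using Finset.induction_on with
  | empty => simp [inv_zero]
  | insert a s ha ih => rw [Finset.sum_insert ha, Finset.sum_insert ha, inv_add, ih]

lemma inv_mul' (x y : MonoidAlgebra ℂ G) : inv (x * y) = inv y * inv x := by
  refine MonoidAlgebra.induction_linear x ?_ ?_ ?_
  · rw [zero_mul, inv_zero, mul_zero]
  · intro a b ha hb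
    rw [add_mul, inv_add, inv_add, mul_add, ha, hb]
  · intro g c
    refine MonoidAlgebra.induction_linear y ?_ ?_ ?_
    · rw [mul_zero, inv_zero, zero_mul]
    · intro a b ha hb
      rw [mul_add, inv_add, inv_add, add_mul, ha, hb]
    · intro h e
      rw [MonoidAlgebra.single_mul_single, inv_single, inv_single, inv_single,
        MonoidAlgebra.single_mul_single, mul_inv_rev, mul_comm]

lemma inv_one' : inv (1 : MonoidAlgebra ℂ G) = 1 := by
  rw [MonoidAlgebra.one_def, inv_single, inv_one]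

variable {V : Type} [NormedAddCommGroup V] [NormedSpace ℂ V] (π : G →* (V →L[ℂ] V))

/-- the left action of matrices -/
def mapC {a b : ℕ} (M : Matrix (Fin a) (Fin b) (MonoidAlgebra ℂ G)) :
    Matrix (Fin a) (Fin b) (V →L[ℂ] V) := fun i j => MonoidAlgebra.lift ℂ _ G π (M i j)

/-- the right action of matrices -/
def mapR {a b : ℕ} (M : Matrix (Fin a) (Fin b) (MonoidAlgebra ℂ G)) :
    Matrix (Fin b) (Fin a) (V →L[ℂ] V) := fun i j => MonoidAlgebra.lift ℂ _ G π (inv (M j i))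

lemma mapC_mul {a b c : ℕ} (M : Matrix (Fin a) (Fin b) (MonoidAlgebra ℂ G))
    (N : Matrix (Fin b) (Fin c) (MonoidAlgebra ℂ G)) :
    mapC π (M * N) = mapC π M * mapC π N := by
  funext i j
  simp only [mapC, Matrix.mul_apply, map_sum, map_mul]

lemma mapC_add {a b : ℕ} (M N : Matrix (Fin a) (Fin b) (MonoidAlgebra ℂ G)) :
    mapC π (M + N) = mapC π M + mapC π N := by
  funext i j
  simp only [mapC, Matrix.add_apply, map_add]

lemma mapC_one {n : ℕ} : mapC π (1 : Matrix (Fin n) (Fin n) (MonoidAlgebra ℂ G)) = 1 := by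
  funext i j
  by_cases h : i = j
  · subst h
    simp only [mapC]
    rw [Matrix.one_apply_eq, Matrix.one_apply_eq, map_one]
  · simp only [mapC]
    rw [Matrix.one_apply_ne h, Matrix.one_apply_ne h, map_zero]

lemma mapC_zero {a b : ℕ} : mapC π (0 : Matrix (Fin a) (Fin b) (MonoidAlgebra ℂ G)) = 0 := by
  funext i j
  simp only [mapC, Matrix.zero_apply, map_zero]

lemma mapC_pow {n : ℕ} (E : Matrix (Fin n) (Fin n) (MonoidAlgebra ℂ G)) (m : ℕ) :
    mapC π (E ^ m) = mapC π E ^ m := by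
  induction m with
  | zero => rw [pow_zero, pow_zero, mapC_one]
  | succ m ih => rw [pow_succ, pow_succ, mapC_mul, ih]

lemma mapR_mul {a b c : ℕ} (M : Matrix (Fin a) (Fin b) (MonoidAlgebra ℂ G))
    (N : Matrix (Fin b) (Fin c) (MonoidAlgebra ℂ G)) :
    mapR π (M * N) = mapR π N * mapR π M := by
  funext i j
  simp only [mapR, Matrix.mul_apply, inv_sum, inv_mul', map_sum, map_mul]

lemma mapR_add {a b : ℕ} (M N : Matrix (Fin a) (Fin b) (MonoidAlgebra ℂ G)) :
    mapR π (M + N) = mapR π M + mapR π N := by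
  funext i j
  simp only [mapR, Matrix.add_apply, inv_add, map_add]

lemma mapR_one {n : ℕ} : mapR π (1 : Matrix (Fin n) (Fin n) (MonoidAlgebra ℂ G)) = 1 := by
  funext i j
  by_cases h : i = j
  · subst h
    simp only [mapR]
    rw [Matrix.one_apply_eq, Matrix.one_apply_eq, inv_one', map_one]
  · simp only [mapR]
    rw [Matrix.one_apply_ne h, Matrix.one_apply_ne (Ne.symm h), inv_zero, map_zero]

lemma mapR_zero {a b : ℕ} : mapR π (0 : Matrix (Fin a) (Fin b) (MonoidAlgebra ℂ G)) = 0 := by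
  funext i j
  simp only [mapR, Matrix.zero_apply, inv_zero, map_zero]

lemma mapR_pow {n : ℕ} (E : Matrix (Fin n) (Fin n) (MonoidAlgebra ℂ G)) (m : ℕ) :
    mapR π (E ^ m) = mapR π E ^ m := by
  induction m with
  | zero => rw [pow_zero, pow_zero, mapR_one]
  | succ m ih => rw [pow_succ, pow_succ', mapR_mul, ih]

lemma actL_eq (a : MonoidAlgebra ℤ G) (v : V) :
    actL π a v = MonoidAlgebra.lift ℂ _ G π (cz a) v := by
  rw [lift_eq_sum, cz_support, sum_apply, actL]
  refine Finset.sum_congr rfl fun g _ => ?_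
  rw [cz_coeff, smul_apply, Int.cast_smul_eq_zsmul]

lemma inv_eq_sum (x : MonoidAlgebra ℂ G) :
    inv x = ∑ g ∈ x.coeff.support, MonoidAlgebra.single g⁻¹ (x.coeff g) := by
  conv_lhs => rw [eq_sum_single x, inv_sum]
  exact Finset.sum_congr rfl fun g _ => inv_single _ _

lemma actR_eq (a : MonoidAlgebra ℤ G) (v : V) :
    actR π a v = MonoidAlgebra.lift ℂ _ G π (inv (cz a)) v := by
  rw [inv_eq_sum, cz_support, map_sum, sum_apply, actR]
  refine Finset.sum_congr rfl fun g _ => ?_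
  rw [MonoidAlgebra.lift_single, cz_coeff, smul_apply, Int.cast_smul_eq_zsmul]

variable (X : FinRes G)

lemma cobdV_eq (i : ℕ) (v : Fin (X.n i) → V) :
    cobdV X π i v = actM (mapC π ((X.d i).map cz)) v := by
  funext k
  rw [actM_apply]
  change ∑ j, actL π (X.d i k j) (v j) = _
  exact Finset.sum_congr rfl fun j _ => actL_eq π (X.d i k j) (v j)

lemma bdV_eq (i : ℕ) (v : Fin (X.n (i + 1)) → V) :
    bdV X π i v = actM (mapR π ((X.d i).map cz)) v := by
  funext k
  rw [actM_apply]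
  change ∑ j, actR π (X.d i j k) (v j) = _
  exact Finset.sum_congr rfl fun j _ => actR_eq π (X.d i j k) (v j)

lemma dd_cz (i : ℕ) : (X.d (i + 1)).map cz * (X.d i).map cz = 0 := dd X cz i

end actions

/-! ### the estimates -/

section estimates

variable {G : Type} [Group G]

lemma exists_eps (L : ℝ) (hL : 1 ≤ L) : ∃ ε : ℝ, 0 < ε ∧ ε < 1 ∧
    Real.exp ε * (1 / 2 : ℝ) ^ (1 - ε) * L ^ ε ≤ 3 / 4 := by
  have h1 : Continuous (fun ε : ℝ => Real.exp ε * (1 / 2 : ℝ) ^ (1 - ε) * L ^ ε) := by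
    have h2 : Continuous (fun ε : ℝ => (1 / 2 : ℝ) ^ (1 - ε)) :=
      (Real.continuous_const_rpow (by norm_num)).comp (continuous_const.sub continuous_id)
    have h3 : Continuous (fun ε : ℝ => L ^ ε) := Real.continuous_const_rpow (by linarith)
    exact (Real.continuous_exp.mul h2).mul h3
  have h4 : ∀ᶠ ε : ℝ in 𝓝 0, Real.exp ε * (1 / 2 : ℝ) ^ (1 - ε) * L ^ ε < 3 / 4 := by
    have := h1.tendsto 0
    refine this.eventually (gt_mem_nhds ?_)
    norm_num
  obtain ⟨δ, hδ, h5⟩ := Metric.eventually_nhds_iff.1 h4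
  refine ⟨min (δ / 2) (1 / 2), by positivity, lt_of_le_of_lt (min_le_right _ _) (by norm_num), ?_⟩
  refine (h5 ?_).le
  rw [Real.dist_eq, sub_zero, abs_of_pos (by positivity)]
  exact lt_of_le_of_lt (min_le_left _ _) (by linarith)

/-- the parameters `S`, `L`, `ε` fit together -/
structure Good (S : Set G) (L ε : ℝ) : Prop where
  symm : S⁻¹ = S
  one_le : 1 ≤ L
  pos : 0 < ε
  lt_one : ε < 1
  bound : Real.exp ε * (1 / 2 : ℝ) ^ (1 - ε) * L ^ ε ≤ 3 / 4

variable {V : Type} [NormedAddCommGroup V] [NormedSpace ℂ V] (π : G →* (V →L[ℂ] V))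

lemma lift_bound {S : Set G} {L ε K : ℝ} (hg : Good S L ε)
    (hπ : ∀ (m : ℕ) (x : MonoidAlgebra ℂ G), (x.coeff.support : Set G) ⊆ S ^ m →
      ‖∑ g ∈ x.coeff.support, x.coeff g • π g‖ ≤
        K * Real.exp (ε * m) * redNorm x ^ (1 - ε) * l1Norm x ^ ε)
    (m : ℕ) (x : MonoidAlgebra ℂ G) (hx : (x.coeff.support : Set G) ⊆ S ^ m)
    (h1 : redNorm x ≤ (1 / 2) ^ m) (h2 : l1Norm x ≤ L ^ m) :
    ‖MonoidAlgebra.lift ℂ _ G π x‖ ≤ |K| * (3 / 4) ^ m := by
  rw [lift_eq_sum]
  refine (hπ m x hx).trans ?_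
  have hr : 0 ≤ redNorm x := norm_nonneg _
  have hl := l1Norm_nonneg x
  have hL := hg.one_le
  have e1 : redNorm x ^ (1 - ε) ≤ ((1 / 2 : ℝ) ^ (1 - ε)) ^ m := by
    refine (Real.rpow_le_rpow hr h1 (by linarith [hg.lt_one])).trans_eq ?_
    rw [← Real.rpow_natCast, ← Real.rpow_natCast, ← Real.rpow_mul (by norm_num),
      ← Real.rpow_mul (by norm_num), mul_comm]
  have e2 : l1Norm x ^ ε ≤ (L ^ ε) ^ m := by
    refine (Real.rpow_le_rpow hl h2 hg.pos.le).trans_eq ?_
    rw [← Real.rpow_natCast, ← Real.rpow_natCast, ← Real.rpow_mul (by linarith),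
      ← Real.rpow_mul (by linarith), mul_comm]
  have e3 : Real.exp (ε * m) = Real.exp ε ^ m := by
    rw [← Real.exp_nat_mul, mul_comm]
  have e4 : 0 ≤ redNorm x ^ (1 - ε) := Real.rpow_nonneg hr _
  have e5 : 0 ≤ l1Norm x ^ ε := Real.rpow_nonneg hl _
  calc K * Real.exp (ε * m) * redNorm x ^ (1 - ε) * l1Norm x ^ ε
      ≤ |K| * Real.exp (ε * m) * redNorm x ^ (1 - ε) * l1Norm x ^ ε := by
        gcongr
        exact le_abs_self K
    _ ≤ |K| * Real.exp ε ^ m * ((1 / 2 : ℝ) ^ (1 - ε)) ^ m * (L ^ ε) ^ m := by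
        rw [e3]
        gcongr
    _ = |K| * (Real.exp ε * (1 / 2 : ℝ) ^ (1 - ε) * L ^ ε) ^ m := by
        rw [mul_pow, mul_pow]; ring
    _ ≤ |K| * (3 / 4) ^ m := by
        have := hg.bound
        gcongr

lemma lift_bound_inv {S : Set G} {L ε K : ℝ} (hg : Good S L ε)
    (hπ : ∀ (m : ℕ) (x : MonoidAlgebra ℂ G), (x.coeff.support : Set G) ⊆ S ^ m →
      ‖∑ g ∈ x.coeff.support, x.coeff g • π g‖ ≤
        K * Real.exp (ε * m) * redNorm x ^ (1 - ε) * l1Norm x ^ ε)
    (m : ℕ) (x : MonoidAlgebra ℂ G) (hx : (x.coeff.support : Set G) ⊆ S ^ m)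
    (h1 : redNorm x ≤ (1 / 2) ^ m) (h2 : l1Norm x ≤ L ^ m) :
    ‖MonoidAlgebra.lift ℂ _ G π (inv x)‖ ≤ |K| * (3 / 4) ^ m := by
  refine lift_bound π hg hπ m (inv x) ?_ ?_ ((l1Norm_inv_le x).trans h2)
  · refine (support_inv x).trans ?_
    intro g hg'
    have h3 : g⁻¹ ∈ S ^ m := hx (by simpa using hg')
    have h4 : g ∈ (S ^ m)⁻¹ := by simpa using h3
    rwa [← inv_pow, hg.symm] at h4
  · rw [redNorm_eq] at h1 ⊢
    exact (norm_integ_inv_le x).trans h1

variable {n : ℕ} (E : Matrix (Fin n) (Fin n) (MonoidAlgebra ℂ G))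

lemma pow_bound {S : Set G} {L ε K : ℝ} (hg : Good S L ε)
    (hπ : ∀ (m : ℕ) (x : MonoidAlgebra ℂ G), (x.coeff.support : Set G) ⊆ S ^ m →
      ‖∑ g ∈ x.coeff.support, x.coeff g • π g‖ ≤
        K * Real.exp (ε * m) * redNorm x ^ (1 - ε) * l1Norm x ^ ε)
    (hE : nR E < 1 / 2) (hL : nL E ≤ L) (hS : ∀ i j, ((E i j).coeff.support : Set G) ⊆ S)
    (m : ℕ) (i j : Fin n) :
    ‖(mapC π E ^ (m + 1)) i j‖ ≤ |K| * (3 / 4) ^ (m + 1) ∧
      ‖(mapR π E ^ (m + 1)) i j‖ ≤ |K| * (3 / 4) ^ (m + 1) := by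
  have h1 : ∀ i j, redNorm ((E ^ (m + 1)) i j) ≤ (1 / 2) ^ (m + 1) := fun i j =>
    (entry_le_nR _ i j).trans ((nR_pow_le E m).trans (pow_le_pow_left₀ (nR_nonneg E) hE.le _))
  have h2 : ∀ i j, l1Norm ((E ^ (m + 1)) i j) ≤ L ^ (m + 1) := fun i j =>
    (entry_le_nL _ i j).trans ((nL_pow_le E m).trans (pow_le_pow_left₀ (nL_nonneg E) hL _))
  constructor
  · rw [← mapC_pow]
    exact lift_bound π hg hπ (m + 1) _ (support_pow' E S hS m i j) (h1 i j) (h2 i j)
  · rw [← mapR_pow]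
    exact lift_bound_inv π hg hπ (m + 1) _ (support_pow' E S hS m j i) (h1 j i) (h2 j i)

lemma subsing_coh (X : FinRes G) (k : ℕ)
    (h : ∀ z, cobdV X π k z = 0 → z ∈ coboundariesV X π k) :
    Subsingleton (cohomologyV X π k) := by
  rw [QuotientAddGroup.subsingleton_iff, AddSubgroup.addSubgroupOf_eq_top]
  intro z hz
  exact h z hz

lemma subsing_hom (X : FinRes G) (k : ℕ)
    (h : ∀ z ∈ cyclesV X π k, ∃ w, bdV X π k w = z) :
    Subsingleton (homologyV X π k) := by
  rw [QuotientAddGroup.subsingleton_iff, AddSubgroup.addSubgroupOf_eq_top]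
  intro z hz
  exact h z hz

/-- vanishing in positive degree -/
lemma vanish_succ [CompleteSpace V] (X : FinRes G) (i : ℕ)
    (s : Matrix (Fin (X.n i)) (Fin (X.n (i + 1))) (MonoidAlgebra ℂ G))
    (t : Matrix (Fin (X.n (i + 1))) (Fin (X.n (i + 2))) (MonoidAlgebra ℂ G))
    (E : Matrix (Fin (X.n (i + 1))) (Fin (X.n (i + 1))) (MonoidAlgebra ℂ G))
    (hEdef : E = 1 - ((X.d i).map cz * s + t * (X.d (i + 1)).map cz))
    {S : Set G} {L ε : ℝ} (hg : Good S L ε) (hπ : NearTempered S ε π)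
    (hE : nR E < 1 / 2) (hL : nL E ≤ L) (hS : ∀ i j, ((E i j).coeff.support : Set G) ⊆ S) :
    Subsingleton (cohomologyV X π (i + 1)) ∧ Subsingleton (homologyV X π (i + 1)) := by
  obtain ⟨K, hK⟩ := hπ
  have h0 : E + (X.d i).map cz * s + t * (X.d (i + 1)).map cz = 1 := by
    rw [hEdef]; abel
  constructor
  · refine subsing_coh π X (i + 1) fun z hz => ?_
    rw [cobdV_eq] at hz
    obtain ⟨w, hw⟩ := exact_of_approx (mapC π ((X.d i).map cz)) (mapC π ((X.d (i + 1)).map cz))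
      (mapC π s) (mapC π t) (mapC π E)
      (by rw [← mapC_mul, dd_cz, mapC_zero])
      (by rw [← mapC_mul, ← mapC_mul, ← mapC_add, ← mapC_add, h0, mapC_one])
      |K| (abs_nonneg _) (fun m i j => (pow_bound π E hg hK hE hL hS m i j).1) z hz
    refine ⟨w, ?_⟩
    rw [cobdV_eq]
    exact hw
  · refine subsing_hom π X (i + 1) fun z hz => ?_
    have hz' : bdV X π i z = 0 := hz
    rw [bdV_eq] at hz'
    obtain ⟨w, hw⟩ := exact_of_approx (mapR π ((X.d (i + 1)).map cz)) (mapR π ((X.d i).map cz))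
      (mapR π t) (mapR π s) (mapR π E)
      (by rw [← mapR_mul, dd_cz, mapR_zero])
      (by
        rw [← mapR_mul, ← mapR_mul, ← mapR_add, ← mapR_add, add_right_comm, h0, mapR_one])
      |K| (abs_nonneg _) (fun m i j => (pow_bound π E hg hK hE hL hS m i j).2) z hz'
    refine ⟨w, ?_⟩
    rw [bdV_eq]
    exact hw

/-- vanishing in degree zero -/
lemma vanish_zero [CompleteSpace V] (X : FinRes G)
    (t : Matrix (Fin (X.n 0)) (Fin (X.n 1)) (MonoidAlgebra ℂ G))
    (E : Matrix (Fin (X.n 0)) (Fin (X.n 0)) (MonoidAlgebra ℂ G))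
    (hEdef : E = 1 - t * (X.d 0).map cz)
    {S : Set G} {L ε : ℝ} (hg : Good S L ε) (hπ : NearTempered S ε π)
    (hE : nR E < 1 / 2) (hL : nL E ≤ L) (hS : ∀ i j, ((E i j).coeff.support : Set G) ⊆ S) :
    Subsingleton (cohomologyV X π 0) ∧ Subsingleton (homologyV X π 0) := by
  obtain ⟨K, hK⟩ := hπ
  have h0 : E + t * (X.d 0).map cz = 1 := by
    rw [hEdef]; abel
  constructor
  · refine subsing_coh π X 0 fun z hz => ?_
    rw [cobdV_eq] at hz
    obtain ⟨w, hw⟩ := exact_of_approx (0 : Matrix (Fin (X.n 0)) (Fin 0) (V →L[ℂ] V))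
      (mapC π ((X.d 0).map cz)) 0 (mapC π t) (mapC π E)
      (by rw [Matrix.mul_zero])
      (by rw [Matrix.zero_mul, add_zero, ← mapC_mul, ← mapC_add, h0, mapC_one])
      |K| (abs_nonneg _) (fun m i j => (pow_bound π E hg hK hE hL hS m i j).1) z hz
    rw [← hw, actM_zero]
    exact AddSubgroup.zero_mem _
  · refine subsing_hom π X 0 fun z _ => ?_
    obtain ⟨w, hw⟩ := exact_of_approx (mapR π ((X.d 0).map cz))
      (0 : Matrix (Fin 0) (Fin (X.n 0)) (V →L[ℂ] V))
      (mapR π t) 0 (mapR π E)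
      (by rw [Matrix.zero_mul])
      (by rw [Matrix.mul_zero, add_zero, ← mapR_mul, ← mapR_add, h0, mapR_one])
      |K| (abs_nonneg _) (fun m i j => (pow_bound π E hg hK hE hL hS m i j).2) z (actM_zero z)
    refine ⟨w, ?_⟩
    rw [bdV_eq]
    exact hw

end estimates

/-! ### the theorem -/

section theorem_

variable {G : Type} [Group G]

/-- the set of all group elements in the supports of the entries -/
lemma exists_support {a b : ℕ} (E : Matrix (Fin a) (Fin b) (MonoidAlgebra ℂ G)) :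
    ∃ T : Set G, T.Finite ∧ ∀ i j, ((E i j).coeff.support : Set G) ⊆ T :=
  ⟨⋃ i, ⋃ j, ((E i j).coeff.support : Set G),
    Set.finite_iUnion fun i => Set.finite_iUnion fun j => Finset.finite_toSet _,
    fun i j => Set.subset_iUnion_of_subset i (Set.subset_iUnion_of_subset j subset_rfl)⟩

/-- one degree -/
lemma one_degree (X : FinRes G) (i : ℕ) (h : ∀ j ≤ i, Subsingleton (X.homology (toRed G) j)) :
    ∃ (T : Set G) (L0 : ℝ), T.Finite ∧ ∀ (S : Set G) (L ε : ℝ), T ⊆ S → L0 ≤ L → Good S L ε →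
      ∀ (V : Type) [NormedAddCommGroup V] [NormedSpace ℂ V] [CompleteSpace V]
        (π : G →* (V →L[ℂ] V)), NearTempered S ε π →
        Subsingleton (cohomologyV X π i) ∧ Subsingleton (homologyV X π i) := by
  cases i with
  | zero =>
    obtain ⟨t, ht⟩ := approx_zero X (h 0 le_rfl)
    obtain ⟨T, hT, hT'⟩ := exists_support (1 - t * (X.d 0).map cz)
    refine ⟨T, nL (1 - t * (X.d 0).map cz), hT, ?_⟩
    intro S L ε hTS hL hg V _ _ _ π hπ
    exact vanish_zero π X t _ rfl hg hπ ht hL (fun i j => (hT' i j).trans hTS)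
  | succ i =>
    obtain ⟨s, t, ht⟩ := approx_succ X i h
    obtain ⟨T, hT, hT'⟩ := exists_support (1 - ((X.d i).map cz * s + t * (X.d (i + 1)).map cz))
    refine ⟨T, nL (1 - ((X.d i).map cz * s + t * (X.d (i + 1)).map cz)), hT, ?_⟩
    intro S L ε hTS hL hg V _ _ _ π hπ
    exact vanish_succ π X i s t _ rfl hg hπ ht hL (fun i j => (hT' i j).trans hTS)

/-- **robust vanishing**: if `H_i(G; C*_r(G)) = 0` for `i ≤ p`, then there are a finite set `S`
and `ε > 0` such that the homology and the cohomology with coefficients in all `ε`-tempered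
Banach modules vanish up to degree `p` -/
theorem robust (X : FinRes G) (p : ℕ) (h : ∀ j ≤ p, Subsingleton (X.homology (toRed G) j)) :
    ∃ (S : Set G) (ε : ℝ), S.Finite ∧ S⁻¹ = S ∧ 0 < ε ∧ ε < 1 ∧
      ∀ (V : Type) [NormedAddCommGroup V] [NormedSpace ℂ V] [CompleteSpace V]
        (π : G →* (V →L[ℂ] V)), NearTempered S ε π → ∀ i ≤ p,
        Subsingleton (cohomologyV X π i) ∧ Subsingleton (homologyV X π i) := by
  have h1 : ∀ i : ℕ, ∃ (T : Set G) (L0 : ℝ), T.Finite ∧ (i ≤ p → ∀ (S : Set G) (L ε : ℝ), T ⊆ S →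
      L0 ≤ L → Good S L ε → ∀ (V : Type) [NormedAddCommGroup V] [NormedSpace ℂ V]
        [CompleteSpace V] (π : G →* (V →L[ℂ] V)), NearTempered S ε π →
        Subsingleton (cohomologyV X π i) ∧ Subsingleton (homologyV X π i)) := by
    intro i
    by_cases hi : i ≤ p
    · obtain ⟨T, L0, hT, hTL⟩ := one_degree X i (fun j hj => h j (hj.trans hi))
      exact ⟨T, L0, hT, fun _ => hTL⟩
    · exact ⟨∅, 0, Set.finite_empty, fun h => absurd h hi⟩
  choose T L0 hT hTL using h1
  set S0 : Set G := ⋃ i ∈ Finset.range (p + 1), T i with hS0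
  have hS0f : S0.Finite := Set.Finite.biUnion (Finset.finite_toSet _) fun i _ => hT i
  set L : ℝ := 1 + ∑ i ∈ Finset.range (p + 1), |L0 i| with hL
  have hL1 : 1 ≤ L := by
    have : 0 ≤ ∑ i ∈ Finset.range (p + 1), |L0 i| := Finset.sum_nonneg fun _ _ => abs_nonneg _
    linarith
  obtain ⟨ε, hε0, hε1, hε⟩ := exists_eps L hL1
  have hsymm : (S0 ∪ S0⁻¹)⁻¹ = S0 ∪ S0⁻¹ := by
    rw [Set.union_inv, inv_inv, Set.union_comm]
  refine ⟨S0 ∪ S0⁻¹, ε, hS0f.union hS0f.inv, hsymm, hε0, hε1, ?_⟩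
  intro V _ _ _ π hπ i hi
  have hmem : i ∈ Finset.range (p + 1) := Finset.mem_range.2 (by omega)
  refine hTL i hi (S0 ∪ S0⁻¹) L ε ?_ ?_ ⟨hsymm, hL1, hε0, hε1, hε⟩ V π hπ
  · refine Set.Subset.trans ?_ Set.subset_union_left
    exact Set.subset_biUnion_of_mem (u := fun i => T i) (Finset.mem_coe.2 hmem)
  · have h2 : |L0 i| ≤ ∑ i ∈ Finset.range (p + 1), |L0 i| :=
      Finset.single_le_sum (f := fun i => |L0 i|) (fun _ _ => abs_nonneg _) hmem
    have h3 := le_abs_self (L0 i)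
    linarith

end theorem_

end

end Pool.Agent.X270.NT
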