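import Pool.Agent.H79.LZ.X270_NT_RT
import Pool.Agent.H79.LZ.X270_NT_Main

set_option autoImplicit false
set_option linter.unusedSectionVars false

open scoped Matrix ENNReal Pointwise InnerProductSpace
open Filter Topology

namespace Pool.Agent.X270.NT

open Pool.Agent.H496R3.ZS (Ell dl dl_apply inner_dl_left orthonormal_dl permRep permIso IsAmenable
  integ integ_apply permRep_apply norm_integ_le)
open Pool.Agent.H919R4.ZS (FinRes toRed)
open Pool.Agent.H919R4.AS (Mult)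

noncomputable section

variable {G : Type} [Group G] {Z : Type} [MulAction G Z]

open scoped Classical in
/-- the matrix of an element of the group ring -/
def mat (x : MonoidAlgebra ℂ G) (w z : Z) : ℂ :=
  ∑ g ∈ x.coeff.support, x.coeff g * (if g⁻¹ • w = z then 1 else 0)

open scoped Classical in
lemma mat_sum (x : MonoidAlgebra ℂ G) (w : Z) (t : Finset Z) (c : Z → ℂ) :
    ∑ z ∈ t, mat x w z * c z =
      ∑ g ∈ x.coeff.support, x.coeff g * (if g⁻¹ • w ∈ t then c (g⁻¹ • w) else 0) := by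
  simp only [mat, Finset.sum_mul]
  rw [Finset.sum_comm]
  refine Finset.sum_congr rfl fun g _ => ?_
  simp only [mul_assoc, ← Finset.mul_sum, ite_mul, one_mul, zero_mul]
  rw [Finset.sum_ite_eq]

lemma integ_sum_dl (x : MonoidAlgebra ℂ G) (w : Z) (t : Finset Z) (c : Z → ℂ) :
    (integ G Z x (∑ z ∈ t, c z • (dl z : Ell Z)) : Ell Z) w = ∑ z ∈ t, mat x w z * c z := by
  classical
  rw [mat_sum, integ_apply, lp.coeFn_sum, Finset.sum_apply]
  refine Finset.sum_congr rfl fun g _ => ?_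
  rw [lp.coeFn_smul, Pi.smul_apply, permRep_apply, smul_eq_mul]
  congr 1
  rw [lp.coeFn_sum, Finset.sum_apply]
  simp only [lp.coeFn_smul, Pi.smul_apply, dl_apply, smul_eq_mul, mul_ite, mul_one, mul_zero]
  rw [Finset.sum_ite_eq]

lemma norm_sum_dl (t : Finset Z) (c : Z → ℂ) :
    ‖∑ z ∈ t, c z • (dl z : Ell Z)‖ = Real.sqrt (∑ z ∈ t, ‖c z‖ ^ 2) := by
  have h2 : ‖∑ z ∈ t, c z • (dl z : Ell Z)‖ ^ 2 = ∑ z ∈ t, ‖c z‖ ^ 2 :=
    (orthonormal_dl (Z := Z)).orthogonalFamily.norm_sum c t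
  rw [← h2, Real.sqrt_sq (norm_nonneg _)]

lemma form_two (x : MonoidAlgebra ℂ G) (N0 : ℝ) (hN : ‖integ G Z x‖ ≤ N0) (s t : Finset Z)
    (c d : Z → ℂ) : ‖∑ w ∈ s, ∑ z ∈ t, mat x w z * c z * d w‖ ≤
      N0 * Real.sqrt (∑ z ∈ t, ‖c z‖ ^ 2) * Real.sqrt (∑ w ∈ s, ‖d w‖ ^ 2) := by
  set v : Ell Z := ∑ z ∈ t, c z • (dl z : Ell Z) with hv
  have h1 : ∑ w ∈ s, ∑ z ∈ t, mat x w z * c z * d w = ∑ w ∈ s, (integ G Z x v : Ell Z) w * d w := by
    refine Finset.sum_congr rfl fun w _ => ?_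
    rw [hv, integ_sum_dl, Finset.sum_mul]
  rw [h1]
  have h2 : ‖∑ w ∈ s, (integ G Z x v : Ell Z) w * d w‖ ≤
      Real.sqrt (∑ w ∈ s, ‖(integ G Z x v : Ell Z) w‖ ^ 2) * Real.sqrt (∑ w ∈ s, ‖d w‖ ^ 2) := by
    refine (norm_sum_le _ _).trans ?_
    simp only [norm_mul]
    exact Real.sum_mul_le_sqrt_mul_sqrt s _ _
  refine h2.trans (mul_le_mul_of_nonneg_right ?_ (Real.sqrt_nonneg _))
  rw [← norm_sum_dl t c, ← hv]
  refine (Real.sqrt_le_sqrt (?_ : _ ≤ ‖integ G Z x v‖ ^ 2)).trans ?_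
  · have h3 : 0 < (2 : ℝ≥0∞).toReal := by norm_num
    have h4 := lp.sum_rpow_le_norm_rpow h3 (integ G Z x v) s
    have h5 : (2 : ℝ≥0∞).toReal = ((2 : ℕ) : ℝ) := by norm_num
    simpa only [h5, Real.rpow_natCast] using h4
  · rw [Real.sqrt_sq (norm_nonneg _)]
    exact (ContinuousLinearMap.le_opNorm _ _).trans
      (mul_le_mul_of_nonneg_right hN (norm_nonneg _))

lemma form_inf (x : MonoidAlgebra ℂ G) (s t : Finset Z) (c d : Z → ℂ) (hc : ∀ z, ‖c z‖ ≤ 1) :
    ‖∑ w ∈ s, ∑ z ∈ t, mat x w z * c z * d w‖ ≤ l1Norm x * ∑ w ∈ s, ‖d w‖ := by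
  classical
  refine (norm_sum_le _ _).trans ?_
  rw [Finset.mul_sum]
  refine Finset.sum_le_sum fun w _ => ?_
  rw [← Finset.sum_mul, norm_mul, mat_sum]
  refine mul_le_mul_of_nonneg_right ?_ (norm_nonneg _)
  refine (norm_sum_le _ _).trans (Finset.sum_le_sum fun g _ => ?_)
  rw [norm_mul]
  refine mul_le_of_le_one_right (norm_nonneg _) ?_
  split_ifs
  · exact hc _
  · rw [norm_zero]; exact zero_le_one

lemma form_one (x : MonoidAlgebra ℂ G) (s t : Finset Z) (c d : Z → ℂ) (hd : ∀ z, ‖d z‖ ≤ 1) :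
    ‖∑ w ∈ s, ∑ z ∈ t, mat x w z * c z * d w‖ ≤ l1Norm x * ∑ z ∈ t, ‖c z‖ := by
  classical
  have h1 : ‖∑ w ∈ s, ∑ z ∈ t, mat x w z * c z * d w‖ ≤ ∑ w ∈ s, ∑ g ∈ x.coeff.support,
      ‖x.coeff g‖ * ‖if g⁻¹ • w ∈ t then c (g⁻¹ • w) else 0‖ := by
    refine (norm_sum_le _ _).trans (Finset.sum_le_sum fun w _ => ?_)
    rw [← Finset.sum_mul, norm_mul, mat_sum]
    refine (mul_le_of_le_one_right (norm_nonneg _) (hd w)).trans ?_
    refine (norm_sum_le _ _).trans_eq ?_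
    simp only [norm_mul]
  refine h1.trans ?_
  rw [Finset.sum_comm, l1Norm, Finset.sum_mul]
  refine Finset.sum_le_sum fun g _ => ?_
  rw [← Finset.mul_sum]
  refine mul_le_mul_of_nonneg_left ?_ (norm_nonneg _)
  have h2 : ∑ w ∈ s, ‖if g⁻¹ • w ∈ t then c (g⁻¹ • w) else 0‖ =
      ∑ w ∈ s.filter (fun w => g⁻¹ • w ∈ t), ‖c (g⁻¹ • w)‖ := by
    rw [Finset.sum_filter]
    refine Finset.sum_congr rfl fun w _ => ?_
    split_ifs
    · rfl
    · exact norm_zero
  rw [h2]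
  have h3 : ∑ w ∈ s.filter (fun w => g⁻¹ • w ∈ t), ‖c (g⁻¹ • w)‖ =
      ∑ z ∈ (s.filter (fun w => g⁻¹ • w ∈ t)).image (fun w => g⁻¹ • w), ‖c z‖ := by
    rw [Finset.sum_image]
    intro a _ b _ hab
    exact MulAction.injective g⁻¹ hab
  rw [h3]
  refine Finset.sum_le_sum_of_subset_of_nonneg ?_ (fun _ _ _ => norm_nonneg _)
  intro z hz
  obtain ⟨w, hw, rfl⟩ := Finset.mem_image.1 hz
  exact (Finset.mem_filter.1 hw).2

/-- the dual exponent vector -/
def dualv (q : ℝ) (a : ℂ) : ℂ := if a = 0 then 0 else (starRingEnd ℂ a) * ((‖a‖ ^ (q - 2) : ℝ) : ℂ)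

lemma mul_dualv (q : ℝ) (hq : 0 < q) (a : ℂ) : a * dualv q a = ((‖a‖ ^ q : ℝ) : ℂ) := by
  rw [dualv]
  split_ifs with h
  · rw [h, norm_zero, Real.zero_rpow hq.ne', mul_zero, Complex.ofReal_zero]
  · rw [← mul_assoc, Complex.mul_conj, Complex.normSq_eq_norm_sq, ← Complex.ofReal_mul]
    congr 1
    rw [← Real.rpow_natCast, ← Real.rpow_add (norm_pos_iff.2 h)]
    congr 1
    push_cast
    ring

lemma norm_dualv (q q' : ℝ) (hq : 0 < q) (hq' : 0 < q') (hqq : 1 / q + 1 / q' = 1) (a : ℂ) :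
    ‖dualv q a‖ ^ q' = ‖a‖ ^ q := by
  rw [dualv]
  split_ifs with h
  · rw [h, norm_zero, Real.zero_rpow hq.ne', Real.zero_rpow hq'.ne']
  · have h0 := norm_pos_iff.2 h
    rw [norm_mul, RCLike.norm_conj, Complex.norm_real, Real.norm_of_nonneg (by positivity)]
    have h1 : ‖a‖ * ‖a‖ ^ (q - 2) = ‖a‖ ^ (q - 1) := by
      rw [← Real.rpow_one_add' h0.le]
      · congr 1; ring
      · intro h2
        have h3 : q = 1 := by linarith
        rw [h3] at hqq
        have : 1 / q' = 0 := by linarith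
        exact absurd this (one_div_pos.2 hq').ne'
    rw [h1, ← Real.rpow_mul h0.le]
    congr 1
    have h4 : 1 / q' = 1 - 1 / q := by linarith
    have h5 : q' = q / (q - 1) := by
      have h6 : q' = 1 / (1 - 1 / q) := by rw [← h4, one_div_one_div]
      rw [h6]
      field_simp
    rw [h5]
    have h7 : q - 1 ≠ 0 := by
      intro h7
      have h3 : q = 1 := by linarith
      rw [h3] at hqq
      have : 1 / q' = 0 := by linarith
      exact absurd this (one_div_pos.2 hq').ne'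
    field_simp

/-- the arithmetic of the case `q ≥ 2` -/
lemma arith_ge (q N0 N1 C H : ℝ) (hq : 2 ≤ q) (hN0 : 0 ≤ N0) (hN1 : 0 ≤ N1) (hC : 0 ≤ C)
    (hH : 0 ≤ H)
    (h : H ≤ (N0 * Real.sqrt C * Real.sqrt H) ^ (2 / q) * (N1 * H) ^ (1 - 2 / q)) :
    H ≤ (N0 ^ (2 / q) * N1 ^ (1 - 2 / q)) ^ q * C := by
  have hq0 : 0 < q := by linarith
  rcases hH.eq_or_lt with h0 | h0
  · rw [← h0]; positivity
  have hθ : 0 ≤ 1 - 2 / q := by
    have := (div_le_one hq0).2 hq
    linarith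
  set M := N0 ^ (2 / q) * N1 ^ (1 - 2 / q) with hM
  have hM0 : 0 ≤ M := by positivity
  have e1 : (N0 * Real.sqrt C * Real.sqrt H) ^ (2 / q) * (N1 * H) ^ (1 - 2 / q) =
      M * C ^ (1 / q) * H ^ (1 - 1 / q) := by
    rw [Real.mul_rpow (by positivity) (by positivity), Real.mul_rpow hN0 (by positivity),
      Real.mul_rpow hN1 h0.le, Real.sqrt_eq_rpow, Real.sqrt_eq_rpow, ← Real.rpow_mul hC,
      ← Real.rpow_mul h0.le, show (1 / 2 : ℝ) * (2 / q) = 1 / q by field_simp]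
    have e2 : H ^ (1 - 1 / q) = H ^ (1 / q) * H ^ (1 - 2 / q) := by
      rw [← Real.rpow_add h0]
      congr 1
      ring
    rw [e2, hM]
    ring
  rw [e1] at h
  have e3 : H = H ^ (1 / q) * H ^ (1 - 1 / q) := by
    rw [← Real.rpow_add h0]
    simp
  have e4 : H ^ (1 / q) ≤ M * C ^ (1 / q) := by
    have h5 : 0 < H ^ (1 - 1 / q) := Real.rpow_pos_of_pos h0 _
    refine le_of_mul_le_mul_right ?_ h5
    rwa [← e3]
  have e5 := Real.rpow_le_rpow (by positivity) e4 hq0.le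
  rwa [← Real.rpow_mul h0.le, one_div_mul_cancel hq0.ne', Real.rpow_one,
    Real.mul_rpow hM0 (by positivity), ← Real.rpow_mul hC, one_div_mul_cancel hq0.ne',
    Real.rpow_one] at e5

/-- the arithmetic of the case `q ≤ 2` -/
lemma arith_le (q q' N0 N1 C H : ℝ) (hq : 0 < q) (hq2 : 2 ≤ q') (hqq : 1 / q + 1 / q' = 1)
    (hN0 : 0 ≤ N0) (hN1 : 0 ≤ N1) (hC : 0 ≤ C) (hH : 0 ≤ H)
    (h : H ≤ (N0 * Real.sqrt H * Real.sqrt C) ^ (2 / q') * (N1 * C) ^ (1 - 2 / q')) :
    H ≤ (N0 ^ (2 / q') * N1 ^ (1 - 2 / q')) ^ q * C := by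
  have hq0' : 0 < q' := by linarith
  rcases hH.eq_or_lt with h0 | h0
  · rw [← h0]; positivity
  have hθ : 0 ≤ 1 - 2 / q' := by
    have := (div_le_one hq0').2 hq2
    linarith
  set M := N0 ^ (2 / q') * N1 ^ (1 - 2 / q') with hM
  have hM0 : 0 ≤ M := by positivity
  have hqi : 1 / q = 1 - 1 / q' := by linarith
  have e1 : (N0 * Real.sqrt H * Real.sqrt C) ^ (2 / q') * (N1 * C) ^ (1 - 2 / q') =
      M * C ^ (1 / q) * H ^ (1 / q') := by
    rw [Real.mul_rpow (by positivity) (by positivity), Real.mul_rpow hN0 (by positivity),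
      Real.mul_rpow hN1 hC, Real.sqrt_eq_rpow, Real.sqrt_eq_rpow, ← Real.rpow_mul hC,
      ← Real.rpow_mul h0.le, show (1 / 2 : ℝ) * (2 / q') = 1 / q' by field_simp]
    have e2 : C ^ (1 / q) = C ^ (1 / q') * C ^ (1 - 2 / q') := by
      rcases hC.eq_or_lt with hC0 | hC0
      · rw [← hC0, Real.zero_rpow (by positivity), Real.zero_rpow (by positivity), zero_mul]
      · rw [← Real.rpow_add hC0]
        congr 1
        rw [hqi]
        ring
    rw [e2, hM]
    ring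
  rw [e1] at h
  have e3 : H = H ^ (1 / q) * H ^ (1 / q') := by
    rw [← Real.rpow_add h0, hqq, Real.rpow_one]
  have e4 : H ^ (1 / q) ≤ M * C ^ (1 / q) := by
    have h5 : 0 < H ^ (1 / q') := Real.rpow_pos_of_pos h0 _
    refine le_of_mul_le_mul_right ?_ h5
    rwa [← e3]
  have e5 := Real.rpow_le_rpow (by positivity) e4 hq.le
  rwa [← Real.rpow_mul h0.le, one_div_mul_cancel hq.ne', Real.rpow_one,
    Real.mul_rpow hM0 (by positivity), ← Real.rpow_mul hC, one_div_mul_cancel hq.ne',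
    Real.rpow_one] at e5

/-- the operator on `ℓ^q(Z)` in coordinates -/
lemma ell_apply (x : MonoidAlgebra ℂ G) (p : ℝ≥0∞) [Fact (1 ≤ p)] (f : lp (fun _ : Z => ℂ) p)
    (w : Z) : ((∑ g ∈ x.coeff.support, x.coeff g • ellRep G Z p g) f : lp (fun _ : Z => ℂ) p) w =
      ∑ g ∈ x.coeff.support, x.coeff g * f (g⁻¹ • w) := by
  rw [sum_apply, lp.coeFn_sum, Finset.sum_apply]
  refine Finset.sum_congr rfl fun g _ => ?_
  rw [smul_apply, lp.coeFn_smul, Pi.smul_apply, smul_eq_mul]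
  rfl

/-- **the norm on `ℓ^q(Z)`** by interpolation -/
lemma norm_ell_le (x : MonoidAlgebra ℂ G) (N0 : ℝ) (hN : ‖integ G Z x‖ ≤ N0) (p : ℝ≥0∞)
    [hp1 : Fact (1 ≤ p)] (hp : 1 < p.toReal) :
    ‖∑ g ∈ x.coeff.support, x.coeff g • ellRep G Z p g‖ ≤
      N0 ^ (1 - |1 - 2 / p.toReal|) * l1Norm x ^ |1 - 2 / p.toReal| := by
  classical
  have hN0 : 0 ≤ N0 := (norm_nonneg _).trans hN
  have hl := l1Norm_nonneg x
  set q := p.toReal with hqdef
  have hq0 : 0 < q := by linarith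
  set q' : ℝ := q / (q - 1) with hq'
  have hq1 : 0 < q - 1 := by linarith
  have hq'0 : 0 < q' := by positivity
  have hqq : 1 / q + 1 / q' = 1 := by
    rw [hq']; field_simp; ring
  refine ContinuousLinearMap.opNorm_le_bound _ (by positivity) fun f => ?_
  set θ := |1 - 2 / q| with hθ
  set M := N0 ^ (1 - θ) * l1Norm x ^ θ with hM
  have hM0 : 0 ≤ M := by positivity
  refine lp.norm_le_of_forall_sum_le hq0 (by positivity) fun s => ?_
  set g : lp (fun _ : Z => ℂ) p := (∑ g ∈ x.coeff.support, x.coeff g • ellRep G Z p g) f with hg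
  set t : Finset Z := (x.coeff.support ×ˢ s).image (fun u => u.1⁻¹ • u.2) with ht
  have hgw : ∀ w ∈ s, g w = ∑ z ∈ t, mat x w z * f z := by
    intro w hw
    rw [mat_sum, hg, ell_apply]
    refine Finset.sum_congr rfl fun k hk => ?_
    rw [if_pos (Finset.mem_image.2 ⟨(k, w), Finset.mem_product.2 ⟨hk, hw⟩, rfl⟩)]
  set H : ℝ := ∑ w ∈ s, ‖g w‖ ^ q with hH
  set C : ℝ := ∑ z ∈ t, ‖f z‖ ^ q with hC
  have hH0 : 0 ≤ H := Finset.sum_nonneg fun _ _ => by positivity
  have hC0 : 0 ≤ C := Finset.sum_nonneg fun _ _ => by positivity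
  have hCf : C ≤ ‖f‖ ^ q := lp.sum_rpow_le_norm_rpow hq0 f t
  have hsum : ∑ w ∈ s, ∑ z ∈ t, mat x w z * f z * dualv q (g w) = ((H : ℝ) : ℂ) := by
    rw [hH, Complex.ofReal_sum]
    refine Finset.sum_congr rfl fun w hw => ?_
    rw [← Finset.sum_mul, ← hgw w hw, mul_dualv q hq0]
  have hdual : ∑ w ∈ s, ‖dualv q (g w)‖ ^ q' = H :=
    Finset.sum_congr rfl fun w _ => norm_dualv q q' hq0 hq'0 hqq _
  have hfinal : H ≤ M ^ q * C := by
    rcases le_total 2 q with h2 | h2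
    · have hθ' : θ = 1 - 2 / q := by
        rw [hθ, abs_of_nonneg]
        have := (div_le_one hq0).2 h2
        linarith
      have hb := bilinear_interp s t (mat x) N0 (l1Norm x) (form_two x N0 hN s t)
        (form_inf x s t) q q' h2 hqq (fun z => f z) (fun w => dualv q (g w))
      rw [hsum, hdual, Complex.norm_real, Real.norm_of_nonneg hH0] at hb
      have := arith_ge q N0 (l1Norm x) C H h2 hN0 hl hC0 hH0 hb
      rw [hM, hθ', sub_sub_cancel]
      exact this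
    · have h2' : 2 ≤ q' := by
        rw [hq', le_div_iff₀ hq1]; linarith
      have hθ' : θ = 1 - 2 / q' := by
        have e1 : 2 / q' = 2 - 2 / q := by
          have : 1 / q' = 1 - 1 / q := by linarith
          rw [show 2 / q' = 2 * (1 / q') by ring, this]; ring
        rw [hθ, abs_of_nonpos, e1]
        · ring
        · have : 1 ≤ 2 / q := (one_le_div hq0).2 h2
          linarith
      have hb := bilinear_interp t s (fun z w => mat x w z) N0 (l1Norm x)
        (fun c d => by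
          have h3 := form_two x N0 hN s t d c
          rw [Finset.sum_comm] at h3
          have h4 : ∑ i ∈ t, ∑ j ∈ s, mat x j i * c j * d i =
              ∑ y ∈ t, ∑ x_1 ∈ s, mat x x_1 y * d y * c x_1 :=
            Finset.sum_congr rfl fun _ _ => Finset.sum_congr rfl fun _ _ => by ring
          rw [h4]
          refine h3.trans_eq (by ring))
        (fun c d hc => by
          have h3 := form_one x s t d c hc
          rw [Finset.sum_comm] at h3
          have h4 : ∑ i ∈ t, ∑ j ∈ s, mat x j i * c j * d i =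
              ∑ y ∈ t, ∑ x_1 ∈ s, mat x x_1 y * d y * c x_1 :=
            Finset.sum_congr rfl fun _ _ => Finset.sum_congr rfl fun _ _ => by ring
          rw [h4]
          exact h3)
        q' q h2' (by rw [add_comm]; exact hqq) (fun w => dualv q (g w)) (fun z => f z)
      have h5 : ∑ i ∈ t, ∑ j ∈ s, mat x j i * dualv q (g j) * f i = ((H : ℝ) : ℂ) := by
        rw [← hsum, Finset.sum_comm]
        exact Finset.sum_congr rfl fun _ _ => Finset.sum_congr rfl fun _ _ => by ring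
      rw [h5, hdual, Complex.norm_real, Real.norm_of_nonneg hH0] at hb
      have := arith_le q q' N0 (l1Norm x) C H hq0 h2' hqq hN0 hl hC0 hH0 hb
      rw [hM, hθ', sub_sub_cancel]
      exact this
  calc H ≤ M ^ q * C := hfinal
    _ ≤ M ^ q * ‖f‖ ^ q := by gcongr
    _ = (M * ‖f‖) ^ q := (Real.mul_rpow hM0 (norm_nonneg _)).symm

/-- from an estimate on `ℓ²(Z)` to near temperedness of `ℓ^q(Z)` -/
lemma nearTempered_ell (S : Set G) (ε : ℝ) (hε : 0 < ε) (hε1 : ε < 1) (p : ℝ≥0∞)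
    [hp1 : Fact (1 ≤ p)] (hp : |p.toReal - 2| < ε)
    (h : ∀ (n : ℕ) (x : MonoidAlgebra ℂ G), (x.coeff.support : Set G) ⊆ S ^ n →
      ‖integ G Z x‖ ≤ Real.exp (ε * n / 2) * redNorm x) :
    NearTempered S ε (ellRep G Z p) := by
  refine ⟨1, fun n x hx => ?_⟩
  have hp' := abs_lt.1 hp
  have hq1 : 1 < p.toReal := by linarith
  refine (norm_ell_le x _ (h n x hx) p hq1).trans ?_
  set q := p.toReal with hq
  set θ := |1 - 2 / q| with hθdef
  have hq0 : 0 < q := by linarith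
  have hθ0 : 0 ≤ θ := abs_nonneg _
  have hθ : θ ≤ ε := by
    have e1 : 1 - 2 / q = (q - 2) / q := by field_simp
    rw [hθdef, e1, abs_div, abs_of_pos hq0, div_le_iff₀ hq0]
    nlinarith
  have hr : 0 ≤ redNorm x := norm_nonneg _
  have hl := l1Norm_nonneg x
  have hrl := redNorm_le_l1Norm x
  rw [Real.mul_rpow (Real.exp_pos _).le hr, one_mul, ← Real.exp_mul]
  have e2 : Real.exp (ε * n / 2 * (1 - θ)) ≤ Real.exp (ε * n) := by
    refine Real.exp_le_exp.2 ?_
    have h1 : 0 ≤ ε * n := by positivity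
    nlinarith
  have e3 : redNorm x ^ (1 - θ) * l1Norm x ^ θ ≤ redNorm x ^ (1 - ε) * l1Norm x ^ ε := by
    rcases hr.eq_or_lt with h0 | h0
    · rw [← h0, Real.zero_rpow (by linarith), Real.zero_rpow (by linarith), zero_mul, zero_mul]
    · have hl0 : 0 < l1Norm x := h0.trans_le hrl
      have e4 : redNorm x ^ (1 - θ) = redNorm x ^ (1 - ε) * redNorm x ^ (ε - θ) := by
        rw [← Real.rpow_add h0]; congr 1; ring
      have e5 : l1Norm x ^ ε = l1Norm x ^ (ε - θ) * l1Norm x ^ θ := by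
        rw [← Real.rpow_add hl0]; congr 1; ring
      rw [e4, e5, mul_assoc]
      have e6 : redNorm x ^ (ε - θ) ≤ l1Norm x ^ (ε - θ) :=
        Real.rpow_le_rpow h0.le hrl (by linarith)
      gcongr
  rw [mul_assoc, mul_assoc]
  exact mul_le_mul e2 e3 (by positivity) (Real.exp_pos _).le

end

end Pool.Agent.X270.NT
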