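import Pool.Agent.H79.LZ.X270_NT_Bridge

set_option autoImplicit false
set_option linter.unusedSectionVars false

open scoped Matrix ENNReal Pointwise InnerProductSpace
open Filter Topology

namespace Pool.Agent.X270.NT

open Pool.Agent.H496R3.ZS (Ell dl dl_apply inner_dl_left orthonormal_dl permRep permIso IsAmenable
  integ integ_apply permRep_apply norm_integ_le)
open Pool.Agent.H919R4.ZS (FinRes toRed)

noncomputable section

variable {G : Type} [Group G] {Z : Type} [MulAction G Z]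

/-- a kernel bounded on the support -/
lemma form_abs (x : MonoidAlgebra ℂ G) (s t : Finset Z) (E : Z → Z → ℂ) (B : ℝ) (hB0 : 0 ≤ B)
    (hB : ∀ w, ∀ g ∈ x.coeff.support, ‖E w (g⁻¹ • w)‖ ≤ B) (c d : Z → ℂ) :
    ‖∑ w ∈ s, ∑ z ∈ t, mat x w z * E w z * c z * d w‖ ≤
      B * l1Norm x * Real.sqrt (∑ z ∈ t, ‖c z‖ ^ 2) * Real.sqrt (∑ w ∈ s, ‖d w‖ ^ 2) := by
  classical
  have h0 : ∀ w, ∑ z ∈ t, mat x w z * E w z * c z * d w =
      (∑ g ∈ x.coeff.support, x.coeff g *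
        (if g⁻¹ • w ∈ t then E w (g⁻¹ • w) * c (g⁻¹ • w) else 0)) * d w := by
    intro w
    rw [← Finset.sum_mul, ← mat_sum x w t (fun z => E w z * c z)]
    congr 1
    exact Finset.sum_congr rfl fun z _ => by ring
  have h1 : ‖∑ w ∈ s, ∑ z ∈ t, mat x w z * E w z * c z * d w‖ ≤ ∑ w ∈ s, ∑ g ∈ x.coeff.support,
      ‖x.coeff g‖ * (B * (‖if g⁻¹ • w ∈ t then c (g⁻¹ • w) else 0‖ * ‖d w‖)) := by
    refine (norm_sum_le _ _).trans (Finset.sum_le_sum fun w _ => ?_)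
    rw [h0, norm_mul]
    refine (mul_le_mul_of_nonneg_right (norm_sum_le _ _) (norm_nonneg _)).trans ?_
    rw [Finset.sum_mul]
    refine Finset.sum_le_sum fun g hg => ?_
    rw [norm_mul, mul_assoc]
    refine mul_le_mul_of_nonneg_left ?_ (norm_nonneg _)
    rw [← mul_assoc]
    refine mul_le_mul_of_nonneg_right ?_ (norm_nonneg _)
    split_ifs with h
    · rw [norm_mul]
      exact mul_le_mul_of_nonneg_right (hB w g hg) (norm_nonneg _)
    · rw [norm_zero, mul_zero]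
  refine h1.trans ?_
  rw [Finset.sum_comm]
  have h2 : ∀ g ∈ x.coeff.support, ∑ w ∈ s, ‖x.coeff g‖ *
      (B * (‖if g⁻¹ • w ∈ t then c (g⁻¹ • w) else 0‖ * ‖d w‖)) ≤
      ‖x.coeff g‖ * (B * (Real.sqrt (∑ z ∈ t, ‖c z‖ ^ 2) * Real.sqrt (∑ w ∈ s, ‖d w‖ ^ 2))) := by
    intro g _
    rw [← Finset.mul_sum, ← Finset.mul_sum]
    refine mul_le_mul_of_nonneg_left (mul_le_mul_of_nonneg_left ?_ hB0) (norm_nonneg _)
    refine (Real.sum_mul_le_sqrt_mul_sqrt s _ _).trans ?_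
    refine mul_le_mul_of_nonneg_right (Real.sqrt_le_sqrt ?_) (Real.sqrt_nonneg _)
    have h3 : ∑ w ∈ s, ‖if g⁻¹ • w ∈ t then c (g⁻¹ • w) else 0‖ ^ 2 =
        ∑ w ∈ s.filter (fun w => g⁻¹ • w ∈ t), ‖c (g⁻¹ • w)‖ ^ 2 := by
      rw [Finset.sum_filter]
      refine Finset.sum_congr rfl fun w _ => ?_
      split_ifs
      · rfl
      · rw [norm_zero]; norm_num
    rw [h3]
    have h4 : ∑ w ∈ s.filter (fun w => g⁻¹ • w ∈ t), ‖c (g⁻¹ • w)‖ ^ 2 =
        ∑ z ∈ (s.filter (fun w => g⁻¹ • w ∈ t)).image (fun w => g⁻¹ • w), ‖c z‖ ^ 2 := by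
      rw [Finset.sum_image]
      intro a _ b _ hab
      exact MulAction.injective g⁻¹ hab
    rw [h4]
    refine Finset.sum_le_sum_of_subset_of_nonneg ?_ (fun _ _ _ => by positivity)
    intro z hz
    obtain ⟨w, hw, rfl⟩ := Finset.mem_image.1 hz
    exact (Finset.mem_filter.1 hw).2
  refine (Finset.sum_le_sum h2).trans_eq ?_
  rw [← Finset.sum_mul, l1Norm]
  ring

/-- interpolation with weights -/
lemma weight_interp (x : MonoidAlgebra ℂ G) (N0 : ℝ) (hN : ‖integ G Z x‖ ≤ N0) (s t : Finset Z)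
    (r : Z → ℝ) (ε B : ℝ) (hε : 0 < ε) (hε1 : ε < 1)
    (hr : ∀ w, ∀ g ∈ x.coeff.support, |r w - r (g⁻¹ • w)| ≤ ε * B) (c d : Z → ℂ) :
    ‖∑ w ∈ s, ∑ z ∈ t, mat x w z * Complex.exp ((r w - r z : ℝ) : ℂ) * c z * d w‖ ≤
      (N0 ^ (1 - ε) * (Real.exp B * l1Norm x) ^ ε) *
        (Real.sqrt (∑ z ∈ t, ‖c z‖ ^ 2) * Real.sqrt (∑ w ∈ s, ‖d w‖ ^ 2)) := by
  have hN0 : 0 ≤ N0 := (norm_nonneg _).trans hN
  have hl := l1Norm_nonneg x
  set c2 := Real.sqrt (∑ z ∈ t, ‖c z‖ ^ 2) with hc2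
  set d2 := Real.sqrt (∑ w ∈ s, ‖d w‖ ^ 2) with hd2
  have hc20 : 0 ≤ c2 := Real.sqrt_nonneg _
  have hd20 : 0 ≤ d2 := Real.sqrt_nonneg _
  set F : ℂ → ℂ := fun ζ => ∑ w ∈ s, ∑ z ∈ t,
    mat x w z * Complex.exp (ζ * (((r w - r z) / ε : ℝ) : ℂ)) * c z * d w with hF
  have hdiff : Differentiable ℂ F := by
    refine Differentiable.fun_sum fun i _ => Differentiable.fun_sum fun j _ => ?_
    fun_prop
  have hθ : ((ε : ℂ)).re = ε := Complex.ofReal_re _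
  have hz : (ε : ℂ) ∈ Complex.HadamardThreeLines.verticalClosedStrip 0 1 := by
    change ((ε : ℂ)).re ∈ Set.Icc (0 : ℝ) 1
    rw [hθ]
    exact ⟨hε.le, hε1.le⟩
  have hnexp : ∀ (ζ : ℂ) (a : ℝ), ‖Complex.exp (ζ * (a : ℂ))‖ = Real.exp (ζ.re * a) := by
    intro ζ a
    rw [Complex.norm_exp, mul_comm, Complex.re_ofReal_mul, mul_comm]
  have hB : BddAbove ((norm ∘ F) '' Complex.HadamardThreeLines.verticalClosedStrip 0 1) := by
    refine ⟨∑ w ∈ s, ∑ z ∈ t, ‖mat x w z‖ * Real.exp |(r w - r z) / ε| * ‖c z‖ * ‖d w‖, ?_⟩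
    rintro _ ⟨ζ, hζ, rfl⟩
    have hζ' : ζ.re ∈ Set.Icc (0 : ℝ) 1 := hζ
    change ‖F ζ‖ ≤ _
    refine (norm_sum_le _ _).trans (Finset.sum_le_sum fun w _ => ?_)
    refine (norm_sum_le _ _).trans (Finset.sum_le_sum fun z _ => ?_)
    rw [norm_mul, norm_mul, norm_mul, hnexp]
    have e1 : Real.exp (ζ.re * ((r w - r z) / ε)) ≤ Real.exp |(r w - r z) / ε| := by
      refine Real.exp_le_exp.2 ((le_abs_self _).trans ?_)
      rw [abs_mul, abs_of_nonneg hζ'.1]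
      exact mul_le_of_le_one_left (abs_nonneg _) hζ'.2
    gcongr
  have ha : ∀ ζ ∈ Complex.re ⁻¹' {(0 : ℝ)}, ‖F ζ‖ ≤ N0 * (c2 * d2) := by
    intro ζ hζ
    have hζ' : ζ.re = 0 := hζ
    have e1 : F ζ = ∑ w ∈ s, ∑ z ∈ t, mat x w z *
        (Complex.exp (ζ * ((-(r z / ε) : ℝ) : ℂ)) * c z) *
        (Complex.exp (ζ * ((r w / ε : ℝ) : ℂ)) * d w) := by
      simp only [hF]
      refine Finset.sum_congr rfl fun w _ => Finset.sum_congr rfl fun z _ => ?_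
      have e2 : Complex.exp (ζ * (((r w - r z) / ε : ℝ) : ℂ)) =
          Complex.exp (ζ * ((-(r z / ε) : ℝ) : ℂ)) * Complex.exp (ζ * ((r w / ε : ℝ) : ℂ)) := by
        rw [← Complex.exp_add]
        congr 1
        push_cast
        ring
      rw [e2]
      ring
    rw [e1]
    refine (form_two x N0 hN s t _ _).trans_eq ?_
    simp only [norm_mul, hnexp, hζ', zero_mul, Real.exp_zero, one_mul]
    rw [← hc2, ← hd2, mul_assoc]
  have hb : ∀ ζ ∈ Complex.re ⁻¹' {(1 : ℝ)}, ‖F ζ‖ ≤ (Real.exp B * l1Norm x) * (c2 * d2) := by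
    intro ζ hζ
    have hζ' : ζ.re = 1 := hζ
    refine (form_abs x s t (fun w z => Complex.exp (ζ * (((r w - r z) / ε : ℝ) : ℂ)))
      (Real.exp B) (Real.exp_pos _).le ?_ c d).trans_eq ?_
    · intro w g hg
      rw [hnexp, hζ', one_mul]
      refine Real.exp_le_exp.2 ?_
      have h1 := (le_abs_self _).trans (hr w g hg)
      rw [div_le_iff₀ hε]
      linarith
    · rw [← hc2, ← hd2]; ring
  have key := Complex.HadamardThreeLines.norm_le_interp_of_mem_verticalClosedStrip₀₁' F hz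
    hdiff.diffContOnCl hB ha hb
  rw [hθ] at key
  have e3 : F (ε : ℂ) = ∑ w ∈ s, ∑ z ∈ t,
      mat x w z * Complex.exp ((r w - r z : ℝ) : ℂ) * c z * d w := by
    simp only [hF]
    refine Finset.sum_congr rfl fun w _ => Finset.sum_congr rfl fun z _ => ?_
    have e4 : (ε : ℂ) * (((r w - r z) / ε : ℝ) : ℂ) = ((r w - r z : ℝ) : ℂ) := by
      rw [← Complex.ofReal_mul]
      congr 1
      field_simp
    rw [e4]
  rw [e3] at key
  refine key.trans_eq ?_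
  have hcd : 0 ≤ c2 * d2 := mul_nonneg hc20 hd20
  rw [Real.mul_rpow hN0 hcd, Real.mul_rpow (by positivity) hcd]
  have e5 : (c2 * d2) ^ (1 - ε) * (c2 * d2) ^ ε = c2 * d2 := by
    rcases hcd.eq_or_lt with h | h
    · rw [← h, Real.zero_rpow (by linarith), zero_mul]
    · rw [← Real.rpow_add h]; simp
  calc N0 ^ (1 - ε) * (c2 * d2) ^ (1 - ε) * ((Real.exp B * l1Norm x) ^ ε * (c2 * d2) ^ ε) =
      (N0 ^ (1 - ε) * (Real.exp B * l1Norm x) ^ ε) * ((c2 * d2) ^ (1 - ε) * (c2 * d2) ^ ε) := by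
        ring
    _ = _ := by rw [e5]

end

end Pool.Agent.X270.NT
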