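import Pool.Agent.H79.LZ.X270_NT_StmtW
import Pool.Agent.H79.LZ.X270_NT_Weights

set_option autoImplicit false
set_option linter.unusedSectionVars false

open scoped Matrix ENNReal Pointwise InnerProductSpace
open Filter Topology

namespace Pool.Agent.X270.NT.W

open Pool.Agent.H496R3.ZS (Ell IsAmenable integ)
open Pool.Agent.H919R4.ZS (FinRes toRed)
open Pool.Agent.X270.NT.St (BRep EllT)

noncomputable section

variable {G : Type} [Group G] {Z : Type} [MulAction G Z]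

/-- half of the logarithm of the weight -/
def lw (μ : Z → ℝ) (z : Z) : ℝ := Real.log (μ z) / 2

lemma exp_lw_sq {μ : Z → ℝ} (h : ∀ z, 0 < μ z) (z : Z) : Real.exp (lw μ z) ^ 2 = μ z := by
  rw [← Real.exp_nat_mul, lw]
  push_cast
  rw [mul_div_cancel₀ _ (two_ne_zero), Real.exp_log (h z)]

lemma lw_sub_le {μ : Z → ℝ} (h : ∀ z, 0 < μ z) {g : G} {c : ℝ} (z : Z)
    (hc : μ (g • z) ≤ Real.exp c * μ z) : lw μ (g • z) - lw μ z ≤ c / 2 := by
  have h1 := Real.log_le_log (h _) hc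
  rw [Real.log_mul (Real.exp_pos _).ne' (h z).ne', Real.log_exp] at h1
  rw [lw, lw]
  linarith

/-- the twisted translation -/
def wtrans {μ : Z → ℝ} (hpos : ∀ z, 0 < μ z) (hq : ∀ g : G, ∃ C : ℝ, ∀ z, μ (g • z) ≤ C * μ z)
    (g : G) (f : EllT Z 2) : EllT Z 2 :=
  ⟨fun z => ((Real.exp (lw μ z - lw μ (g⁻¹ • z)) : ℝ) : ℂ) * f.1 (g⁻¹ • z), by
    obtain ⟨C, hC⟩ := hq g
    have h1 : Memℓp (fun z => f.1 (g⁻¹ • z)) 2 :=
      St.memlp_comp 2 (by norm_num) (MulAction.toPerm (g⁻¹ : G) : Z ≃ Z) (lp.memℓp f)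
    refine Memℓp.mono' (h1.const_mul ((Real.exp (Real.log |C| / 2) : ℝ) : ℂ)) (fun z => ?_)
    rw [norm_mul, norm_mul, Complex.norm_real, Complex.norm_real,
      Real.norm_of_nonneg (Real.exp_pos _).le, Real.norm_of_nonneg (Real.exp_pos _).le]
    refine mul_le_mul_of_nonneg_right (Real.exp_le_exp.2 ?_) (norm_nonneg _)
    have h2 := hC (g⁻¹ • z)
    rw [smul_inv_smul] at h2
    have hCpos : 0 < C := by
      by_contra hle
      push Not at hle
      have := mul_nonpos_of_nonpos_of_nonneg hle (hpos (g⁻¹ • z)).le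
      linarith [hpos z]
    rw [abs_of_pos hCpos]
    have h3 := Real.log_le_log (hpos z) h2
    rw [Real.log_mul hCpos.ne' (hpos _).ne'] at h3
    rw [lw, lw]
    linarith⟩

lemma wtrans_apply {μ : Z → ℝ} (hpos : ∀ z, 0 < μ z)
    (hq : ∀ g : G, ∃ C : ℝ, ∀ z, μ (g • z) ≤ C * μ z) (g : G) (f : EllT Z 2) (z : Z) :
    (wtrans hpos hq g f).1 z =
      ((Real.exp (lw μ z - lw μ (g⁻¹ • z)) : ℝ) : ℂ) * f.1 (g⁻¹ • z) := rfl

lemma norm_wtrans_le {μ : Z → ℝ} (hpos : ∀ z, 0 < μ z)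
    (hq : ∀ g : G, ∃ C : ℝ, ∀ z, μ (g • z) ≤ C * μ z) (g : G) :
    ∃ D : ℝ, ∀ f : EllT Z 2, ‖wtrans hpos hq g f‖ ≤ D * ‖f‖ := by
  obtain ⟨C, hC⟩ := hq g
  refine ⟨Real.exp (Real.log |C| / 2), fun f => ?_⟩
  have key : ‖wtrans hpos hq g f‖ ≤
      ‖((Real.exp (Real.log |C| / 2) : ℝ) : ℂ) • St.trans 2 g f‖ := by
    refine lp.norm_mono (E := fun _ : Z => ℂ) (p := 2) (by norm_num) (fun z => ?_)
    change ‖((Real.exp (lw μ z - lw μ (g⁻¹ • z)) : ℝ) : ℂ) * f.1 (g⁻¹ • z)‖ ≤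
      ‖((Real.exp (Real.log |C| / 2) : ℝ) : ℂ) * f.1 (g⁻¹ • z)‖
    rw [norm_mul, norm_mul, Complex.norm_real, Complex.norm_real,
      Real.norm_of_nonneg (Real.exp_pos _).le, Real.norm_of_nonneg (Real.exp_pos _).le]
    refine mul_le_mul_of_nonneg_right (Real.exp_le_exp.2 ?_) (norm_nonneg _)
    have h2 := hC (g⁻¹ • z)
    rw [smul_inv_smul] at h2
    have hCpos : 0 < C := by
      by_contra hle
      push Not at hle
      have := mul_nonpos_of_nonpos_of_nonneg hle (hpos (g⁻¹ • z)).le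
      linarith [hpos z]
    rw [abs_of_pos hCpos]
    have h3 := Real.log_le_log (hpos z) h2
    rw [Real.log_mul hCpos.ne' (hpos _).ne'] at h3
    rw [lw, lw]
    linarith
  refine key.trans_eq ?_
  rw [norm_smul, St.norm_trans, Complex.norm_real, Real.norm_of_nonneg (Real.exp_pos _).le]

/-- the weighted representation -/
def wrep {μ : Z → ℝ} (hpos : ∀ z, 0 < μ z)
    (hq : ∀ g : G, ∃ C : ℝ, ∀ z, μ (g • z) ≤ C * μ z) : BRep G (EllT Z 2) where
  op := wtrans hpos hq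
  map_add g v w := by
    refine Subtype.ext (funext fun z => ?_)
    exact mul_add _ _ _
  map_smul g c v := by
    refine Subtype.ext (funext fun z => ?_)
    exact mul_left_comm _ _ _
  bounded g := norm_wtrans_le hpos hq g
  map_one f := by
    refine Subtype.ext (funext fun z => ?_)
    rw [wtrans_apply, inv_one, one_smul, sub_self, Real.exp_zero, Complex.ofReal_one, one_mul]
  map_mul g h f := by
    refine Subtype.ext (funext fun z => ?_)
    rw [wtrans_apply, wtrans_apply, wtrans_apply, mul_inv_rev, mul_smul, ← mul_assoc,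
      ← Complex.ofReal_mul, ← Real.exp_add]
    congr 3
    ring

lemma act_wrep_apply {μ : Z → ℝ} (hpos : ∀ z, 0 < μ z)
    (hq : ∀ g : G, ∃ C : ℝ, ∀ z, μ (g • z) ≤ C * μ z) (x : MonoidAlgebra ℂ G) (f : EllT Z 2)
    (w : Z) : (St.act (wrep hpos hq) x f).1 w = ∑ g ∈ x.coeff.support,
      x.coeff g * (Complex.exp ((lw μ w - lw μ (g⁻¹ • w) : ℝ) : ℂ) * f.1 (g⁻¹ • w)) := by
  have h1 : (St.act (wrep hpos hq) x f).1 w =
      ((∑ g ∈ x.coeff.support, x.coeff g •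
        (show lp (fun _ : Z => ℂ) 2 from wtrans hpos hq g f) : lp (fun _ : Z => ℂ) 2) : Z → ℂ) w :=
    rfl
  rw [h1, lp.coeFn_sum, Finset.sum_apply]
  refine Finset.sum_congr rfl fun g _ => ?_
  rw [← Complex.ofReal_exp]
  rfl

lemma lw_pow {μ : Z → ℝ} {S : Set G} {ε : ℝ} (hμ : SlowWeight S ε μ) (m : ℕ) :
    ∀ g ∈ S ^ m, ∀ z, lw μ (g • z) - lw μ z ≤ ε * (m / 2) := by
  induction m with
  | zero =>
    intro g hg z
    rw [pow_zero, Set.mem_one] at hg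
    rw [hg, one_smul]
    simp
  | succ m ih =>
    intro g hg z
    rw [pow_succ] at hg
    obtain ⟨a, ha, b, hb, rfl⟩ := Set.mem_mul.1 hg
    have h1 := ih a ha (b • z)
    have h2 := lw_sub_le hμ.pos z (hμ.slow b hb z)
    rw [mul_smul]
    push_cast
    linarith

lemma nearTempered_wrep {μ : Z → ℝ} {S : Set G} (hSf : S.Finite) (hS : S⁻¹ = S) {ε : ℝ}
    (hε : 0 < ε) (hε1 : ε < 1) (hμ : SlowWeight S ε μ)
    (h : (∀ z : Z, IsAmenable (MulAction.stabilizer G z)) ∨ St.Thin S ε Z) :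
    St.NearTempered S ε (wrep hμ.pos hμ.quasi) := by
  classical
  refine ⟨1, fun m x hx f => ?_⟩
  rw [St.redNorm_eq', St.l1Norm_eq']
  have hN : ‖integ G Z x‖ ≤ Real.exp (ε * m / 2) * NT.redNorm x := by
    rcases h with h | h
    · exact integ_le_of_amenable (S := S) hε h m x
    · exact integ_le_of_thin hSf hS h m x hx
  have hr : 0 ≤ NT.redNorm x := norm_nonneg _
  have hl := NT.l1Norm_nonneg x
  have hlip : ∀ w, ∀ g ∈ x.coeff.support, |lw μ w - lw μ (g⁻¹ • w)| ≤ ε * ((m : ℝ) / 2) := by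
    intro w g hg
    have hg' : g ∈ S ^ m := hx hg
    have hgi : g⁻¹ ∈ S ^ m := by
      have h4 : g⁻¹ ∈ (S ^ m)⁻¹ := by simpa using hg'
      rwa [← inv_pow, hS] at h4
    rw [abs_le]
    constructor
    · have := lw_pow hμ m _ hgi w
      linarith
    · have := lw_pow hμ m _ hg' (g⁻¹ • w)
      rwa [smul_inv_smul] at this
  set M : ℝ := Real.exp (ε * m) * NT.redNorm x ^ (1 - ε) * NT.l1Norm x ^ ε with hM
  have hM0 : 0 ≤ M := by positivity
  have hMle : (Real.exp (ε * m / 2) * NT.redNorm x) ^ (1 - ε) *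
      (Real.exp ((m : ℝ) / 2) * NT.l1Norm x) ^ ε ≤ M := by
    rw [Real.mul_rpow (Real.exp_pos _).le hr, Real.mul_rpow (Real.exp_pos _).le hl,
      ← Real.exp_mul, ← Real.exp_mul]
    have e1 : Real.exp (ε * m / 2 * (1 - ε)) * Real.exp ((m : ℝ) / 2 * ε) ≤ Real.exp (ε * m) := by
      rw [← Real.exp_add]
      refine Real.exp_le_exp.2 ?_
      have h1 : 0 ≤ ε * m := by positivity
      nlinarith
    calc Real.exp (ε * m / 2 * (1 - ε)) * NT.redNorm x ^ (1 - ε) *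
          (Real.exp ((m : ℝ) / 2 * ε) * NT.l1Norm x ^ ε) =
          (Real.exp (ε * m / 2 * (1 - ε)) * Real.exp ((m : ℝ) / 2 * ε)) *
            (NT.redNorm x ^ (1 - ε) * NT.l1Norm x ^ ε) := by ring
      _ ≤ Real.exp (ε * m) * (NT.redNorm x ^ (1 - ε) * NT.l1Norm x ^ ε) :=
          mul_le_mul_of_nonneg_right e1 (by positivity)
      _ = M := by rw [hM]; ring
  rw [one_mul]
  change ‖St.act (wrep hμ.pos hμ.quasi) x f‖ ≤ M * ‖f‖
  have h2 : (0 : ℝ) < (2 : ℝ≥0∞).toReal := by norm_num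
  have h2' : (2 : ℝ≥0∞).toReal = ((2 : ℕ) : ℝ) := by norm_num
  refine lp.norm_le_of_forall_sum_le (E := fun _ : Z => ℂ) (p := 2) h2 (by positivity) fun s => ?_
  simp only [h2', Real.rpow_natCast]
  set g : Z → ℂ := (St.act (wrep hμ.pos hμ.quasi) x f).1 with hg
  change ∑ w ∈ s, ‖g w‖ ^ 2 ≤ (M * ‖f‖) ^ 2
  set t : Finset Z := (x.coeff.support ×ˢ s).image (fun u => u.1⁻¹ • u.2) with ht
  have hgw : ∀ w ∈ s, g w = ∑ z ∈ t,
      mat x w z * (Complex.exp ((lw μ w - lw μ z : ℝ) : ℂ) * f.1 z) := by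
    intro w hw
    rw [mat_sum x w t (fun z => Complex.exp ((lw μ w - lw μ z : ℝ) : ℂ) * f.1 z), hg,
      act_wrep_apply]
    refine Finset.sum_congr rfl fun k hk => ?_
    rw [if_pos (Finset.mem_image.2 ⟨(k, w), Finset.mem_product.2 ⟨hk, hw⟩, rfl⟩)]
  have hb := weight_interp x _ hN s t (lw μ) ε ((m : ℝ) / 2) hε hε1 hlip (fun z => f.1 z)
    (fun w => starRingEnd ℂ (g w))
  have hsum : ∑ w ∈ s, ∑ z ∈ t, mat x w z * Complex.exp ((lw μ w - lw μ z : ℝ) : ℂ) * f.1 z *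
      starRingEnd ℂ (g w) = ((∑ w ∈ s, ‖g w‖ ^ 2 : ℝ) : ℂ) := by
    rw [Complex.ofReal_sum]
    refine Finset.sum_congr rfl fun w hw => ?_
    rw [← Finset.sum_mul]
    have e1 : ∑ z ∈ t, mat x w z * Complex.exp ((lw μ w - lw μ z : ℝ) : ℂ) * f.1 z = g w := by
      rw [hgw w hw]
      exact Finset.sum_congr rfl fun z _ => by ring
    rw [e1, Complex.mul_conj, Complex.normSq_eq_norm_sq]
  set H : ℝ := ∑ w ∈ s, ‖g w‖ ^ 2 with hH
  set C : ℝ := ∑ z ∈ t, ‖f.1 z‖ ^ 2 with hC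
  have hH0 : 0 ≤ H := Finset.sum_nonneg fun _ _ => by positivity
  have hC0 : 0 ≤ C := Finset.sum_nonneg fun _ _ => by positivity
  have hCf : C ≤ ‖f‖ ^ 2 := by
    have := lp.sum_rpow_le_norm_rpow (E := fun _ : Z => ℂ) (p := 2) h2 f t
    simp only [h2', Real.rpow_natCast] at this
    exact this
  rw [hsum, Complex.norm_real, Real.norm_of_nonneg hH0] at hb
  have hconj : ∑ w ∈ s, ‖(starRingEnd ℂ) (g w)‖ ^ 2 = H := by
    simp only [RCLike.norm_conj]
    rfl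
  rw [hconj] at hb
  have hb' : H ≤ M * (Real.sqrt C * Real.sqrt H) :=
    hb.trans (mul_le_mul_of_nonneg_right hMle (by positivity))
  have h5 : Real.sqrt H ≤ M * Real.sqrt C := by
    rcases hH0.eq_or_lt with h0 | h0
    · rw [← h0, Real.sqrt_zero]; positivity
    · have h6 : 0 < Real.sqrt H := Real.sqrt_pos.2 h0
      refine le_of_mul_le_mul_right ?_ h6
      rw [Real.mul_self_sqrt hH0]
      linarith [hb']
  calc H = Real.sqrt H ^ 2 := (Real.sq_sqrt hH0).symm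
    _ ≤ (M * Real.sqrt C) ^ 2 := pow_le_pow_left₀ (Real.sqrt_nonneg _) h5 2
    _ = M ^ 2 * C := by rw [mul_pow, Real.sq_sqrt hC0]
    _ ≤ M ^ 2 * ‖f‖ ^ 2 := by gcongr
    _ = (M * ‖f‖) ^ 2 := by ring

/-- evaluation at a point -/
def ev (z : Z) : EllT Z 2 →+ ℂ where
  toFun f := f.1 z
  map_zero' := rfl
  map_add' _ _ := rfl

/-- from square summable tuples for the weight to tuples in `ℓ²` -/
def toE {μ : Z → ℝ} (hpos : ∀ z, 0 < μ z) {m : ℕ} (v : Fin m → Z → ℂ) (hv : Sq μ v) :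
    Fin m → EllT Z 2 := fun j => ⟨fun z => ((Real.exp (lw μ z) : ℝ) : ℂ) * v j z, by
  refine memℓp_gen ?_
  refine (hv j).congr fun z => ?_
  rw [norm_mul, Complex.norm_real, Real.norm_of_nonneg (Real.exp_pos _).le]
  have h2 : (2 : ℝ≥0∞).toReal = ((2 : ℕ) : ℝ) := by norm_num
  rw [h2, Real.rpow_natCast, mul_pow, exp_lw_sq hpos, mul_comm]⟩

/-- back -/
def fromE (μ : Z → ℝ) {m : ℕ} (u : Fin m → EllT Z 2) : Fin m → Z → ℂ :=
  fun j z => ((Real.exp (-lw μ z) : ℝ) : ℂ) * (u j).1 z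

lemma sq_fromE {μ : Z → ℝ} (hpos : ∀ z, 0 < μ z) {m : ℕ} (u : Fin m → EllT Z 2) :
    Sq μ (fromE μ u) := by
  intro j
  have h2 : (2 : ℝ≥0∞).toReal = ((2 : ℕ) : ℝ) := by norm_num
  have h1 := (lp.memℓp (E := fun _ : Z => ℂ) (p := 2) (u j)).summable (by norm_num)
  refine h1.congr fun z => ?_
  rw [h2, Real.rpow_natCast]
  change ‖(u j).1 z‖ ^ 2 = ‖((Real.exp (-lw μ z) : ℝ) : ℂ) * (u j).1 z‖ ^ 2 * μ z
  rw [norm_mul, Complex.norm_real, Real.norm_of_nonneg (Real.exp_pos _).le, mul_pow,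
    ← exp_lw_sq hpos z]
  have e : Real.exp (-lw μ z) ^ 2 * Real.exp (lw μ z) ^ 2 = 1 := by
    rw [← mul_pow, ← Real.exp_add, neg_add_cancel, Real.exp_zero, one_pow]
  calc ‖(u j).1 z‖ ^ 2 = (Real.exp (-lw μ z) ^ 2 * Real.exp (lw μ z) ^ 2) * ‖(u j).1 z‖ ^ 2 := by
        rw [e, one_mul]
    _ = _ := by ring

lemma fromE_toE {μ : Z → ℝ} (hpos : ∀ z, 0 < μ z) {m : ℕ} (v : Fin m → Z → ℂ) (hv : Sq μ v) :
    fromE μ (toE hpos v hv) = v := by
  funext j z
  change ((Real.exp (-lw μ z) : ℝ) : ℂ) * (((Real.exp (lw μ z) : ℝ) : ℂ) * v j z) = v j z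
  rw [← mul_assoc, ← Complex.ofReal_mul, ← Real.exp_add, neg_add_cancel, Real.exp_zero,
    Complex.ofReal_one, one_mul]

lemma fromE_injective {μ : Z → ℝ} {m : ℕ} {u u' : Fin m → EllT Z 2}
    (h : fromE μ u = fromE μ u') : u = u' := by
  funext j
  refine Subtype.ext (funext fun z => ?_)
  have h1 := congrFun (congrFun h j) z
  change ((Real.exp (-lw μ z) : ℝ) : ℂ) * (u j).1 z =
    ((Real.exp (-lw μ z) : ℝ) : ℂ) * (u' j).1 z at h1
  exact mul_left_cancel₀ (by exact_mod_cast (Real.exp_pos _).ne') h1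

variable (X : FinRes G)

lemma fromE_cobd {μ : Z → ℝ} (hpos : ∀ z, 0 < μ z)
    (hq : ∀ g : G, ∃ C : ℝ, ∀ z, μ (g • z) ≤ C * μ z) (i : ℕ) (u : Fin (X.n i) → EllT Z 2) :
    fromE μ (St.cobd X (wrep hpos hq) i u) = cobd X i (fromE μ u) := by
  funext k z
  have h1 : (St.cobd X (wrep hpos hq) i u k).1 z = ∑ j, ∑ g ∈ (X.d i k j).coeff.support,
      (X.d i k j).coeff g • (((Real.exp (lw μ z - lw μ (g⁻¹ • z)) : ℝ) : ℂ) *
        (u j).1 (g⁻¹ • z)) := by
    change ev z (∑ j, St.actL (wrep hpos hq) (X.d i k j) (u j)) = _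
    rw [map_sum]
    refine Finset.sum_congr rfl fun j _ => ?_
    rw [St.actL, map_sum]
    refine Finset.sum_congr rfl fun g _ => ?_
    rw [map_zsmul]
    rfl
  change ((Real.exp (-lw μ z) : ℝ) : ℂ) * (St.cobd X (wrep hpos hq) i u k).1 z =
    ∑ j, ∑ g ∈ (X.d i k j).coeff.support, (X.d i k j).coeff g •
      (((Real.exp (-lw μ (g⁻¹ • z)) : ℝ) : ℂ) * (u j).1 (g⁻¹ • z))
  rw [h1, Finset.mul_sum]
  refine Finset.sum_congr rfl fun j _ => ?_
  rw [Finset.mul_sum]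
  refine Finset.sum_congr rfl fun g _ => ?_
  rw [mul_smul_comm, ← mul_assoc, ← Complex.ofReal_mul, ← Real.exp_add]
  congr 5
  ring

lemma fromE_bd {μ : Z → ℝ} (hpos : ∀ z, 0 < μ z)
    (hq : ∀ g : G, ∃ C : ℝ, ∀ z, μ (g • z) ≤ C * μ z) (i : ℕ)
    (u : Fin (X.n (i + 1)) → EllT Z 2) :
    fromE μ (St.bd X (wrep hpos hq) i u) = bd X i (fromE μ u) := by
  funext k z
  have h1 : (St.bd X (wrep hpos hq) i u k).1 z = ∑ j, ∑ g ∈ (X.d i j k).coeff.support,
      (X.d i j k).coeff g • (((Real.exp (lw μ z - lw μ (g • z)) : ℝ) : ℂ) *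
        (u j).1 (g • z)) := by
    change ev z (∑ j, St.actR (wrep hpos hq) (X.d i j k) (u j)) = _
    rw [map_sum]
    refine Finset.sum_congr rfl fun j _ => ?_
    rw [St.actR, map_sum]
    refine Finset.sum_congr rfl fun g _ => ?_
    rw [map_zsmul]
    change (X.d i j k).coeff g • (((Real.exp (lw μ z - lw μ (g⁻¹⁻¹ • z)) : ℝ) : ℂ) *
        (u j).1 (g⁻¹⁻¹ • z)) = _
    rw [inv_inv]
  change ((Real.exp (-lw μ z) : ℝ) : ℂ) * (St.bd X (wrep hpos hq) i u k).1 z =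
    ∑ j, ∑ g ∈ (X.d i j k).coeff.support, (X.d i j k).coeff g •
      (((Real.exp (-lw μ (g • z)) : ℝ) : ℂ) * (u j).1 (g • z))
  rw [h1, Finset.mul_sum]
  refine Finset.sum_congr rfl fun j _ => ?_
  rw [Finset.mul_sum]
  refine Finset.sum_congr rfl fun g _ => ?_
  rw [mul_smul_comm, ← mul_assoc, ← Complex.ofReal_mul, ← Real.exp_add]
  congr 5
  ring

lemma fromE_zero {μ : Z → ℝ} {m : ℕ} : fromE μ (0 : Fin m → EllT Z 2) = 0 := by
  funext j z
  exact mul_zero _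

/-- vanishing with weights -/
lemma not_weighted {μ : Z → ℝ} (hpos : ∀ z, 0 < μ z)
    (hq : ∀ g : G, ∃ C : ℝ, ∀ z, μ (g • z) ≤ C * μ z) (i : ℕ)
    (h1 : ¬ St.CohNonzero X (wrep hpos hq) i) (h2 : ¬ St.HomNonzero X (wrep hpos hq) i) :
    ¬ CohNonzero X μ i ∧ ¬ HomNonzero X μ i := by
  constructor
  · intro hc
    apply h1
    cases i with
    | zero =>
      obtain ⟨v, hv, hz, h0⟩ := hc
      refine ⟨toE hpos v hv, ?_, ?_⟩
      · apply fromE_injective (μ := μ)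
        rw [fromE_cobd, fromE_toE, hz, fromE_zero]
      · intro h3
        apply h0
        rw [← fromE_toE hpos v hv, h3, fromE_zero]
    | succ i =>
      obtain ⟨v, hv, hz, h0⟩ := hc
      refine ⟨toE hpos v hv, ?_, ?_⟩
      · apply fromE_injective (μ := μ)
        rw [fromE_cobd, fromE_toE, hz, fromE_zero]
      · intro w h3
        apply h0 (fromE μ w) (sq_fromE hpos w)
        rw [← fromE_cobd X hpos hq, h3, fromE_toE]
  · intro hc
    apply h2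
    cases i with
    | zero =>
      obtain ⟨v, hv, h0⟩ := hc
      refine ⟨toE hpos v hv, ?_⟩
      intro w h3
      apply h0 (fromE μ w) (sq_fromE hpos w)
      rw [← fromE_bd X hpos hq, h3, fromE_toE]
    | succ i =>
      obtain ⟨v, hv, hz, h0⟩ := hc
      refine ⟨toE hpos v hv, ?_, ?_⟩
      · apply fromE_injective (μ := μ)
        rw [fromE_bd, fromE_toE, hz, fromE_zero]
      · intro w h3
        apply h0 (fromE μ w) (sq_fromE hpos w)
        rw [← fromE_bd X hpos hq, h3, fromE_toE]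

/-- robust vanishing for weights -/
theorem robustW (p : ℕ) (h : ∀ j ≤ p, Subsingleton (X.homology (toRed G) j)) :
    ∃ (S : Set G) (ε : ℝ), S.Finite ∧ 0 < ε ∧ ¬ SeenByWeight X p S ε := by
  obtain ⟨S, ε, hSf, hS, hε, hε1, hrob⟩ := robust X p h
  refine ⟨S, ε, hSf, hε, ?_⟩
  rintro ⟨Z, _, μ, hμ, hZ, i, hi, hnt⟩
  have h3 := nearTempered_wrep hSf hS hε hε1 hμ hZ
  obtain ⟨h1, h2⟩ := hrob (EllT Z 2) (wrep hμ.pos hμ.quasi).hom (St.nearTempered_hom S ε _ h3) i hi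
  obtain ⟨h4, h5⟩ := not_weighted X hμ.pos hμ.quasi i (St.not_coh X _ i h1) (St.not_hom X _ i h2)
  rcases hnt with hnt | hnt
  · exact h4 hnt
  · exact h5 hnt

theorem finalW (p : ℕ) (h : ∀ (S : Set G) (ε : ℝ), S.Finite → 0 < ε → SeenByWeight X p S ε) :
    ∃ i ≤ p, Nontrivial (X.homology (toRed G) i) := by
  by_contra hcon
  push Not at hcon
  obtain ⟨S, ε, hSf, hε, hrob⟩ := robustW X p (fun j hj => hcon j hj)
  exact hrob (h S ε hSf hε)

end

end Pool.Agent.X270.NT.W
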