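import Pool.Agent.H79.LZ.X270_NT_FinalW

set_option autoImplicit false
set_option linter.unusedSectionVars false

open scoped Matrix ENNReal Pointwise
open Filter Topology

namespace Pool.Agent.X270.NT.W

open Pool.Agent.H496R3.ZS (IsAmenable)
open Pool.Agent.H919R4.ZS (FinRes toRed eps eps_add eps_sub eps_smul eps_zsmul eps_single eps_d
  exists_lift augm augm_single d_mul_d)

noncomputable section

variable {G : Type} [Group G] {Z : Type} [MulAction G Z]

/-- translations on functions -/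
def fRho (G Z : Type) [Group G] [MulAction G Z] : G →* Module.End ℤ (Z → ℂ) where
  toFun g :=
    { toFun := fun f z => f (g⁻¹ • z)
      map_add' := fun _ _ => rfl
      map_smul' := fun _ _ => rfl }
  map_one' := by
    refine LinearMap.ext fun f => funext fun z => ?_
    change f ((1 : G)⁻¹ • z) = f z
    rw [inv_one, one_smul]
  map_mul' g h := by
    refine LinearMap.ext fun f => funext fun z => ?_
    change f ((g * h)⁻¹ • z) = f (h⁻¹ • g⁻¹ • z)
    rw [mul_inv_rev, mul_smul]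

/-- the action of the integral group ring on functions -/
def fR (G Z : Type) [Group G] [MulAction G Z] :
    MonoidAlgebra ℤ G →ₐ[ℤ] Module.End ℤ (Z → ℂ) := MonoidAlgebra.lift ℤ _ G (fRho G Z)

lemma fR_apply (a : MonoidAlgebra ℤ G) (f : Z → ℂ) (z : Z) : fR G Z a f z = actF a f z := by
  rw [fR, MonoidAlgebra.lift_apply, Finsupp.sum, actF, LinearMap.sum_apply, Finset.sum_apply]
  rfl

lemma fR_single (g : G) (f : Z → ℂ) (z : Z) :
    fR G Z (MonoidAlgebra.single g 1) f z = f (g⁻¹ • z) := by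
  rw [fR, MonoidAlgebra.lift_single, one_smul]
  rfl

variable (X : FinRes G)

lemma cobd_fR (i : ℕ) (v : Fin (X.n i) → Z → ℂ) (k : Fin (X.n (i + 1))) :
    cobd X i v k = ∑ j, fR G Z (X.d i k j) (v j) := by
  funext z
  rw [Finset.sum_apply]
  exact Finset.sum_congr rfl fun j _ => (fR_apply _ _ _).symm

lemma cobd_cobd (i : ℕ) (v : Fin (X.n i) → Z → ℂ) : cobd X (i + 1) (cobd X i v) = 0 := by
  funext k
  rw [cobd_fR]
  have h1 : ∀ j, fR G Z (X.d (i + 1) k j) (cobd X i v j) =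
      ∑ l, fR G Z (X.d (i + 1) k j * X.d i j l) (v l) := by
    intro j
    rw [cobd_fR, map_sum]
    refine Finset.sum_congr rfl fun l _ => ?_
    rw [map_mul]
    rfl
  rw [Finset.sum_congr rfl fun j _ => h1 j, Finset.sum_comm]
  refine Finset.sum_eq_zero fun l _ => ?_
  have h2 : ∑ j, fR G Z (X.d (i + 1) k j * X.d i j l) (v l) =
      fR G Z ((X.d (i + 1) * X.d i) k l) (v l) := by
    rw [Matrix.mul_apply, map_sum, LinearMap.sum_apply]
  rw [h2, d_mul_d, Matrix.zero_apply, map_zero]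
  rfl

lemma cobd_sub (i : ℕ) (v w : Fin (X.n i) → Z → ℂ) :
    cobd X i (v - w) = cobd X i v - cobd X i w := by
  funext k
  rw [Pi.sub_apply, cobd_fR, cobd_fR, cobd_fR, ← Finset.sum_sub_distrib]
  exact Finset.sum_congr rfl fun j _ => map_sub _ _ _

/-- the pairing of chains and tuples of functions -/
def pr {n : ℕ} (y : Fin n → MonoidAlgebra ℤ G) (u : Fin n → Z → ℂ) : Z → ℂ :=
  ∑ j, fR G Z (y j) (u j)

lemma pr_sub {n : ℕ} (x y : Fin n → MonoidAlgebra ℤ G) (u : Fin n → Z → ℂ) :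
    pr (x - y) u = pr x u - pr y u := by
  simp only [pr, Pi.sub_apply, map_sub, LinearMap.sub_apply, Finset.sum_sub_distrib]

lemma pr_zsmul {n : ℕ} (c : ℤ) (y : Fin n → MonoidAlgebra ℤ G) (u : Fin n → Z → ℂ) :
    pr (c • y) u = c • pr y u := by
  simp only [pr, Pi.smul_apply, map_zsmul, LinearMap.smul_apply, Finset.smul_sum]

lemma pr_smul {n : ℕ} (a : MonoidAlgebra ℤ G) (y : Fin n → MonoidAlgebra ℤ G)
    (u : Fin n → Z → ℂ) : pr (a • y) u = fR G Z a (pr y u) := by
  rw [pr, pr, map_sum]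
  refine Finset.sum_congr rfl fun j _ => ?_
  rw [Pi.smul_apply, smul_eq_mul, map_mul]
  rfl

lemma pr_single {n : ℕ} (j : Fin n) (u : Fin n → Z → ℂ) :
    pr (Pi.single j (1 : MonoidAlgebra ℤ G)) u = u j := by
  rw [pr, Finset.sum_eq_single j]
  · rw [Pi.single_eq_same, map_one]; rfl
  · intro l _ hl
    rw [Pi.single_eq_of_ne hl, map_zero]; rfl
  · intro h; exact absurd (Finset.mem_univ j) h

lemma pr_vecMul (x : Fin (X.n 1) → MonoidAlgebra ℤ G) (u : Fin (X.n 0) → Z → ℂ) :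
    pr (x ᵥ* X.d 0) u = pr x (cobd X 0 u) := by
  simp only [pr]
  have h1 : ∀ k, fR G Z (x k) (cobd X 0 u k) = ∑ j, fR G Z (x k * X.d 0 k j) (u j) := by
    intro k
    rw [cobd_fR, map_sum]
    refine Finset.sum_congr rfl fun l _ => ?_
    rw [map_mul]
    rfl
  rw [Finset.sum_congr rfl fun k _ => h1 k, Finset.sum_comm]
  refine Finset.sum_congr rfl fun j _ => ?_
  rw [Matrix.vecMul, dotProduct, map_sum, LinearMap.sum_apply]

/-- cocycles of degree zero -/
lemma ker_cobd (u : Fin (X.n 0) → Z → ℂ) (hu : cobd X 0 u = 0) :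
    ∃ κ : Z → ℂ, (∀ (g : G) z, κ (g • z) = κ z) ∧ ∀ j z, u j z = (X.aug j : ℂ) * κ z := by
  obtain ⟨x0, hx0⟩ := X.surj
  change eps X x0 = 1 at hx0
  have h0 : ∀ y, eps X y = 0 → pr y u = 0 := by
    intro y hy
    obtain ⟨x, rfl⟩ := exists_lift X y hy
    rw [pr_vecMul, hu]
    funext z
    simp only [pr, Pi.zero_apply, map_zero, Finset.sum_const_zero]
  refine ⟨pr x0 u, ?_, ?_⟩
  · intro g z
    have h1 := h0 ((MonoidAlgebra.single g⁻¹ 1 : MonoidAlgebra ℤ G) • x0 - x0) (by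
      rw [eps_sub, eps_smul, augm_single, hx0]; norm_num)
    rw [pr_sub, pr_smul, sub_eq_zero] at h1
    have h2 := congrFun h1 z
    rw [fR_single, inv_inv] at h2
    exact h2
  · intro j z
    have h1 := h0 (Pi.single j 1 - X.aug j • x0) (by
      rw [eps_sub, eps_single, eps_zsmul, hx0]; ring)
    rw [pr_sub, pr_single, pr_zsmul, sub_eq_zero] at h1
    have h2 := congrFun h1 z
    rw [h2, Pi.smul_apply, zsmul_eq_mul]

lemma augm_eq_sum (a : MonoidAlgebra ℤ G) : augm G a = ∑ g ∈ a.coeff.support, a.coeff g := by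
  change MonoidAlgebra.lift ℤ ℤ G 1 a = _
  rw [MonoidAlgebra.lift_apply, Finsupp.sum]
  refine Finset.sum_congr rfl fun g _ => ?_
  simp

/-- square summable functions -/
def SqF (μ : Z → ℝ) (f : Z → ℂ) : Prop := Summable fun z => ‖f z‖ ^ 2 * μ z

lemma SqF.add {μ : Z → ℝ} (hμ : ∀ z, 0 < μ z) {f g : Z → ℂ} (hf : SqF μ f) (hg : SqF μ g) :
    SqF μ (fun z => f z + g z) := by
  refine Summable.of_nonneg_of_le (fun z => mul_nonneg (by positivity) (hμ z).le) (fun z => ?_)
    ((hf.mul_left 2).add (hg.mul_left 2))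
  have h1 := norm_add_le (f z) (g z)
  have h2 : ‖f z + g z‖ ^ 2 ≤ 2 * ‖f z‖ ^ 2 + 2 * ‖g z‖ ^ 2 := by
    have h3 : ‖f z + g z‖ ^ 2 ≤ (‖f z‖ + ‖g z‖) ^ 2 := pow_le_pow_left₀ (norm_nonneg _) h1 2
    nlinarith [sq_nonneg (‖f z‖ - ‖g z‖)]
  have h4 := mul_le_mul_of_nonneg_right h2 (hμ z).le
  linarith

lemma SqF.sum {μ : Z → ℝ} (hμ : ∀ z, 0 < μ z) {ι : Type} (s : Finset ι) (f : ι → Z → ℂ)
    (h : ∀ i ∈ s, SqF μ (f i)) : SqF μ (fun z => ∑ i ∈ s, f i z) := by
  classical
  induction s using Finset.induction_on with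
  | empty =>
    simp only [Finset.sum_empty, SqF, norm_zero]
    simp
  | insert a s ha ih =>
    simp only [Finset.sum_insert ha]
    exact SqF.add hμ (h a (Finset.mem_insert_self _ _))
      (ih fun i hi => h i (Finset.mem_insert_of_mem hi))

lemma SqF.smul {μ : Z → ℝ} (c : ℂ) {f : Z → ℂ} (hf : SqF μ f) : SqF μ (fun z => c * f z) := by
  refine (hf.mul_left (‖c‖ ^ 2)).congr fun z => ?_
  rw [norm_mul, mul_pow, mul_assoc]

open scoped Classical in
/-- the function of a set -/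
def ind (A : Set Z) (z : Z) : ℂ := if z ∈ A then 1 else 0

/-- **separation** gives cohomology of degree one -/
theorem coh_of_separates {μ : Z → ℝ} (hμ : ∀ z, 0 < μ z) (htr : MulAction.IsPretransitive G Z)
    (A : Set Z) (hA : Separates G μ A) : CohNonzero X μ 1 := by
  classical
  set w0 : Fin (X.n 0) → Z → ℂ := fun j z => (X.aug j : ℂ) * ind A z with hw0
  have hgrad : ∀ g : G, SqF μ (fun z => ind A (g⁻¹ • z) - ind A z) := by
    intro g
    refine (hA.boundary g).congr fun z => ?_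
    by_cases h1 : g⁻¹ • z ∈ A <;> by_cases h2 : z ∈ A <;>
      simp [ind, h1, h2]
  have hv : ∀ k z, cobd X 0 w0 k z = ∑ j, ∑ g ∈ (X.d 0 k j).coeff.support,
      (((X.d 0 k j).coeff g : ℂ) * (X.aug j : ℂ)) * (ind A (g⁻¹ • z) - ind A z) := by
    intro k z
    have e1 : cobd X 0 w0 k z = ∑ j, ∑ g ∈ (X.d 0 k j).coeff.support,
        (((X.d 0 k j).coeff g : ℂ) * (X.aug j : ℂ)) * ind A (g⁻¹ • z) := by
      refine Finset.sum_congr rfl fun j _ => Finset.sum_congr rfl fun g _ => ?_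
      rw [zsmul_eq_mul, mul_assoc]
    have e2 : ∑ j, ∑ g ∈ (X.d 0 k j).coeff.support,
        (((X.d 0 k j).coeff g : ℂ) * (X.aug j : ℂ)) * ind A z = 0 := by
      have e3 : eps X (X.d 0 k) = 0 := by
        have : (Pi.single k 1 : Fin (X.n 1) → MonoidAlgebra ℤ G) ᵥ* X.d 0 = X.d 0 k := by
          funext j; simp [Matrix.vecMul, dotProduct, Pi.single_apply]
        rw [← this, eps_d]
      have e4 : ∑ j, ∑ g ∈ (X.d 0 k j).coeff.support, (X.d 0 k j).coeff g * X.aug j = 0 := by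
        rw [← e3, eps]
        refine Finset.sum_congr rfl fun j _ => ?_
        rw [augm_eq_sum, Finset.sum_mul]
      have e5 : ((∑ j, ∑ g ∈ (X.d 0 k j).coeff.support, (X.d 0 k j).coeff g * X.aug j : ℤ) : ℂ) *
          ind A z = 0 := by rw [e4, Int.cast_zero, zero_mul]
      rw [← e5]
      push_cast
      simp only [Finset.sum_mul]
    rw [e1, ← sub_zero (∑ j, ∑ g ∈ (X.d 0 k j).coeff.support,
        (((X.d 0 k j).coeff g : ℂ) * (X.aug j : ℂ)) * ind A (g⁻¹ • z)), ← e2,
      ← Finset.sum_sub_distrib]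
    refine Finset.sum_congr rfl fun j _ => ?_
    rw [← Finset.sum_sub_distrib]
    exact Finset.sum_congr rfl fun g _ => by ring
  refine ⟨cobd X 0 w0, ?_, cobd_cobd X 0 w0, ?_⟩
  · intro k
    have h1 : SqF μ (fun z => ∑ j, ∑ g ∈ (X.d 0 k j).coeff.support,
        (((X.d 0 k j).coeff g : ℂ) * (X.aug j : ℂ)) * (ind A (g⁻¹ • z) - ind A z)) :=
      SqF.sum hμ _ _ fun j _ => SqF.sum hμ _ _ fun g _ => (hgrad g).smul _
    refine Summable.congr h1 fun z => ?_
    rw [hv]
  · intro w hw hcon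
    have h1 : cobd X 0 (w0 - w) = 0 := by rw [cobd_sub, hcon, sub_self]
    obtain ⟨κ, hκ, hκ'⟩ := ker_cobd X (w0 - w) h1
    -- a base point
    have hne : Nonempty Z := by
      by_contra hem
      rw [not_nonempty_iff] at hem
      exact hA.inside (Summable.of_finite)
    obtain ⟨z0⟩ := hne
    have hconst : ∀ z, κ z = κ z0 := by
      intro z
      obtain ⟨g, rfl⟩ := htr.exists_smul_eq z0 z
      exact hκ g z0
    -- a good index
    obtain ⟨j0, hj0⟩ : ∃ j0, X.aug j0 ≠ 0 := by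
      by_contra hall
      push Not at hall
      obtain ⟨x0, hx0⟩ := X.surj
      rw [Finset.sum_eq_zero (fun j _ => by rw [hall j, mul_zero])] at hx0
      exact zero_ne_one hx0
    have hj0' : (X.aug j0 : ℂ) ≠ 0 := by exact_mod_cast hj0
    have h2 : ∀ z, ind A z - κ z0 = (X.aug j0 : ℂ)⁻¹ * w j0 z := by
      intro z
      have h3 := hκ' j0 z
      rw [hconst] at h3
      change (X.aug j0 : ℂ) * ind A z - w j0 z = (X.aug j0 : ℂ) * κ z0 at h3
      field_simp
      linear_combination h3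
    have h4 : SqF μ (fun z => ind A z - κ z0) := by
      have := SqF.smul (μ := μ) (X.aug j0 : ℂ)⁻¹ (hw j0)
      exact this.congr fun z => by
        change ‖(X.aug j0 : ℂ)⁻¹ * w j0 z‖ ^ 2 * μ z = ‖ind A z - κ z0‖ ^ 2 * μ z
        rw [h2]
    by_cases hc : κ z0 = 1
    · apply hA.outside
      refine Summable.of_nonneg_of_le (fun z => Set.indicator_nonneg (fun z _ => (hμ z).le) z)
        (fun z => ?_) h4
      by_cases hz : z ∈ A
      · rw [Set.indicator_of_notMem (by simpa using hz)]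
        exact mul_nonneg (by positivity) (hμ z).le
      · rw [Set.indicator_of_mem (by simpa using hz), hc]
        simp [ind, hz]
    · apply hA.inside
      have h5 : 0 < ‖1 - κ z0‖ ^ 2 := by
        have : (1 : ℂ) - κ z0 ≠ 0 := sub_ne_zero.2 (Ne.symm hc)
        positivity
      refine Summable.of_nonneg_of_le (fun z => Set.indicator_nonneg (fun z _ => (hμ z).le) z)
        (fun z => ?_) (h4.mul_left (‖1 - κ z0‖ ^ 2)⁻¹)
      by_cases hz : z ∈ A
      · rw [Set.indicator_of_mem hz]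
        simp only [ind, hz, if_true]
        rw [← mul_assoc, inv_mul_cancel₀ h5.ne', one_mul]
      · rw [Set.indicator_of_notMem hz]
        have := (hμ z).le
        positivity

theorem finalSep (p : ℕ)
    (h : (∀ (S : Set G) (ε : ℝ), S.Finite → 0 < ε → SeenByWeight X p S ε) ∨
      (1 ≤ p ∧ ∀ (S : Set G) (ε : ℝ), S.Finite → 0 < ε → Separated G S ε)) :
    ∃ i ≤ p, Nontrivial (X.homology (toRed G) i) := by
  refine finalW X p fun S ε hS hε => ?_
  rcases h with h | ⟨hp, h⟩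
  · exact h S ε hS hε
  · obtain ⟨Z, _, μ, htr, hμ, hZ, A, hA⟩ := h S ε hS hε
    exact ⟨Z, _, μ, hμ, hZ, 1, hp, Or.inl (coh_of_separates X hμ.pos htr A hA)⟩

end

end Pool.Agent.X270.NT.W
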