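import Pool.Agent.H79.LZ.X270_NT_Stmt

/-!
Unitary representations of a group whose coefficients are close to being square summable.
-/

set_option autoImplicit false

open scoped Pointwise

namespace Pool.Agent.X270.NT.U

open Pool.Agent.H919R4.ZS (FinRes)
open Pool.Agent.X270.NT.St (BRep CohNonzero HomNonzero)

section

variable {G H : Type} [Group G] [NormedAddCommGroup H] [InnerProductSpace ℂ H]

/-- The representation is unitary. -/
def Unitary (π : BRep G H) : Prop := ∀ g v, ‖π.op g v‖ = ‖v‖

/-- The coefficients have exponent at most `ε` with respect to `S`: the vectors `v` for which there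
is a constant `K` with `∑_{g ∈ F} |⟨π(g) v, v⟩|² ≤ K e^(ε m)` for all `m` and all finite subsets
`F` of `S^m = {s_1 ⋯ s_m | s_i ∈ S}` span a dense subspace of `H`. -/
def SlowCoefficients (S : Set G) (ε : ℝ) (π : BRep G H) : Prop :=
  Dense (Submodule.span ℂ {v : H | ∃ K : ℝ, ∀ (m : ℕ) (F : Finset G), (F : Set G) ⊆ S ^ m →
    ∑ g ∈ F, ‖inner ℂ (π.op g v) v‖ ^ 2 ≤ K * Real.exp (ε * m)} : Set H)

/-- The vectors `v` with `∑_g |⟨π(g) v, v⟩|^q < ∞` span a dense subspace of `H`. -/
def LqCoefficients (q : ℝ) (π : BRep G H) : Prop :=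
  Dense (Submodule.span ℂ {v : H | Summable fun g : G => ‖inner ℂ (π.op g v) v‖ ^ q} : Set H)

end

variable {G : Type} [Group G] (X : FinRes G)

/-- There is a unitary representation of `G` on a Hilbert space `H`, with coefficients of exponent
at most `ε` with respect to `S`, with `H^i(G; H) ≠ 0` or `H_i(G; H) ≠ 0` for some `i ≤ p`. -/
def SeenByUnitary (p : ℕ) (S : Set G) (ε : ℝ) : Prop :=
  ∃ (H : Type) (_ : NormedAddCommGroup H) (_ : InnerProductSpace ℂ H) (_ : CompleteSpace H)
    (π : BRep G H), Unitary π ∧ SlowCoefficients S ε π ∧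
    ∃ i ≤ p, CohNonzero X π i ∨ HomNonzero X π i

/-- There is a unitary representation of `G` on a Hilbert space `H`, with a total set of vectors
with diagonal coefficients in `ℓ^q(G)`, with `H^i(G; H) ≠ 0` or `H_i(G; H) ≠ 0` for some
`i ≤ p`. -/
def SeenByLq (p : ℕ) (q : ℝ) : Prop :=
  ∃ (H : Type) (_ : NormedAddCommGroup H) (_ : InnerProductSpace ℂ H) (_ : CompleteSpace H)
    (π : BRep G H), Unitary π ∧ LqCoefficients q π ∧
    ∃ i ≤ p, CohNonzero X π i ∨ HomNonzero X π i

end Pool.Agent.X270.NT.U
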